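import Pool.Agent.Lib.MP_17a322_nt.VJ.J9

/-!
The branch lemma for the product of an elliptic curve and the multiplicative group.

`P`, `P'` are points of the elliptic curve `W`, `a`, `a'` elements of the multiplicative group (only
`a` matters here). The curve `g` passes through `(x(P), a)`. Along the branch the second coordinate
`x 1` has constant coefficient `a` and size at most `cst v 2 * v a` at every place.
-/

universe u

namespace Pool.Agent.Lib.MP_17a322_nt.VS

open MvPolynomial Height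
open Pool.Agent.Lib.MP_17a322_nt.VJ

/-- The factor `min(1, |a|_v)` of the radius. -/
noncomputable def BR_mu {K : Type u} [Field K] (v : AbsoluteValue K ℝ) (a : K) : ℝ :=
  (max 1 (v a⁻¹))⁻¹

theorem BR_mu_pos {K : Type u} [Field K] (v : AbsoluteValue K ℝ) (a : K) : 0 < BR_mu v a :=
  inv_pos.mpr (lt_of_lt_of_le one_pos (le_max_left _ _))

theorem BR_mu_le_one {K : Type u} [Field K] (v : AbsoluteValue K ℝ) (a : K) : BR_mu v a ≤ 1 :=
  inv_le_one_of_one_le₀ (le_max_left _ _)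

theorem BR_mu_le {K : Type u} [Field K] (v : AbsoluteValue K ℝ) {a : K} (ha : a ≠ 0) :
    BR_mu v a ≤ v a := by
  have h : 0 < v a := v.pos ha
  unfold BR_mu
  rw [inv_le_comm₀ (lt_of_lt_of_le one_pos (le_max_left _ _)) h, ← map_inv₀]
  exact le_max_right _ _

theorem BR_gs_mu {K : Type u} [Field K] [NumberField K] (a : K) :
    FS (fun v : AbsoluteValue K ℝ => Real.log (BR_mu v a)) ∧
    - gs (fun v : AbsoluteValue K ℝ => Real.log (BR_mu v a)) = logHeight₁ a := by
  have e : (fun v : AbsoluteValue K ℝ => Real.log (BR_mu v a)) =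
      fun v => (-1 : ℝ) * Real.log (max 1 (v a⁻¹)) := by
    ext v
    unfold BR_mu
    rw [Real.log_inv]
    ring
  rw [e]
  refine ⟨FS_const_mul _ (FS_log_max _), ?_⟩
  rw [gs_const_mul, gs_log_max, logHeight₁_inv]
  ring

set_option maxHeartbeats 4000000 in
/-- The branch of the curve `g` through `(x(P), a)`, the two columns for the x-coordinates of
`P' - 2 ^ e P`, and their sizes. -/
theorem branchG {K : Type u} [Field K] [NumberField K] [DecidableEq K]
    (W : WeierstrassCurve K) [W.IsElliptic] (D : ℕ) :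
    ∃ (C : ℝ) (N : ℕ), 0 ≤ C ∧ ∀ (g : MvPolynomial (Fin 2) K)
      (P P' : W.toAffine.Point) (a : K) (e : ℕ),
      (∀ t, g.degreeOf t ≤ D) → P ≠ 0 → P' ≠ 0 → a ≠ 0 →
      eval ![P.xRep 0, a] g = 0 → eval ![P.xRep 0, a] (pderiv 1 g) ≠ 0 →
      ph W P.xRep ≠ 0 →
      ∃ (r : AbsoluteValue K ℝ → ℝ) (x : Fin 2 → PowerSeries K)
        (ξ : Fin 2 → Fin 2 → PowerSeries K) (γ : K),
        x 0 = PowerSeries.X + PowerSeries.C (P.xRep 0) ∧
        PowerSeries.constantCoeff (x 0) = P.xRep 0 ∧ PowerSeries.constantCoeff (x 1) = a ∧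
        aeval x g = 0 ∧
        (∀ k, S3 W (mu W e ![x 0, 1]) ![PowerSeries.C (P'.xRep 0), 1] (ξ k) = 0) ∧
        ξ 0 0 * ξ 1 1 = ξ 0 1 * ξ 1 0 ∧
        γ ≠ 0 ∧
        (∀ k i, PowerSeries.constantCoeff (ξ k i) =
          γ * ((P' + 2 ^ e • P).xRep k * (P' - 2 ^ e • P).xRep i)) ∧
        (∀ v, Pl v → 0 < r v ∧ r v ≤ 1) ∧ FS (fun v => Real.log (r v)) ∧
        - gs (fun v => Real.log (r v)) ≤ C * (1 + nh g + (logHeight P.xRep + logHeight₁ a)) ∧
        (∀ v, Pl v → ∀ n, PN v (r v) n (x 0) ≤ cst v 2 * max 1 (v (P.xRep 0))) ∧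
        (∀ v, Pl v → ∀ n, PN v (r v) n (x 1) ≤ cst v 2 * v a) ∧
        (∀ v, Pl v → ∀ n k i, PN v (r v) n (ξ k i) ≤
          max 1 (v ((2 : K)⁻¹)) * (lc W v ^ (N * 4 ^ e) *
            (vn v P.xRep ^ (2 * 4 ^ e) * vn v P'.xRep ^ 2))) := by
  classical
  set c2 : ℝ := gs (fun v : AbsoluteValue K ℝ => Real.log (cst v 2)) with hc2
  set l0 : ℝ := gs (fun v : AbsoluteValue K ℝ => Real.log (lc W v)) with hl0
  have c2n : 0 ≤ c2 := gs_nonneg fun v _ => Real.log_nonneg (one_le_cst v (by norm_num))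
  have l0n : 0 ≤ l0 := gs_nonneg fun v _ => Real.log_nonneg (one_le_lc W v)
  refine ⟨2 + (4 * D * c2 + 2 * c2 + 16 * l0) + (2 * D + 5), 100, by positivity, ?_⟩
  intro g P P' a e hD hP hP' ha hg0 hg1 hph
  set α : Fin 2 → K := ![P.xRep 0, a] with hα
  have h0 : coeff 0 (tr α g) = 0 := by rw [coeff_zero_tr]; exact hg0
  have h1 : coeff (Finsupp.single 1 1) (tr α g) ≠ 0 := by rw [J9_coeff_single_tr]; exact hg1
  have hg : g ≠ 0 := by
    rintro rfl
    exact hg1 (by simp)
  obtain ⟨U, hU, hGU⟩ := J6_implicit (tr α g) h0 h1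
  obtain ⟨ξ, γ, hγ, hS3, hprop, hval, hsize⟩ :=
    J9_branch_one W P P' e hP hP' hph PowerSeries.X PowerSeries.constantCoeff_X
  have hxr : P.xRep ≠ 0 := xRep_ne_zero P
  set lam : AbsoluteValue K ℝ → ℝ := fun v => J9_lam v W P.xRep * BR_mu v a with hlam
  have lp : ∀ v, 0 < J9_lam v W P.xRep := fun v => J9_lam_pos v W hxr hph
  have ll : ∀ v, J9_lam v W P.xRep ≤ 1 := fun v => J9_lam_le v W hxr
  have lam0 : ∀ v, 0 < lam v := fun v => mul_pos (lp v) (BR_mu_pos v a)
  have lam1 : ∀ v, lam v ≤ 1 := fun v => mul_le_one₀ (ll v) (BR_mu_pos v a).le (BR_mu_le_one v a)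
  have laml : ∀ v, lam v ≤ J9_lam v W P.xRep := fun v =>
    mul_le_of_le_one_right (lp v).le (BR_mu_le_one v a)
  have lama : ∀ v, lam v ≤ v a := fun v =>
    (mul_le_of_le_one_left (BR_mu_pos v a).le (ll v)).trans (BR_mu_le v ha)
  have hρ := fun v : AbsoluteValue K ℝ => J7_rho v (tr α g) h1
  have rho0 : ∀ v : AbsoluteValue K ℝ, 0 < J9_rho v (tr α g) := fun v => pow_pos (hρ v).1 2
  have rho1 : ∀ v : AbsoluteValue K ℝ, J9_rho v (tr α g) ≤ 1 := fun v =>
    pow_le_one₀ (hρ v).1.le (hρ v).2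
  have hr0 : ∀ v, 0 < lam v * J9_rho v (tr α g) := fun v => mul_pos (lam0 v) (rho0 v)
  have hXsize : ∀ v n, PN v (lam v * J9_rho v (tr α g)) n (PowerSeries.X : PowerSeries K) ≤
      lam v := by
    intro v n
    refine (PN_X_le v (hr0 v).le n).trans ?_
    exact mul_le_of_le_one_right (lam0 v).le (rho1 v)
  have hUsize : ∀ v n, PN v (lam v * J9_rho v (tr α g)) n U ≤ lam v := by
    intro v n
    refine (PN_scale v (rho0 v).le (lam0 v).le (lam1 v) n U hU).trans ?_
    apply mul_le_of_le_one_right (lam0 v).le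
    exact (J7_size v (tr α g) h0 h1 U hU hGU (rho0 v).le le_rfl n).trans (hρ v).2
  have hgl := J9_gs_lam W hxr hph
  have hgm := BR_gs_mu (K := K) a
  have hgr := J9_gs_rho g α h1
  have elog : (fun v : AbsoluteValue K ℝ => Real.log (lam v * J9_rho v (tr α g))) =
      fun v => (Real.log (J9_lam v W P.xRep) + Real.log (BR_mu v a)) +
        Real.log (J9_rho v (tr α g)) := by
    ext v
    rw [Real.log_mul (lam0 v).ne' (rho0 v).ne', Real.log_mul (lp v).ne' (BR_mu_pos v a).ne']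
  refine ⟨fun v => lam v * J9_rho v (tr α g),
    fun t => PowerSeries.C (α t) + (![PowerSeries.X, U] : Fin 2 → PowerSeries K) t, ξ, γ,
    ?_, ?_, ?_, ?_, hS3, hprop, hγ, hval, ?_, ?_, ?_, ?_, ?_, ?_⟩
  · rw [add_comm]
    rfl
  · simp [hα]
  · simp [hα, hU]
  · have e1 := aeval_tr (A := PowerSeries K) α g ![PowerSeries.X, U]
    rw [hGU] at e1
    rw [e1]
    congr 2
    ext1 t
    rw [PowerSeries.algebraMap_apply, Algebra.algebraMap_self_apply, add_comm]
  · intro v _
    exact ⟨hr0 v, mul_le_one₀ (lam1 v) (rho0 v).le (rho1 v)⟩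
  · rw [elog]
    exact FS_add (FS_add hgl.1 hgm.1) hgr.1
  · rw [elog, gs_add (FS_add hgl.1 hgm.1) hgr.1, gs_add hgl.1 hgm.1]
    have b0 := hgl.2
    have b1 := hgm.2
    have b2 := hgr.2
    have b3 := J9_nh_tr g hg D hD α
    rw [Fin.sum_univ_two] at b3
    have e0 : logHeight₁ (α 0) = logHeight P.xRep := (logHeight_xRep hP).symm
    have e1 : logHeight₁ (α 1) = logHeight₁ a := rfl
    rw [e0, e1, ← hc2] at b3
    rw [← hc2, ← hl0] at b0
    set x0 : ℝ := logHeight P.xRep with hx0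
    set x1 : ℝ := logHeight₁ a with hx1
    have x0n : 0 ≤ x0 := logHeight_xRep_nonneg P
    have x1n : 0 ≤ x1 := zero_le_logHeight₁ a
    have ng : 0 ≤ nh g := nh_nonneg hg
    have Dn : (0 : ℝ) ≤ D := Nat.cast_nonneg D
    set A : ℝ := 4 * D * c2 + 2 * c2 + 16 * l0 with hA
    have An : 0 ≤ A := by positivity
    have step : -(gs (fun v => Real.log (J9_lam v W P.xRep)) +
        gs (fun v => Real.log (BR_mu v a)) +
        gs (fun v => Real.log (J9_rho v (tr α g)))) ≤
          2 * nh g + A + (2 * D + 5) * (x0 + x1) := by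
      rw [hA]
      nlinarith
    refine step.trans ?_
    have hs : 0 ≤ x0 + x1 := add_nonneg x0n x1n
    nlinarith [mul_nonneg An ng, mul_nonneg An hs, mul_nonneg Dn ng, mul_nonneg Dn hs]
  · intro v _ n
    apply SN.add_le_cst (SN_PN v (hr0 v).le n)
    · rw [PN_C]
      exact le_max_right _ _
    · exact ((hXsize v n).trans (lam1 v)).trans (le_max_left _ _)
  · intro v _ n
    apply SN.add_le_cst (SN_PN v (hr0 v).le n)
    · rw [PN_C]
      exact le_refl _
    · exact (hUsize v n).trans (lama v)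
  · intro v _ n k i
    apply hsize v _ (lam v) (hr0 v).le (lam0 v).le (lam1 v) (fun n => hXsize v n)
    have h2 : 0 < lc W v ^ 16 * vn v P.xRep ^ 4 :=
      mul_pos (pow_pos (lt_of_lt_of_le one_pos (one_le_lc W v)) _)
        (pow_pos (vn_pos v hxr) _)
    have h3 := laml v
    unfold J9_lam at h3
    rwa [le_div_iff₀ h2] at h3

end Pool.Agent.Lib.MP_17a322_nt.VS
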