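import Pool.Agent.Lib.MP_17a322_nt.VJ.DefsG
import Pool.Agent.Lib.MP_17a322_nt.VJ.J0
import Pool.Agent.Lib.MP_17a322_nt.VJ.C3

/-!
Definitions for Vojta's inequality on `E × 𝔾_m` (project VS; index `0` is the elliptic curve `E`, given
by `W`, index `1` is the multiplicative group with coordinate `u`).
-/

namespace Pool.Agent.Lib.MP_17a322_nt.VS

open MvPolynomial Height
open Pool.Agent.Lib.MP_17a322_nt.RO Pool.Agent.Lib.MP_17a322_nt.VJ

/-- The height of `(P, u)`: the height of `x(P)` plus the height of `1 / (1 - u)`. -/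
noncomputable def HS {K : Type*} [Field K] [Height.AdmissibleAbsValues K] {W : WeierstrassCurve K}
    (P : W.toAffine.Point) (u : K) : ℝ :=
  logHeight P.xRep + logHeight₁ (1 - u)⁻¹

/-- The height with respect to the origin: `h(x) + h(z) - h([1 : x : z])`, `z = 1 / (1 - u)`. -/
noncomputable def hS {K : Type*} [Field K] [Height.AdmissibleAbsValues K] {W : WeierstrassCurve K}
    (P : W.toAffine.Point) (u : K) : ℝ :=
  HS P u - logHeight ![1, P.xRep 0, (1 - u)⁻¹]

/-- The counting function of the zeros and poles of `u` outside of `S`. -/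
noncomputable def cS {K : Type*} [Field K] [Height.AdmissibleAbsValues K]
    (S : Set (AbsoluteValue K ℝ)) (u : K) : ℝ :=
  open Classical in
  ∑ᶠ v : AdmissibleAbsValues.nonarchAbsVal (K := K), if v.val ∈ S then 0 else |Real.log (v.val u)|

/-- The value at `U = 1` of the coefficient of the highest power of `X` in `g(X, U)`. -/
noncomputable def tl {K : Type*} [Field K] (g : MvPolynomial (Fin 2) K) : K :=
  eval (fun _ => 1) (lcv 0 g)

/-- The forms of the multiplication by `2 ^ j` on `E` (`t = 0`) and the vector `(1, r ^ (4 ^ j))`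
(`t = 1`). -/
noncomputable def mv {K : Type*} [Field K] (W : WeierstrassCurve K) {A : Type*} [CommRing A]
    [Algebra K A] (t : Fin 2) (j : ℕ) (r : A) : Fin 2 → A :=
  if t = 0 then mu W j ![r, 1] else ![1, r ^ 4 ^ j]

/-- The coefficient of the unknown with exponents `e` in the equation `(i, c, q)`. -/
noncomputable def MS {K : Type*} [Field K] (W : WeierstrassCurve K) (n J : ℕ) {m : ℕ}
    (j : Fin m → ℕ) (i : Fin m) (c : Fin 2 → Bool) (q e : AA m → ℕ) : K :=
  open Classical in
  if ∀ i', i' ≠ i → ∀ t, q (some i', t) = e (some i', t) then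
    ∏ t, (Polynomial.X ^ e (none, t) * TT (c t) (8 * n * 4 ^ (J - j i)) (q (some i, t))
      (e (some i, t)) (mv W t (j i) (Polynomial.X : Polynomial K))).coeff (q (none, t))
  else 0

/-- The linear equations. -/
def CS {K : Type*} [Field K] (W : WeierstrassCurve K) (n J : ℕ) {m : ℕ} (j : Fin m → ℕ)
    (x : (AA m → ℕ) → K) : Prop :=
  ∀ (i : Fin m) (c : Fin 2 → Bool), ∀ q ∈ box (DQ n J j i),
    ∑ e ∈ box (fun a => DG n J j a + 1), MS W n J j i c q e * x e = 0

/-- The weight of an exponent. -/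
def wt (n J : ℕ) {m : ℕ} (j : Fin m → ℕ) (e : AA m → ℕ) : ℕ :=
  e (none, 1) + ∑ i, 4 ^ j i * (8 * n * 4 ^ (J - j i) - e (some i, 1))

/-- The substitution `x_1 = 1`. -/
noncomputable def s1 {K : Type*} [CommRing K] {m : ℕ} (F : MvPolynomial (AA m) K) :
    MvPolynomial (AA m) K :=
  aeval (fun a : AA m => if a = (none, 1) then 1 else X a) F

/-- The coordinates `x(P_i)`, `u_i`. -/
noncomputable def cx {K : Type*} [Field K] {W : WeierstrassCurve K} {m : ℕ}
    (P : Fin m → W.toAffine.Point) (u : Fin m → K) : Fin m × Fin 2 → K :=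
  fun a => if a.2 = 0 then (P a.1).xRep 0 else u a.1

/-- The relation `X (i, 1) = X (0, 1) ^ (4 ^ e) * X (2, 1)` of the multiplicative group. -/
noncomputable def relG (K : Type*) [Field K] (e : ℕ) (i : Fin 4) : MvPolynomial (Fin 4 × Fin 2) K :=
  X (i, 1) - X (0, 1) ^ 4 ^ e * X (2, 1)

/-- The relation of the elliptic curve between `X (0, 0)`, `X (i, 0)`, `X (2, 0)` (`relI` of VJ). -/
noncomputable def relE {K : Type*} [Field K] (W : WeierstrassCurve K) (e : ℕ) (c : Bool)
    (i : Fin 4) : MvPolynomial (Fin 4 × Fin 2) K :=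
  relI (fun _ => W) e (fun _ => c) i 0

/-- The relation `Q` of (9.1) between `X (0, 0)`, `X (2, 0)`, `X (2, 1)`. -/
noncomputable def QS {K : Type*} [Field K] (W : WeierstrassCurve K) (e : ℕ) (c : Bool)
    (g g' : MvPolynomial (Fin 2) K) : MvPolynomial (Fin 4 × Fin 2) K :=
  El (0, 1) (gX 0 g) (El (3, 1) (relG K e 3) (El (3, 0) (relE W e c 3) (gX 3 g')))

/-- The eliminant `N` of (9.3): a polynomial in `X (0, 0)` and `X (1, 0)`. -/
noncomputable def NS {K : Type*} [Field K] (W : WeierstrassCurve K) (e : ℕ) (c : Bool)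
    (g g' : MvPolynomial (Fin 2) K) (F : MvPolynomial (Fin 4 × Fin 2) K) :
    MvPolynomial (Fin 4 × Fin 2) K :=
  El (1, 1) (gX 1 g') (El (0, 1) (gX 0 g) (El (2, 1) (relG K e 1) (El (2, 0) (relE W e c 1) F)))

end Pool.Agent.Lib.MP_17a322_nt.VS
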