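import Pool.Agent.Lib.MP_17a322_nt.VS.Defs
import Pool.Agent.Lib.MP_17a322_nt.VJ.G10

/-!
Specialisation of the generic point.
-/

universe u

namespace Pool.Agent.Lib.MP_17a322_nt.VS

open MvPolynomial Height
open Pool.Agent.Lib.MP_17a322_nt.RO Pool.Agent.Lib.MP_17a322_nt.VJ

/-- Specialisation. Proof: the same as VJ/G10 `specialise`; for `t = 1` the element `ξ (i, 1)` is the
constant `p (i, 1)` (in `O`, difference `0`). -/
theorem specialise {K : Type u} [Field K] (W : WeierstrassCurve K) {m : ℕ}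
    (j : Fin m → ℕ) (p : Fin m × Fin 2 → K) (Ψ : MvPolynomial (AA m) K) (k l : ℕ)
    (hkl : ∀ e ∈ Ψ.support, e (none, 0) < k ∨ (e (none, 0) = k ∧ e (none, 1) ≤ l))
    {F' : Type u} [Field F'] [Algebra K F'] (X : Fin 2 → F') (hX : AlgebraicIndependent K X)
    (ξ : Fin m × Fin 2 → F')
    (hα : ∀ i, S3 W (mu W (j i) ![X 0, 1]) ![algebraMap K F' (p (i, 0)), 1] ![ξ (i, 0), 1] = 0)
    (hα' : ∀ i, ξ (i, 1) = algebraMap K F' (p (i, 1)))
    (hΨ : aeval (pt X ξ) Ψ = 0) : eval p (tp k l Ψ) = 0 := by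
  classical
  have hA : ∀ e ∈ Ψ.support, e (none, 1) ≤ Ψ.degreeOf (none, 1) :=
    fun e he => degreeOf_le_iff.1 le_rfl e he
  generalize Ψ.degreeOf (none, 1) = A at hA
  obtain ⟨O, hK, hy, hu⟩ := exists_valuationSubring X hX A
  have h0 : X 0 ≠ 0 := hX.ne_zero 0
  have h1 : X 1 ≠ 0 := hX.ne_zero 1
  have hmul : ∀ a b : F', a ∈ O.nonunits → b ∈ O → a * b ∈ O.nonunits := by
    intro a b ha hb
    rw [ValuationSubring.mem_nonunits_iff_exists_mem_maximalIdeal] at ha ⊢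
    obtain ⟨ha1, ha2⟩ := ha
    exact ⟨O.mul_mem _ _ ha1 hb, Ideal.mul_mem_right (⟨b, hb⟩ : O) _ ha2⟩
  have hyO : (X 1)⁻¹ ∈ O := O.nonunits_subset hy
  have hx0 : (X 0)⁻¹ ∈ O.nonunits := by
    have h2 : (X 0)⁻¹ = ((X 0)⁻¹ * X 1 ^ A) * ((X 1)⁻¹) ^ A := by
      rw [mul_assoc, ← mul_pow, mul_inv_cancel₀ h1, one_pow, mul_one]
    rw [h2]
    exact hmul _ _ hu (pow_mem hyO A)
  have hξ : ∀ a, ξ a ∈ O ∧ ξ a - algebraMap K F' (p a) ∈ O.nonunits := by
    rintro ⟨i, t⟩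
    fin_cases t
    · exact root_near W O hK (j i) (X 0) (hX.ne_zero 0) hx0 (p (i, 0)) (ξ (i, 0)) (hα i)
    · change ξ (i, 1) ∈ O ∧ ξ (i, 1) - algebraMap K F' (p (i, 1)) ∈ O.nonunits
      rw [hα' i, sub_self]
      refine ⟨hK _, ?_⟩
      rw [ValuationSubring.mem_nonunits_iff_exists_mem_maximalIdeal]
      exact ⟨O.zero_mem, Ideal.zero_mem _⟩
  have hprodO : ∀ e : AA m →₀ ℕ, ∏ a : Fin m × Fin 2, ξ a ^ e (some a.1, a.2) ∈ O := by
    intro e
    exact prod_mem fun a _ => pow_mem (hξ a).1 _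
  have hprod : ∀ e : AA m →₀ ℕ, ∏ a : Fin m × Fin 2, algebraMap K F' (p a) ^ e (some a.1, a.2) -
      ∏ a : Fin m × Fin 2, ξ a ^ e (some a.1, a.2) ∈ O.nonunits := by
    intro e
    set P : O := ∏ a : Fin m × Fin 2, (⟨algebraMap K F' (p a), hK (p a)⟩ : O) ^ e (some a.1, a.2)
      with hP
    set Q : O := ∏ a : Fin m × Fin 2, (⟨ξ a, (hξ a).1⟩ : O) ^ e (some a.1, a.2) with hQ
    have e1 : (P : F') = ∏ a : Fin m × Fin 2, algebraMap K F' (p a) ^ e (some a.1, a.2) := by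
      rw [hP]
      push_cast
      rfl
    have e2 : (Q : F') = ∏ a : Fin m × Fin 2, ξ a ^ e (some a.1, a.2) := by
      rw [hQ]
      push_cast
      rfl
    rw [← e1, ← e2]
    have e3 : P - Q ∈ IsLocalRing.maximalIdeal O := by
      rw [← IsLocalRing.residue_eq_zero_iff, map_sub, sub_eq_zero, hP, hQ, map_prod, map_prod]
      apply Finset.prod_congr rfl
      intro a _
      rw [map_pow, map_pow]
      congr 1
      symm
      rw [← sub_eq_zero, ← map_sub, IsLocalRing.residue_eq_zero_iff,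
        ← ValuationSubring.coe_mem_nonunits_iff]
      exact (hξ a).2
    exact ValuationSubring.coe_mem_nonunits_iff.2 e3
  set τ : (AA m →₀ ℕ) → F' := fun e =>
    X 0 ^ e (none, 0) * X 1 ^ e (none, 1) * ((X 0)⁻¹ ^ k * (X 1)⁻¹ ^ l) with hτ
  have hτ1 : ∀ e : AA m →₀ ℕ, e (none, 0) = k → e (none, 1) = l → τ e = 1 := by
    intro e a b
    rw [hτ]
    dsimp only
    rw [a, b, inv_pow, inv_pow]
    field_simp
  have hτ2 : ∀ e ∈ Ψ.support, ¬ (e (none, 0) = k ∧ e (none, 1) = l) → τ e ∈ O.nonunits := by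
    intro e he hne
    rcases hkl e he with h2 | ⟨h2, h3⟩
    · obtain ⟨d, hd⟩ : ∃ d, k = e (none, 0) + (d + 1) := ⟨k - e (none, 0) - 1, by omega⟩
      obtain ⟨q, hq⟩ : ∃ q, A = e (none, 1) + q := ⟨A - e (none, 1), by
        have := hA e he
        omega⟩
      have h4 : τ e = ((X 0)⁻¹ * X 1 ^ A) * (((X 0)⁻¹ * X 1 ^ A) ^ d *
          ((X 1)⁻¹ ^ (A * d) * ((X 1)⁻¹ ^ q * (X 1)⁻¹ ^ l))) := by
        rw [hτ]
        dsimp only
        rw [hd]
        have e1 : (X 0)⁻¹ ^ (e (none, 0) + (d + 1)) = (X 0)⁻¹ ^ e (none, 0) * ((X 0)⁻¹ ^ d * (X 0)⁻¹) := by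
          rw [pow_add, pow_succ]
        have e2 : X 0 ^ e (none, 0) * (X 0)⁻¹ ^ e (none, 0) = 1 := by
          rw [← mul_pow, mul_inv_cancel₀ h0, one_pow]
        have e3 : (X 1 ^ A) ^ d * (X 1)⁻¹ ^ (A * d) = 1 := by
          rw [← pow_mul, ← mul_pow, mul_inv_cancel₀ h1, one_pow]
        have e4 : X 1 ^ A * (X 1)⁻¹ ^ q = X 1 ^ e (none, 1) := by
          rw [hq, pow_add, mul_assoc, ← mul_pow, mul_inv_cancel₀ h1, one_pow, mul_one]
        rw [e1, mul_pow, ← e4]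
        linear_combination (X 1 ^ A * (X 1)⁻¹ ^ q * (X 0)⁻¹ ^ d * (X 0)⁻¹ * (X 1)⁻¹ ^ l) * e2 -
          ((X 0)⁻¹ * X 1 ^ A * (X 0)⁻¹ ^ d * (X 1)⁻¹ ^ q * (X 1)⁻¹ ^ l) * e3
      rw [h4]
      apply hmul _ _ hu
      exact mul_mem (pow_mem (O.nonunits_subset hu) _) (mul_mem (pow_mem hyO _)
        (mul_mem (pow_mem hyO _) (pow_mem hyO _)))
    · have h5 : e (none, 1) ≠ l := fun h => hne ⟨h2, h⟩
      obtain ⟨d, hd⟩ : ∃ d, l = e (none, 1) + (d + 1) := ⟨l - e (none, 1) - 1, by omega⟩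
      have h4 : τ e = (X 1)⁻¹ * (X 1)⁻¹ ^ d := by
        rw [hτ]
        dsimp only
        rw [h2, hd]
        have e1 : X 0 ^ k * (X 0)⁻¹ ^ k = 1 := by
          rw [← mul_pow, mul_inv_cancel₀ h0, one_pow]
        have e2 : X 1 ^ e (none, 1) * (X 1)⁻¹ ^ e (none, 1) = 1 := by
          rw [← mul_pow, mul_inv_cancel₀ h1, one_pow]
        have e3 : (X 1)⁻¹ ^ (e (none, 1) + (d + 1)) = (X 1)⁻¹ ^ e (none, 1) * ((X 1)⁻¹ ^ d * (X 1)⁻¹) := by
          rw [pow_add, pow_succ]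
        rw [e3]
        linear_combination (X 1 ^ e (none, 1) * (X 1)⁻¹ ^ e (none, 1) * (X 1)⁻¹ ^ d * (X 1)⁻¹) * e1 +
          ((X 1)⁻¹ ^ d * (X 1)⁻¹) * e2
      rw [h4]
      exact hmul _ _ hy (pow_mem hyO _)
  have hrel : ∑ e ∈ Ψ.support, algebraMap K F' (coeff e Ψ) *
      (τ e * ∏ a : Fin m × Fin 2, ξ a ^ e (some a.1, a.2)) = 0 := by
    have h2 : ∑ e ∈ Ψ.support, algebraMap K F' (coeff e Ψ) *
        (τ e * ∏ a : Fin m × Fin 2, ξ a ^ e (some a.1, a.2)) =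
        aeval (pt X ξ) Ψ * ((X 0)⁻¹ ^ k * (X 1)⁻¹ ^ l) := by
      rw [aeval_def, eval₂_eq', Finset.sum_mul]
      apply Finset.sum_congr rfl
      intro e _
      have h3 : ∏ a : AA m, pt X ξ a ^ e a = X 0 ^ e (none, 0) * X 1 ^ e (none, 1) *
          ∏ a : Fin m × Fin 2, ξ a ^ e (some a.1, a.2) := by
        rw [Fintype.prod_prod_type, Fintype.prod_option, Fin.prod_univ_two, Fintype.prod_prod_type]
        rfl
      rw [h3, hτ]
      dsimp only
      ring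
    rw [h2, hΨ, zero_mul]
  have hev : algebraMap K F' (eval p (tp k l Ψ)) = ∑ e ∈ Ψ.support, (algebraMap K F' (coeff e Ψ) *
      (if e (none, 0) = k ∧ e (none, 1) = l then
        ∏ a : Fin m × Fin 2, algebraMap K F' (p a) ^ e (some a.1, a.2) else 0)) := by
    rw [tp, map_sum, map_sum]
    apply Finset.sum_congr rfl
    intro e _
    split_ifs with hc
    · rw [eval_monomial, map_mul, Finsupp.prod_fintype _ _ (fun i => pow_zero _), map_prod]
      congr 1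
      apply Finset.prod_congr rfl
      intro a _
      rw [map_pow]
      rfl
    · rw [map_zero, map_zero, mul_zero]
  have hnon : algebraMap K F' (eval p (tp k l Ψ)) ∈ O.nonunits := by
    rw [← sub_zero (algebraMap K F' (eval p (tp k l Ψ))), ← hrel, hev, ← Finset.sum_sub_distrib]
    apply sum_mem
    intro e he
    rw [← mul_sub, mul_comm]
    apply hmul _ _ _ (hK _)
    split_ifs with hc
    · rw [hτ1 e hc.1 hc.2, one_mul]
      exact hprod e
    · rw [zero_sub]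
      exact neg_mem (hmul _ _ (hτ2 e he hc) (hprodO e))
  rw [ValuationSubring.mem_nonunits_iff_or] at hnon
  rcases hnon with h2 | h2
  · exact (map_eq_zero_iff _ (algebraMap K F').injective).1 h2
  · exfalso
    apply h2
    rw [← map_inv₀]
    exact hK _

end Pool.Agent.Lib.MP_17a322_nt.VS
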