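import Pool.Agent.Lib.MP_17a322_nt.VS.Defs
import Pool.Agent.Lib.MP_17a322_nt.VJ.G3c
import Pool.Agent.Lib.MP_17a322_nt.VJ.G4
import Pool.Agent.Lib.MP_17a322_nt.VJ.G9
import Pool.Agent.Lib.MP_17a322_nt.VJ.G11

/-!
# The substitution `x_1 = 1` in the auxiliary polynomial
-/

universe u

namespace Pool.Agent.Lib.MP_17a322_nt.VS

open MvPolynomial Height
open Pool.Agent.Lib.MP_17a322_nt.RO Pool.Agent.Lib.MP_17a322_nt.VJ

/-- The value of `pe` for `x_1 = 1`: `pe` and `s1` are algebra homomorphisms, compare the values at the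
variables (`MvPolynomial.induction_on`, or `aeval` of `aeval`). -/
theorem pe_s1 {K A : Type*} [CommRing K] [CommRing A] [Algebra K A] {m : ℕ} (X₀ r : A)
    (F : MvPolynomial (AA m) K) : pe ![X₀, r] (s1 F) = pe ![X₀, 1] F := by
  have h1 : (aeval (fun a : AA m => a.1.elim (C ((![X₀, r] : Fin 2 → A) a.2)) fun i => X (i, a.2)) :
        MvPolynomial (AA m) K →ₐ[K] MvPolynomial (Fin m × Fin 2) A).comp
      (aeval (fun a : AA m => if a = (none, 1) then 1 else X a) :
        MvPolynomial (AA m) K →ₐ[K] MvPolynomial (AA m) K) =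
      aeval (fun a : AA m => a.1.elim (C ((![X₀, 1] : Fin 2 → A) a.2)) fun i => X (i, a.2)) := by
    refine MvPolynomial.algHom_ext fun a => ?_
    rw [AlgHom.comp_apply, aeval_X, aeval_X]
    rcases a with ⟨i | i, t⟩
    · fin_cases t
      · have h0 : ((none, 0) : AA m) ≠ (none, 1) := by simp
        show aeval _ (if ((none, 0) : AA m) = (none, 1) then 1 else X ((none, 0) : AA m)) = _
        rw [if_neg h0, aeval_X]
        rfl
      · show aeval _ (if ((none, 1) : AA m) = (none, 1) then 1 else X ((none, 1) : AA m)) = _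
        rw [if_pos rfl, map_one]
        show (1 : MvPolynomial (Fin m × Fin 2) A) = C 1
        rw [C_1]
    · have h0 : ((some i, t) : AA m) ≠ (none, 1) := by simp
      show aeval _ (if ((some i, t) : AA m) = (none, 1) then 1 else X ((some i, t) : AA m)) = _
      rw [if_neg h0, aeval_X]
      rfl
  show _ = aeval (fun a : AA m => a.1.elim (C ((![X₀, 1] : Fin 2 → A) a.2)) fun i => X (i, a.2)) F
  rw [← h1]
  rfl

/-- From `pe_s1` and VJ/G9 `aeval_tF`. -/
theorem aeval_tF_s1 {K A : Type*} [CommRing K] [CommRing A] [Algebra K A] {m : ℕ} (X₀ r : A)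
    (F : MvPolynomial (AA m) K) (s : Fin m × Fin 2 →₀ ℕ) (ξ : Fin m × Fin 2 → A) :
    aeval (pt ![X₀, r] ξ) (tF s (s1 F)) = aeval (pt ![X₀, 1] ξ) (tF s F) := by
  rw [aeval_tF, aeval_tF, pe_s1]

theorem VSG11_monomial {K : Type*} [CommRing K] {m : ℕ} (e : AA m →₀ ℕ) (c : K) :
    s1 (monomial e c) = monomial (e.erase (none, 1)) c := by
  classical
  unfold s1
  rw [aeval_monomial, monomial_eq (s := e.erase (none, 1)),
    ← Finsupp.mul_prod_erase' e (none, 1)
      (fun (a : AA m) (k : ℕ) => (if a = (none, 1) then (1 : MvPolynomial (AA m) K) else X a) ^ k)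
      (fun a => pow_zero _)]
  simp only [if_true, one_pow, one_mul]
  congr 1
  refine Finsupp.prod_congr fun a ha => ?_
  rw [Finsupp.support_erase, Finset.mem_erase] at ha
  rw [if_neg ha.1]

/-- `s1 F = ∑_{e ∈ F.support} monomial (e.erase (none, 1)) (coeff e F)` (check on monomials). -/
theorem s1_eq_sum {K : Type*} [CommRing K] {m : ℕ} (F : MvPolynomial (AA m) K) :
    s1 F = ∑ e ∈ F.support, monomial (e.erase (none, 1)) (coeff e F) := by
  conv_lhs => rw [F.as_sum]
  have h : s1 (∑ e ∈ F.support, monomial e (coeff e F)) =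
      ∑ e ∈ F.support, s1 (monomial e (coeff e F)) := by
    unfold s1
    rw [map_sum]
  rw [h]
  exact Finset.sum_congr rfl fun e _ => VSG11_monomial e _

/-- A nonzero coefficient of `s1 F` comes from `F`. -/
theorem VSG11_exists {K : Type*} [CommRing K] {m : ℕ} (F : MvPolynomial (AA m) K)
    (e : AA m →₀ ℕ) (he : e ∈ (s1 F).support) : ∃ e' ∈ F.support, e'.erase (none, 1) = e := by
  classical
  rw [mem_support_iff, s1_eq_sum, coeff_sum] at he
  obtain ⟨e', he', h⟩ := Finset.exists_ne_zero_of_sum_ne_zero he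
  refine ⟨e', he', ?_⟩
  rw [coeff_monomial] at h
  by_contra hne
  exact h (if_neg hne)

/-- The coefficient of `s1 F` if the exponents of `F` are determined. -/
theorem VSG11_coeff {K : Type*} [CommRing K] {m : ℕ} (F : MvPolynomial (AA m) K)
    (hF : Set.InjOn (fun e : AA m →₀ ℕ => e.erase (none, 1)) F.support)
    (e : AA m →₀ ℕ) (he : e ∈ F.support) : coeff (e.erase (none, 1)) (s1 F) = coeff e F := by
  classical
  rw [s1_eq_sum, coeff_sum, Finset.sum_eq_single e]
  · rw [coeff_monomial, if_pos rfl]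
  · intro e' he' hne
    rw [coeff_monomial, if_neg]
    intro h
    exact hne (hF he' he h)
  · intro h
    exact absurd he h

theorem degreeOf_s1_le {K : Type*} [Field K] {m : ℕ} (F : MvPolynomial (AA m) K) (a : AA m) :
    (s1 F).degreeOf a ≤ F.degreeOf a := by
  classical
  rw [degreeOf_eq_sup]
  refine Finset.sup_le fun e he => ?_
  obtain ⟨e', he', rfl⟩ := VSG11_exists F e he
  refine le_trans ?_ (le_degreeOf_of_mem_support a he')
  by_cases h : a = (none, 1)
  · rw [h, Finsupp.erase_same]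
    exact Nat.zero_le _
  · rw [Finsupp.erase_ne h]

/-- Homogeneity: the exponents of `FG n J j x` are determined by their restriction to the variables
other than `(none, 1)`: for `e`, `e'` in the support `x e ≠ 0`, `x e' ≠ 0` (`coeff_FG`), so `wt e = w = wt e'`,
and if `e.erase (none, 1) = e'.erase (none, 1)` then `e (none, 1) = e' (none, 1)` (definition of `wt`). -/
theorem injOn_erase {K : Type*} [Field K] (n J : ℕ) {m : ℕ} (j : Fin m → ℕ)
    (x : (AA m → ℕ) → K) (w : ℕ) (hw : ∀ e, x e ≠ 0 → wt n J j e = w) :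
    Set.InjOn (fun e : AA m →₀ ℕ => e.erase (none, 1)) (FG n J j x).support := by
  classical
  intro e he e' he' hee
  have hx : ∀ e : AA m →₀ ℕ, e ∈ (FG n J j x).support → wt n J j e = w := by
    intro e he
    rw [mem_support_iff, coeff_FG] at he
    refine hw _ fun h => he ?_
    rw [h, ite_self]
  have h1 : ∀ a : AA m, a ≠ (none, 1) → e a = e' a := by
    intro a ha
    have h2 := DFunLike.congr_fun hee a
    simp only [Finsupp.erase_ne ha] at h2
    exact h2
  ext a
  by_cases ha : a = (none, 1)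
  · have h3 := (hx e (by exact_mod_cast he)).trans (hx e' (by exact_mod_cast he')).symm
    unfold wt at h3
    have h4 : ∑ i, 4 ^ j i * (8 * n * 4 ^ (J - j i) - e (some i, 1)) =
        ∑ i, 4 ^ j i * (8 * n * 4 ^ (J - j i) - e' (some i, 1)) := by
      refine Finset.sum_congr rfl fun i _ => ?_
      rw [h1 (some i, 1) (by simp)]
    rw [h4] at h3
    rw [ha]
    exact Nat.add_right_cancel h3
  · exact h1 a ha

/-- By `injOn_erase` the nonzero coefficients of `s1 F` are those of `F`. -/
theorem s1_FG_ne_zero {K : Type*} [Field K] (n J : ℕ) {m : ℕ} (j : Fin m → ℕ)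
    (x : (AA m → ℕ) → K) (w : ℕ) (hw : ∀ e, x e ≠ 0 → wt n J j e = w)
    (hF : FG n J j x ≠ 0) : s1 (FG n J j x) ≠ 0 := by
  obtain ⟨e, he⟩ := (support_nonempty (p := FG n J j x)).mpr hF
  intro h0
  have h1 := VSG11_coeff _ (injOn_erase n J j x w hw) e he
  rw [h0, coeff_zero] at h1
  exact mem_support_iff.1 he h1.symm

/-- `NV v (s1 F) = NV v F` (or `≤`) by `injOn_erase` (A5: `NV_le_of_injOn`), `gs_le`. -/
theorem nh_s1_FG_le {K : Type u} [Field K] [NumberField K] (n J : ℕ) {m : ℕ} (j : Fin m → ℕ)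
    (x : (AA m → ℕ) → K) (w : ℕ) (hw : ∀ e, x e ≠ 0 → wt n J j e = w)
    (hF : FG n J j x ≠ 0) : nh (s1 (FG n J j x)) ≤ nh (FG n J j x) := by
  classical
  have h := s1_FG_ne_zero n J j x w hw hF
  unfold nh
  refine gs_le (FS_log_NV h) (FS_log_NV hF) fun v _ => ?_
  refine Real.log_le_log (NV_pos v h) ?_
  refine NV_le_of_injOn v (FG n J j x) (s1 (FG n J j x))
    (fun e => if he : e ∈ (s1 (FG n J j x)).support then (VSG11_exists _ e he).choose else e) ?_ ?_
  · intro e he e' he' hee
    have he1 : e ∈ (s1 (FG n J j x)).support := by exact_mod_cast he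
    have he1' : e' ∈ (s1 (FG n J j x)).support := by exact_mod_cast he'
    simp only [dif_pos he1, dif_pos he1'] at hee
    have h1 := (VSG11_exists _ e he1).choose_spec.2
    have h2 := (VSG11_exists _ e' he1').choose_spec.2
    rw [← h1, hee, h2]
  · intro e he
    rw [dif_pos he]
    obtain ⟨h1, h2⟩ := (VSG11_exists _ e he).choose_spec
    have h3 := VSG11_coeff _ (injOn_erase n J j x w hw) _ h1
    rw [h2] at h3
    exact h3

end Pool.Agent.Lib.MP_17a322_nt.VS
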