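import Pool.Agent.Lib.MP_17a322_nt.VS.G7
import Pool.Agent.Lib.MP_17a322_nt.VJ.G12

/-!
# Vanishing over the algebraic closure
-/

universe u

namespace Pool.Agent.Lib.MP_17a322_nt.VS

open MvPolynomial Height
open Pool.Agent.Lib.MP_17a322_nt.RO Pool.Agent.Lib.MP_17a322_nt.VJ

/-- `vanishing` (VS/G7) over an algebraic extension `Ω` of `K`, combined with `homogeneous` (VS/G4).
Proof: as VJ/G12 `vanishing_alg`. The field of definition `L` of `w`: apply `exists_field_of_def` (VJ/G8) to the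
family `fun _ => W` and `fun _ => w`. The value of `tF s F` at `pt ..` is the Taylor coefficient
(`aeval_tF`, VJ/G9); `vanishing` gives the vanishing at `U = u i₀`, `ξ (i, 1) = u i / U ^ 4 ^ j i`; `homogeneous` (over
`L` or over `Ω`) gives the vanishing at `U = 1`, `ξ (i, 1) = u i`. -/
theorem vanishing_alg {K : Type u} [Field K] [NumberField K] [DecidableEq K]
    (W : WeierstrassCurve K) [W.IsElliptic] (n : ℕ) (hn : 0 < n) (ε : ℝ)
    (hε : 64 ≤ n * ε) (CF : ℝ) (hCF : 0 ≤ CF) :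
    ∃ C : ℝ, 0 ≤ C ∧ ∀ (J : ℕ) (j : Fin (2 * n ^ 2) → ℕ) (i₀ : Fin (2 * n ^ 2)),
      (∀ i, j i ≤ J) → ∀ (x : (AA (2 * n ^ 2) → ℕ) → K) (w₀ : ℕ), CS W n J j x →
      FG n J j x ≠ 0 → (∀ e, x e ≠ 0 → wt n J j e = w₀) →
      nh (FG n J j x) ≤ CF * 4 ^ J → ∀ (P : Fin (2 * n ^ 2) → W.toAffine.Point)
      (u : Fin (2 * n ^ 2) → K),
      (∀ i, P i ≠ 0) → (∀ i, u i ≠ 0) → (∀ i, u i ≠ 1) →
      (∀ i, ε * HS (P i) (u i) ≤ hS (P i) (u i)) → C < HS (P i₀) (u i₀) →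
      (∀ i, logHeight (P i - 2 ^ j i • P i₀).xRep ≤ 1 / (16 * n ^ 2) * HS (P i) (u i)) →
      (∀ i, logHeight₁ (u i / u i₀ ^ 4 ^ j i) ≤ 1 / (16 * n ^ 2) * HS (P i) (u i)) →
      (∀ i, |HS (P i) (u i) - 4 ^ j i * HS (P i₀) (u i₀)| ≤ 1 / (16 * n ^ 2) * HS (P i) (u i)) →
      ∀ (Ω : Type u) [Field Ω] [DecidableEq Ω] [Algebra K Ω] [Algebra.IsAlgebraic K Ω]
        (V : WeierstrassCurve Ω) (g : W.toAffine.Point →+ V.toAffine.Point)
        (w : V.toAffine.Point) (N : ℕ),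
        W.map (algebraMap K Ω) = V → PB W V g → 0 < N →
        w ≠ 0 → w.xRep 0 ^ N = 1 → g (P i₀) + w ≠ 0 →
        (∀ i, g (P i) - 2 ^ j i • (g (P i₀) + w) ≠ 0) →
        ∀ s : Fin (2 * n ^ 2) × Fin 2 →₀ ℕ, (∑ a, s a * 4 ^ j a.1 < 8 * n * 4 ^ J) →
          aeval (pt ![(g (P i₀) + w).xRep 0, 1]
            (fun a => if a.2 = 0 then (g (P a.1) - 2 ^ j a.1 • (g (P i₀) + w)).xRep 0
              else algebraMap K Ω (u a.1))) (tF s (FG n J j x)) = 0 := by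
  obtain ⟨C, hC0, hC⟩ := vanishing W n hn ε hε CF hCF
  refine ⟨C, hC0, ?_⟩
  intro J j i₀ hj x w₀ hCS hFG hwt hnh P u hP0 hu0 hu1 hPε hPC hPlog hulog hPabs Ω _ _ _ _ V g w N
    hV hg hN hw0 hwN hz0 hQ0 s hs
  obtain ⟨L, _, _, _, _, _, _, V', g', w', hV', hg', hw'⟩ :=
    exists_field_of_def (fun _ => W) (fun _ => V) (fun _ => hV) (fun _ => w)
  obtain ⟨f, hf, hfg⟩ := exists_PB_comp (hV' 0) hg (hg' 0)
  have hinj : Function.Injective (algebraMap L Ω) := (algebraMap L Ω).injective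
  have hz : g' 0 (f (P i₀) + w' 0) = g (P i₀) + w := by
    rw [map_add, hfg, hw' 0]
  have hQ : ∀ i, g' 0 (f (P i) - 2 ^ j i • (f (P i₀) + w' 0)) =
      g (P i) - 2 ^ j i • (g (P i₀) + w) := by
    intro i
    rw [map_sub, map_nsmul, hz, hfg]
  have h1 := hC J j i₀ hj x hCS hFG hnh P u hP0 hu0 hu1 hPε hPC hPlog hulog hPabs L (V' 0) f
    (w' 0) N (hV' 0) hf hN
    (fun h => hw0 (by rw [← hw' 0, h, map_zero]))
    (by
      apply hinj
      rw [map_pow, map_one, ← hg' 0, hw' 0, hwN])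
    (fun h => hz0 (by rw [← hz, h, map_zero]))
    (fun i h => hQ0 i (by rw [← hQ i, h, map_zero])) s hs
  have h1' := homogeneous n J j x w₀ hwt ((f (P i₀) + w' 0).xRep 0) (algebraMap K L (u i₀))
    (by
      rw [Ne, map_eq_zero]
      exact hu0 i₀)
    (fun i => (f (P i) - 2 ^ j i • (f (P i₀) + w' 0)).xRep 0) (fun i => algebraMap K L (u i)) s h1
  have h2 := congrArg (IsScalarTower.toAlgHom K L Ω) h1'
  rw [coeff_tr_pe_map, map_zero] at h2
  rw [aeval_tF]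
  have e1 : (fun a : Fin (2 * n ^ 2) × Fin 2 => (IsScalarTower.toAlgHom K L Ω)
      (if a.2 = 0 then (f (P a.1) - 2 ^ j a.1 • (f (P i₀) + w' 0)).xRep 0
        else algebraMap K L (u a.1))) =
      fun a => if a.2 = 0 then (g (P a.1) - 2 ^ j a.1 • (g (P i₀) + w)).xRep 0
        else algebraMap K Ω (u a.1) := by
    funext a
    by_cases ha : a.2 = 0
    · rw [if_pos ha, if_pos ha, ← hQ a.1, hg' 0]
      rfl
    · rw [if_neg ha, if_neg ha]
      exact (IsScalarTower.algebraMap_apply K L Ω _).symm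
  have e2 : (fun t : Fin 2 => (IsScalarTower.toAlgHom K L Ω)
      ((![(f (P i₀) + w' 0).xRep 0, 1] : Fin 2 → L) t)) = ![(g (P i₀) + w).xRep 0, 1] := by
    funext t
    fin_cases t
    · show (IsScalarTower.toAlgHom K L Ω) ((f (P i₀) + w' 0).xRep 0) = (g (P i₀) + w).xRep 0
      rw [← hz, hg' 0]
      rfl
    · exact map_one _
  rw [e1, e2] at h2
  exact h2

end Pool.Agent.Lib.MP_17a322_nt.VS
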