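import Pool.Agent.Lib.MP_17a322_nt.VS.G10
import Pool.Agent.Lib.MP_17a322_nt.VS.G11
import Pool.Agent.Lib.MP_17a322_nt.VS.G12
import Pool.Agent.Lib.MP_17a322_nt.VJ.G13

/-!
# All Taylor coefficients of small weight of the top coefficient vanish at `(x(P_i), u_i)`
-/

universe u

namespace Pool.Agent.Lib.MP_17a322_nt.VS

open MvPolynomial Height
open Pool.Agent.Lib.MP_17a322_nt.RO Pool.Agent.Lib.MP_17a322_nt.VJ

/-- Value of the relations at a point. -/
private theorem VSG13_eval {K : Type*} [Field K] (W : WeierstrassCurve K) {m : ℕ} {A : Type*}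
    [CommRing A] [Algebra K A] (j : ℕ) (c : K) (i : Fin m) (t : Fin 2) (x : Fin 2 → A)
    (ξ : Fin m × Fin 2 → A) :
    aeval (pt x ξ) (S3 W (mu W j ![(X (none, t) : MvPolynomial (AA m) K), 1]) ![C c, 1]
      ![X (some i, t), 1]) =
      S3 W (mu W j ![x t, 1]) ![algebraMap K A c, 1] ![ξ (i, t), 1] := by
  rw [map_S3]
  have e1 : (fun k => aeval (pt x ξ) (mu W j ![(X (none, t) : MvPolynomial (AA m) K), 1] k)) =
      mu W j ![x t, 1] := by
    funext k
    rw [map_mu]
    have e : (fun k => aeval (pt x ξ) ((![(X (none, t) : MvPolynomial (AA m) K), 1] :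
        Fin 2 → MvPolynomial (AA m) K) k)) = ![x t, 1] := by
      funext k
      fin_cases k
      · show aeval (pt x ξ) (X (none, t) : MvPolynomial (AA m) K) = x t
        rw [aeval_X]
        rfl
      · show aeval (pt x ξ) (1 : MvPolynomial (AA m) K) = 1
        rw [map_one]
    rw [e]
  have e2 : (fun k => aeval (pt x ξ) ((![(C c : MvPolynomial (AA m) K), 1] :
      Fin 2 → MvPolynomial (AA m) K) k)) = ![algebraMap K A c, 1] := by
    funext k
    fin_cases k
    · show aeval (pt x ξ) (C c : MvPolynomial (AA m) K) = algebraMap K A c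
      rw [← algebraMap_eq, AlgHom.commutes]
    · show aeval (pt x ξ) (1 : MvPolynomial (AA m) K) = 1
      rw [map_one]
  have e3 : (fun k => aeval (pt x ξ) ((![(X (some i, t) : MvPolynomial (AA m) K), 1] :
      Fin 2 → MvPolynomial (AA m) K) k)) = ![ξ (i, t), 1] := by
    funext k
    fin_cases k
    · show aeval (pt x ξ) (X (some i, t) : MvPolynomial (AA m) K) = ξ (i, t)
      rw [aeval_X]
      rfl
    · show aeval (pt x ξ) (1 : MvPolynomial (AA m) K) = 1
      rw [map_one]
  rw [e1, e2, e3]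

/-- Proof: as VJ/G13 `top_vanishes`, for `F₁ = s1 (FG n J j x)`. The family of polynomials for
`exists_generic` (VJ/G9): `α (some (i, 0)) = S3 W (mu W (j i) ![X (none, 0), 1]) ![C ((P i).xRep 0), 1]
![X (some i, 0), 1]`, `α (some (i, 1)) = X (some i, 1) - C (u i)`, `α none = tF s F₁`. Both infinite sets `T 0`,
`T 1` are the set `{ξ | ∃ w, .. ξ = (g (P i₀) + w).xRep 0}` of `infinite_x` (VJ/G8; the second coordinate `x 1` is
irrelevant: `aeval_tF_s1` of VS/G11 with `r = x 1`). The relations vanish by `rel_point` (VJ/G13), `α none` by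
`vanishing_alg` (VS/G12) and `aeval_tF_s1`. Then `specialise` (VS/G10) for `Ψ = tF s F₁` (`tF_support`, VJ/G11) and
`eval_tp_tF` (VJ/G11). -/
theorem top_vanishes {K : Type u} [Field K] [NumberField K] [DecidableEq K]
    (W : WeierstrassCurve K) [W.IsElliptic] (n : ℕ) (hn : 0 < n) (ε : ℝ)
    (hε : 64 ≤ n * ε) (CF : ℝ) (hCF : 0 ≤ CF) :
    ∃ C : ℝ, 0 ≤ C ∧ ∀ (J : ℕ) (j : Fin (2 * n ^ 2) → ℕ) (i₀ : Fin (2 * n ^ 2)),
      (∀ i, j i ≤ J) → ∀ (x : (AA (2 * n ^ 2) → ℕ) → K) (w₀ : ℕ), CS W n J j x →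
      FG n J j x ≠ 0 → (∀ e, x e ≠ 0 → wt n J j e = w₀) →
      nh (FG n J j x) ≤ CF * 4 ^ J → ∀ (P : Fin (2 * n ^ 2) → W.toAffine.Point)
      (u : Fin (2 * n ^ 2) → K),
      (∀ i, P i ≠ 0) → (∀ i, u i ≠ 0) → (∀ i, u i ≠ 1) →
      (∀ i, ε * HS (P i) (u i) ≤ hS (P i) (u i)) → C < HS (P i₀) (u i₀) →
      (∀ i, logHeight (P i - 2 ^ j i • P i₀).xRep ≤ 1 / (16 * n ^ 2) * HS (P i) (u i)) →
      (∀ i, logHeight₁ (u i / u i₀ ^ 4 ^ j i) ≤ 1 / (16 * n ^ 2) * HS (P i) (u i)) →
      (∀ i, |HS (P i) (u i) - 4 ^ j i * HS (P i₀) (u i₀)| ≤ 1 / (16 * n ^ 2) * HS (P i) (u i)) →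
      ∀ k l, (∀ e ∈ (s1 (FG n J j x)).support,
        e (none, 0) < k ∨ (e (none, 0) = k ∧ e (none, 1) ≤ l)) →
      IG (fun a : Fin (2 * n ^ 2) × Fin 2 => 4 ^ j a.1) (8 * n * 4 ^ J)
        (cx P u) (tp k l (s1 (FG n J j x))) := by
  classical
  obtain ⟨C₀, hC₀, hvan⟩ := vanishing_alg W n hn ε hε CF hCF
  refine ⟨C₀, hC₀, ?_⟩
  intro J j i₀ hj x w₀ hx hF hw hnh P u hP hu hu1 hhS hCP hlog hlogu habs k l hkl s hs
  rw [← eval_tp_tF s (s1 (FG n J j x)) k l (cx P u)]
  have hs' : ∑ a, s a * 4 ^ j a.1 < 8 * n * 4 ^ J := by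
    have h1 : Finsupp.weight (fun a : Fin (2 * n ^ 2) × Fin 2 => 4 ^ j a.1) s =
        ∑ a, s a * 4 ^ j a.1 := by
      rw [Finsupp.weight_apply, Finsupp.sum_fintype _ _ (fun a => by simp)]
      simp
    rw [h1] at hs
    exact_mod_cast hs
  obtain ⟨g, hg⟩ : ∃ f : W.toAffine.Point →+
      (W.map (algebraMap K (AlgebraicClosure K))).toAffine.Point,
      PB W (W.map (algebraMap K (AlgebraicClosure K))) f :=
    exists_PB W (W.map (algebraMap K (AlgebraicClosure K))) rfl
  have hT := infinite_x (W.map (algebraMap K (AlgebraicClosure K)))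
    (g (P i₀)) (fun i => g (P i)) j
  obtain ⟨F', _, _, X', ξ', hX', hα'⟩ := exists_generic (K := K) (Ω := AlgebraicClosure K)
    (m := 2 * n ^ 2) (κ := Option (Fin (2 * n ^ 2) × Fin 2))
    (fun o => o.elim (tF s (s1 (FG n J j x))) fun a =>
      if a.2 = 0 then S3 W (mu W (j a.1) ![X (none, 0), 1]) ![C ((P a.1).xRep 0), 1]
        ![X (some a.1, 0), 1] else X (some a.1, 1) - C (u a.1)) _ (fun _ => hT) (by
      intro x' hx'
      obtain ⟨w, hw0, ⟨N, hN, hwN⟩, hR, hS, hxe⟩ := hx' 0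
      refine ⟨fun a => if a.2 = 0 then (g (P a.1) - 2 ^ j a.1 • (g (P i₀) + w)).xRep 0
        else algebraMap K (AlgebraicClosure K) (u a.1), ?_⟩
      have hx2 : x' = ![(g (P i₀) + w).xRep 0, x' 1] := by
        funext t
        fin_cases t
        · exact hxe
        · rfl
      intro o
      cases o with
      | none =>
        rw [hx2]
        refine (aeval_tF_s1 _ _ _ _ _).trans ?_
        exact hvan J j i₀ hj x w₀ hx hF hw hnh P u hP hu hu1 hhS hCP hlog hlogu habs
          (AlgebraicClosure K) (W.map (algebraMap K (AlgebraicClosure K))) g w N rfl hg hN hw0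
          hwN hR hS s hs'
      | some a =>
        obtain ⟨i, t⟩ := a
        by_cases ht : t = 0
        · subst ht
          have h1 := VSG13_eval W (j i) ((P i).xRep 0) i 0 x' (fun a => if a.2 = 0 then
            (g (P a.1) - 2 ^ j a.1 • (g (P i₀) + w)).xRep 0
            else algebraMap K (AlgebraicClosure K) (u a.1))
          refine Eq.trans ?_ (h1.trans ?_)
          · simp only [Option.elim_some, if_true]
          have hgP : g (P i) ≠ 0 := by
            intro h0
            have h2 := hg (P i) 1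
            rw [h0, xRep_zero, xRep_one (hP i), map_one] at h2
            simp at h2
          have h3 := rel_point W (W.map (algebraMap K (AlgebraicClosure K))) rfl (j i)
            (g (P i₀) + w) (g (P i)) hR hgP (hS i)
          rw [hg (P i) 0] at h3
          rw [hxe]
          exact h3
        · simp only [Option.elim_some, ht, if_false]
          rw [map_sub, aeval_X, aeval_C]
          exact sub_self _)
  refine specialise W j (cx P u) (tF s (s1 (FG n J j x))) k l
    (tF_support s (s1 (FG n J j x)) k l hkl) X' hX' ξ' ?_ ?_ (hα' none)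
  · intro i
    have h1 := hα' (some (i, 0))
    have h2 := VSG13_eval W (j i) ((P i).xRep 0) i 0 X' ξ'
    simp only [Option.elim_some, if_true] at h1
    exact h2.symm.trans h1
  · intro i
    have h1 := hα' (some (i, 1))
    simp only [Option.elim_some, one_ne_zero, if_false] at h1
    rw [map_sub, aeval_X, aeval_C] at h1
    exact sub_eq_zero.1 h1

end Pool.Agent.Lib.MP_17a322_nt.VS
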