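import Pool.Agent.Lib.MP_17a322_nt.VS.G3b
import Pool.Agent.Lib.MP_17a322_nt.VJ.G3a
import Pool.Agent.Lib.MP_17a322_nt.VJ.G3c
import Pool.Agent.Lib.MP_17a322_nt.VJ.IF_D

/-!
Existence of the auxiliary polynomial.
-/

universe u

namespace Pool.Agent.Lib.MP_17a322_nt.VS

open MvPolynomial Height
open Pool.Agent.Lib.MP_17a322_nt.RO Pool.Agent.Lib.MP_17a322_nt.VJ

/-- Height of a part of a vector: zero entries do not increase the height. (`gs_log_iSup` and `gs_le`, or
the definition of `logHeight`.) -/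
theorem logHeight_part_le {K : Type*} [Field K] [NumberField K] {ι : Type*} [Fintype ι]
    (x y : ι → K) (hy : y ≠ 0) (h : ∀ i, y i = x i ∨ y i = 0) : logHeight y ≤ logHeight x := by
  have hx : x ≠ 0 := by
    obtain ⟨i, hi⟩ := Function.ne_iff.mp hy
    rw [Function.ne_iff]
    refine ⟨i, ?_⟩
    rcases h i with h1 | h1
    · rw [← h1]
      exact hi
    · exact absurd h1 hi
  rw [← gs_log_iSup hx, ← gs_log_iSup hy]
  refine gs_le (FS_log_iSup hy) (FS_log_iSup hx) fun v _ => ?_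
  obtain ⟨i, hi⟩ := Function.ne_iff.mp hy
  have : Nonempty ι := ⟨i⟩
  have hpos : 0 < ⨆ i, v (y i) :=
    (v.pos hi).trans_le (le_ciSup (f := fun i => v (y i)) (Set.finite_range _).bddAbove i)
  refine Real.log_le_log hpos (ciSup_le fun k => ?_)
  have hk := le_ciSup (f := fun i => v (x i)) (Set.finite_range _).bddAbove k
  rcases h k with h1 | h1
  · rw [h1]
    exact hk
  · rw [h1, map_zero]
    exact (v.nonneg _).trans hk

/-- Height of the matrix of the system. -/
theorem VSG3c_matrix {K : Type u} [Field K] [NumberField K] (W : WeierstrassCurve K) (n : ℕ) :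
    ∃ C : ℝ, 0 ≤ C ∧ ∀ (J m : ℕ) (j : Fin m → ℕ), (∀ i, j i ≤ J) →
      ∀ (ι : Type) [Finite ι] (x : ι → K), (∀ a, ∃ (i : Fin m) (c : Fin 2 → Bool) (q e : AA m → ℕ),
        e ∈ box (fun a => DG n J j a + 1) ∧ x a = MS W n J j i c q e) →
      logHeight x ≤ C * 4 ^ J := by
  obtain ⟨C, hC0, hC⟩ := gs_log_lc_le (K := K) W
  have hfr : (0 : ℝ) ≤ Module.finrank ℚ K := Nat.cast_nonneg _
  refine ⟨2 * (17 * (8 * n)) * (C * Module.finrank ℚ K), by positivity, ?_⟩
  intro J m j hj ι _ x hx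
  by_cases hx0 : x = 0
  · rw [hx0, logHeight_zero]
    positivity
  · rw [← gs_log_iSup hx0]
    have hFS : FS (fun v : AbsoluteValue K ℝ =>
        ((17 * (8 * n * 4 ^ J) * 2 : ℕ) : ℝ) * Real.log (lc W v)) :=
      FS_const_mul _ (FS_log_lc W)
    refine (gs_le (FS_log_iSup hx0) hFS fun v _ => ?_).trans ?_
    · obtain ⟨a, ha⟩ := Function.ne_iff.mp hx0
      have : Nonempty ι := ⟨a⟩
      have hpos : 0 < ⨆ i, v (x i) :=
        (v.pos ha).trans_le (le_ciSup (f := fun i => v (x i)) (Set.finite_range _).bddAbove a)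
      have hle : ⨆ i, v (x i) ≤ lc W v ^ (17 * (8 * n * 4 ^ J) * 2) := by
        refine ciSup_le fun b => ?_
        obtain ⟨i, c, q, e, he, hxe⟩ := hx b
        rw [hxe, pow_mul]
        exact MS_le W v n J m j i (hj i) c q e he
      have h1 := Real.log_le_log hpos hle
      rw [Real.log_pow] at h1
      exact h1
    · rw [gs_const_mul]
      refine (mul_le_mul_of_nonneg_left (hC K) (Nat.cast_nonneg _)).trans (le_of_eq ?_)
      push_cast
      ring

/-- Solution of the linear system, of one weight. Proof: as VJ/G3c `exists_solution` (Siegel's lemma for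
the matrix `MS`, `MS_le`) gives a solution `x`; choose `e₀` in the box with `x e₀ ≠ 0`, `w = wt n J j e₀`, and
replace `x` by its part of weight `w` (`CS_weight`, `logHeight_part_le`). -/
theorem exists_solution {K : Type u} [Field K] [NumberField K] (W : WeierstrassCurve K)
    [W.IsElliptic] (n : ℕ) (hn : 0 < n) :
    ∃ C : ℝ, 0 ≤ C ∧ ∀ (J : ℕ) (j : Fin (2 * n ^ 2) → ℕ), (∀ i, j i ≤ J) →
      ∃ (x : (AA (2 * n ^ 2) → ℕ) → K) (w : ℕ),
        (∃ e ∈ box (fun a => DG n J j a + 1), x e ≠ 0) ∧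
        CS W n J j x ∧ (∀ e, x e ≠ 0 → wt n J j e = w) ∧
        logHeight (fun e : box (fun a => DG n J j a + 1) => x e) ≤ C * 4 ^ J := by
  classical
  obtain ⟨C1, hC1, h1⟩ := siegel K
  obtain ⟨C2, hC2, h2⟩ := VSG3c_matrix W n
  refine ⟨C1 + (C2 + C1 + C1 * ((2 + 4 * n ^ 2) * (8 * n))), by positivity, fun J j hj => ?_⟩
  have hcount := count_le n J hn j
  have hcardpos : 0 < (box (fun a => DG n J j a + 1)).card := by
    rw [card_box]
    exact Finset.prod_pos fun a _ => Nat.succ_pos _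
  have hlog := log_card_le n J (2 * n ^ 2) j
  let α := Σ i : Fin (2 * n ^ 2), (Fin 2 → Bool) × (box (DQ n J j i))
  let β := (box (fun a => DG n J j a + 1))
  have hα : Fintype.card α = ∑ i, 4 * (box (DQ n J j i)).card := by
    rw [Fintype.card_sigma]
    refine Finset.sum_congr rfl fun i _ => ?_
    rw [Fintype.card_prod, Fintype.card_coe]
    rfl
  have hβ : Fintype.card β = (box (fun a => DG n J j a + 1)).card := Fintype.card_coe _
  have hlt : Fintype.card α < Fintype.card β := by omega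
  have h2α : 2 * Fintype.card α ≤ Fintype.card β := by omega
  obtain ⟨x, hx0, hAx, hx⟩ := h1 α β
    (fun a e => MS W n J j a.1 a.2.1 (a.2.2 : AA (2 * n ^ 2) → ℕ) (e : AA (2 * n ^ 2) → ℕ)) hlt
  have hmat := h2 J (2 * n ^ 2) j hj (α × β)
    (fun p : α × β => MS W n J j p.1.1 p.1.2.1 (p.1.2.2 : AA (2 * n ^ 2) → ℕ) (p.2 : AA (2 * n ^ 2) → ℕ))
    (fun p => ⟨p.1.1, p.1.2.1, p.1.2.2, p.2, p.2.2, rfl⟩)
  obtain ⟨e₀, he₀⟩ := Function.ne_iff.mp hx0
  have hCS : CS W n J j (fun e => if h : e ∈ box (fun a => DG n J j a + 1) then x ⟨e, h⟩ else 0) := by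
    intro i c q hq
    have h3 := congrFun hAx ⟨i, c, ⟨q, hq⟩⟩
    have h3' : ∑ e : β, MS W n J j i c q (e : AA (2 * n ^ 2) → ℕ) * x e = 0 := h3
    refine Eq.trans ?_ h3'
    rw [← Finset.sum_coe_sort]
    refine Finset.sum_congr rfl fun e _ => ?_
    show MS W n J j i c q e * (if h : (e : AA (2 * n ^ 2) → ℕ) ∈ box (fun a => DG n J j a + 1) then
      x ⟨e, h⟩ else 0) = MS W n J j i c q e * x e
    rw [dif_pos e.2]
  refine ⟨fun e => if wt n J j e = wt n J j (e₀ : AA (2 * n ^ 2) → ℕ) then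
    (if h : e ∈ box (fun a => DG n J j a + 1) then x ⟨e, h⟩ else 0) else 0,
    wt n J j (e₀ : AA (2 * n ^ 2) → ℕ), ?_, ?_, ?_, ?_⟩
  · refine ⟨e₀, e₀.2, ?_⟩
    show (if wt n J j (e₀ : AA (2 * n ^ 2) → ℕ) = wt n J j (e₀ : AA (2 * n ^ 2) → ℕ) then
      (if h : (e₀ : AA (2 * n ^ 2) → ℕ) ∈ box (fun a => DG n J j a + 1) then x ⟨e₀, h⟩ else 0)
        else 0) ≠ 0
    rw [if_pos rfl, dif_pos e₀.2]
    exact he₀
  · exact CS_weight W n J _ j _ hCS _
  · intro e he
    by_contra hne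
    exact he (if_neg hne)
  · have h5 : logHeight (fun e : box (fun a => DG n J j a + 1) =>
        if wt n J j (e : AA (2 * n ^ 2) → ℕ) = wt n J j (e₀ : AA (2 * n ^ 2) → ℕ) then
          (if h : (e : AA (2 * n ^ 2) → ℕ) ∈ box (fun a => DG n J j a + 1) then x ⟨e, h⟩ else 0)
          else 0) ≤ logHeight x := by
      refine logHeight_part_le x _ ?_ ?_
      · rw [Function.ne_iff]
        refine ⟨e₀, ?_⟩
        rw [if_pos rfl, dif_pos e₀.2]
        exact he₀
      · intro e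
        by_cases hw : wt n J j (e : AA (2 * n ^ 2) → ℕ) = wt n J j (e₀ : AA (2 * n ^ 2) → ℕ)
        · left
          rw [if_pos hw, dif_pos e.2]
        · right
          rw [if_neg hw]
    refine h5.trans (hx.trans ?_)
    have hfrac0 : 0 ≤ (Fintype.card α : ℝ) / (Fintype.card β - Fintype.card α : ℝ) := by
      have : (Fintype.card α : ℝ) < Fintype.card β := by exact_mod_cast hlt
      exact div_nonneg (Nat.cast_nonneg _) (by linarith)
    have hfrac1 : (Fintype.card α : ℝ) / (Fintype.card β - Fintype.card α : ℝ) ≤ 1 := by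
      have h5 : (Fintype.card α : ℝ) < Fintype.card β := by exact_mod_cast hlt
      have h6 : (2 : ℝ) * Fintype.card α ≤ Fintype.card β := by exact_mod_cast h2α
      rw [div_le_one (by linarith)]
      linarith
    have h4J : (1 : ℝ) ≤ 4 ^ J := one_le_pow₀ (by norm_num)
    have hlog' : Real.log (Fintype.card β) ≤ (2 + 4 * n ^ 2) * (8 * n) * 4 ^ J := by
      rw [hβ]
      refine hlog.trans (le_of_eq ?_)
      push_cast
      ring
    have hlog0 : 0 ≤ Real.log (Fintype.card β) := Real.log_natCast_nonneg _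
    have hin : logHeight (fun p : α × β => MS W n J j p.1.1 p.1.2.1 (p.1.2.2 : AA (2 * n ^ 2) → ℕ)
        (p.2 : AA (2 * n ^ 2) → ℕ)) + C1 + C1 * Real.log (Fintype.card β) ≤
        (C2 + C1 + C1 * ((2 + 4 * n ^ 2) * (8 * n))) * 4 ^ J := by
      have h7 := mul_le_mul_of_nonneg_left hlog' hC1
      have h8 : C1 ≤ C1 * 4 ^ J := le_mul_of_one_le_right hC1 h4J
      nlinarith
    have hin' : (Fintype.card α : ℝ) / (Fintype.card β - Fintype.card α : ℝ) *
        (logHeight (fun p : α × β => MS W n J j p.1.1 p.1.2.1 (p.1.2.2 : AA (2 * n ^ 2) → ℕ)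
        (p.2 : AA (2 * n ^ 2) → ℕ)) + C1 + C1 * Real.log (Fintype.card β)) ≤
        (C2 + C1 + C1 * ((2 + 4 * n ^ 2) * (8 * n))) * 4 ^ J := by
      refine (mul_le_mul_of_nonneg_left hin hfrac0).trans ?_
      exact mul_le_of_le_one_left (by positivity) hfrac1
    have h9 : C1 ≤ C1 * 4 ^ J := le_mul_of_one_le_right hC1 h4J
    calc _ ≤ C1 * 4 ^ J + (C2 + C1 + C1 * ((2 + 4 * n ^ 2) * (8 * n))) * 4 ^ J := add_le_add h9 hin'
      _ = _ := by ring

end Pool.Agent.Lib.MP_17a322_nt.VS
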