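import Pool.Agent.Lib.MP_17a322_nt.VS.G13
import Pool.Agent.Lib.MP_17a322_nt.VS.G3c
import Pool.Agent.Lib.MP_17a322_nt.VJ.G14

/-!
# Conclusion of stage 0
-/

universe u

namespace Pool.Agent.Lib.MP_17a322_nt.VS

open MvPolynomial Height
open Pool.Agent.Lib.MP_17a322_nt.RO Pool.Agent.Lib.MP_17a322_nt.VJ

/-- The height of the auxiliary polynomial. -/
private theorem VSG14_exists_F {K : Type u} [Field K] [NumberField K] [DecidableEq K]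
    (W : WeierstrassCurve K) [W.IsElliptic] (n : ℕ) (hn : 0 < n) :
    ∃ CF : ℝ, 0 ≤ CF ∧ ∀ (J : ℕ) (j : Fin (2 * n ^ 2) → ℕ), (∀ i, j i ≤ J) →
      ∃ (x : (AA (2 * n ^ 2) → ℕ) → K) (w : ℕ), CS W n J j x ∧
        (∀ e, x e ≠ 0 → wt n J j e = w) ∧ FG n J j x ≠ 0 ∧
        nh (FG n J j x) ≤ CF * 4 ^ J := by
  obtain ⟨C, hC, h⟩ := exists_solution W n hn
  refine ⟨C + Module.finrank ℚ K * ((2 + 2 * ((2 * n ^ 2 : ℕ) : ℝ)) * (8 * n)), by positivity,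
    fun J j hj => ?_⟩
  obtain ⟨x, w, hx, hCS, hwt, hh⟩ := h J j hj
  obtain ⟨h1, h2⟩ := nh_FG_le n J j x hx
  refine ⟨x, w, hCS, hwt, h1, h2.trans ?_⟩
  have h3 := mul_le_mul_of_nonneg_left (log_card_le n J (2 * n ^ 2) j)
    (Nat.cast_nonneg (α := ℝ) (Module.finrank ℚ K))
  calc logHeight (fun e : box (fun a => DG n J j a + 1) => x e) +
        Module.finrank ℚ K * Real.log (box (fun a => DG n J j a + 1)).card
      ≤ C * 4 ^ J + Module.finrank ℚ K *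
          ((2 + 2 * ((2 * n ^ 2 : ℕ) : ℝ)) * (8 * n * 4 ^ J)) := add_le_add hh h3
    _ = _ := by ring

/-- The weighted degrees of the top coefficient. -/
private theorem VSG14_degree {K : Type u} [Field K] (n J : ℕ) {m : ℕ} (j : Fin m → ℕ)
    (hj : ∀ i, j i ≤ J) (x : (AA m → ℕ) → K) (k l : ℕ) (a : Fin m × Fin 2) :
    ((4 ^ j a.1 : ℕ) : ℝ) * ((tp k l (s1 (FG n J j x))).degreeOf a : ℝ) ≤ 8 * n * 4 ^ J := by
  have h1 := (degreeOf_tp_le k l (s1 (FG n J j x)) a).trans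
    ((degreeOf_s1_le (FG n J j x) (some a.1, a.2)).trans (degreeOf_FG_le n J j x (some a.1, a.2)))
  have h2 : DG n J j (some a.1, a.2) = 8 * n * 4 ^ (J - j a.1) := rfl
  rw [h2] at h1
  have h3 := b_mul_pow n J m j a.1 (hj a.1)
  have h4 : 4 ^ j a.1 * (tp k l (s1 (FG n J j x))).degreeOf a ≤ 8 * n * 4 ^ J := by
    rw [← h3, mul_comm]
    exact Nat.mul_le_mul_right _ h1
  have h5 : ((4 ^ j a.1 * (tp k l (s1 (FG n J j x))).degreeOf a : ℕ) : ℝ) ≤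
      ((8 * n * 4 ^ J : ℕ) : ℝ) := Nat.cast_le.mpr h4
  push_cast at h5 ⊢
  exact h5

/-- The weights. -/
private theorem VSG14_weights {m : ℕ} (R : ℕ) (j : Fin m → ℕ)
    (hR : ∀ i i', i < i' → R * 4 ^ j i ≤ 4 ^ j i') (a a' : Fin m × Fin 2) :
    4 ^ j a.1 = 4 ^ j a'.1 ∨ R * 4 ^ j a.1 ≤ 4 ^ j a'.1 ∨ R * 4 ^ j a'.1 ≤ 4 ^ j a.1 := by
  rcases lt_trichotomy a.1 a'.1 with h | h | h
  · exact Or.inr (Or.inl (hR _ _ h))
  · left
    rw [h]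
  · exact Or.inr (Or.inr (hR _ _ h))

/-- Conclusion of stage 0 (7.5). Proof: as VJ/G14 `stage0`, with `exists_solution` (VS/G3c), `F₁ = s1 F`
(`s1_FG_ne_zero`, `nh_s1_FG_le`, `degreeOf_s1_le`, VS/G11), `top_vanishes` (VS/G13) and `block` (VJ/G14) with
`p = cx P u`. For `descent`: `logHeight₁ ((P i).xRep 0) = logHeight (P i).xRep ≥ hS ≥ ε HS`, and
`logHeight₁ (u i) ≥ logHeight₁ (1 - u i)⁻¹ - d log 2 ≥ hS - d log 2` (`hS_le`, `logHeight₁_one_sub`, VS/G6a): take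
`C₀` larger accordingly. -/
theorem stage0_proof {K : Type u} [Field K] [NumberField K] [DecidableEq K]
    (W : WeierstrassCurve K) [W.IsElliptic] (ε : ℝ) (hε : 0 < ε) :
    ∃ (m D R₀ : ℕ) (C₀ η : ℝ), 0 < m ∧ 0 ≤ C₀ ∧ 0 < η ∧
      ∀ (P : Fin m → W.toAffine.Point) (u : Fin m → K) (j : Fin m → ℕ) (i₀ : Fin m),
      StrictMono j → j i₀ = 0 → (∀ i i', i < i' → R₀ * 4 ^ j i ≤ 4 ^ j i') →
      (∀ i, P i ≠ 0) → (∀ i, u i ≠ 0) → (∀ i, u i ≠ 1) →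
      (∀ i, ε * HS (P i) (u i) ≤ hS (P i) (u i)) → C₀ ≤ HS (P i₀) (u i₀) →
      (∀ i, logHeight (P i - 2 ^ j i • P i₀).xRep ≤ η * HS (P i) (u i)) →
      (∀ i, logHeight₁ (u i / u i₀ ^ 4 ^ j i) ≤ η * HS (P i) (u i)) →
      (∀ i, |HS (P i) (u i) - 4 ^ j i * HS (P i₀) (u i₀)| ≤ η * HS (P i) (u i)) →
      ∃ (i : Fin m) (g : MvPolynomial (Fin 2) K), GC g D ∧ eval ![(P i).xRep 0, u i] g = 0 ∧
        nh g ≤ C₀ * 4 ^ j i := by
  obtain ⟨n, hn⟩ := exists_nat_ge (64 / ε)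
  have hnε : 64 ≤ n * ε := (div_le_iff₀ hε).mp hn
  have hn0 : 0 < n := by
    rcases Nat.eq_zero_or_pos n with h | h
    · rw [h, Nat.cast_zero, zero_mul] at hnε
      norm_num at hnε
    · exact h
  have hn1 : (1 : ℝ) ≤ n := by exact_mod_cast hn0
  obtain ⟨CF, hCF, hF⟩ := VSG14_exists_F W n hn0
  obtain ⟨C₂, hC₂, htop⟩ := top_vanishes W n hn0 ε hnε CF hCF
  obtain ⟨R, D, B', hB', hzero⟩ := zero_lemma.{u} (2 * (2 * n ^ 2)) 1 CF one_pos hCF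
  obtain ⟨C₃, hC₃, hdesc⟩ := descent K D
  have hd1 : (1 : ℝ) ≤ Module.finrank ℚ K := by
    exact_mod_cast (Module.finrank_pos (R := ℚ) (M := K))
  have hone := fun u : K => (logHeight₁_one_sub u).2
  generalize hd : (Module.finrank ℚ K : ℝ) = d at *
  have hd0 : 0 ≤ d := zero_le_one.trans hd1
  have hlog2 : 0 ≤ Real.log 2 := Real.log_nonneg (by norm_num)
  have hη : (1 : ℝ) / (16 * n ^ 2) ≤ 1 := by
    rw [div_le_one (by positivity)]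
    have : (1 : ℝ) ≤ n ^ 2 := one_le_pow₀ hn1
    linarith
  have q0 : 0 ≤ C₃ * (B' * d + 1) := by positivity
  obtain ⟨K₁, hK₁⟩ : ∃ K₁ : ℝ, K₁ = C₃ * (B' * d + 1) + d * Real.log 2 := ⟨_, rfl⟩
  have q3 : 0 ≤ d * Real.log 2 := mul_nonneg hd0 hlog2
  have q1 : 0 ≤ K₁ := by rw [hK₁]; positivity
  have q2 : 0 ≤ 2 * K₁ / ε := by positivity
  refine ⟨2 * n ^ 2, D, R, C₂ + 1 + K₁ + 2 * K₁ / ε,
    1 / (16 * n ^ 2), by positivity, by positivity, by positivity, ?_⟩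
  intro P u j i₀ hj hj0 hR hP hu0 hu1 hO hHH hQ hQu hq
  obtain ⟨J, hJ⟩ : ∃ J, ∀ i, j i ≤ J := ⟨Finset.univ.sup j, fun i => Finset.le_sup (Finset.mem_univ i)⟩
  obtain ⟨x, w₀, hCS, hwt, hF0, hFn⟩ := hF J j hJ
  have hs0 := s1_FG_ne_zero n J j x w₀ hwt hF0
  obtain ⟨k, l, hkl, hmax⟩ := exists_top (s1 (FG n J j x)) hs0
  have hIG := htop J j i₀ hJ x w₀ hCS hF0 hwt hFn P u hP hu0 hu1 hO (by linarith) hQ hQu hq k l
    hmax
  have hμ : (0 : ℝ) < 8 * n * 4 ^ J := by positivity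
  obtain ⟨t₀, G, hG0, hGv, hGd, hGn, hGe⟩ := hzero K (Fin (2 * n ^ 2) × Fin 2)
    (fun a => 4 ^ j a.1) (cx P u) (tp k l (s1 (FG n J j x))) (8 * n * 4 ^ J)
    (fun t => Nat.one_le_pow _ _ (by norm_num)) (fun t t' => VSG14_weights R j hR t t') hkl
    (by
      refine (Finset.card_le_univ _).trans (le_of_eq ?_)
      rw [Fintype.card_prod, Fintype.card_fin, Fintype.card_fin]
      ring) hμ
    (fun a => VSG14_degree n J j hJ x k l a)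
    (by
      rw [hd]
      refine (nh_tp_le k l _ hkl).trans ((nh_s1_FG_le n J j x w₀ hwt hF0).trans (hFn.trans ?_))
      have e1 : CF * 4 ^ J * 1 ≤ CF * 4 ^ J * (8 * n * d) := by
        refine mul_le_mul_of_nonneg_left ?_ (by positivity)
        have e2 : (1 : ℝ) * 1 ≤ n * d := mul_le_mul hn1 hd1 zero_le_one (by positivity)
        linarith
      linarith)
    (by
      rw [one_mul]
      exact hIG)
  rw [hd] at hGn
  have hGv' : ∀ a ∈ G.vars, a.1 = t₀.1 := by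
    intro a ha
    have h1 : 4 ^ j a.1 = 4 ^ j t₀.1 := hGv a ha
    exact hj.injective (Nat.pow_right_injective (by norm_num : 2 ≤ 4) h1)
  obtain ⟨g₁, hg0, hgd, hgn, hge⟩ := block t₀.1 G hG0 hGv' (cx P u)
  have h4 : (1 : ℝ) ≤ 4 ^ j t₀.1 := one_le_pow₀ (by norm_num)
  have hB : 0 ≤ B' * 4 ^ j t₀.1 * d := by positivity
  have hbd : C₃ * (B' * 4 ^ j t₀.1 * d + 1) ≤ C₃ * (B' * d + 1) * 4 ^ j t₀.1 := by
    have e1 : C₃ * (B' * 4 ^ j t₀.1 * d + 1) ≤ C₃ * (B' * 4 ^ j t₀.1 * d + 4 ^ j t₀.1) :=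
      mul_le_mul_of_nonneg_left (by linarith) hC₃
    linarith
  have hbd2 : C₃ * (B' * 4 ^ j t₀.1 * d + 1) + d * Real.log 2 ≤ K₁ * 4 ^ j t₀.1 := by
    have e1 : d * Real.log 2 * 1 ≤ d * Real.log 2 * 4 ^ j t₀.1 :=
      mul_le_mul_of_nonneg_left h4 q3
    rw [hK₁, add_mul]
    linarith
  have hlow : K₁ * 4 ^ j t₀.1 < hS (P t₀.1) (u t₀.1) := by
    refine lt_of_lt_of_le ?_ (hO t₀.1)
    have e2 := (abs_le.mp (hq t₀.1)).1
    have e3 : 0 ≤ HS (P t₀.1) (u t₀.1) := HS_nonneg _ _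
    have e4 : 1 / (16 * (n : ℝ) ^ 2) * HS (P t₀.1) (u t₀.1) ≤ 1 * HS (P t₀.1) (u t₀.1) :=
      mul_le_mul_of_nonneg_right hη e3
    have e5 : 4 ^ j t₀.1 * HS (P i₀) (u i₀) ≤ 2 * HS (P t₀.1) (u t₀.1) := by linarith
    have e6 : 4 ^ j t₀.1 * (2 * K₁ / ε + 1) ≤ 2 * HS (P t₀.1) (u t₀.1) := by
      refine le_trans (mul_le_mul_of_nonneg_left ?_ (by positivity)) e5
      linarith
    have e7 : ε * (4 ^ j t₀.1 * (2 * K₁ / ε + 1)) ≤ ε * (2 * HS (P t₀.1) (u t₀.1)) :=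
      mul_le_mul_of_nonneg_left e6 hε.le
    have e8 : ε * (4 ^ j t₀.1 * (2 * K₁ / ε + 1)) =
        2 * (K₁ * 4 ^ j t₀.1) + ε * 4 ^ j t₀.1 := by
      field_simp
    have e9 : 0 < ε * 4 ^ j t₀.1 := by positivity
    rw [e8] at e7
    linarith
  obtain ⟨hle1, hle2⟩ := hS_le (P t₀.1) (u t₀.1) (hP t₀.1)
  rw [logHeight_xRep (hP t₀.1)] at hle1
  obtain ⟨g, hgGC, hgp, hgh⟩ := hdesc g₁ (B' * 4 ^ j t₀.1 * d) (fun t => cx P u (t₀.1, t)) hB hg0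
    (fun t => (hgd t).le.trans (hGd _)) (by
      rw [hgn]
      refine hGn.trans (le_of_eq ?_)
      push_cast
      ring) (by rw [hge, hGe]) (by
      intro t
      fin_cases t
      · show C₃ * (B' * 4 ^ j t₀.1 * d + 1) < logHeight₁ ((P t₀.1).xRep 0)
        linarith
      · show C₃ * (B' * 4 ^ j t₀.1 * d + 1) < logHeight₁ (u t₀.1)
        have e1 := hone (u t₀.1)
        linarith)
  refine ⟨t₀.1, g, hgGC, ?_, hgh.trans ?_⟩
  · have e1 : (![(P t₀.1).xRep 0, u t₀.1] : Fin 2 → K) = fun t => cx P u (t₀.1, t) := by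
      funext t
      fin_cases t <;> rfl
    rw [e1]
    exact hgp
  · have e1 : K₁ * 4 ^ j t₀.1 ≤ (C₂ + 1 + K₁ + 2 * K₁ / ε) * 4 ^ j t₀.1 := by
      refine mul_le_mul_of_nonneg_right ?_ (by positivity)
      linarith
    linarith

end Pool.Agent.Lib.MP_17a322_nt.VS
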