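import Pool.Agent.Lib.MP_17a322_nt.VS.Defs
import Pool.Agent.Lib.MP_17a322_nt.VJ.G3b

/-!
# The coefficients of the linear equations; homogeneity
-/

universe u

namespace Pool.Agent.Lib.MP_17a322_nt.VS

open MvPolynomial Height
open Pool.Agent.Lib.MP_17a322_nt.RO Pool.Agent.Lib.MP_17a322_nt.VJ

variable {K : Type*} [Field K] (W : WeierstrassCurve K)

theorem VSG3b_mv_zero (j : ℕ) : mv W 0 j (Polynomial.X : Polynomial K) =
    mu W j ![(Polynomial.X : Polynomial K), 1] := by
  unfold mv
  rw [if_pos rfl]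

theorem VSG3b_mv_one (j : ℕ) : mv W 1 j (Polynomial.X : Polynomial K) =
    ![1, (Polynomial.X : Polynomial K) ^ 4 ^ j] := by
  unfold mv
  rw [if_neg (by decide)]

/-- The form of `TT` for the multiplicative factor. -/
theorem VSG3b_TT (c : Bool) (d γ β j : ℕ) :
    TT c d γ β (![1, (Polynomial.X : Polynomial K) ^ 4 ^ j] : Fin 2 → Polynomial K) =
      if c then (((d - β).choose γ : ℕ) : Polynomial K) * Polynomial.X ^ (4 ^ j * (d - β - γ))
      else ((β.choose γ : ℕ) : Polynomial K) * Polynomial.X ^ (4 ^ j * (d - β)) := by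
  unfold TT
  split_ifs
  · simp only [Matrix.cons_val_zero, Matrix.cons_val_one, one_pow, mul_one, ← pow_mul]
  · simp only [Matrix.cons_val_zero, Matrix.cons_val_one, one_pow, mul_one, ← pow_mul]

/-- VJ `natDegree_TT_le` for `t = 0`; for `t = 1` unfold `TT` (`natDegree_C_mul..`, powers of `X ^ 4 ^ j`). -/
theorem natDegree_TT_mv_le (t : Fin 2) (c : Bool) (d γ β j : ℕ) (hβ : β ≤ d) :
    (TT c d γ β (mv W t j (Polynomial.X : Polynomial K))).natDegree ≤ d * 4 ^ j := by
  fin_cases t
  · have h := natDegree_TT_le W c d γ β j hβ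
    rw [← VSG3b_mv_zero] at h
    exact h
  · have hn : ∀ n : ℕ, ((n : Polynomial K)).natDegree ≤ 0 := fun n =>
      (Polynomial.natDegree_natCast n).le
    have hX : ∀ n : ℕ, ((Polynomial.X : Polynomial K) ^ n).natDegree ≤ n := fun n =>
      Polynomial.natDegree_X_pow_le n
    have h1 : (TT c d γ β (mv W 1 j (Polynomial.X : Polynomial K))).natDegree ≤ d * 4 ^ j := by
      rw [VSG3b_mv_one, VSG3b_TT]
      split_ifs
      · refine (G3b_mul (hn _) (hX _)).trans ?_
        rw [zero_add, mul_comm]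
        exact Nat.mul_le_mul (by omega) le_rfl
      · refine (G3b_mul (hn _) (hX _)).trans ?_
        rw [zero_add, mul_comm]
        exact Nat.mul_le_mul (by omega) le_rfl
    exact h1

/-- VJ `NP_TT_le` for `t = 0`. For `t = 1`: `SN_NP`, the powers of `X` have size `1`, the binomial
coefficient is at most `2 ^ d`, `cst v 2 ≤ lc W v`. -/
theorem NP_TT_mv_le (v : AbsoluteValue K ℝ) (t : Fin 2) (c : Bool) (d γ β j : ℕ)
    (hβ : β ≤ d) (k : ℕ) :
    NP v (fun x => v x) (Polynomial.X ^ k * TT c d γ β (mv W t j (Polynomial.X : Polynomial K))) ≤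
      lc W v ^ (17 * (d * 4 ^ j)) := by
  fin_cases t
  · have h := NP_TT_le W v c d γ β j hβ k
    rw [← VSG3b_mv_zero] at h
    exact h
  · have hS := SN_NP v
    have hlc : 1 ≤ lc W v := one_le_lc W v
    have hlc0 : 0 ≤ lc W v := zero_le_one.trans hlc
    have hX : ∀ n : ℕ, NP v (fun x => v x) ((Polynomial.X : Polynomial K) ^ n) ≤ 1 := by
      intro n
      refine (hS.pow_le _ n).trans ?_
      have h1 : NP v (fun x => v x) (Polynomial.X : Polynomial K) = 1 := NP_X v
      rw [h1, one_pow]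
    have hch : ∀ n : ℕ, n ≤ 2 ^ d →
        NP v (fun x => v x) ((n : ℕ) : Polynomial K) ≤ lc W v ^ d := by
      intro n hn
      have h1 := hS.nsmul_le n 1
      rw [mul_one] at h1
      refine h1.trans ?_
      calc cst v n * NP v (fun x => v x) (1 : Polynomial K)
          ≤ cst v n * 1 := mul_le_mul_of_nonneg_left hS.one_le (cst_nonneg v n)
        _ = cst v n := mul_one _
        _ ≤ cst v (2 ^ d) := cst_mono v hn
        _ = cst v 2 ^ d := cst_pow v 2 d
        _ ≤ lc W v ^ d := pow_le_pow_left₀ (cst_nonneg v 2) (cst_two_le_lc W v) d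
    have hd : lc W v ^ d ≤ lc W v ^ (17 * (d * 4 ^ j)) := by
      refine pow_le_pow_right₀ hlc ?_
      have h2 : 1 ≤ 4 ^ j := Nat.one_le_pow _ _ (by norm_num)
      have h3 : d ≤ d * 4 ^ j := Nat.le_mul_of_pos_right d h2
      omega
    have hTT : ∀ n a : ℕ, n ≤ 2 ^ d →
        NP v (fun x => v x) (Polynomial.X ^ k * (((n : ℕ) : Polynomial K) * Polynomial.X ^ a)) ≤
          lc W v ^ (17 * (d * 4 ^ j)) := by
      intro n a hn
      calc NP v (fun x => v x) (Polynomial.X ^ k * (((n : ℕ) : Polynomial K) * Polynomial.X ^ a))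
          ≤ NP v (fun x => v x) ((Polynomial.X : Polynomial K) ^ k) *
            NP v (fun x => v x) (((n : ℕ) : Polynomial K) * Polynomial.X ^ a) := hS.mul _ _
        _ ≤ 1 * NP v (fun x => v x) (((n : ℕ) : Polynomial K) * Polynomial.X ^ a) :=
            mul_le_mul_of_nonneg_right (hX k) (hS.nonneg _)
        _ = NP v (fun x => v x) (((n : ℕ) : Polynomial K) * Polynomial.X ^ a) := one_mul _
        _ ≤ NP v (fun x => v x) ((n : ℕ) : Polynomial K) *
            NP v (fun x => v x) ((Polynomial.X : Polynomial K) ^ a) := hS.mul _ _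
        _ ≤ lc W v ^ d * 1 := mul_le_mul (hch n hn) (hX a) (hS.nonneg _) (pow_nonneg hlc0 _)
        _ = lc W v ^ d := mul_one _
        _ ≤ _ := hd
    have h1 : NP v (fun x => v x)
        (Polynomial.X ^ k * TT c d γ β (mv W 1 j (Polynomial.X : Polynomial K))) ≤
        lc W v ^ (17 * (d * 4 ^ j)) := by
      rw [VSG3b_mv_one, VSG3b_TT]
      split_ifs
      · exact hTT _ _
          ((Nat.choose_le_two_pow _ _).trans (Nat.pow_le_pow_right (by norm_num) (by omega)))
      · exact hTT _ _
          ((Nat.choose_le_two_pow _ _).trans (Nat.pow_le_pow_right (by norm_num) (by omega)))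
    exact h1

/-- Size of the coefficients of the equations (as VJ `ME_le`). -/
theorem MS_le (v : AbsoluteValue K ℝ) (n J m : ℕ) (j : Fin m → ℕ) (i : Fin m) (hj : j i ≤ J)
    (c : Fin 2 → Bool) (q e : AA m → ℕ) (he : e ∈ box (fun a => DG n J j a + 1)) :
    v (MS W n J j i c q e) ≤ (lc W v ^ (17 * (8 * n * 4 ^ J))) ^ 2 := by
  have h0 : (0 : ℝ) ≤ lc W v ^ (17 * (8 * n * 4 ^ J)) :=
    pow_nonneg (zero_le_one.trans (one_le_lc W v)) _
  have hprod : (lc W v ^ (17 * (8 * n * 4 ^ J))) ^ 2 =
      ∏ _t : Fin 2, lc W v ^ (17 * (8 * n * 4 ^ J)) := by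
    rw [Finset.prod_const, Finset.card_univ, Fintype.card_fin]
  unfold MS
  split_ifs
  · rw [map_prod, hprod]
    refine Finset.prod_le_prod (fun t _ => v.nonneg _) fun t _ => ?_
    refine (coeff_le_NP v _ _).trans ?_
    have h1 : e (some i, t) ≤ 8 * n * 4 ^ (J - j i) := by
      have h2 := Fintype.mem_piFinset.1 he (some i, t)
      exact Nat.lt_succ_iff.1 (Finset.mem_range.1 h2)
    refine (NP_TT_mv_le W v t (c t) (8 * n * 4 ^ (J - j i)) (q (some i, t)) (e (some i, t)) (j i) h1
      (e (none, t))).trans (le_of_eq ?_)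
    rw [mul_assoc (8 * n), ← pow_add, Nat.sub_add_cancel hj]
  · rw [map_zero]
    exact pow_nonneg h0 _

/-- A nonzero coefficient of the multiplicative factor determines the weight. -/
theorem VSG3b_coeff (c : Bool) (a d γ β j q : ℕ)
    (h : (Polynomial.X ^ a * TT c d γ β
      (mv W 1 j (Polynomial.X : Polynomial K))).coeff q ≠ 0) :
    a + 4 ^ j * (d - β) = q + if c then 4 ^ j * γ else 0 := by
  rw [VSG3b_mv_one, VSG3b_TT] at h
  have key : ∀ n b : ℕ, (Polynomial.X ^ a * (((n : ℕ) : Polynomial K) *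
      Polynomial.X ^ b)).coeff q ≠ 0 → n ≠ 0 ∧ q = a + b := by
    intro n b hb
    have e1 : (Polynomial.X ^ a * (((n : ℕ) : Polynomial K) * Polynomial.X ^ b)) =
        Polynomial.C ((n : ℕ) : K) * Polynomial.X ^ (a + b) := by
      rw [pow_add, map_natCast]
      ring
    rw [e1, Polynomial.coeff_C_mul, Polynomial.coeff_X_pow] at hb
    constructor
    · rintro rfl
      apply hb
      rw [Nat.cast_zero, zero_mul]
    · by_contra hq
      apply hb
      rw [if_neg hq, mul_zero]
  by_cases hc : c = true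
  · rw [if_pos hc] at h ⊢
    obtain ⟨h1, h2⟩ := key _ _ h
    have h3 : γ ≤ d - β := by
      by_contra h4
      exact h1 (Nat.choose_eq_zero_of_lt (not_le.mp h4))
    rw [h2, add_assoc, ← mul_add, Nat.sub_add_cancel h3]
  · rw [if_neg hc] at h ⊢
    obtain ⟨_, h2⟩ := key _ _ h
    rw [h2, add_zero]

/-- Every equation involves only exponents of one weight.
Proof. Let `e`, `e'` be in the box with nonzero coefficients in the equation `(i, c, q)`. Then
`e (some i', 1) = q (some i', 1) = e' (some i', 1)` for `i' ≠ i`, and the coefficient of the polynomial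
`X ^ e (none, 1) * TT (c 1) d γ β ![1, X ^ 4 ^ j]` (`d = 8 n 4 ^ (J - j i)`, `γ = q (some i, 1)`,
`β = e (some i, 1) ≤ d`) at `q (none, 1)` is not zero: this polynomial is
`choose β γ * X ^ (e (none, 1) + 4 ^ j (d - β))` (chart `false`) or
`choose (d - β) γ * X ^ (e (none, 1) + 4 ^ j (d - β - γ))` (chart `true`, and then `γ ≤ d - β`). So
`e (none, 1) + 4 ^ j i * (d - β)` is determined by `q`. -/
theorem wt_eq_of_ne_zero (n J m : ℕ) (j : Fin m → ℕ) (i : Fin m) (c : Fin 2 → Bool)
    (q e e' : AA m → ℕ) (he : e ∈ box (fun a => DG n J j a + 1))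
    (he' : e' ∈ box (fun a => DG n J j a + 1)) (h : MS W n J j i c q e ≠ 0)
    (h' : MS W n J j i c q e' ≠ 0) : wt n J j e = wt n J j e' := by
  have key : ∀ e : AA m → ℕ, MS W n J j i c q e ≠ 0 →
      wt n J j e = (q (none, 1) + if c 1 then 4 ^ j i * q (some i, 1) else 0) +
        ∑ i' ∈ Finset.univ.erase i, 4 ^ j i' * (8 * n * 4 ^ (J - j i') - q (some i', 1)) := by
    intro e h
    unfold MS at h
    split_ifs at h with h1
    · rw [Fin.prod_univ_two] at h
      have h2 := VSG3b_coeff W _ _ _ _ _ _ _ (right_ne_zero_of_mul h)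
      unfold wt
      rw [← Finset.add_sum_erase Finset.univ _ (Finset.mem_univ i), ← add_assoc, h2]
      congr 1
      refine Finset.sum_congr rfl fun i' hi' => ?_
      rw [h1 i' (Finset.ne_of_mem_erase hi') 1]
    · exact absurd rfl h
  rw [key e h, key e' h']

/-- The part of weight `w` of a solution is a solution. -/
theorem CS_weight (n J m : ℕ) (j : Fin m → ℕ) (x : (AA m → ℕ) → K) (hx : CS W n J j x) (w : ℕ) :
    CS W n J j (fun e => if wt n J j e = w then x e else 0) := by
  intro i c q hq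
  by_cases hw : ∃ e0 ∈ box (fun a => DG n J j a + 1), MS W n J j i c q e0 ≠ 0 ∧ wt n J j e0 = w
  · obtain ⟨e0, he0, h0, hw0⟩ := hw
    refine Eq.trans (Finset.sum_congr rfl fun e he => ?_) (hx i c q hq)
    beta_reduce
    by_cases h1 : MS W n J j i c q e = 0
    · rw [h1, zero_mul, zero_mul]
    · have h2 := wt_eq_of_ne_zero W n J m j i c q e e0 he he0 h1 h0
      rw [if_pos (h2.trans hw0)]
  · refine Finset.sum_eq_zero fun e he => ?_
    beta_reduce
    by_cases h1 : wt n J j e = w
    · have h2 : MS W n J j i c q e = 0 := by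
        by_contra h3
        exact hw ⟨e, he, h3, h1⟩
      rw [h2, zero_mul]
    · rw [if_neg h1, mul_zero]

end Pool.Agent.Lib.MP_17a322_nt.VS
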