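import Pool.Agent.Lib.MP_17a322_nt.VS.G3b
import Pool.Agent.Lib.MP_17a322_nt.VJ.G4
import Pool.Agent.Lib.MP_17a322_nt.VJ.G2

/-!
From the linear equations to the vanishing of the expansion coefficients; homogeneity.
-/

universe u

namespace Pool.Agent.Lib.MP_17a322_nt.VS

open MvPolynomial Height
open Pool.Agent.Lib.MP_17a322_nt.RO Pool.Agent.Lib.MP_17a322_nt.VJ

/-- Naturality of `mv`. -/
theorem VSG4_aeval_mv {K : Type*} [Field K] (W : WeierstrassCurve K) {A : Type*} [CommRing A]
    [Algebra K A] (t : Fin 2) (j : ℕ) (r : A) (k : Fin 2) :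
    Polynomial.aeval r (mv W t j (Polynomial.X : Polynomial K) k) = mv W t j r k := by
  unfold mv
  split_ifs with h
  · exact aeval_mu_X W j r k
  · fin_cases k
    · simp
    · simp

/-- One unknown: the claim of the proof of `expansion_zero`. -/
theorem VSG4_claim {K : Type*} [Field K] (W : WeierstrassCurve K)
    {L : Type*} [Field L] [Algebra K L] (n J : ℕ) {m : ℕ} (j : Fin m → ℕ) (hj : ∀ i, j i ≤ J)
    (X : Fin 2 → L) (c : Fin m × Fin 2 → Bool)
    (γ : Fin m × Fin 2 → ℕ) (i : Fin m) (hi : ∀ t, γ (i, t) < 4 ^ (J - j i))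
    (T : Fin m × Fin 2 → ℕ → L)
    (hT : ∀ t k, T (i, t) k = TT (c (i, t)) (8 * n * 4 ^ (J - j i)) (γ (i, t)) k
        (mv W t (j i) (X t)))
    (e : AA m → ℕ) (he : e ∈ box (fun a => DG n J j a + 1)) :
    (∏ t, X t ^ e (none, t)) * ∏ a : Fin m × Fin 2, T a (e (some a.1, a.2)) =
      ∑ q ∈ box (DQ n J j i), ((∏ t, X t ^ q (none, t)) *
        ∏ i', ∏ t, (if i' = i then (if q (some i', t) = γ (i', t) then 1 else 0)
          else T (i', t) (q (some i', t)))) *
            algebraMap K L (MS W n J j i (fun t => c (i, t)) q e) := by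
  classical
  have hbox : ∀ a, e a < DG n J j a + 1 := by
    intro a
    exact Finset.mem_range.1 (Fintype.mem_piFinset.1 he a)
  set P : Fin 2 → Polynomial K := fun t => Polynomial.X ^ e (none, t) *
    TT (c (i, t)) (8 * n * 4 ^ (J - j i)) (γ (i, t)) (e (some i, t))
      (mv W t (j i) (Polynomial.X : Polynomial K)) with hP
  -- the factors
  set f : AA m → ℕ → L := fun a k => a.1.elim (X a.2 ^ k * algebraMap K L ((P a.2).coeff k))
    (fun i' => if i' = i then (if k = γ (i', a.2) then 1 else 0)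
      else (if k = e (some i', a.2) then T (i', a.2) k else 0)) with hf
  have h1 : ∀ q ∈ box (DQ n J j i), ((∏ t, X t ^ q (none, t)) *
        ∏ i', ∏ t, (if i' = i then (if q (some i', t) = γ (i', t) then 1 else 0)
          else T (i', t) (q (some i', t)))) *
            algebraMap K L (MS W n J j i (fun t => c (i, t)) q e) = ∏ a, f a (q a) := by
    intro q _
    rw [G4_prod]
    simp only [hf, Option.elim_none, Option.elim_some]
    unfold MS
    by_cases hc : ∀ i', i' ≠ i → ∀ t, q (some i', t) = e (some i', t)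
    · rw [if_pos hc]
      by_cases hg : ∀ t, q (some i, t) = γ (i, t)
      · have e1 : ∀ t, (Polynomial.X ^ e (none, t) * TT (c (i, t)) (8 * n * 4 ^ (J - j i))
            (q (some i, t)) (e (some i, t))
              (mv W t (j i) (Polynomial.X : Polynomial K))).coeff (q (none, t)) =
              (P t).coeff (q (none, t)) := by
          intro t
          rw [hg t]
        simp only [e1]
        rw [map_prod, Finset.prod_mul_distrib, mul_right_comm]
        congr 1
        refine Finset.prod_congr rfl fun i' _ => Finset.prod_congr rfl fun t _ => ?_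
        by_cases hii : i' = i
        · rw [if_pos hii, if_pos hii]
        · rw [if_neg hii, if_neg hii, if_pos (hc i' hii t)]
      · obtain ⟨t, ht⟩ := not_forall.1 hg
        have z1 : ∏ i', ∏ t, (if i' = i then (if q (some i', t) = γ (i', t) then (1 : L) else 0)
            else T (i', t) (q (some i', t))) = 0 := by
          refine Finset.prod_eq_zero (Finset.mem_univ i) (Finset.prod_eq_zero (Finset.mem_univ t) ?_)
          rw [if_pos rfl, if_neg ht]
        have z2 : ∏ i', ∏ t, (if i' = i then (if q (some i', t) = γ (i', t) then (1 : L) else 0)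
            else (if q (some i', t) = e (some i', t) then T (i', t) (q (some i', t)) else 0)) =
              0 := by
          refine Finset.prod_eq_zero (Finset.mem_univ i) (Finset.prod_eq_zero (Finset.mem_univ t) ?_)
          rw [if_pos rfl, if_neg ht]
        rw [z1, z2, mul_zero, zero_mul, mul_zero]
    · rw [if_neg hc, map_zero, mul_zero]
      obtain ⟨i', hi'⟩ := not_forall.1 hc
      obtain ⟨hii, hi''⟩ := Classical.not_imp.1 hi'
      obtain ⟨t, ht⟩ := not_forall.1 hi''
      have z2 : ∏ i', ∏ t, (if i' = i then (if q (some i', t) = γ (i', t) then (1 : L) else 0)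
          else (if q (some i', t) = e (some i', t) then T (i', t) (q (some i', t)) else 0)) =
            0 := by
        refine Finset.prod_eq_zero (Finset.mem_univ i') (Finset.prod_eq_zero (Finset.mem_univ t) ?_)
        rw [if_neg hii, if_neg ht]
      rw [z2, mul_zero]
  rw [Finset.sum_congr rfl h1, G4_box_prod, G4_prod]
  -- the sums
  have hbj : 8 * n * 4 ^ (J - j i) * 4 ^ j i = 8 * n * 4 ^ J := b_mul_pow n J m j i (hj i)
  have s0 : ∀ t, ∑ k ∈ Finset.range (DQ n J j i (none, t)), f (none, t) k =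
      X t ^ e (none, t) * T (i, t) (e (some i, t)) := by
    intro t
    have hei : e (some i, t) ≤ 8 * n * 4 ^ (J - j i) := Nat.lt_succ_iff.1 (hbox (some i, t))
    have he0 : e (none, t) ≤ 8 * n * 4 ^ J := Nat.lt_succ_iff.1 (hbox (none, t))
    have hdeg : (P t).natDegree < DQ n J j i (none, t) := by
      have d1 : (P t).natDegree ≤ e (none, t) + 8 * n * 4 ^ (J - j i) * 4 ^ j i := by
        refine Polynomial.natDegree_mul_le.trans (Nat.add_le_add ?_ ?_)
        · exact Polynomial.natDegree_X_pow_le _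
        · exact natDegree_TT_mv_le W t _ _ _ _ _ hei
      rw [hbj] at d1
      have d2 : DQ n J j i (none, t) = 2 * (8 * n * 4 ^ J) + 1 := rfl
      rw [d2]
      omega
    have e1 := G4_eval (P t) _ hdeg (X t)
    simp only [hf, Option.elim_none]
    rw [e1]
    simp only [hP]
    rw [map_mul, map_pow, Polynomial.aeval_X, hT]
    congr 1
    have e2 := map_TT (Polynomial.aeval (X t) : Polynomial K →ₐ[K] L).toRingHom (c (i, t))
      (8 * n * 4 ^ (J - j i)) (γ (i, t)) (e (some i, t))
      (mv W t (j i) (Polynomial.X : Polynomial K))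
    refine Eq.trans e2 ?_
    congr 1
    funext k
    exact VSG4_aeval_mv W t (j i) (X t) k
  have s1 : ∀ i' t, ∑ k ∈ Finset.range (DQ n J j i (some i', t)), f (some i', t) k =
      if i' = i then 1 else T (i', t) (e (some i', t)) := by
    intro i' t
    simp only [hf, Option.elim_some]
    by_cases hii : i' = i
    · subst hii
      have d2 : DQ n J j i' (some i', t) = 4 ^ (J - j i') := by
        unfold DQ
        simp
      simp only [if_true, d2]
      rw [Finset.sum_ite_eq', if_pos (Finset.mem_range.2 (hi t))]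
    · have d2 : DQ n J j i (some i', t) = DG n J j (some i', t) + 1 := by
        unfold DQ DG
        simp [hii]
      simp only [if_neg hii, d2]
      rw [Finset.sum_ite_eq', if_pos (Finset.mem_range.2 (hbox (some i', t)))]
  simp only [s0, s1]
  rw [Finset.prod_mul_distrib, mul_assoc]
  congr 1
  rw [Fintype.prod_prod_type]
  have p1 : ∏ t, T (i, t) (e (some i, t)) =
      ∏ i', ∏ t, (if i' = i then T (i', t) (e (some i', t)) else 1) := by
    rw [Finset.prod_eq_single i]
    · simp only [if_true]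
    · intro i' _ hii
      simp only [if_neg hii, Finset.prod_const_one]
    · intro h
      exact absurd (Finset.mem_univ i) h
  rw [p1, ← Finset.prod_mul_distrib]
  refine Finset.prod_congr rfl fun i' _ => ?_
  rw [← Finset.prod_mul_distrib]
  refine Finset.prod_congr rfl fun t _ => ?_
  by_cases hii : i' = i
  · rw [if_pos hii, if_pos hii, mul_one]
  · rw [if_neg hii, if_neg hii, one_mul]

/-- The expansion coefficients vanish. Proof: as VJ/G4 `expansion_zero` with `mv W t` instead of
`mu (W t)` (`natDegree_TT_mv_le`; naturality: `aeval r` of the entries of `mv W t j X` are the entries of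
`mv W t j r`). -/
theorem expansion_zero {K : Type*} [Field K] (W : WeierstrassCurve K)
    {L : Type*} [Field L] [Algebra K L] (n J : ℕ) {m : ℕ} (j : Fin m → ℕ) (hj : ∀ i, j i ≤ J)
    (x : (AA m → ℕ) → K) (hx : CS W n J j x) (X : Fin 2 → L) (c : Fin m × Fin 2 → Bool)
    (γ : Fin m × Fin 2 → ℕ) (h : ∃ i, ∀ t, γ (i, t) < 4 ^ (J - j i)) :
    ∑ e ∈ (pe X (FG n J j x)).support, coeff e (pe X (FG n J j x)) *
      ∏ a, TT (c a) (8 * n * 4 ^ (J - j a.1)) (γ a) (e a)
        (mv W a.2 (j a.1) (X a.2)) = 0 := by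
  obtain ⟨i, hi⟩ := h
  rw [sum_pe n J j x X (fun e => ∏ a, TT (c a) (8 * n * 4 ^ (J - j a.1)) (γ a) (e a)
        (mv W a.2 (j a.1) (X a.2)))]
  have h1 := fun e he => VSG4_claim W n J j hj X c γ i hi
    (fun a k => TT (c a) (8 * n * 4 ^ (J - j a.1)) (γ a) k (mv W a.2 (j a.1) (X a.2)))
    (fun t k => rfl) e he
  have h2 : ∀ e ∈ box (fun a => DG n J j a + 1), algebraMap K L (x e) *
        (∏ t, X t ^ e (none, t)) * ∏ a : Fin m × Fin 2,
          TT (c a) (8 * n * 4 ^ (J - j a.1)) (γ a) (e (some a.1, a.2))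
            (mv W a.2 (j a.1) (X a.2)) =
      ∑ q ∈ box (DQ n J j i), ((∏ t, X t ^ q (none, t)) *
        ∏ i', ∏ t, (if i' = i then (if q (some i', t) = γ (i', t) then 1 else 0)
          else TT (c (i', t)) (8 * n * 4 ^ (J - j i')) (γ (i', t)) (q (some i', t))
            (mv W t (j i') (X t)))) *
            algebraMap K L (MS W n J j i (fun t => c (i, t)) q e * x e) := by
    intro e he
    rw [mul_assoc, h1 e he, Finset.mul_sum]
    refine Finset.sum_congr rfl fun q _ => ?_
    rw [map_mul]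
    ring
  rw [Finset.sum_congr rfl h2, Finset.sum_comm]
  refine Finset.sum_eq_zero fun q hq => ?_
  rw [← Finset.mul_sum, ← map_sum, hx i (fun t => c (i, t)) q hq, map_zero, mul_zero]

/-- Homogeneity (7.4).
Proof. By VJ/G2 `coeff_tr` and VJ/G4 `sum_pe` the Taylor coefficient of `pe X (FG ..)` at `ξ` is
`∑_{e ∈ box} x_e X_0 ^ e(none,0) X_1 ^ e(none,1) ∏_a choose (e a) (s a) * ξ a ^ (e a - s a)`. Let `X_1 = U`,
`ξ (i, 1) = r i / U ^ 4 ^ j i`. For `e` with `s a ≤ e a` (the other terms vanish), `x e ≠ 0`, so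
`wt n J j e = w`: `U ^ e(none,1) * ∏_i (U ^ 4 ^ j i)⁻¹ ^ (e (some i,1) - s (i,1)) * U ^ A = U ^ w * U ^ B` with
`A = ∑_i 4 ^ j i * (8 n 4 ^ (J - j i))`, `B = ∑_i 4 ^ j i * s (i,1)` (exponents: `e(none,1) + A = w + ∑_i 4 ^ j i e(some i,1)`,
as `e (some i, 1) ≤ 8 n 4 ^ (J - j i)` in the box). So `U ^ A` times the value for `U` is `U ^ (w + B)` times the
value for `1`. -/
theorem homogeneous {K : Type*} [Field K] {L : Type*} [Field L] [Algebra K L] (n J : ℕ) {m : ℕ}
    (j : Fin m → ℕ) (x : (AA m → ℕ) → K) (w : ℕ) (hw : ∀ e, x e ≠ 0 → wt n J j e = w)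
    (X₀ U : L) (hU : U ≠ 0) (p r : Fin m → L) (s : Fin m × Fin 2 →₀ ℕ)
    (h : coeff s (tr (fun a => if a.2 = 0 then p a.1 else r a.1 / U ^ 4 ^ j a.1)
      (pe ![X₀, U] (FG n J j x))) = 0) :
    coeff s (tr (fun a => if a.2 = 0 then p a.1 else r a.1) (pe ![X₀, 1] (FG n J j x))) = 0 := by
  classical
  have hsum : ∀ (V : L) (ξ : Fin m × Fin 2 → L),
      coeff s (tr ξ (pe ![X₀, V] (FG n J j x))) =
      ∑ e ∈ box (fun a => DG n J j a + 1), algebraMap K L (x e) *
        (∏ t, (![X₀, V] : Fin 2 → L) t ^ e (none, t)) *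
        ∏ a : Fin m × Fin 2, (((e (some a.1, a.2)).choose (s a) : L) *
          ξ a ^ (e (some a.1, a.2) - s a)) := by
    intro V ξ
    rw [coeff_tr]
    exact sum_pe n J j x ![X₀, V] (fun e => ∏ a, (((e a).choose (s a) : L) * ξ a ^ (e a - s a)))
  rw [hsum] at h ⊢
  have key : ∀ e ∈ box (fun a => DG n J j a + 1),
      (algebraMap K L (x e) * (∏ t, (![X₀, 1] : Fin 2 → L) t ^ e (none, t)) *
        ∏ a : Fin m × Fin 2, (((e (some a.1, a.2)).choose (s a) : L) *
          (if a.2 = 0 then p a.1 else r a.1) ^ (e (some a.1, a.2) - s a))) *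
        U ^ (w + ∑ i, 4 ^ j i * s (i, 1)) =
      U ^ (∑ i, 4 ^ j i * (8 * n * 4 ^ (J - j i))) *
      (algebraMap K L (x e) * (∏ t, (![X₀, U] : Fin 2 → L) t ^ e (none, t)) *
        ∏ a : Fin m × Fin 2, (((e (some a.1, a.2)).choose (s a) : L) *
          (if a.2 = 0 then p a.1 else r a.1 / U ^ 4 ^ j a.1) ^ (e (some a.1, a.2) - s a))) := by
    intro e he
    have hbox : ∀ a, e a < DG n J j a + 1 := by
      intro a
      exact Finset.mem_range.1 (Fintype.mem_piFinset.1 he a)
    by_cases hx : x e = 0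
    · rw [hx, map_zero, zero_mul, zero_mul, zero_mul, zero_mul, zero_mul, mul_zero]
    by_cases hs : ∀ a : Fin m × Fin 2, s a ≤ e (some a.1, a.2)
    · have hwt := hw e hx
      have hexp : (∑ i, 4 ^ j i * (e (some i, 1) - s (i, 1))) + (w + ∑ i, 4 ^ j i * s (i, 1)) =
          (∑ i, 4 ^ j i * (8 * n * 4 ^ (J - j i))) + e (none, 1) := by
        rw [← hwt, wt]
        have h1 : ∑ i, 4 ^ j i * (8 * n * 4 ^ (J - j i)) =
            (∑ i, 4 ^ j i * (e (some i, 1) - s (i, 1))) +
            (∑ i, 4 ^ j i * (8 * n * 4 ^ (J - j i) - e (some i, 1))) +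
            ∑ i, 4 ^ j i * s (i, 1) := by
          rw [← Finset.sum_add_distrib, ← Finset.sum_add_distrib]
          refine Finset.sum_congr rfl fun i _ => ?_
          rw [← mul_add, ← mul_add]
          congr 1
          have h2 : e (some i, 1) < 8 * n * 4 ^ (J - j i) + 1 := hbox (some i, 1)
          have h3 : s (i, 1) ≤ e (some i, 1) := hs (i, 1)
          omega
        omega
      have hprod : (∏ a : Fin m × Fin 2, (((e (some a.1, a.2)).choose (s a) : L) *
          (if a.2 = 0 then p a.1 else r a.1) ^ (e (some a.1, a.2) - s a))) =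
          (∏ a : Fin m × Fin 2, (((e (some a.1, a.2)).choose (s a) : L) *
          (if a.2 = 0 then p a.1 else r a.1 / U ^ 4 ^ j a.1) ^ (e (some a.1, a.2) - s a))) *
          U ^ (∑ i, 4 ^ j i * (e (some i, 1) - s (i, 1))) := by
        have h4 : U ^ (∑ i, 4 ^ j i * (e (some i, 1) - s (i, 1))) =
            ∏ a : Fin m × Fin 2, (if a.2 = 0 then (1 : L) else
              U ^ (4 ^ j a.1 * (e (some a.1, a.2) - s a))) := by
          rw [Fintype.prod_prod_type, ← Finset.prod_pow_eq_pow_sum]
          refine Finset.prod_congr rfl fun i _ => ?_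
          rw [Fin.prod_univ_two, if_pos rfl, if_neg (one_ne_zero : (1 : Fin 2) ≠ 0), one_mul]
        rw [h4, ← Finset.prod_mul_distrib]
        refine Finset.prod_congr rfl fun a _ => ?_
        by_cases ha : a.2 = 0
        · rw [if_pos ha, if_pos ha, if_pos ha, mul_one]
        · rw [if_neg ha, if_neg ha, if_neg ha, div_pow, ← pow_mul, mul_assoc,
            div_mul_cancel₀ _ (pow_ne_zero _ hU)]
      have hp1 : (∏ t, (![X₀, 1] : Fin 2 → L) t ^ e (none, t)) = X₀ ^ e (none, 0) := by
        rw [Fin.prod_univ_two]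
        simp
      have hpU : (∏ t, (![X₀, U] : Fin 2 → L) t ^ e (none, t)) =
          X₀ ^ e (none, 0) * U ^ e (none, 1) := by
        rw [Fin.prod_univ_two]
        simp
      rw [hprod, hp1, hpU]
      have h5 : U ^ (∑ i, 4 ^ j i * (e (some i, 1) - s (i, 1))) *
          U ^ (w + ∑ i, 4 ^ j i * s (i, 1)) =
          U ^ (∑ i, 4 ^ j i * (8 * n * 4 ^ (J - j i))) * U ^ e (none, 1) := by
        rw [← pow_add, ← pow_add, hexp]
      linear_combination (algebraMap K L (x e) * X₀ ^ e (none, 0) *
        ∏ a : Fin m × Fin 2, (((e (some a.1, a.2)).choose (s a) : L) *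
          (if a.2 = 0 then p a.1 else r a.1 / U ^ 4 ^ j a.1) ^ (e (some a.1, a.2) - s a))) * h5
    · obtain ⟨a, ha⟩ := not_forall.1 hs
      have hc : (((e (some a.1, a.2)).choose (s a) : ℕ) : L) = 0 := by
        rw [Nat.choose_eq_zero_of_lt (not_le.1 ha), Nat.cast_zero]
      have z1 : ∀ ξ : Fin m × Fin 2 → L, (∏ a : Fin m × Fin 2,
          (((e (some a.1, a.2)).choose (s a) : L) * ξ a ^ (e (some a.1, a.2) - s a))) = 0 := by
        intro ξ
        refine Finset.prod_eq_zero (Finset.mem_univ a) ?_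
        rw [hc, zero_mul]
      rw [z1 (fun a => if a.2 = 0 then p a.1 else r a.1),
        z1 (fun a => if a.2 = 0 then p a.1 else r a.1 / U ^ 4 ^ j a.1), mul_zero, zero_mul,
        mul_zero, mul_zero]
  have hfin := Finset.sum_congr rfl key
  rw [← Finset.sum_mul, ← Finset.mul_sum, h, mul_zero] at hfin
  exact (mul_eq_zero.1 hfin).resolve_right (pow_ne_zero _ hU)

end Pool.Agent.Lib.MP_17a322_nt.VS
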