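import Pool.Agent.Lib.MP_17a322_nt.VS.G4
import Pool.Agent.Lib.MP_17a322_nt.VJ.G2
import Pool.Agent.Lib.MP_17a322_nt.VJ.G5

/-!
# The local inequality of stage 0
-/

universe u

namespace Pool.Agent.Lib.MP_17a322_nt.VS

open MvPolynomial Height
open Pool.Agent.Lib.MP_17a322_nt.RO Pool.Agent.Lib.MP_17a322_nt.VJ

/-- (7.2) for the multiplicative group.
Proof. `U ^ a * y - 1 = u - 1`; `max 1 |U^a| * max 1 |y| ≥ max 1 |u|`; so `dl ≤ |1 - u| / max 1 |u|`, and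
`|1 - u| ^ 2 * max 1 (1 / |1 - u|) = |1 - u| * max (|1 - u|) 1 ≤ cst(2) ^ 2 * (max 1 |u|) ^ 2`
(`|1 - u| ≤ cst(2) * max 1 |u|`). -/
theorem dl_G_le {L : Type*} [Field L] (v : AbsoluteValue L ℝ) (a : ℕ) (U y u : L)
    (hu : u = U ^ a * y) (hu1 : u ≠ 1) :
    dl v ![1, U ^ a] y ^ 2 ≤ cst v 2 ^ 2 / max 1 (v (1 - u)⁻¹) := by
  have hc1 : (1 : ℝ) ≤ cst v 2 := one_le_cst v (by norm_num)
  have hc0 : (0 : ℝ) < cst v 2 := by linarith
  have hne : (1 - u) ≠ 0 := sub_ne_zero.2 (Ne.symm hu1)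
  have ht0 : 0 < v (1 - u) := v.pos hne
  have hvn : vn v ![1, U ^ a] = max 1 (v (U ^ a)) := by
    unfold vn
    simp
  have hw1 : (1 : ℝ) ≤ max 1 (v u) := le_max_left _ _
  have hw0 : (0 : ℝ) < max 1 (v u) := zero_lt_one.trans_le hw1
  have htw : v (1 - u) ≤ cst v 2 * max 1 (v u) :=
    (SN_self v).sub_le_cst (by rw [map_one]; exact le_max_left _ _) (le_max_right _ _)
  have hden : max 1 (v u) ≤ max 1 (v (U ^ a)) * max 1 (v y) := by
    refine max_le (one_le_mul_of_one_le_of_one_le (le_max_left _ _) (le_max_left _ _)) ?_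
    rw [hu, map_mul]
    exact mul_le_mul (le_max_right _ _) (le_max_right _ _) (v.nonneg _)
      (zero_le_one.trans (le_max_left _ _))
  have hdl : dl v ![1, U ^ a] y ≤ v (1 - u) / max 1 (v u) := by
    unfold dl
    rw [hvn]
    have h1 : v ((![1, U ^ a] : Fin 2 → L) 1 * y - (![1, U ^ a] : Fin 2 → L) 0) = v (1 - u) := by
      rw [← v.map_neg]
      congr 1
      rw [hu]
      show -(U ^ a * y - 1) = 1 - U ^ a * y
      ring
    rw [h1]
    exact div_le_div_of_nonneg_left ht0.le hw0 hden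
  have hdl0 : 0 ≤ dl v ![1, U ^ a] y := dl_nonneg v _ _
  refine (pow_le_pow_left₀ hdl0 hdl 2).trans ?_
  rw [div_pow, div_le_div_iff₀ (by positivity) (by positivity)]
  rw [map_inv₀]
  have hkey : v (1 - u) ^ 2 * max 1 (v (1 - u))⁻¹ ≤ cst v 2 ^ 2 * max 1 (v u) ^ 2 := by
    rw [mul_max_of_nonneg _ _ (sq_nonneg _), mul_one]
    have h2 : v (1 - u) ^ 2 * (v (1 - u))⁻¹ = v (1 - u) := by
      field_simp
    rw [h2, ← mul_pow]
    refine max_le (pow_le_pow_left₀ ht0.le htw 2) ?_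
    refine htw.trans ?_
    exact le_self_pow₀ (one_le_mul_of_one_le_of_one_le hc1 hw1) (by norm_num)
  exact hkey

/-- The local inequality. Proof: as VJ/G5 `local_bound` with `Λ = lc W v` (so the exponent of `lc W v` is
`54 m b`; `cst v 2 ≤ lc W v`), `R (i, t) = mv W t (j i) (X t)`, `X = ![z.xRep 0, U]`, and `dl_G_le` for `t = 1`
(`vn v ![U, 1] = max (v U) 1`). -/
theorem local_bound {K : Type u} [Field K] (W : WeierstrassCurve K)
    [W.IsElliptic] {L : Type u} [Field L] [DecidableEq L] [Algebra K L]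
    (V : WeierstrassCurve L) (hV : W.map (algebraMap K L) = V)
    (v : AbsoluteValue L ℝ) (n J : ℕ) {m : ℕ} (j : Fin m → ℕ) (hj : ∀ i, j i ≤ J)
    (x : (AA m → ℕ) → K) (hx : CS W n J j x) (z : V.toAffine.Point)
    (P Q : Fin m → V.toAffine.Point) (U : L) (u y : Fin m → L)
    (hP : ∀ i, P i = 2 ^ j i • z + Q i) (hz : z ≠ 0) (hQ : ∀ i, Q i ≠ 0)
    (hu : ∀ i, u i = U ^ 4 ^ j i * y i) (hu1 : ∀ i, u i ≠ 1) (s : Fin m × Fin 2 →₀ ℕ) :
    v (coeff s (tr (cx Q y) (pe ![z.xRep 0, U] (FG n J j x)))) ^ 2 *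
        ∏ i, (min (vn v (P i).xRep) (max 1 (v (1 - u i)⁻¹))) ^
          (4 ^ (J - j i) - (s (i, 0) + s (i, 1))) ≤
      lc W v ^ (54 * m * (8 * n * 4 ^ J)) *
        NV v (MvPolynomial.map (algebraMap K L) (FG n J j x)) ^ 2 *
          (vn v z.xRep * max 1 (v U)) ^ (2 * (8 * n * 4 ^ J)) *
            ∏ i, (vn v (Q i).xRep * max 1 (v (y i))) ^ (2 * (8 * n * 4 ^ (J - j i))) := by
  classical
  set X : Fin 2 → L := ![z.xRep 0, U] with hX
  set F := FG n J j x with hF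
  set Λ : ℝ := lc W v with hΛ
  set p : Fin m → ℝ := fun i => min (vn v (P i).xRep) (max 1 (v (1 - u i)⁻¹)) with hp
  set R : Fin m × Fin 2 → Fin 2 → L := fun a => mv W a.2 (j a.1) (X a.2) with hR
  set ξ : Fin m × Fin 2 → L := cx Q y with hξ
  have hΛ1 : 1 ≤ Λ := one_le_lc W v
  have hcst : cst v 2 ≤ Λ := cst_two_le_lc W v
  have hcst0 : 0 ≤ cst v 2 := cst_nonneg v 2
  have hp1 : ∀ i, 1 ≤ p i := fun i => le_min (one_le_vn_xRep v (P i)) (le_max_left _ _)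
  have hR0' : ∀ i, R (i, 0) = mu W (j i) ![z.xRep 0, 1] := by
    intro i
    rfl
  have hR1' : ∀ i, R (i, 1) = ![1, U ^ 4 ^ j i] := by
    intro i
    rfl
  have hξ0 : ∀ i, ξ (i, 0) = (Q i).xRep 0 := fun i => rfl
  have hξ1 : ∀ i, ξ (i, 1) = y i := fun i => rfl
  have hRc : ∀ i, ∃ c : L, c ≠ 0 ∧ R (i, 0) = c • (2 ^ j i • z).xRep := by
    intro i
    obtain ⟨c, hc, h⟩ := mu_xRep W V hV (j i) z
    refine ⟨c, hc, ?_⟩
    rw [← h, hR0', ← xRep_eq hz]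
  have hR0 : ∀ a, R a ≠ 0 := by
    rintro ⟨i, t⟩ h
    fin_cases t
    · obtain ⟨c, hc, h'⟩ := hRc i
      have h2 : R (i, 0) = 0 := h
      rw [h'] at h2
      exact (smul_ne_zero hc (xRep_ne_zero _)) h2
    · have h2 : R (i, 1) = 0 := h
      rw [hR1'] at h2
      have h3 := congrFun h2 0
      exact one_ne_zero h3
  have hvQ : ∀ i, vn v (Q i).xRep = max 1 (v (ξ (i, 0))) := by
    intro i
    rw [vn_xRep v (hQ i), max_comm, hξ0]
  have hvz : vn v z.xRep = max 1 (v (X 0)) := by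
    rw [vn_xRep v hz, max_comm]
    rfl
  have hdl0 : ∀ i, dl v (R (i, 0)) (ξ (i, 0)) ^ 2 ≤ Λ ^ 17 / p i := by
    intro i
    obtain ⟨c, hc, h'⟩ := hRc i
    rw [h', dl_smul v c hc]
    have h1 := local_delta W V hV v (2 ^ j i • z) (Q i)
    rw [← hP i] at h1
    have h2 : dl v (2 ^ j i • z).xRep (ξ (i, 0)) =
        v (wd (2 ^ j i • z).xRep (Q i).xRep) /
          (vn v (2 ^ j i • z).xRep * vn v (Q i).xRep) := by
      unfold dl
      rw [hvQ i]
      congr 1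
      unfold wd
      rw [xRep_one (hQ i), mul_one, ← v.map_neg, hξ0]
      congr 1
      ring
    rw [h2]
    refine h1.trans ?_
    exact div_le_div₀ (by positivity) le_rfl (lt_of_lt_of_le one_pos (hp1 i)) (min_le_left _ _)
  have hdl1 : ∀ i, dl v (R (i, 1)) (ξ (i, 1)) ^ 2 ≤ Λ ^ 17 / p i := by
    intro i
    rw [hR1', hξ1]
    refine (dl_G_le v (4 ^ j i) U (y i) (u i) (hu i) (hu1 i)).trans ?_
    refine div_le_div₀ (by positivity) ?_ (lt_of_lt_of_le one_pos (hp1 i)) (min_le_right _ _)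
    exact (pow_le_pow_left₀ hcst0 hcst 2).trans (pow_le_pow_right₀ hΛ1 (by norm_num))
  have hdl : ∀ i t, dl v (R (i, t)) (ξ (i, t)) ^ 2 ≤ Λ ^ 17 / p i := by
    intro i t
    fin_cases t
    · exact hdl0 i
    · exact hdl1 i
  set k : Fin m → ℕ := fun i => 4 ^ (J - j i) with hk
  set b : Fin m → ℕ := fun i => 8 * n * 4 ^ (J - j i) with hb
  set M2 : ℝ := ∏ i, (Λ ^ (34 * b i) / p i ^ (k i - (s (i, 0) + s (i, 1)))) with hM2
  have hM20 : 0 ≤ M2 := Finset.prod_nonneg fun i _ =>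
    div_nonneg (pow_nonneg (zero_le_one.trans hΛ1) _) (pow_nonneg (zero_le_one.trans (hp1 i)) _)
  have hdeg : ∀ a : Fin m × Fin 2, (pe X F).degreeOf a ≤ b a.1 := fun a =>
    (degreeOf_pe_le X F a).trans (degreeOf_FG_le n J j x (some a.1, a.2))
  have key := local_multi v (fun a : Fin m × Fin 2 => b a.1) R hR0 ξ (pe X F) hdeg s
    (fun γ => ∃ i, ∀ t, γ (i, t) < 4 ^ (J - j i))
    (fun c γ _ hγ => expansion_zero W n J j hj x hx X c γ hγ)
    (√M2) (Real.sqrt_nonneg _) (by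
      intro γ hγ hnot
      refine Real.le_sqrt_of_sq_le ?_
      refine prod_dl_le b k (fun a => dl v (R a) (ξ a)) (fun a => dl_nonneg v _ _) Λ hΛ1 p hp1
        hdl γ s hγ ?_
      intro i
      by_contra hc
      refine hnot ⟨i, fun t => ?_⟩
      by_contra hc'
      exact hc ⟨t, not_lt.1 hc'⟩)
  have hsum : ∑ a : Fin m × Fin 2, b a.1 = 2 * ∑ i, b i := by
    rw [Fintype.sum_prod_type]
    simp only [Finset.sum_const, Finset.card_univ, Fintype.card_fin, smul_eq_mul]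
    rw [Finset.mul_sum]
  have hNV0 : 0 ≤ NV v (pe X F) := (SN_NV v).nonneg _
  -- square
  have hsq : v (coeff s (tr ξ (pe X F))) ^ 2 ≤
      cst v 2 ^ (20 * ∑ i, b i) * NV v (pe X F) ^ 2 *
        (∏ a : Fin m × Fin 2, (max 1 (v (ξ a))) ^ (2 * b a.1)) * M2 := by
    have h1 := pow_le_pow_left₀ (v.nonneg _) key 2
    refine h1.trans (le_of_eq ?_)
    rw [mul_pow, mul_pow, mul_pow, Real.sq_sqrt hM20, ← pow_mul, ← Finset.prod_pow]
    congr 2
    · congr 2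
      rw [hsum]
      ring
    · refine Finset.prod_congr rfl fun a _ => ?_
      rw [← pow_mul, mul_comm]
  have hprod : M2 * ∏ i, p i ^ (4 ^ (J - j i) - (s (i, 0) + s (i, 1))) = Λ ^ (34 * ∑ i, b i) := by
    rw [hM2, ← Finset.prod_mul_distrib, Finset.mul_sum, ← Finset.prod_pow_eq_pow_sum]
    refine Finset.prod_congr rfl fun i _ => ?_
    exact div_mul_cancel₀ _ (pow_pos (lt_of_lt_of_le one_pos (hp1 i)) _).ne'
  have hbsum : ∑ i, b i ≤ m * (8 * n * 4 ^ J) := by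
    have h1 : ∀ i ∈ (Finset.univ : Finset (Fin m)), b i ≤ 8 * n * 4 ^ J :=
      fun i _ => sum_DG_le n J m j i
    refine (Finset.sum_le_card_nsmul _ _ _ h1).trans ?_
    rw [Finset.card_univ, Fintype.card_fin, smul_eq_mul]
  have hconst : cst v 2 ^ (20 * ∑ i, b i) * Λ ^ (34 * ∑ i, b i) ≤
      Λ ^ (54 * m * (8 * n * 4 ^ J)) := by
    refine (mul_le_mul_of_nonneg_right (pow_le_pow_left₀ hcst0 hcst _)
      (pow_nonneg (zero_le_one.trans hΛ1) _)).trans ?_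
    rw [← pow_add]
    refine pow_le_pow_right₀ hΛ1 ?_
    have h2 : 20 * ∑ i, b i + 34 * ∑ i, b i = 54 * ∑ i, b i := by ring
    rw [h2, mul_assoc]
    exact Nat.mul_le_mul_left 54 hbsum
  have hNV : NV v (pe X F) ^ 2 ≤ NV v (MvPolynomial.map (algebraMap K L) F) ^ 2 *
      (vn v z.xRep * max 1 (v U)) ^ (2 * (8 * n * 4 ^ J)) := by
    have h1 := NV_pe_le v (8 * n * 4 ^ J) X F (fun t => degreeOf_FG_le n J j x (none, t))
    have h2 := pow_le_pow_left₀ hNV0 h1 2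
    refine h2.trans (le_of_eq ?_)
    have hX1 : X 1 = U := rfl
    rw [Fin.prod_univ_two, ← hvz, hX1, ← mul_pow (vn v z.xRep), mul_pow (NV v _), ← pow_mul,
      mul_comm (8 * n * 4 ^ J) 2]
  have hQprod : ∏ a : Fin m × Fin 2, (max 1 (v (ξ a))) ^ (2 * b a.1) =
      ∏ i, (vn v (Q i).xRep * max 1 (v (y i))) ^ (2 * (8 * n * 4 ^ (J - j i))) := by
    rw [Fintype.prod_prod_type]
    refine Finset.prod_congr rfl fun i _ => ?_
    rw [Fin.prod_univ_two, hvQ i, mul_pow, hξ1]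
  have hpp : 0 ≤ ∏ i, p i ^ (4 ^ (J - j i) - (s (i, 0) + s (i, 1))) :=
    Finset.prod_nonneg fun i _ => pow_nonneg (zero_le_one.trans (hp1 i)) _
  rw [← hQprod]
  refine (mul_le_mul_of_nonneg_right hsq hpp).trans ?_
  have hpr1 : 0 ≤ ∏ a : Fin m × Fin 2, (max 1 (v (ξ a))) ^ (2 * b a.1) :=
    Finset.prod_nonneg fun a _ => by positivity
  calc cst v 2 ^ (20 * ∑ i, b i) * NV v (pe X F) ^ 2 *
        (∏ a : Fin m × Fin 2, (max 1 (v (ξ a))) ^ (2 * b a.1)) * M2 *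
          ∏ i, p i ^ (4 ^ (J - j i) - (s (i, 0) + s (i, 1)))
      = (cst v 2 ^ (20 * ∑ i, b i) * Λ ^ (34 * ∑ i, b i)) * NV v (pe X F) ^ 2 *
        (∏ a : Fin m × Fin 2, (max 1 (v (ξ a))) ^ (2 * b a.1)) := by
          rw [← hprod]
          ring
    _ ≤ Λ ^ (54 * m * (8 * n * 4 ^ J)) * (NV v (MvPolynomial.map (algebraMap K L) F) ^ 2 *
          (vn v z.xRep * max 1 (v U)) ^ (2 * (8 * n * 4 ^ J))) *
        (∏ a : Fin m × Fin 2, (max 1 (v (ξ a))) ^ (2 * b a.1)) := by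
          refine mul_le_mul_of_nonneg_right ?_ hpr1
          exact mul_le_mul hconst hNV (sq_nonneg _) (pow_nonneg (zero_le_one.trans hΛ1) _)
    _ = Λ ^ (54 * m * (8 * n * 4 ^ J)) * NV v (MvPolynomial.map (algebraMap K L) F) ^ 2 *
          (vn v z.xRep * max 1 (v U)) ^ (2 * (8 * n * 4 ^ J)) *
        (∏ a : Fin m × Fin 2, (max 1 (v (ξ a))) ^ (2 * b a.1)) := by ring

end Pool.Agent.Lib.MP_17a322_nt.VS
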