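import Pool.Agent.Lib.MP_17a322_nt.VS.Defs
import Pool.Agent.Lib.MP_17a322_nt.VJ.G6a

/-!
# The height with respect to the origin
-/

universe u

namespace Pool.Agent.Lib.MP_17a322_nt.VS

open MvPolynomial Height
open Pool.Agent.Lib.MP_17a322_nt.RO Pool.Agent.Lib.MP_17a322_nt.VJ

section

variable {L : Type*} [Field L] [AdmissibleAbsValues L] {V : WeierstrassCurve L}
  (P : V.toAffine.Point) (u : L)

omit [AdmissibleAbsValues L] in
theorem VSG6a_sup (hP : P ≠ 0) (v : AbsoluteValue L ℝ) :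
    max (vn v P.xRep) (max 1 (v (1 - u)⁻¹)) =
      ⨆ i, v ((![1, P.xRep 0, (1 - u)⁻¹] : Fin 3 → L) i) := by
  unfold vn
  rw [G6a_xRep_one hP]
  refine eq_of_forall_ge_iff fun c => ?_
  rw [ciSup_le_iff (Set.finite_range _).bddAbove]
  simp only [max_le_iff, Fin.forall_fin_succ, Matrix.cons_val_zero, Matrix.cons_val_succ,
    map_one, IsEmpty.forall_iff, and_true]
  tauto

theorem VSG6a_log_min (hP : P ≠ 0) :
    (fun v : AbsoluteValue L ℝ => Real.log (min (vn v P.xRep) (max 1 (v (1 - u)⁻¹)))) =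
      fun v => (Real.log (vn v P.xRep) + Real.log (max 1 (v (1 - u)⁻¹))) -
        Real.log (⨆ i, v ((![1, P.xRep 0, (1 - u)⁻¹] : Fin 3 → L) i)) := by
  funext v
  rw [← VSG6a_sup P u hP v]
  have h0 : 0 < vn v P.xRep := lt_of_lt_of_le one_pos (G6a_one_le hP v)
  have h1 : 0 < max 1 (v (1 - u)⁻¹) := lt_of_lt_of_le one_pos (le_max_left _ _)
  rw [← Real.log_mul h0.ne' h1.ne', ← min_mul_max (vn v P.xRep) (max 1 (v (1 - u)⁻¹)),
    Real.log_mul (lt_min h0 h1).ne' (lt_max_of_lt_left h0).ne', add_sub_cancel_right]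

/-- As VJ/G6a. -/
theorem FS_log_min (hP : P ≠ 0) :
    FS (fun v : AbsoluteValue L ℝ => Real.log (min (vn v P.xRep) (max 1 (v (1 - u)⁻¹)))) := by
  rw [VSG6a_log_min P u hP]
  exact FS_sub (FS_add (FS_log_vn P.xRep_ne_zero) (FS_log_max _))
    (FS_log_iSup (G6a_vec_ne _ _))

theorem gs_log_min (hP : P ≠ 0) :
    gs (fun v : AbsoluteValue L ℝ => Real.log (min (vn v P.xRep) (max 1 (v (1 - u)⁻¹)))) =
      hS P u := by
  rw [VSG6a_log_min P u hP, gs_sub (FS_add (FS_log_vn P.xRep_ne_zero)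
    (FS_log_max _)) (FS_log_iSup (G6a_vec_ne _ _)),
    gs_add (FS_log_vn P.xRep_ne_zero) (FS_log_max _),
    gs_log_vn P.xRep_ne_zero, gs_log_max, gs_log_iSup (G6a_vec_ne _ _)]
  rfl

theorem hS_nonneg (hP : P ≠ 0) : 0 ≤ hS P u := by
  rw [← gs_log_min P u hP]
  exact gs_nonneg fun v _ => Real.log_nonneg (le_min (G6a_one_le hP v) (le_max_left _ _))

theorem hS_le (hP : P ≠ 0) : hS P u ≤ logHeight P.xRep ∧ hS P u ≤ logHeight₁ (1 - u)⁻¹ := by
  have h0 : ∀ v : AbsoluteValue L ℝ, 0 < min (vn v P.xRep) (max 1 (v (1 - u)⁻¹)) := fun v =>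
    lt_of_lt_of_le one_pos (le_min (G6a_one_le hP v) (le_max_left _ _))
  rw [← gs_log_min P u hP, ← gs_log_vn P.xRep_ne_zero, ← gs_log_max]
  refine ⟨?_, ?_⟩
  · exact gs_le (FS_log_min P u hP) (FS_log_vn P.xRep_ne_zero) fun v _ =>
      Real.log_le_log (h0 v) (min_le_left _ _)
  · exact gs_le (FS_log_min P u hP) (FS_log_max _) fun v _ =>
      Real.log_le_log (h0 v) (min_le_right _ _)

theorem two_hS_le (hP : P ≠ 0) : 2 * hS P u ≤ HS P u := by
  have h := hS_le P u hP
  unfold HS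
  linarith [h.1, h.2]

theorem HS_nonneg : 0 ≤ HS P u :=
  add_nonneg (logHeight_xRep_nonneg P) (zero_le_logHeight₁ _)

end

/-- The heights of `u` and of `1 / (1 - u)` differ by a bounded amount. -/
theorem logHeight₁_one_sub {K : Type u} [Field K] [NumberField K] (u : K) :
    logHeight₁ u ≤ logHeight₁ (1 - u)⁻¹ + Module.finrank ℚ K * Real.log 2 ∧
      logHeight₁ (1 - u)⁻¹ ≤ logHeight₁ u + Module.finrank ℚ K * Real.log 2 := by
  have h1 := logHeight₁_sub_le (1 : K) u
  have h2 := logHeight₁_sub_le (1 : K) (1 - u)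
  rw [sub_sub_cancel] at h2
  rw [logHeight₁_one, NumberField.totalWeight_eq_finrank] at h1 h2
  rw [logHeight₁_inv]
  constructor <;> linarith

section

variable {K L : Type u} [Field K] [NumberField K] [DecidableEq K] [Field L] [NumberField L]
  [DecidableEq L] [Algebra K L] {W : WeierstrassCurve K} {V : WeierstrassCurve L}
  {f : W.toAffine.Point →+ V.toAffine.Point}

/-- Base change (as VJ/G6a). -/
theorem HS_PB (hf : PB W V f) (P : W.toAffine.Point) (u : K) :
    HS (f P) (algebraMap K L u) = Module.finrank K L * HS P u := by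
  unfold HS
  have h : (1 - algebraMap K L u)⁻¹ = algebraMap K L (1 - u)⁻¹ := by
    rw [map_inv₀, map_sub, map_one]
  rw [mul_add, hf.logHeight P, h, logHeight₁_algebraMap]

theorem hS_PB (hf : PB W V f) (P : W.toAffine.Point) (u : K) :
    hS (f P) (algebraMap K L u) = Module.finrank K L * hS P u := by
  unfold hS
  rw [HS_PB hf P u, mul_sub]
  congr 1
  rw [← RV.logHeight_algebraMap]
  congr 1
  funext i
  fin_cases i
  · simp
  · exact hf P 0
  · show (1 - algebraMap K L u)⁻¹ = algebraMap K L (1 - u)⁻¹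
    rw [map_inv₀, map_sub, map_one]

end

end Pool.Agent.Lib.MP_17a322_nt.VS
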