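import Pool.Agent.Lib.MP_17a322_nt.VS.G5
import Pool.Agent.Lib.MP_17a322_nt.VS.G6a
import Pool.Agent.Lib.MP_17a322_nt.VJ.G6

/-!
# The global inequality of stage 0
-/

universe u

namespace Pool.Agent.Lib.MP_17a322_nt.VS

open MvPolynomial Height
open Pool.Agent.Lib.MP_17a322_nt.RO Pool.Agent.Lib.MP_17a322_nt.VJ

/-- Proof: as VJ/G6 `global_ineq` (logarithm of `local_bound`, sum over all places);
`gs (log max 1 (v U)) = logHeight₁ U`. -/
theorem global_ineq {K L : Type u} [Field K] [NumberField K] [Field L] [NumberField L]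
    [DecidableEq L] [Algebra K L] (W : WeierstrassCurve K) [W.IsElliptic]
    (V : WeierstrassCurve L) (hV : W.map (algebraMap K L) = V)
    (n J : ℕ) {m : ℕ} (j : Fin m → ℕ) (hj : ∀ i, j i ≤ J)
    (x : (AA m → ℕ) → K) (hx : CS W n J j x) (hF : FG n J j x ≠ 0)
    (z : V.toAffine.Point) (P Q : Fin m → V.toAffine.Point) (U : L) (u y : Fin m → L)
    (hPQ : ∀ i, P i = 2 ^ j i • z + Q i) (hP : ∀ i, P i ≠ 0)
    (hz : z ≠ 0) (hQ : ∀ i, Q i ≠ 0)
    (hu : ∀ i, u i = U ^ 4 ^ j i * y i) (hu1 : ∀ i, u i ≠ 1) (s : Fin m × Fin 2 →₀ ℕ)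
    (hs : coeff s (tr (cx Q y) (pe ![z.xRep 0, U] (FG n J j x))) ≠ 0) :
    ∑ i, ((4 ^ (J - j i) - (s (i, 0) + s (i, 1)) : ℕ) : ℝ) * hS (P i) (u i) ≤
      2 * nh (MvPolynomial.map (algebraMap K L) (FG n J j x)) +
        2 * (8 * n * 4 ^ J) * (logHeight z.xRep + logHeight₁ U) +
        2 * ∑ i, (8 * n * 4 ^ (J - j i)) * (logHeight (Q i).xRep + logHeight₁ (y i)) +
        54 * m * (8 * n * 4 ^ J) * gs (fun v : AbsoluteValue L ℝ => Real.log (lc W v)) := by
  classical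
  set Y : L := coeff s (tr (cx Q y) (pe ![z.xRep 0, U] (FG n J j x))) with hY
  set F : MvPolynomial (AA m) L := MvPolynomial.map (algebraMap K L) (FG n J j x) with hFdef
  have hF' : F ≠ 0 := by
    intro h0
    apply hF
    apply MvPolynomial.map_injective (algebraMap K L) (algebraMap K L).injective
    rw [← hFdef, h0, map_zero]
  have hVN : ∀ (v : AbsoluteValue L ℝ) (R : V.toAffine.Point), 0 < vn v R.xRep :=
    fun v R => vn_pos v (xRep_ne_zero R)
  have hmx : ∀ (v : AbsoluteValue L ℝ) (r : L), 0 < max 1 (v r) :=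
    fun v r => lt_max_of_lt_left one_pos
  have hmin : ∀ (v : AbsoluteValue L ℝ) (i : Fin m),
      0 < min (vn v (P i).xRep) (max 1 (v (1 - u i)⁻¹)) :=
    fun v i => lt_min (hVN v _) (hmx v _)
  have hloc : ∀ v : AbsoluteValue L ℝ,
      2 * Real.log (v Y) + ∑ i, ((4 ^ (J - j i) - (s (i, 0) + s (i, 1)) : ℕ) : ℝ) *
        Real.log (min (vn v (P i).xRep) (max 1 (v (1 - u i)⁻¹))) ≤
      (((54 * m * (8 * n * 4 ^ J) : ℕ) : ℝ) * Real.log (lc W v) +
        2 * Real.log (NV v F)) +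
        (((2 * (8 * n * 4 ^ J) : ℕ) : ℝ) * (Real.log (vn v z.xRep) + Real.log (max 1 (v U))) +
        ∑ i, ((2 * (8 * n * 4 ^ (J - j i)) : ℕ) : ℝ) *
          (Real.log (vn v (Q i).xRep) + Real.log (max 1 (v (y i))))) := by
    intro v
    have h := local_bound W V hV v n J j hj x hx z P Q U u y hPQ hz hQ hu hu1 s
    rw [← hY, ← hFdef] at h
    have hy0 : 0 < v Y := v.pos hs
    have hNV : 0 < NV v F := NV_pos v hF'
    have hlc : 0 < lc W v := lt_of_lt_of_le one_pos (one_le_lc W v)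
    have h1 : 0 < v Y ^ 2 * ∏ i, (min (vn v (P i).xRep) (max 1 (v (1 - u i)⁻¹))) ^
        (4 ^ (J - j i) - (s (i, 0) + s (i, 1))) :=
      mul_pos (pow_pos hy0 2) (Finset.prod_pos fun i _ => pow_pos (hmin v i) _)
    have h2 := Real.log_le_log h1 h
    have e1 : Real.log (v Y ^ 2 * ∏ i, (min (vn v (P i).xRep) (max 1 (v (1 - u i)⁻¹))) ^
        (4 ^ (J - j i) - (s (i, 0) + s (i, 1)))) =
        2 * Real.log (v Y) + ∑ i, ((4 ^ (J - j i) - (s (i, 0) + s (i, 1)) : ℕ) : ℝ) *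
          Real.log (min (vn v (P i).xRep) (max 1 (v (1 - u i)⁻¹))) := by
      rw [Real.log_mul (pow_pos hy0 2).ne' (Finset.prod_pos fun i _ => pow_pos (hmin v i) _).ne',
        Real.log_pow, Real.log_prod (fun i _ => (pow_pos (hmin v i) _).ne')]
      simp only [Real.log_pow]
      norm_num
    have p1 : 0 < lc W v ^ (54 * m * (8 * n * 4 ^ J)) := pow_pos hlc _
    have p2 : 0 < NV v F ^ 2 := pow_pos hNV 2
    have hz1 : 0 < vn v z.xRep * max 1 (v U) := mul_pos (hVN v z) (hmx v U)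
    have hq1 : ∀ i, 0 < vn v (Q i).xRep * max 1 (v (y i)) :=
      fun i => mul_pos (hVN v _) (hmx v _)
    have p3 : 0 < (vn v z.xRep * max 1 (v U)) ^ (2 * (8 * n * 4 ^ J)) := pow_pos hz1 _
    have p4 : 0 < ∏ i, (vn v (Q i).xRep * max 1 (v (y i))) ^ (2 * (8 * n * 4 ^ (J - j i))) :=
      Finset.prod_pos fun i _ => pow_pos (hq1 i) _
    have e2 : Real.log (lc W v ^ (54 * m * (8 * n * 4 ^ J)) * NV v F ^ 2 *
          (vn v z.xRep * max 1 (v U)) ^ (2 * (8 * n * 4 ^ J)) *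
            ∏ i, (vn v (Q i).xRep * max 1 (v (y i))) ^ (2 * (8 * n * 4 ^ (J - j i)))) =
        (((54 * m * (8 * n * 4 ^ J) : ℕ) : ℝ) * Real.log (lc W v) +
          2 * Real.log (NV v F)) +
        (((2 * (8 * n * 4 ^ J) : ℕ) : ℝ) * (Real.log (vn v z.xRep) + Real.log (max 1 (v U))) +
        ∑ i, ((2 * (8 * n * 4 ^ (J - j i)) : ℕ) : ℝ) *
          (Real.log (vn v (Q i).xRep) + Real.log (max 1 (v (y i))))) := by
      have e3 : ∀ i, Real.log ((vn v (Q i).xRep * max 1 (v (y i))) ^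
          (2 * (8 * n * 4 ^ (J - j i)))) = ((2 * (8 * n * 4 ^ (J - j i)) : ℕ) : ℝ) *
          (Real.log (vn v (Q i).xRep) + Real.log (max 1 (v (y i)))) := fun i => by
        rw [Real.log_pow, Real.log_mul (hVN v _).ne' (hmx v _).ne']
      rw [Real.log_mul (mul_pos (mul_pos p1 p2) p3).ne' p4.ne',
        Real.log_mul (mul_pos p1 p2).ne' p3.ne', Real.log_mul p1.ne' p2.ne', Real.log_pow,
        Real.log_pow, Real.log_pow, Real.log_mul (hVN v z).ne' (hmx v U).ne',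
        Real.log_prod (fun i _ => (pow_pos (hq1 i) _).ne'), Finset.sum_congr rfl fun i _ => e3 i]
      push_cast
      ring
    rw [e1, e2] at h2
    exact h2
  have FSy : FS (fun v : AbsoluteValue L ℝ => 2 * Real.log (v Y)) := FS_const_mul 2 (FS_log_abv hs)
  have FSm : ∀ i ∈ (Finset.univ : Finset (Fin m)), FS (fun v : AbsoluteValue L ℝ =>
      ((4 ^ (J - j i) - (s (i, 0) + s (i, 1)) : ℕ) : ℝ) *
        Real.log (min (vn v (P i).xRep) (max 1 (v (1 - u i)⁻¹)))) :=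
    fun i _ => FS_const_mul _ (FS_log_min (P i) (u i) (hP i))
  have FSz0 : FS (fun v : AbsoluteValue L ℝ =>
      Real.log (vn v z.xRep) + Real.log (max 1 (v U))) :=
    FS_add (FS_log_vn (xRep_ne_zero _)) (FS_log_max U)
  have FSz : FS (fun v : AbsoluteValue L ℝ => ((2 * (8 * n * 4 ^ J) : ℕ) : ℝ) *
      (Real.log (vn v z.xRep) + Real.log (max 1 (v U)))) := FS_const_mul _ FSz0
  have FSq0 : ∀ i, FS (fun v : AbsoluteValue L ℝ =>
      Real.log (vn v (Q i).xRep) + Real.log (max 1 (v (y i)))) :=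
    fun i => FS_add (FS_log_vn (xRep_ne_zero _)) (FS_log_max (y i))
  have FSq : ∀ i ∈ (Finset.univ : Finset (Fin m)), FS (fun v : AbsoluteValue L ℝ =>
      ((2 * (8 * n * 4 ^ (J - j i)) : ℕ) : ℝ) *
        (Real.log (vn v (Q i).xRep) + Real.log (max 1 (v (y i))))) :=
    fun i _ => FS_const_mul _ (FSq0 i)
  have FS1 : FS (fun v : AbsoluteValue L ℝ => ((54 * m * (8 * n * 4 ^ J) : ℕ) : ℝ) *
      Real.log (lc W v)) := FS_const_mul _ (FS_log_lc W)
  have FS2 : FS (fun v : AbsoluteValue L ℝ => 2 * Real.log (NV v F)) :=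
    FS_const_mul 2 (FS_log_NV hF')
  have hgs := gs_le (FS_add FSy (FS_sum _ FSm))
    (FS_add (FS_add FS1 FS2) (FS_add FSz (FS_sum _ FSq))) (fun v _ => hloc v)
  rw [gs_add FSy (FS_sum _ FSm), gs_sum _ FSm, gs_const_mul, gs_log_abv hs,
    gs_add (FS_add FS1 FS2) (FS_add FSz (FS_sum _ FSq)), gs_add FS1 FS2,
    gs_add FSz (FS_sum _ FSq), gs_const_mul, gs_const_mul, gs_const_mul, gs_sum _ FSq] at hgs
  simp only [gs_const_mul] at hgs
  have em : ∀ i, gs (fun v : AbsoluteValue L ℝ =>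
      Real.log (min (vn v (P i).xRep) (max 1 (v (1 - u i)⁻¹)))) = hS (P i) (u i) :=
    fun i => gs_log_min (P i) (u i) (hP i)
  have ez : gs (fun v : AbsoluteValue L ℝ =>
      Real.log (vn v z.xRep) + Real.log (max 1 (v U))) = logHeight z.xRep + logHeight₁ U := by
    rw [gs_add (FS_log_vn (xRep_ne_zero _)) (FS_log_max U), gs_log_vn (xRep_ne_zero _),
      gs_log_max]
  have eq : ∀ i, gs (fun v : AbsoluteValue L ℝ =>
      Real.log (vn v (Q i).xRep) + Real.log (max 1 (v (y i)))) =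
      logHeight (Q i).xRep + logHeight₁ (y i) := fun i => by
    rw [gs_add (FS_log_vn (xRep_ne_zero _)) (FS_log_max (y i)), gs_log_vn (xRep_ne_zero _),
      gs_log_max]
  simp only [em, ez, eq] at hgs
  have hnh : nh F = gs fun v => Real.log (NV v F) := rfl
  rw [← hnh] at hgs
  have er : 2 * ∑ i, (8 * n * 4 ^ (J - j i)) * (logHeight (Q i).xRep + logHeight₁ (y i)) =
      ∑ i, ((2 * (8 * n * 4 ^ (J - j i)) : ℕ) : ℝ) *
        (logHeight (Q i).xRep + logHeight₁ (y i)) := by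
    rw [Finset.mul_sum]
    refine Finset.sum_congr rfl fun a _ => ?_
    push_cast
    ring
  rw [er]
  push_cast at hgs ⊢
  linarith

end Pool.Agent.Lib.MP_17a322_nt.VS
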