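import Pool.Agent.Lib.MP_17a322_nt.VS.G6
import Pool.Agent.Lib.MP_17a322_nt.VJ.G7

/-!
Vanishing of the Taylor coefficients at the points `P_1 + w`, `x(w)` a root of unity
-/

universe u

namespace Pool.Agent.Lib.MP_17a322_nt.VS

open MvPolynomial Height
open Pool.Agent.Lib.MP_17a322_nt.RO Pool.Agent.Lib.MP_17a322_nt.VJ

/-- Vanishing (7.3). Proof: as VJ/G7 `vanishing`, with `global_ineq` of VS/G6 and VJ `arith`
(`O i = hS (P i) (u i)`, `H i = HS (P i) (u i)`, `q i = logHeight (Q i) + logHeight₁ (y i)`).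
`U = algebraMap K L (u i₀)`, `y i = algebraMap K L (u i / u i₀ ^ 4 ^ j i)`, so
`algebraMap K L (u i) = U ^ 4 ^ j i * y i` (`u i₀ ≠ 0`). `logHeight₁ (algebraMap K L a) = [L : K] logHeight₁ a`;
`logHeight₁ (u i₀) ≤ logHeight₁ (1 - u i₀)⁻¹ + d log 2` (`logHeight₁_one_sub`, G6a), so
`h(z) + h(U) ≤ 2 (h H1) + C1 (h dK)` with `h(z) ≤ 2 h (f (P i₀)) + C d`; `h(y i) ≤ h * η H i`. -/
theorem vanishing {K : Type u} [Field K] [NumberField K] [DecidableEq K]
    (W : WeierstrassCurve K) [W.IsElliptic] (n : ℕ) (hn : 0 < n) (ε : ℝ)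
    (hε : 64 ≤ n * ε) (CF : ℝ) (hCF : 0 ≤ CF) :
    ∃ C : ℝ, 0 ≤ C ∧ ∀ (J : ℕ) (j : Fin (2 * n ^ 2) → ℕ) (i₀ : Fin (2 * n ^ 2)),
      (∀ i, j i ≤ J) → ∀ (x : (AA (2 * n ^ 2) → ℕ) → K), CS W n J j x → FG n J j x ≠ 0 →
      nh (FG n J j x) ≤ CF * 4 ^ J → ∀ (P : Fin (2 * n ^ 2) → W.toAffine.Point)
      (u : Fin (2 * n ^ 2) → K),
      (∀ i, P i ≠ 0) → (∀ i, u i ≠ 0) → (∀ i, u i ≠ 1) →
      (∀ i, ε * HS (P i) (u i) ≤ hS (P i) (u i)) → C < HS (P i₀) (u i₀) →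
      (∀ i, logHeight (P i - 2 ^ j i • P i₀).xRep ≤ 1 / (16 * n ^ 2) * HS (P i) (u i)) →
      (∀ i, logHeight₁ (u i / u i₀ ^ 4 ^ j i) ≤ 1 / (16 * n ^ 2) * HS (P i) (u i)) →
      (∀ i, |HS (P i) (u i) - 4 ^ j i * HS (P i₀) (u i₀)| ≤ 1 / (16 * n ^ 2) * HS (P i) (u i)) →
      ∀ (L : Type u) [Field L] [NumberField L] [DecidableEq L] [Algebra K L]
        (V : WeierstrassCurve L) (f : W.toAffine.Point →+ V.toAffine.Point)
        (w : V.toAffine.Point) (N : ℕ),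
        W.map (algebraMap K L) = V → PB W V f → 0 < N →
        w ≠ 0 → w.xRep 0 ^ N = 1 → f (P i₀) + w ≠ 0 →
        (∀ i, f (P i) - 2 ^ j i • (f (P i₀) + w) ≠ 0) →
        ∀ s : Fin (2 * n ^ 2) × Fin 2 →₀ ℕ, (∑ a, s a * 4 ^ j a.1 < 8 * n * 4 ^ J) →
          coeff s (tr (fun a => if a.2 = 0 then
              (f (P a.1) - 2 ^ j a.1 • (f (P i₀) + w)).xRep 0
            else algebraMap K L (u a.1) / algebraMap K L (u i₀) ^ 4 ^ j a.1)
              (pe ![(f (P i₀) + w).xRep 0, algebraMap K L (u i₀)] (FG n J j x))) = 0 := by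
  obtain ⟨A, hA0, hA⟩ := height_unif W
  obtain ⟨D, hD0, hD⟩ := gs_log_lc_le W
  have hdK : (1 : ℝ) ≤ Module.finrank ℚ K := by exact_mod_cast Module.finrank_pos (R := ℚ) (M := K)
  obtain ⟨C, hC0, hC⟩ := arith n hn ε hε CF (2 * A + 1) (54 * (2 * n ^ 2) * D)
    (Module.finrank ℚ K) hCF (by positivity) (by positivity) hdK
  refine ⟨C, hC0, ?_⟩
  intro J j i₀ hj x hx hF hnF P u hP0 hu0 hu1 hPε hPC hP1 hy1 hP2 L _ _ _ _ V f w N hV hf hN hw
    hwN hz hQ s hs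
  by_contra hy
  have hd : (Module.finrank K L : ℝ) * Module.finrank ℚ K = Module.finrank ℚ L := by
    have h1 := Module.finrank_mul_finrank ℚ K L
    rw [mul_comm]
    exact_mod_cast h1
  have hh1 : (1 : ℝ) ≤ Module.finrank K L := by exact_mod_cast Module.finrank_pos (R := K) (M := L)
  have hd0 : (0 : ℝ) ≤ Module.finrank ℚ L := Nat.cast_nonneg _
  set h : ℝ := ((Module.finrank K L : ℕ) : ℝ) with hh
  set d : ℝ := ((Module.finrank ℚ L : ℕ) : ℝ) with hdd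
  have hinj : Function.Injective (algebraMap K L) := (algebraMap K L).injective
  have hU0 : algebraMap K L (u i₀) ≠ 0 := by
    rw [Ne, map_eq_zero]
    exact hu0 i₀
  have hw0 : logHeight w.xRep = 0 := by
    rw [logHeight_xRep hw]
    exact logHeight₁_of_pow_eq_one hN hwN
  have hjw : ∀ k : ℕ, logHeight (2 ^ k • w).xRep ≤ 4 ^ k * (A * d) := fun k => by
    have h1 := (abs_le.1 ((hA L V hV).2.2.1 w k)).2
    rw [hw0] at h1
    linarith
  have hzt : logHeight (f (P i₀) + w).xRep ≤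
      2 * (h * logHeight (P i₀).xRep) + A * d := by
    have h1 := (hA L V hV).2.1 (f (P i₀)) w
    rw [hw0, hf.logHeight] at h1
    linarith
  have hUt : logHeight₁ (algebraMap K L (u i₀)) ≤
      2 * (h * logHeight₁ (1 - u i₀)⁻¹) + d := by
    rw [logHeight₁_algebraMap, ← hh]
    have h1 := mul_le_mul_of_nonneg_left (logHeight₁_one_sub (u i₀)).1
      (by linarith : (0 : ℝ) ≤ h)
    have h2 : (0 : ℝ) ≤ h * logHeight₁ (1 - u i₀)⁻¹ :=
      mul_nonneg (by linarith) (zero_le_logHeight₁ _)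
    have h3 : h * (Module.finrank ℚ K * Real.log 2) ≤ d := by
      rw [← mul_assoc, hd]
      have h4 : Real.log 2 ≤ 1 := by
        have := Real.log_two_lt_d9
        linarith
      have h5 := mul_le_mul_of_nonneg_left h4 hd0
      linarith
    linarith
  have hQt : ∀ i, logHeight (f (P i) - 2 ^ j i • (f (P i₀) + w)).xRep ≤
      2 * (h * (1 / (16 * n ^ 2) * HS (P i) (u i))) + (2 * 4 ^ j i + 1) * (A * d) := fun i => by
    have e : f (P i) - 2 ^ j i • (f (P i₀) + w) =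
        f (P i - 2 ^ j i • P i₀) + -(2 ^ j i • w) := by
      rw [map_sub, map_nsmul, nsmul_add]
      abel
    have h1 := (hA L V hV).2.1 (f (P i - 2 ^ j i • P i₀)) (-(2 ^ j i • w))
    rw [← e, WeierstrassCurve.Affine.Point.xRep_neg, hf.logHeight] at h1
    have h2 := hjw (j i)
    have h3 := mul_le_mul_of_nonneg_left (hP1 i) (by linarith : (0 : ℝ) ≤ Module.finrank K L)
    rw [← hh] at h1 h3
    linarith
  have hyt : ∀ i, logHeight₁ (algebraMap K L (u i) / algebraMap K L (u i₀) ^ 4 ^ j i) ≤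
      h * (1 / (16 * n ^ 2) * HS (P i) (u i)) := fun i => by
    have e : algebraMap K L (u i) / algebraMap K L (u i₀) ^ 4 ^ j i =
        algebraMap K L (u i / u i₀ ^ 4 ^ j i) := by
      rw [map_div₀, map_pow]
    rw [e, logHeight₁_algebraMap, ← hh]
    exact mul_le_mul_of_nonneg_left (hy1 i) (by linarith)
  have hgl := global_ineq W V hV n J j hj x hx hF (f (P i₀) + w)
    (fun i => f (P i)) (fun i => f (P i) - 2 ^ j i • (f (P i₀) + w)) (algebraMap K L (u i₀))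
    (fun i => algebraMap K L (u i))
    (fun i => algebraMap K L (u i) / algebraMap K L (u i₀) ^ 4 ^ j i)
    (fun i => by simp) (fun i => fun h0 => hP0 i ((hf.eq_zero _).1 h0)) hz hQ
    (fun i => (mul_div_cancel₀ _ (pow_ne_zero _ hU0)).symm)
    (fun i => fun h1 => hu1 i (hinj (by rw [h1, map_one]))) s hy
  have e1 : ∀ i, hS (f (P i)) (algebraMap K L (u i)) = h * hS (P i) (u i) :=
    fun i => hS_PB hf (P i) (u i)
  simp only [e1] at hgl
  rw [nh_map, ← hh] at hgl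
  let q : Fin (2 * n ^ 2) → ℝ := fun i =>
    logHeight (f (P i) - 2 ^ j i • (f (P i₀) + w)).xRep +
      logHeight₁ (algebraMap K L (u i) / algebraMap K L (u i₀) ^ 4 ^ j i)
  have hpow : ∀ i, (4 : ℝ) ^ (J - j i) * 4 ^ j i = 4 ^ J := fun i => by
    rw [← pow_add, Nat.sub_add_cancel (hj i)]
  have hfin := hC h (4 ^ J) (HS (P i₀) (u i₀)) (fun i => 4 ^ (J - j i)) (fun i => 4 ^ j i)
    (fun i => HS (P i) (u i)) (fun i => hS (P i) (u i))
    (fun i => ((s (i, 0) + s (i, 1) : ℕ) : ℝ)) q hh1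
    (one_le_pow₀ (by norm_num)) (HS_nonneg _ _) (fun i => one_le_pow₀ (by norm_num))
    (fun i => one_le_pow₀ (by norm_num)) hpow (fun i => Nat.cast_nonneg _) ?_ hP2 hPε
    (fun i => hS_nonneg (P i) (u i) (hP0 i)) (fun i => two_hS_le (P i) (u i) (hP0 i)) ?_ ?_
  · exact absurd hfin (not_le.2 hPC)
  · have h1 : (∑ a : Fin (2 * n ^ 2) × Fin 2, s a * 4 ^ j a.1 : ℕ) ≤ 8 * n * 4 ^ J := hs.le
    have h2 : ((∑ a : Fin (2 * n ^ 2) × Fin 2, s a * 4 ^ j a.1 : ℕ) : ℝ) ≤ 8 * n * 4 ^ J := by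
      exact_mod_cast h1
    rw [Fintype.sum_prod_type] at h2
    refine le_of_eq_of_le ?_ h2
    push_cast
    refine Finset.sum_congr rfl fun i _ => ?_
    rw [Fin.sum_univ_two]
    ring
  · intro i
    have h1 := hQt i
    have h2 := hyt i
    have h4 : 0 ≤ A * d := by positivity
    have h5 : 0 ≤ h * (1 / (16 * n ^ 2) * HS (P i) (u i)) :=
      mul_nonneg (by linarith) (mul_nonneg (by positivity) (HS_nonneg _ _))
    have h6 : (0 : ℝ) ≤ (4 ^ j i + 1) * d := by positivity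
    change logHeight (f (P i) - 2 ^ j i • (f (P i₀) + w)).xRep +
      logHeight₁ (algebraMap K L (u i) / algebraMap K L (u i₀) ^ 4 ^ j i) ≤ _
    rw [hd]
    linarith
  · have h1 : ∀ i, (((4 : ℝ) ^ (J - j i) - ((s (i, 0) + s (i, 1) : ℕ) : ℝ)) *
        (h * hS (P i) (u i))) ≤
        ((4 ^ (J - j i) - (s (i, 0) + s (i, 1)) : ℕ) : ℝ) * (h * hS (P i) (u i)) := by
      intro i
      apply mul_le_mul_of_nonneg_right _
        (mul_nonneg (by linarith) (hS_nonneg (P i) (u i) (hP0 i)))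
      have h2 : 4 ^ (J - j i) ≤ (4 ^ (J - j i) - (s (i, 0) + s (i, 1))) + (s (i, 0) + s (i, 1)) := by
        omega
      have h3 : ((4 ^ (J - j i) : ℕ) : ℝ) ≤ ((4 ^ (J - j i) - (s (i, 0) + s (i, 1)) : ℕ) : ℝ) +
          ((s (i, 0) + s (i, 1) : ℕ) : ℝ) := by exact_mod_cast h2
      push_cast at h3 ⊢
      linarith
    have h2 := Finset.sum_le_sum (fun i (_ : i ∈ Finset.univ) => h1 i)
    have h3 : logHeight (f (P i₀) + w).xRep + logHeight₁ (algebraMap K L (u i₀)) ≤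
        2 * (h * HS (P i₀) (u i₀)) + (2 * A + 1) * (h * Module.finrank ℚ K) := by
      rw [hd]
      have h6 : HS (P i₀) (u i₀) = logHeight (P i₀).xRep + logHeight₁ (1 - u i₀)⁻¹ := rfl
      have h7 : 0 ≤ A * d := by positivity
      rw [h6]
      linarith
    have h5 : gs (fun v : AbsoluteValue L ℝ => Real.log (lc W v)) ≤
        D * (h * Module.finrank ℚ K) := by
      rw [hd]
      exact hD L
    have h6 : 2 * (8 * n * 4 ^ J) * (logHeight (f (P i₀) + w).xRep +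
        logHeight₁ (algebraMap K L (u i₀))) ≤
        2 * (8 * n * 4 ^ J) * (2 * (h * HS (P i₀) (u i₀)) +
        (2 * A + 1) * (h * Module.finrank ℚ K)) :=
      mul_le_mul_of_nonneg_left h3 (by positivity)
    have h7 : 54 * ((2 * n ^ 2 : ℕ) : ℝ) * (8 * n * 4 ^ J) *
        gs (fun v : AbsoluteValue L ℝ => Real.log (lc W v)) ≤
        54 * ((2 * n ^ 2 : ℕ) : ℝ) * (8 * n * 4 ^ J) *
        (D * (h * Module.finrank ℚ K)) :=
      mul_le_mul_of_nonneg_left h5 (by positivity)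
    have h8 : 2 * (h * nh (FG n J j x)) ≤ 2 * (h * (CF * 4 ^ J)) := by
      have h9 := mul_le_mul_of_nonneg_left hnF (by linarith : (0 : ℝ) ≤ h)
      linarith
    refine h2.trans (hgl.trans ?_)
    change _ ≤ 2 * (h * (CF * 4 ^ J)) + 2 * (8 * n * 4 ^ J) *
      (2 * (h * HS (P i₀) (u i₀)) + (2 * A + 1) * (h * Module.finrank ℚ K)) +
      2 * ∑ i, (8 * n * 4 ^ (J - j i)) * (logHeight (f (P i) - 2 ^ j i • (f (P i₀) + w)).xRep +
      logHeight₁ (algebraMap K L (u i) / algebraMap K L (u i₀) ^ 4 ^ j i)) +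
      54 * (2 * n ^ 2) * D * (8 * n * 4 ^ J) * (h * Module.finrank ℚ K)
    push_cast at h7 ⊢
    linarith

end Pool.Agent.Lib.MP_17a322_nt.VS
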