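import Pool.Agent.Lib.MP_17a322_nt.VS.I7
import Pool.Agent.Lib.MP_17a322_nt.VJ.I10

/-!
# I10: (10.2), the degree argument for the multiplicative group
-/

namespace Pool.Agent.Lib.MP_17a322_nt.VS

open MvPolynomial WeierstrassCurve
open Pool.Agent.Lib.MP_17a322_nt.RO Pool.Agent.Lib.MP_17a322_nt.VJ

/-- Three successive extensions. Let `E` be a finite extension of `B` in `Ω` containing `x` and `τ`. Adjoin
`a` (root of `g(x, ·)`, degree `≤ D`), `xt` (root of `S3 W ![x, 1] ![τ, 1] ![·, 1]`, degree `≤ 2`), `a'` (root of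
`g(xt, ·)`); then `w = a' / a` is in the field. Proof: as VJ/I9 `exists_tower` (three of the four steps). -/
theorem exists_tower {K B Ω : Type*} [Field K] [Field B] [Field Ω] [Algebra K Ω] [Algebra K B]
    [Algebra B Ω] [IsScalarTower K B Ω] (W : WeierstrassCurve K) {D n : ℕ}
    {g : MvPolynomial (Fin 2) K} (hg : g ≠ 0) (hD : g.degreeOf 1 ≤ D)
    {x τ a xt a' w : Ω} (hx : x ∉ acl K (∅ : Set Ω)) (hxt : xt ∉ acl K (∅ : Set Ω))
    (h1 : aeval ![x, a] g = 0) (h2 : S3 W ![x, 1] ![τ, 1] ![xt, 1] = 0)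
    (h3 : aeval ![xt, a'] g = 0) (ha : a ≠ 0) (h4 : a' = w * a)
    (hs1 : SV W (![x, 1] : Fin 2 → Ω) ![τ, 1] ≠ 0)
    (E : IntermediateField B Ω) (hE : FiniteDimensional B E) (hn : Module.finrank B E ≤ n)
    (hxE : x ∈ E) (hτE : τ ∈ E) :
    ∃ E' : IntermediateField B Ω, w ∈ E' ∧ FiniteDimensional B E' ∧
      Module.finrank B E' ≤ n * (2 * D ^ 2) := by
  obtain ⟨E1, hE1, ha1, hf1, hn1⟩ := I9_curve hg hD hx h1 E hE hn hxE
  obtain ⟨E2, hE2, hxt2, hf2, hn2⟩ := I9_quad (B := B) E1 hf1 hn1 _ hs1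
    (I9_SV_mem W E1 (hE1 hxE) (hE1 hτE)) h2
  obtain ⟨E3, hE3, ha3, hf3, hn3⟩ := I9_curve hg hD hxt h3 E2 hf2 hn2 hxt2
  refine ⟨E3, ?_, hf3, hn3.trans (le_of_eq ?_)⟩
  · have h5 : w = a' / a := by rw [h4, mul_div_assoc, div_self ha, mul_one]
    rw [h5]
    exact div_mem ha3 (hE3 (hE2 ha1))
  · ring

section

variable {K Ω : Type*} [Field K] [CharZero K] [Field Ω] [DecidableEq Ω] [Algebra K Ω]
  [IsAlgClosed Ω]

/-- (10.2), degree argument. Proof: as VJ/I10 `degree_argument`. Let `A = acl K {ξ}` (`Clo_acl`) and suppose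
`w ∉ A`.
1. `F.degreeOf 2 ≠ 0` and `F ≠ 0`: otherwise `aeval ![x, ξ, y] F = aeval ![x, ξ, 0] F` (no variable `2`),
   against `hF0`, `hFx`.
2. For all `ρ` with `S3 W ![x, 1] ![τ, 1] ![ρ, 1] = 0`: `Ind2 K ρ ξ` (`wd_of_S3`, `ind2_of_translate` of VJ/I10). In
   particular `Ind2 K xt ξ`. `x ≠ τ` because `τ ∈ acl K ∅`.
3. `z = w ^ 4 ^ e` is not in `A` (otherwise `w` is algebraic over `A`; `acl_closed`).
4. `s = ![x, xt, τ, ξ, y, y', z]`: `aeval s (R3 W F) = 0` by `aeval_R3` (`S3_xRep_add`, `hrel`).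
5. `exists_R3_ne_zero` (VS/I7) and `ev1_ne_zero_of_generic` (VJ/I4; variables `0` and `6`, field `A`; `vars_R3`):
   `p = ev1 0 s (R3 W F) ≠ 0`, `natDegree p ≤ 4 * b * s`, `p.eval x = 0`, coefficients in
   `B = IntermediateField.adjoin A {z}`.
6. `exists_extend` (VJ/I6) for `E = ⊥` over `B` gives `E₁ ∋ x` of degree `≤ 4 * b * s`; `exists_tower` gives
   `E' ∋ w` of degree `≤ 4 b s * (2 D ^ 2)`; `SV_ne_zero_of_ne` (VJ/I8).
7. `natDegree_le_finrank` (VJ/I6) for `A`, the polynomials `X ^ 4 ^ e`, `1` and `x := w`: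
   `4 ^ e ≤ 8 D ^ 2 b s`, contradiction. -/
theorem degree_argument (W : WeierstrassCurve K) [W.IsElliptic]
    {e b s D : ℕ} {g : MvPolynomial (Fin 2) K} (hg : g ≠ 0) (hD : g.degreeOf 1 ≤ D)
    {F : MvPolynomial (Fin 3) K} (hFs : F.degreeOf 0 ≤ s) (hFb : F.degreeOf 2 ≤ b)
    (h32 : 32 * D ^ 2 * b * s < 4 ^ e) {x ξ τ xt a a' y y' w : Ω} (hx : Ind2 K x ξ)
    (p T : (W.map (algebraMap K Ω)).toAffine.Point) (hp : p.xRep = ![x, 1])
    (hT : T.xRep = ![τ, 1]) (hτ : τ ∈ acl K (∅ : Set Ω)) (hpt : (p + T).xRep = ![xt, 1])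
    (ha : a ≠ 0) (hgx : aeval ![x, a] g = 0) (hgt : aeval ![xt, a'] g = 0)
    (hFx : aeval ![x, ξ, y] F = 0) (hFt : aeval ![xt, ξ, y'] F = 0)
    (hF0 : aeval ![x, ξ, 0] F ≠ 0)
    (hrel : y = w ^ 4 ^ e * y') (hw : a' = w * a) : w ∈ acl K {ξ} := by
  by_contra hxw
  have hΩ : CharZero Ω := charZero_of_injective_algebraMap (algebraMap K Ω).injective
  have hA : Clo (acl K ({ξ} : Set Ω)) := Clo_acl _
  have hξA : ξ ∈ acl K ({ξ} : Set Ω) := mem_acl_of_mem (Set.mem_singleton ξ)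
  have hτA : τ ∈ acl K ({ξ} : Set Ω) := acl_mono (Set.empty_subset _) hτ
  -- 1
  have hF2 : F.degreeOf 2 ≠ 0 := by
    intro h0
    apply hF0
    rw [← hFx]
    refine aeval_congr_vars F fun i hi => ?_
    rw [MvPolynomial.mem_vars_iff_degreeOf_ne_zero] at hi
    fin_cases i
    · rfl
    · rfl
    · exact absurd h0 hi
  have hF : F ≠ 0 := by
    rintro rfl
    exact hF0 (map_zero _)
  -- 2
  have hTA : PA (acl K (∅ : Set Ω)) T := PA_of_xRep hT hτ
  have hroot : ∀ ρ : Ω, S3 W ![x, 1] ![τ, 1] ![ρ, 1] = 0 → Ind2 K ρ ξ := by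
    intro ρ hρ
    have key : ∀ P : (W.map (algebraMap K Ω)).toAffine.Point, wd P.xRep ![ρ, 1] = 0 →
        P.xRep = ![ρ, 1] := by
      intro P hP
      by_cases h0 : P = 0
      · exfalso
        rw [h0, xRep_zero] at hP
        simp [wd] at hP
      · have h1 := xRep_eq h0
        rw [h1] at hP
        simp only [wd, Matrix.cons_val_zero, Matrix.cons_val_one, mul_one, one_mul] at hP
        rw [h1, sub_eq_zero.1 hP]
    have h1 := wd_of_S3 W (W.map (algebraMap K Ω)) rfl p T ![ρ, 1] (by rw [hp, hT]; exact hρ)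
    rcases h1 with h1 | h1
    · exact ind2_of_translate W hx p T (p + T) hp hTA (Or.inl rfl) (key _ h1)
    · exact ind2_of_translate W hx p T (p - T) hp hTA (Or.inr rfl) (key _ h1)
  have hxt : Ind2 K xt ξ := ind2_of_translate W hx p T (p + T) hp hTA (Or.inl rfl) hpt
  have hxτ : x ≠ τ := by
    intro h0
    apply hx.1
    rw [h0]
    exact hτ
  -- 3
  have he4 : 0 < 4 ^ e := by positivity
  obtain ⟨z, hz⟩ : ∃ z, z = w ^ 4 ^ e := ⟨_, rfl⟩
  have hzA : z ∉ acl K ({ξ} : Set Ω) := by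
    intro hzm
    apply hxw
    apply hA
    refine ⟨Polynomial.X ^ 4 ^ e - Polynomial.C ⟨z, hzm⟩, Polynomial.X_pow_sub_C_ne_zero he4 _, ?_⟩
    rw [map_sub, map_pow, Polynomial.aeval_X, Polynomial.aeval_C]
    change w ^ 4 ^ e - z = 0
    rw [hz, sub_self]
  -- 4
  have hS0 : S3 W ![x, 1] ![τ, 1] ![xt, 1] = 0 := by
    have h1 := S3_xRep_add W (W.map (algebraMap K Ω)) rfl p T
    rwa [hp, hT, hpt] at h1
  obtain ⟨G, hG⟩ : ∃ G : MvPolynomial (Fin 7) K, G = R3 W F := ⟨_, rfl⟩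
  have hvG : G.vars ⊆ {0, 2, 3, 6} := by
    rw [hG]
    exact vars_R3 W F
  have hdeg : G.degreeOf 0 ≤ 4 * b * s := by
    rw [hG]
    exact degreeOf_R3 W F hFs hFb
  have hvars : ∀ t ∈ G.vars, t = 0 ∨ t = 2 ∨ t = 3 ∨ t = 6 := by
    intro t ht
    have h1 := Finset.mem_of_subset hvG ht
    rw [Finset.mem_insert, Finset.mem_insert, Finset.mem_insert, Finset.mem_singleton] at h1
    exact h1
  obtain ⟨sv, hsv⟩ : ∃ sv : Fin 7 → Ω, sv = ![x, xt, τ, ξ, y, y', z] := ⟨_, rfl⟩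
  have e0 : sv 0 = x := by rw [hsv]; rfl
  have e1 : sv 1 = xt := by rw [hsv]; rfl
  have e2 : sv 2 = τ := by rw [hsv]; rfl
  have e3 : sv 3 = ξ := by rw [hsv]; rfl
  have e4 : sv 4 = y := by rw [hsv]; rfl
  have e5 : sv 5 = y' := by rw [hsv]; rfl
  have e6 : sv 6 = z := by rw [hsv]; rfl
  have hR3 : aeval sv G = 0 := by
    rw [hG]
    refine aeval_R3 W F hF2 ?_ sv ?_ ?_ ?_ ?_
    · rw [(lcv_rX W sv (by rw [e0, e2]; exact hxτ)).1]
      exact two_ne_zero
    · rw [e0, e2, e1]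
      exact hS0
    · rw [e0, e3, e4]
      exact hFx
    · rw [e1, e3, e5]
      exact hFt
    · rw [e4, e5, e6, hz]
      exact hrel
  -- 5
  obtain ⟨ζ, hζ⟩ := exists_R3_ne_zero W F hF hF2 hx hxτ hroot hF0
  rw [← hG] at hζ
  have hzT : Transcendental (acl K ({ξ} : Set Ω)) z := fun h0 => hzA (hA z h0)
  have hxwT : Transcendental (acl K ({ξ} : Set Ω)) w := fun h0 => hxw (hA w h0)
  have hp0 : ev1 0 sv G ≠ 0 := by
    refine ev1_ne_zero_of_generic (acl K ({ξ} : Set Ω)) (y := (0 : Fin 7)) (y' := 6) (by decide)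
      G ?_ ?_ x ζ ?_
    · intro t ht h0 h6
      have h1 := hvars t ht
      rcases h1 with h1 | h1 | h1 | h1
      · exact absurd h1 h0
      · rw [h1, e2]
        exact hτA
      · rw [h1, e3]
        exact hξA
      · exact absurd h1 h6
    · rw [e6]
      exact hzT
    · have h1 : aeval (Function.update (Function.update sv 0 x) 6 ζ) G =
          aeval (![x, 0, τ, ξ, 0, 0, ζ] : Fin 7 → Ω) G := by
        refine aeval_congr_vars _ fun t ht => ?_
        have h1 := hvars t ht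
        rcases h1 with h1 | h1 | h1 | h1
        · rw [h1, Function.update_of_ne (by decide), Function.update_self]
          rfl
        · rw [h1, Function.update_of_ne (by decide), Function.update_of_ne (by decide), e2]
          rfl
        · rw [h1, Function.update_of_ne (by decide), Function.update_of_ne (by decide), e3]
          rfl
        · rw [h1, Function.update_self]
          rfl
      rw [h1]
      exact hζ
  have hpd : (ev1 0 sv G).natDegree ≤ 4 * b * s :=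
    (natDegree_ev1_le _ _ _).trans hdeg
  have hpe : (ev1 0 sv G).eval x = 0 := by
    have h1 := eval_ev1_self 0 sv G
    rw [e0] at h1
    rw [h1]
    exact hR3
  -- 6
  have hAB : ∀ a : Ω, a ∈ acl K ({ξ} : Set Ω) →
      a ∈ IntermediateField.adjoin (acl K ({ξ} : Set Ω)) ({z} : Set Ω) := fun a ha =>
    IntermediateField.algebraMap_mem _ (⟨a, ha⟩ : acl K ({ξ} : Set Ω))
  have hzB : z ∈ IntermediateField.adjoin (acl K ({ξ} : Set Ω)) ({z} : Set Ω) :=
    IntermediateField.subset_adjoin _ _ (Set.mem_singleton z)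
  have hcoef : ∀ j, (ev1 0 sv G).coeff j ∈
      IntermediateField.adjoin (acl K ({ξ} : Set Ω)) ({z} : Set Ω) := by
    intro j
    have h1 := coeff_ev1_mem
      ((IntermediateField.adjoin (acl K ({ξ} : Set Ω)) ({z} : Set Ω)).restrictScalars K) (0 : Fin 7)
      (s := sv) G (fun t ht h0 => by
        have h1 := hvars t ht
        rcases h1 with h1 | h1 | h1 | h1
        · exact absurd h1 h0
        · rw [h1, e2]
          exact hAB _ hτA
        · rw [h1, e3]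
          exact hAB _ hξA
        · rw [h1, e6]
          exact hzB) j
    exact h1
  obtain ⟨E₁, -, hxE, hE₁, hn₁⟩ := exists_extend
    (⊥ : IntermediateField (IntermediateField.adjoin (acl K ({ξ} : Set Ω)) ({z} : Set Ω)) Ω)
    (n := 1) inferInstance (le_of_eq IntermediateField.finrank_bot) (ev1 0 sv G) hp0
    (fun j => IntermediateField.mem_bot.2 ⟨⟨_, hcoef j⟩, rfl⟩) hpd hpe
  have hxRep1 : (![x, 1] : Fin 2 → Ω) ≠ 0 := hp ▸ xRep_ne_zero p
  have hτRep1 : (![τ, 1] : Fin 2 → Ω) ≠ 0 := hT ▸ xRep_ne_zero T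
  have hst : IsScalarTower K (IntermediateField.adjoin (acl K ({ξ} : Set Ω)) ({z} : Set Ω)) Ω :=
    IsScalarTower.of_algebraMap_eq fun k => rfl
  obtain ⟨E', hxwE, hE', hn'⟩ := exists_tower W hg hD hx.1 hxt.1 hgx hS0 hgt ha hw
    (SV_ne_zero_of_ne W hxRep1 hτRep1) E₁ hE₁ hn₁ hxE
    (E₁.algebraMap_mem (⟨τ, hAB _ hτA⟩ : IntermediateField.adjoin (acl K ({ξ} : Set Ω)) ({z} : Set Ω)))
  -- 7
  have h7 := natDegree_le_finrank
    (Polynomial.X ^ 4 ^ e : Polynomial (acl K ({ξ} : Set Ω))) 1 isCoprime_one_right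
    (by rw [Polynomial.natDegree_one, Polynomial.natDegree_X_pow]; exact he4) hxwT
    (z := z) (by rw [map_one, mul_one, map_pow, Polynomial.aeval_X, hz])
    E' hE' hxwE
  rw [Polynomial.natDegree_X_pow] at h7
  have h8 : 1 * (4 * b * s) * (2 * D ^ 2) = 8 * D ^ 2 * b * s := by ring
  have h9 : 8 * D ^ 2 * b * s ≤ 32 * D ^ 2 * b * s := by
    have : 32 * D ^ 2 * b * s = 4 * (8 * D ^ 2 * b * s) := by ring
    omega
  omega

end

end Pool.Agent.Lib.MP_17a322_nt.VS
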