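import Pool.Agent.Lib.MP_17a322_nt.VJ.I11

/-!
# I11: (10.3) the element `w` is a root of unity of bounded order
-/

namespace Pool.Agent.Lib.MP_17a322_nt.VS

open MvPolynomial WeierstrassCurve
open Pool.Agent.Lib.MP_17a322_nt.RO Pool.Agent.Lib.MP_17a322_nt.VJ

variable {K Ω : Type*} [Field K] [Field Ω] [DecidableEq Ω] [Algebra K Ω]

/-- Iteration: induction on `m` with `σ.comp σ'`, VJ `mp_comp`, `map_add`, `map_nsmul`, `mp_fix`. -/
theorem exists_iterate {W : WeierstrassCurve K}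
    (p T : (W.map (algebraMap K Ω)).toAffine.Point) (a w : Ω) (σ : Ω →ₐ[K] Ω)
    (hσ : ∀ z ∈ acl K (∅ : Set Ω), σ z = z) (hT : PA (acl K (∅ : Set Ω)) T)
    (hw : w ∈ acl K (∅ : Set Ω)) (hp : mp W σ p = p + T) (ha : σ a = w * a) (m : ℕ) :
    ∃ σ' : Ω →ₐ[K] Ω, mp W σ' p = p + m • T ∧ σ' a = w ^ m * a := by
  induction m with
  | zero =>
    refine ⟨AlgHom.id K Ω, ?_, ?_⟩
    · rw [I11_mp_id, zero_smul, add_zero]
    · rw [pow_zero, one_mul, AlgHom.id_apply]
  | succ m ih =>
    obtain ⟨σ', h, h'⟩ := ih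
    refine ⟨σ.comp σ', ?_, ?_⟩
    · rw [mp_comp, h, map_add, map_nsmul, hp, mp_fix (Clo_acl _) hσ hT, add_smul, one_smul]
      abel
    · rw [AlgHom.comp_apply, h', map_mul, map_pow, hσ w hw, ha, pow_succ]
      ring

/-- (10.3) If `σ` translates `p` by `T` with `n • T = 0` and multiplies `a` by `w` then `w ^ (D! n) = 1`.
Proof. For `i ≤ D` let `σ i` be the homomorphism of `exists_iterate` for `m = i * n`. It fixes `p`, so
`σ i x = x` (`mp_xRep`), and `σ i a = w ^ (i n) * a`, `aeval ![x, w ^ (i n) * a] g = σ i (aeval ![x, a] g) = 0`. So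
`w ^ (i n) * a` is a root of `ev1 1 ![x, a] g` (`eval_ev1`), which is not zero (`aeval_ne_zero₁` for `lcv 1 g`,
`coeff_ev1_degreeOf`) and has degree `≤ D`. By the pigeonhole principle two of the `D + 1` elements
coincide: `w ^ (i n) = w ^ (j n)`, `i < j ≤ D` (`a ≠ 0`); `w ≠ 0` since `σ a = w a ≠ 0`. So `w ^ ((j - i) n) = 1`
and `j - i ∣ D!`. -/
theorem finite_order {W : WeierstrassCurve K} {D n : ℕ}
    {g : MvPolynomial (Fin 2) K} (hg : g ≠ 0) (hD : g.degreeOf 1 ≤ D) {x a w : Ω}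
    (hx0 : x ∉ acl K (∅ : Set Ω)) (hgx : aeval ![x, a] g = 0) (ha0 : a ≠ 0)
    (p T : (W.map (algebraMap K Ω)).toAffine.Point) (hpx : p.xRep = ![x, 1])
    (σ : Ω →ₐ[K] Ω) (hσ : ∀ z ∈ acl K (∅ : Set Ω), σ z = z)
    (hT : PA (acl K (∅ : Set Ω)) T) (hw : w ∈ acl K (∅ : Set Ω)) (hp : mp W σ p = p + T)
    (ha : σ a = w * a) (hn : n • T = 0) : w ^ (D.factorial * n) = 1 := by
  choose τ hτ using fun i : ℕ => exists_iterate p T a w σ hσ hT hw hp ha (i * n)
  -- the homomorphisms fix `x`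
  have h0 : ∀ i, τ i x = x := by
    intro i
    have h1 : mp W (τ i) p = p := by
      rw [(hτ i).1, mul_smul, hn, smul_zero, add_zero]
    have h2 := mp_xRep W (τ i) p 0
    rw [h1, hpx] at h2
    exact h2.symm
  have h1 : ∀ i : ℕ, τ i a = w ^ (i * n) * a := fun i => (hτ i).2
  -- the polynomial
  have hq : ev1 1 ![x, a] g ≠ 0 := by
    intro hq
    have h2 := coeff_ev1_degreeOf 1 ![x, a] g
    rw [hq, Polynomial.coeff_zero] at h2
    refine aeval_ne_zero₁ (y := (0 : Fin 2)) (s := ![x, a]) (lcv_ne_zero (y := (1 : Fin 2)) hg) ?_ hx0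
      h2.symm
    intro t ht
    have h3 := vars_lcv g ht
    rw [Finset.mem_erase] at h3
    rw [Finset.mem_singleton]
    have := h3.1
    omega
  have hroot : ∀ i, (ev1 1 ![x, a] g).eval (τ i a) = 0 := by
    intro i
    rw [eval_ev1]
    have h4 : Function.update ![x, a] 1 (τ i a) = fun t => τ i (![x, a] t) := by
      ext t
      fin_cases t
      · show Function.update ![x, a] 1 (τ i a) 0 = τ i x
        rw [Function.update_of_ne (by decide), h0 i]
        rfl
      · show Function.update ![x, a] 1 (τ i a) 1 = τ i a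
        rw [Function.update_self]
    rw [h4]
    have h5 : aeval (fun t => τ i (![x, a] t)) g = τ i (aeval ![x, a] g) := by
      have h6 := MvPolynomial.comp_aeval_apply (R := K) (f := ![x, a]) (τ i) g
      rw [h6]
    rw [h5, hgx, map_zero]
  have hcard : (ev1 1 ![x, a] g).roots.toFinset.card ≤ D := by
    refine (Multiset.toFinset_card_le _).trans ?_
    exact (Polynomial.card_roots' _).trans ((natDegree_ev1_le 1 ![x, a] g).trans hD)
  have hmaps : ∀ i ∈ Finset.range (D + 1), τ i a ∈ (ev1 1 ![x, a] g).roots.toFinset := by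
    intro i _
    rw [Multiset.mem_toFinset, Polynomial.mem_roots hq]
    exact hroot i
  obtain ⟨i, hi, j, hj, hij, h⟩ := Finset.exists_ne_map_eq_of_card_lt_of_maps_to
    (f := fun i => τ i a) (by rw [Finset.card_range]; omega) hmaps
  rw [Finset.mem_range] at hi hj
  have hex : ∃ i j : ℕ, j < D + 1 ∧ i < j ∧ w ^ (i * n) = w ^ (j * n) := by
    have h2 : w ^ (i * n) = w ^ (j * n) := by
      have h3 : τ i a = τ j a := h
      rw [h1 i, h1 j] at h3
      exact mul_right_cancel₀ ha0 h3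
    rcases lt_or_gt_of_ne hij with h' | h'
    · exact ⟨i, j, hj, h', h2⟩
    · exact ⟨j, i, hi, h', h2.symm⟩
  obtain ⟨i, j, hj, hij, h⟩ := hex
  have hw0 : w ≠ 0 := by
    intro h0
    rw [h0, zero_mul] at ha
    exact ha0 ((map_eq_zero σ).1 ha)
  have h8 : w ^ ((j - i) * n) = 1 := by
    have h9 : j * n = i * n + (j - i) * n := by
      rw [← add_mul]
      congr 1
      omega
    rw [h9, pow_add] at h
    have h10 : w ^ (i * n) * 1 = w ^ (i * n) * w ^ ((j - i) * n) := by
      rw [mul_one]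
      exact h
    exact (mul_left_cancel₀ (pow_ne_zero _ hw0) h10).symm
  obtain ⟨k, hk⟩ : (j - i) ∣ D.factorial := Nat.dvd_factorial (by omega) (by omega)
  rw [hk]
  have h11 : (j - i) * k * n = ((j - i) * n) * k := by ring
  rw [h11, pow_mul, h8, one_pow]

end Pool.Agent.Lib.MP_17a322_nt.VS
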