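import Pool.Agent.Lib.MP_17a322_nt.VJ.I14

/-!
# The torsion points killed by a power of two
-/

universe u

namespace Pool.Agent.Lib.MP_17a322_nt.VS

open MvPolynomial WeierstrassCurve
open Pool.Agent.Lib.MP_17a322_nt.RO Pool.Agent.Lib.MP_17a322_nt.VJ

/-- There are four points killed by `2`. -/
theorem VSI14_two {K Ω : Type u} [Field K] [CharZero K] [Field Ω] [DecidableEq Ω]
    [Algebra K Ω] [IsAlgClosed Ω] (W : WeierstrassCurve K) [W.IsElliptic] :
    ∃ s : Finset (W.map (algebraMap K Ω)).toAffine.Point, s.card = 4 ∧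
      ∀ T ∈ s, 2 • T = 0 := by
  classical
  have : CharZero Ω := charZero_of_injective_algebraMap (algebraMap K Ω).injective
  obtain ⟨C, hC⟩ : ∃ C : Cubic Ω, C = (W.map (algebraMap K Ω)).twoTorsionPolynomial := ⟨_, rfl⟩
  have hd : C.discr ≠ 0 := by
    rw [hC]
    exact twoTorsionPolynomial_discr_ne_zero_of_isElliptic _
      (isUnit_iff_ne_zero.2 (by norm_num))
  have ha : C.a ≠ 0 := by
    rw [hC]
    change (4 : Ω) ≠ 0
    norm_num
  obtain ⟨R, hR⟩ : ∃ R : Finset Ω, R = (Cubic.map (RingHom.id Ω) C).roots.toFinset := ⟨_, rfl⟩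
  have hR3 : R.card = 3 := by
    rw [hR]
    exact Cubic.card_roots_of_discr_ne_zero ha (IsAlgClosed.splits _) hd
  have hroot : ∀ x ∈ R, 4 * x ^ 3 + algebraMap K Ω W.b₂ * x ^ 2 +
      2 * algebraMap K Ω W.b₄ * x + algebraMap K Ω W.b₆ = 0 := by
    intro x hx
    rw [hR, Multiset.mem_toFinset] at hx
    have h1 := Polynomial.isRoot_of_mem_roots hx
    have h2 : (Cubic.map (RingHom.id Ω) C).toPoly.eval x = 0 := h1
    rw [hC] at h2
    simp only [Cubic.map, Cubic.toPoly, twoTorsionPolynomial, RingHom.id_apply, map_b₂, map_b₄,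
      map_b₆, Polynomial.eval_add, Polynomial.eval_mul, Polynomial.eval_C, Polynomial.eval_pow,
      Polynomial.eval_X] at h2
    exact h2
  choose pt hpt0 hpt using exists_affine_point (W.map (algebraMap K Ω))
  have h2 : ∀ x ∈ R, 2 • pt x = 0 := by
    intro x hx
    by_contra h2
    apply ph_xRep_ne_zero W (W.map (algebraMap K Ω)) rfl (pt x) h2
    have hx' := hroot x hx
    rw [hpt]
    unfold ph
    simp only [Matrix.cons_val_zero, Matrix.cons_val_one, Matrix.cons_val_fin_one]
    linear_combination hx'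
  have hinj : Set.InjOn pt R := by
    intro x _ y _ hxy
    have h3 := congrArg (fun P => P.xRep 0) hxy
    simp only [hpt] at h3
    simpa using h3
  refine ⟨insert 0 (R.image pt), ?_, ?_⟩
  · rw [Finset.card_insert_of_notMem, Finset.card_image_of_injOn hinj, hR3]
    rw [Finset.mem_image]
    rintro ⟨x, -, hx⟩
    exact hpt0 x hx
  · intro T hT
    rw [Finset.mem_insert, Finset.mem_image] at hT
    rcases hT with rfl | ⟨x, hx, rfl⟩
    · exact smul_zero _
    · exact h2 x hx

/-- There are `4 ^ M` points killed by `2 ^ M`. -/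
theorem exists_torsion4 {K Ω : Type u} [Field K] [CharZero K] [Field Ω] [DecidableEq Ω]
    [Algebra K Ω] [IsAlgClosed Ω] (W : WeierstrassCurve K) [W.IsElliptic] (M : ℕ) :
    ∃ s : Finset (W.map (algebraMap K Ω)).toAffine.Point, s.card = 4 ^ M ∧
      ∀ T ∈ s, 2 ^ M • T = 0 := by
  classical
  induction M with
  | zero => exact ⟨{0}, by simp, fun T hT => by rw [Finset.mem_singleton.1 hT, smul_zero]⟩
  | succ M ih =>
    obtain ⟨s, hs, hs0⟩ := ih
    obtain ⟨s₁, hs₁, hs₁0⟩ := VSI14_two (Ω := Ω) W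
    choose hf hhf using exists_half (Ω := Ω) W
    refine ⟨(s ×ˢ s₁).image (fun x => hf x.1 + x.2), ?_, ?_⟩
    · rw [Finset.card_image_of_injOn, Finset.card_product, hs, hs₁, pow_succ]
      rintro ⟨Q, R⟩ h1 ⟨Q', R'⟩ h2 h
      rw [Finset.mem_coe, Finset.mem_product] at h1 h2
      simp only at h h1 h2
      have h3 : Q = Q' := by
        have h4 : 2 • (hf Q + R) = 2 • (hf Q' + R') := by rw [h]
        rw [smul_add, smul_add, hhf, hhf, hs₁0 R h1.2, hs₁0 R' h2.2, add_zero, add_zero] at h4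
        exact h4
      subst h3
      rw [add_left_cancel h]
    · intro T hT
      rw [Finset.mem_image] at hT
      obtain ⟨⟨Q, R⟩, h1, rfl⟩ := hT
      rw [Finset.mem_product] at h1
      simp only at h1 ⊢
      rw [pow_succ, mul_smul, smul_add, hhf, hs₁0 R h1.2, add_zero, hs0 Q h1.1]

end Pool.Agent.Lib.MP_17a322_nt.VS
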