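import Pool.Agent.Lib.MP_17a322_nt.VS.J1a
import Pool.Agent.Lib.MP_17a322_nt.VJ.I17

/-!
(10.0): the generic configuration.
-/

universe u

namespace Pool.Agent.Lib.MP_17a322_nt.VS

open MvPolynomial WeierstrassCurve
open Pool.Agent.Lib.MP_17a322_nt.RO Pool.Agent.Lib.MP_17a322_nt.VJ

/-- A generic configuration. -/
structure Cfg {K Ω : Type*} [Field K] [Field Ω] [DecidableEq Ω] [Algebra K Ω]
    (W : WeierstrassCurve K) (e : ℕ) (c : Bool) (g g' : MvPolynomial (Fin 2) K)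
    (F : MvPolynomial (Fin 3) K) where
  /-- The point `p`. -/
  p : (W.map (algebraMap K Ω)).toAffine.Point
  /-- The point `p'`. -/
  p' : (W.map (algebraMap K Ω)).toAffine.Point
  /-- Coordinate of `p`. -/
  x : Ω
  /-- Coordinate of `p'`. -/
  x' : Ω
  /-- The element `a` of the multiplicative group. -/
  a : Ω
  /-- The element `a'` of the multiplicative group. -/
  a' : Ω
  hx : p.xRep = ![x, 1]
  hx' : p'.xRep = ![x', 1]
  ha : a ≠ 0
  ha' : a' ≠ 0
  ind : Ind2 K x x'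
  top : ∀ z : Ω, z ∈ acl K {x, x'}
  hg : aeval ![x, a] g = 0
  hg' : aeval ![x', a'] g' = 0
  /-- Coordinate of `p' - l p` in the chart `c`. -/
  ξ : Ω
  /-- Factor. -/
  r : Ω
  hr : r ≠ 0
  hξ : (p' - 2 ^ e • p).xRep = r • vc c ξ
  hF : aeval ![x, ξ, a' / a ^ 4 ^ e] F = 0

/-- (10.0). Proof. As VJ/I17 `exists_cfg`: C3 `exists_root_of_El` four times, starting with `s₀ (0, 0) = α`,
`s₀ (1, 0) = β`, `0` elsewhere.
1. `f = gX 1 g'`, `y = (1, 1)`: `a'` with `aeval ![β, a'] g' = 0`; `a' ≠ 0` because `a' ∉ acl K ∅` (I5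
   `snd_not_mem_acl`).
2. `f = gX 0 g`, `y = (0, 1)`: `a` with `aeval ![α, a] g = 0`, `a ≠ 0`.
3. `f = relG K e 1`, `y = (2, 1)`: leading coefficient `- a ^ 4 ^ e ≠ 0` (VS/J1a `relG_degreeOf_two`); the root
   is `ξ₁ = a' / a ^ 4 ^ e` (`aeval_relG`).
4. `f = relE W e c 1 = rel (fun _ => W) e (fun _ => c) 0`, `y = (2, 0)`: `rel_root` (VJ/I16) for the family
   `fun _ => W`, `t = 0` and `Ind2 K α β`. -/
theorem exists_cfg {K Ω : Type*} [Field K] [Field Ω] [DecidableEq Ω] [Algebra K Ω]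
    [IsAlgClosed Ω] (W : WeierstrassCurve K) [W.IsElliptic] (e : ℕ)
    (c : Bool) {g g' : MvPolynomial (Fin 2) K} (hg : Irreducible g)
    (hg' : Irreducible g') (hd : ∀ t, g.degreeOf t ≠ 0) (hd' : ∀ t, g'.degreeOf t ≠ 0)
    (F₃ : MvPolynomial (Fin 3) K)
    (hN : NS W e c g g' (rename (![(0, 0), (2, 0), (2, 1)] : Fin 3 → Fin 4 × Fin 2) F₃) = 0)
    {α β : Ω} (hab : Ind2 K α β) (htop : ∀ z : Ω, z ∈ acl K {α, β}) :
    Nonempty (Cfg (Ω := Ω) W e c g g' F₃) := by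
  have hb := hab.symm.1
  obtain ⟨s₀, h00, h10⟩ : ∃ s₀ : Fin 4 × Fin 2 → Ω, s₀ (0, 0) = α ∧ s₀ (1, 0) = β :=
    ⟨fun p => if p = (0, 0) then α else if p = (1, 0) then β else 0, by simp, by simp⟩
  have hN0 : aeval s₀ (NS W e c g g' (rename (![(0, 0), (2, 0), (2, 1)] :
    Fin 3 → Fin 4 × Fin 2) F₃)) = 0 := by rw [hN, map_zero]
  unfold NS at hN0
  obtain ⟨a', ha', hG1⟩ := I17_curve 1 hg'.ne_zero (hd' 1) s₀ (by rw [h10]; exact hb) _ hN0
  rw [h10] at ha'
  obtain ⟨s₁, hs₁⟩ : ∃ s₁, s₁ = Function.update s₀ (1, 1) a' := ⟨_, rfl⟩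
  rw [← hs₁] at hG1
  have h00' : s₁ (0, 0) = α := by rw [hs₁, Function.update_of_ne (by decide), h00]
  have h10' : s₁ (1, 0) = β := by rw [hs₁, Function.update_of_ne (by decide), h10]
  have h11' : s₁ (1, 1) = a' := by rw [hs₁, Function.update_self]
  obtain ⟨a, ha, hG2⟩ := I17_curve 0 hg.ne_zero (hd 1) s₁ (by rw [h00']; exact hab.1) _ hG1
  rw [h00'] at ha
  obtain ⟨s₂, hs₂⟩ : ∃ s₂, s₂ = Function.update s₁ (0, 1) a := ⟨_, rfl⟩
  rw [← hs₂] at hG2
  have h00₂ : s₂ (0, 0) = α := by rw [hs₂, Function.update_of_ne (by decide), h00']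
  have h10₂ : s₂ (1, 0) = β := by rw [hs₂, Function.update_of_ne (by decide), h10']
  have h11₂ : s₂ (1, 1) = a' := by rw [hs₂, Function.update_of_ne (by decide), h11']
  have h01₂ : s₂ (0, 1) = a := by rw [hs₂, Function.update_self]
  have hane : a ≠ 0 := by
    intro h0
    exact snd_not_mem_acl hg hd (x := ![α, a]) ha hab.1 (by
      change a ∈ _
      rw [h0]
      exact zero_mem _)
  have hane' : a' ≠ 0 := by
    intro h0
    exact snd_not_mem_acl hg' hd' (x := ![β, a']) ha' hb (by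
      change a' ∈ _
      rw [h0]
      exact zero_mem _)
  obtain ⟨hdeg1, hlc1⟩ := relG_degreeOf_two (K := K) e 1 (Or.inl rfl)
  have hl1 : aeval s₂ (lcv (2, 1) (relG K e 1)) ≠ 0 := by
    rw [hlc1, map_neg, map_pow, aeval_X, h01₂]
    exact neg_ne_zero.2 (pow_ne_zero _ hane)
  obtain ⟨ξ1, hξ1, hG3⟩ := exists_root_of_El _ _ _ (by rw [hdeg1]; norm_num) s₂ hl1 hG2
  have hξ1' : ξ1 = a' / a ^ 4 ^ e := by
    rw [aeval_relG, Function.update_self, Function.update_of_ne (by decide),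
      Function.update_of_ne (by decide), h01₂, h11₂] at hξ1
    rw [eq_div_iff (pow_ne_zero _ hane)]
    linear_combination -hξ1
  obtain ⟨s₃, hs₃⟩ : ∃ s₃, s₃ = Function.update s₂ (2, 1) ξ1 := ⟨_, rfl⟩
  rw [← hs₃] at hG3
  have h00₃ : s₃ (0, 0) = α := by rw [hs₃, Function.update_of_ne (by decide), h00₂]
  have h10₃ : s₃ (1, 0) = β := by rw [hs₃, Function.update_of_ne (by decide), h10₂]
  have h21₃ : s₃ (2, 1) = ξ1 := by rw [hs₃, Function.update_self]
  obtain ⟨hdeg0, hl0, hroot0⟩ := rel_root (fun _ => W) e (fun _ => c) 0 s₃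
    (by rw [h00₃, h10₃]; exact hab)
  obtain ⟨ξ0, hξ0, hG4⟩ := exists_root_of_El _ _ _ hdeg0 s₃ hl0 hG3
  obtain ⟨p, p', r, hr, hp, hp', hpr⟩ := hroot0 ξ0 hξ0
  rw [h00₃] at hp
  rw [h10₃] at hp'
  have hF : aeval (![α, ξ0, a' / a ^ 4 ^ e] : Fin 3 → Ω) F₃ = 0 := by
    rw [aeval_rename] at hG4
    have hfun : (![α, ξ0, a' / a ^ 4 ^ e] : Fin 3 → Ω) = Function.update s₃ (2, 0) ξ0 ∘
        (![(0, 0), (2, 0), (2, 1)] : Fin 3 → Fin 4 × Fin 2) := by
      funext i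
      fin_cases i
      · show α = Function.update s₃ (2, 0) ξ0 (0, 0)
        rw [Function.update_of_ne (by decide), h00₃]
      · show ξ0 = Function.update s₃ (2, 0) ξ0 (2, 0)
        rw [Function.update_self]
      · show a' / a ^ 4 ^ e = Function.update s₃ (2, 0) ξ0 (2, 1)
        rw [Function.update_of_ne (by decide), h21₃, hξ1']
    rw [hfun]
    exact hG4
  exact ⟨⟨p, p', α, β, a, a', hp, hp', hane, hane', hab, htop, ha, ha', ξ0, r, hr, hpr, hF⟩⟩

/-- Division by the power of the last variable: `F = X 2 ^ k * F'` with `F'` not divisible by `X 2`; then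
`F'(X 0, X 1, 0) ≠ 0`, and if `x`, `ξ` are independent `aeval ![x, ξ, 0] F' ≠ 0`.
Proof. `exists_max_power`-like argument (degree in `X 2`), `degreeOf_mul_eq`-like lemma for the degrees;
`aeval ![x, ξ, 0] F' = aeval ![x, ξ, 0] (coefficient of X 2 ^ 0)`, `(vw 2 F').coeff 0 ≠ 0` has variables
`⊆ {0, 1}` (`aeval_ne_zero₂`, VJ/I4). -/
theorem exists_reduced {K Ω : Type*} [Field K] [Field Ω] [Algebra K Ω]
    (F : MvPolynomial (Fin 3) K) (hF : F ≠ 0) :
    ∃ (k : ℕ) (F' : MvPolynomial (Fin 3) K), F = X 2 ^ k * F' ∧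
      (∀ t, F'.degreeOf t ≤ F.degreeOf t) ∧
      ∀ x ξ : Ω, Ind2 K x ξ → aeval ![x, ξ, 0] F' ≠ 0 := by
  obtain ⟨n, hn⟩ : ∃ n, n = F.degreeOf 2 := ⟨_, rfl⟩
  induction n using Nat.strong_induction_on generalizing F with
  | _ n ih =>
    by_cases h0 : (vw 2 F).coeff 0 = 0
    · obtain ⟨q, hq⟩ := Polynomial.X_dvd_iff.2 h0
      have hF1 : F = X 2 * q.eval (X 2) := by
        conv_lhs => rw [← eval_vw 2 F, hq]
        rw [Polynomial.eval_mul, Polynomial.eval_X]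
      obtain ⟨F₁, hF₁⟩ : ∃ F₁, F₁ = q.eval (X 2 : MvPolynomial (Fin 3) K) := ⟨_, rfl⟩
      rw [← hF₁] at hF1
      have hne : F₁ ≠ 0 := by
        intro h
        exact hF (by rw [hF1, h, mul_zero])
      have hdeg : ∀ t, F.degreeOf t = (X 2 : MvPolynomial (Fin 3) K).degreeOf t + F₁.degreeOf t := by
        intro t
        rw [hF1]
        exact degreeOf_mul_eq (X_ne_zero _) hne
      have hlt : F₁.degreeOf 2 < n := by
        rw [hn, hdeg 2, degreeOf_X, if_pos rfl]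
        omega
      obtain ⟨k, F', h1, h2, h3⟩ := ih _ hlt F₁ hne rfl
      refine ⟨k + 1, F', ?_, ?_, h3⟩
      · rw [hF1, h1, pow_succ]
        ring
      · intro t
        have h4 := h2 t
        rw [hdeg t]
        omega
    · refine ⟨0, F, by rw [pow_zero, one_mul], fun t => le_rfl, ?_⟩
      intro x ξ hind
      have h1 := aeval_vw (2 : Fin 3) (![x, ξ, 0] : Fin 3 → Ω) 0 F
      have h2 : Function.update (![x, ξ, 0] : Fin 3 → Ω) 2 0 = ![x, ξ, 0] := by
        funext i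
        fin_cases i
        · rfl
        · rfl
        · rfl
      rw [h2, ← Polynomial.coeff_zero_eq_eval_zero, Polynomial.coeff_map] at h1
      rw [← h1]
      refine aeval_ne_zero₂ (y := (0 : Fin 3)) (y' := 1) (by decide) h0 ?_ hind
      intro t ht
      have h3 := vars_coeff_vw (2 : Fin 3) F 0 ht
      rw [Finset.mem_erase] at h3
      have h4 := h3.1
      fin_cases t
      · simp
      · simp
      · exact absurd rfl h4

end Pool.Agent.Lib.MP_17a322_nt.VS
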