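import Pool.Agent.Lib.MP_17a322_nt.VS.I10
import Pool.Agent.Lib.MP_17a322_nt.VS.I17
import Pool.Agent.Lib.MP_17a322_nt.VJ.I18

/-!
(10.2) The automorphism attached to a torsion point.
-/

namespace Pool.Agent.Lib.MP_17a322_nt.VS

open MvPolynomial WeierstrassCurve
open Pool.Agent.Lib.MP_17a322_nt.RO Pool.Agent.Lib.MP_17a322_nt.VJ

section

variable {K Ω : Type*} [Field K] [CharZero K] [Field Ω] [DecidableEq Ω] [Algebra K Ω]
  [IsAlgClosed Ω]

/-- (10.2) -/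
theorem Cfg.auto {W : WeierstrassCurve K} [W.IsElliptic] {c : Bool}
    {e b s D : ℕ} {g g' : MvPolynomial (Fin 2) K} {F : MvPolynomial (Fin 3) K}
    (C : Cfg (Ω := Ω) W e c g g' F) (hg : g ≠ 0) (hg' : g' ≠ 0) (hD : g.degreeOf 1 ≤ D)
    (hF0 : ∀ x ξ : Ω, Ind2 K x ξ → aeval ![x, ξ, 0] F ≠ 0)
    (hFs : F.degreeOf 0 ≤ s) (hFb : F.degreeOf 2 ≤ b)
    (h32 : 32 * D ^ 2 * b * s < 4 ^ e) (T : (W.map (algebraMap K Ω)).toAffine.Point)
    (hT : PA (acl K (∅ : Set Ω)) T) (hlT : 2 ^ e • T = 0) :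
    ∃ (w : Ω) (σ : Ω →ₐ[K] Ω), w ∈ acl K (∅ : Set Ω) ∧
      (∀ z ∈ acl K (∅ : Set Ω), σ z = z) ∧ mp W σ C.p = C.p + T ∧ σ C.a = w * C.a := by
  have hx0 : C.x ∉ acl K (∅ : Set Ω) := C.ind.1
  have hx'0 : C.x' ∉ acl K (∅ : Set Ω) := C.ind.symm.1
  -- coordinates
  have hx1 : C.a ∈ acl K {C.x} := by
    have h := snd_mem_acl (x := ![C.x, C.a]) hg C.hg hx0
    simpa using h
  have hx'1 : C.a' ∈ acl K {C.x'} := by
    have h := snd_mem_acl (x := ![C.x', C.a']) hg' C.hg' hx'0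
    simpa using h
  have hPu0 : PA (acl K {C.x}) C.p := PA_of_xRep C.hx (mem_acl_of_mem rfl)
  have hPu'0 : PA (acl K {C.x'}) C.p' := PA_of_xRep C.hx' (mem_acl_of_mem rfl)
  rcases pt_cases T with hT0 | ⟨τ, hτ⟩
  · -- the trivial case
    refine ⟨1, AlgHom.id K Ω, one_mem _, fun z _ => rfl, ?_, ?_⟩
    · have h1 := mp_fix (W := W) (A := (⊤ : IntermediateField K Ω)) (fun z _ => trivial)
        (σ := AlgHom.id K Ω) (fun z _ => rfl) (P := C.p) (fun i => trivial)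
      rw [h1, hT0, add_zero]
    · rw [one_mul]
      rfl
  have hTA : ∀ S : Set Ω, PA (acl K S) T := fun S => hT.mono (acl_mono (Set.empty_subset S))
  have hPuT : PA (acl K {C.x}) (C.p + T) := PA.add (Clo_acl _) hPu0 (hTA _)
  -- `p + T` is generic
  have hgen : ¬ PA (acl K {C.x'}) (C.p + T) := by
    intro h
    have h1 : PA (acl K {C.x'}) C.p := by
      have h2 := PA.sub (Clo_acl _) h (hTA {C.x'})
      rwa [add_sub_cancel_right] at h2
    exact C.ind.symm.2 (h1.mem C.hx)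
  obtain ⟨xt, hxt⟩ : ∃ xt, (C.p + T).xRep = ![xt, 1] := by
    rcases pt_cases (C.p + T) with h | h
    · exact absurd (h ▸ PA_zero _) hgen
    · exact h
  have hxtA : xt ∉ acl K {C.x'} := fun h => hgen (PA_of_xRep hxt h)
  -- the homomorphism
  obtain ⟨σ, hσA, hσu⟩ := exists_hom W (acl K {C.x'}) C.p (C.p + T) C.hx hxt
    (fun h => C.ind.symm.2 (acl_closed _ h)) (fun h => hxtA (acl_closed _ h))
    (fun z => I18_algebraic _ (mem_acl_of_mem rfl) (C.top z))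
  have hσk : ∀ z ∈ acl K (∅ : Set Ω), σ z = z :=
    fun z hz => hσA z (acl_mono (Set.empty_subset _) hz)
  have hσx0 : σ C.x = xt := by
    have h1 := mp_xRep W σ C.p 0
    rw [hσu, hxt, C.hx] at h1
    simpa using h1.symm
  have hfix0 : mp W σ C.p' = C.p' := mp_fix (Clo_acl _) hσA hPu'0
  have hσa' : σ C.a' = C.a' := hσA _ hx'1
  -- the elliptic factor
  have hq0 : mp W σ (C.p' - 2 ^ e • C.p) = C.p' - 2 ^ e • C.p := by
    rw [map_sub, map_nsmul, hfix0, hσu, smul_add, hlT, add_zero]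
  have hσξ : σ C.ξ = C.ξ := by
    have h1 : C.r • vc c C.ξ = σ C.r • vc c (σ C.ξ) := by
      funext i
      rw [← C.hξ, ← hq0, mp_xRep, C.hξ, Pi.smul_apply, Pi.smul_apply, smul_eq_mul, smul_eq_mul,
        map_mul, I18_map_vc]
    exact (I18_vc_eq C.hr h1).symm
  have hind : Ind2 K C.x C.ξ := by
    refine ⟨hx0, fun h => C.ind.2 ?_⟩
    have h1 : PA (acl K {C.x}) (C.p' - 2 ^ e • C.p) := I18_PA_of_vc C.hr C.hξ h
    have h2 : PA (acl K {C.x}) C.p' := by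
      have h3 := PA.add (Clo_acl _) h1 (PA.nsmul (Clo_acl _) hPu0 (2 ^ e))
      rwa [sub_add_cancel] at h3
    exact h2.mem C.hx'
  have hgt : aeval ![xt, σ C.a] g = 0 := by
    have h1 : σ (aeval ![C.x, C.a] g) = 0 := by rw [C.hg, map_zero]
    rw [MvPolynomial.comp_aeval_apply] at h1
    have h2 : (fun i => σ ((![C.x, C.a] : Fin 2 → Ω) i)) = ![xt, σ C.a] := by
      funext i
      fin_cases i
      · exact hσx0
      · rfl
    rw [← h2]
    exact h1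
  have hσa0 : σ C.a ≠ 0 := (map_ne_zero σ).2 C.ha
  have hFt : aeval ![xt, C.ξ, C.a' / σ C.a ^ 4 ^ e] F = 0 := by
    have h1 : σ (aeval ![C.x, C.ξ, C.a' / C.a ^ 4 ^ e] F) = 0 := by rw [C.hF, map_zero]
    rw [MvPolynomial.comp_aeval_apply] at h1
    have h2 : (fun i => σ ((![C.x, C.ξ, C.a' / C.a ^ 4 ^ e] : Fin 3 → Ω) i)) =
        ![xt, C.ξ, C.a' / σ C.a ^ 4 ^ e] := by
      funext i
      fin_cases i
      · exact hσx0
      · exact hσξ
      · change σ (C.a' / C.a ^ 4 ^ e) = C.a' / σ C.a ^ 4 ^ e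
        rw [map_div₀, map_pow, hσa']
    rw [← h2]
    exact h1
  -- the quotient
  obtain ⟨w, hw⟩ : ∃ w : Ω, σ C.a = w * C.a := ⟨σ C.a / C.a, (div_mul_cancel₀ _ C.ha).symm⟩
  have hw0 : w ≠ 0 := by
    rintro rfl
    rw [zero_mul] at hw
    exact hσa0 hw
  have hrel : C.a' / C.a ^ 4 ^ e = w ^ 4 ^ e * (C.a' / σ C.a ^ 4 ^ e) := by
    have ha := C.ha
    rw [hw, mul_pow]
    field_simp
  have h1 : w ∈ acl K {C.ξ} :=
    degree_argument W hg hD hFs hFb h32 hind C.p T C.hx hτ (hT.mem hτ) hxt C.ha C.hg hgt C.hF hFt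
      (hF0 _ _ hind) hrel hw
  have hwk : w ∈ acl K (∅ : Set Ω) := by
    by_contra hwk
    have h3 : σ C.a ∈ acl K {C.x} := by
      have h3 := map_mem_acl σ hx1
      rw [Set.image_singleton, hσx0] at h3
      exact acl_le_acl (Set.singleton_subset_iff.2 (hPuT.mem hxt)) h3
    have h4 : w ∈ acl K {C.x} := by
      have h5 : w = σ C.a / C.a := by
        rw [hw, mul_div_cancel_right₀ _ C.ha]
      rw [h5]
      exact div_mem h3 hx1
    have h5 : C.x ∈ acl K {w} := acl_exchange₁ h4 hwk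
    exact hind.symm.2 (acl_le_acl (Set.singleton_subset_iff.2 h1) h5)
  exact ⟨w, σ, hwk, hσk, hσu, hw⟩

end

end Pool.Agent.Lib.MP_17a322_nt.VS
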