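import Pool.Agent.Lib.MP_17a322_nt.VS.I11
import Pool.Agent.Lib.MP_17a322_nt.VS.I14
import Pool.Agent.Lib.MP_17a322_nt.VS.I18

/-!
Section 10 (IND): the eliminant `N` does not vanish.
-/

universe u

namespace Pool.Agent.Lib.MP_17a322_nt.VS

open MvPolynomial Height WeierstrassCurve
open Pool.Agent.Lib.MP_17a322_nt.RO Pool.Agent.Lib.MP_17a322_nt.VJ

/-- The coordinates of `p + T` for torsion points `T` and a generic point `p` are distinct. -/
theorem VSI19_inj {K Ω : Type u} [Field K] [CharZero K] [Field Ω] [DecidableEq Ω] [Algebra K Ω]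
    [IsAlgClosed Ω] (W : WeierstrassCurve K) [W.IsElliptic] {x : Ω}
    (hx0 : x ∉ acl K (∅ : Set Ω)) (p T T' : (W.map (algebraMap K Ω)).toAffine.Point)
    (hpx : p.xRep = ![x, 1]) {n : ℕ} (hn : n ≠ 0) (hT : n • T = 0) (hT' : n • T' = 0)
    (h : (p + T).xRep = (p + T').xRep) : T = T' := by
  rcases WeierstrassCurve.Affine.Point.xRep_eq_xRep_iff.1 h with h1 | h1
  · exact add_left_cancel h1
  · exfalso
    apply hx0
    have h2 : (2 * n) • p = 0 := by
      have h3 : n • (p + T) = n • (-(p + T')) := by rw [h1]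
      rw [smul_add, hT, add_zero, smul_neg, smul_add, hT', add_zero] at h3
      rw [mul_comm, mul_smul, two_smul, smul_add]
      nth_rw 1 [h3]
      exact neg_add_cancel _
    have h3 : PA (acl K (∅ : Set Ω)) p := PA_of_torsion W (mul_ne_zero two_ne_zero hn) h2
    exact h3.mem hpx

/-- The counting argument: the points `p + T` lie over few points of the multiplicative group. -/
theorem VSI19_count {K Ω : Type u} [Field K] [CharZero K] [Field Ω] [DecidableEq Ω]
    [Algebra K Ω] [IsAlgClosed Ω] {D N m : ℕ} {g : MvPolynomial (Fin 2) K} (hg : g ≠ 0)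
    (hD : g.degreeOf 0 ≤ D) {a : Ω} (ha0 : a ∉ acl K (∅ : Set Ω)) (hN : N ≠ 0) (X : Fin m → Ω)
    (hX : Function.Injective X)
    (h : ∀ i, ∃ w : Ω, w ^ N = 1 ∧ aeval ![X i, w * a] g = 0) : m ≤ N * D := by
  classical
  have hfin : ((Polynomial.nthRoots N (1 : Ω)).toFinset).card ≤ N :=
    (Multiset.toFinset_card_le _).trans (Polynomial.card_nthRoots N 1)
  obtain ⟨q, hq⟩ : ∃ q : Ω → Polynomial Ω, ∀ w, q w = ev1 0 ![0, w * a] g := ⟨_, fun _ => rfl⟩
  have hq0 : ∀ w : Ω, w ^ N = 1 → q w ≠ 0 := by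
    intro w hw hz
    have hw0 : w ≠ 0 := by
      rintro rfl
      rw [zero_pow hN] at hw
      exact zero_ne_one hw
    have hwk : w ∈ acl K (∅ : Set Ω) := by
      refine acl_closed _ ⟨Polynomial.X ^ N - 1, ?_, ?_⟩
      · exact (Polynomial.monic_X_pow_sub_C (1 : acl K (∅ : Set Ω)) hN).ne_zero
      · simp [hw]
    have hwa : w * a ∉ acl K (∅ : Set Ω) := by
      intro hmem
      apply ha0
      have h1 : a = w⁻¹ * (w * a) := by
        rw [← mul_assoc, inv_mul_cancel₀ hw0, one_mul]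
      rw [h1]
      exact mul_mem (inv_mem hwk) hmem
    have h1 : aeval (![0, w * a] : Fin 2 → Ω) (lcv 0 g) ≠ 0 := by
      refine aeval_ne_zero₁ (y := 1) (lcv_ne_zero hg) ?_ hwa
      refine (vars_lcv g).trans ?_
      intro t ht
      rw [Finset.mem_erase] at ht
      fin_cases t
      · exact absurd rfl ht.1
      · simp
    rw [← coeff_ev1_degreeOf, ← hq, hz, Polynomial.coeff_zero] at h1
    exact h1 rfl
  have hsub : Finset.univ.image X ⊆ (Polynomial.nthRoots N (1 : Ω)).toFinset.biUnion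
      (fun w => (q w).roots.toFinset) := by
    intro z hz
    rw [Finset.mem_image] at hz
    obtain ⟨i, -, rfl⟩ := hz
    obtain ⟨w, hw, hgw⟩ := h i
    rw [Finset.mem_biUnion]
    refine ⟨w, ?_, ?_⟩
    · rw [Multiset.mem_toFinset, Polynomial.mem_nthRoots (Nat.pos_of_ne_zero hN)]
      exact hw
    · rw [Multiset.mem_toFinset, Polynomial.mem_roots (hq0 w hw), Polynomial.IsRoot, hq, eval_ev1]
      have h1 : Function.update (![0, w * a] : Fin 2 → Ω) 0 (X i) = ![X i, w * a] := by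
        funext t
        fin_cases t
        · rfl
        · rfl
      rw [h1]
      exact hgw
  have h1 := Finset.card_le_card hsub
  rw [Finset.card_image_of_injective _ hX, Finset.card_univ, Fintype.card_fin] at h1
  refine h1.trans ?_
  refine (Finset.card_biUnion_le_card_mul _ _ D fun w _ => ?_).trans
    (Nat.mul_le_mul_right _ hfin)
  refine (Multiset.toFinset_card_le _).trans ((Polynomial.card_roots' _).trans ?_)
  rw [hq]
  exact (natDegree_ev1_le _ _ _).trans hD

/-- Section 10 (IND): the eliminant `N` does not vanish. -/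
theorem ind_proof {K : Type u} [Field K] [NumberField K] (W : WeierstrassCurve K) [W.IsElliptic]
    (D : ℕ) :
    ∃ e₀ : ℕ, ∀ (g g' : MvPolynomial (Fin 2) K) (F : MvPolynomial (Fin 4 × Fin 2) K)
      (c : Bool) (e s b : ℕ), GC g D → GC g' D →
      F ≠ 0 → F.vars ⊆ {(0, 0), (2, 0), (2, 1)} → F.degreeOf (0, 0) ≤ s →
      (∀ t, F.degreeOf (2, t) ≤ b) → e₀ ≤ e → 32 * D ^ 2 * b * s < 4 ^ e →
      NS W e c g g' F ≠ 0 := by
  classical
  obtain ⟨Ω, i1, i2, α, β, i3, hab, htop⟩ := exists_big_field K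
  obtain ⟨M, hM⟩ : ∃ M : ℕ, M = D.factorial * D := ⟨_, rfl⟩
  obtain ⟨s₀, hs₀, hT⟩ := exists_torsion4 (Ω := Ω) W M
  obtain ⟨N, hN⟩ : ∃ N : ℕ, N = D.factorial * 2 ^ M := ⟨_, rfl⟩
  have hN0 : N ≠ 0 := by
    rw [hN]
    exact mul_ne_zero (Nat.factorial_ne_zero _) (pow_ne_zero _ two_ne_zero)
  refine ⟨M, fun g g' F c e s b hg hg' hF hv hs hb he h32 hNN => ?_⟩
  obtain ⟨F₃, hF₃, hd0, hd1, hd2⟩ := exists_three F hv
  have hF₃0 : F₃ ≠ 0 := by
    rintro rfl
    exact hF (hF₃.trans (map_zero _))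
  rw [hF₃] at hNN
  obtain ⟨C₀⟩ := exists_cfg W e c hg.irreducible hg'.irreducible hg.degreeOf_ne hg'.degreeOf_ne F₃
    hNN hab htop
  obtain ⟨k, F', hF', hdF', hF'0⟩ := exists_reduced (Ω := Ω) F₃ hF₃0
  have hξ1 : C₀.a' / C₀.a ^ 4 ^ e ≠ 0 := div_ne_zero C₀.ha' (pow_ne_zero _ C₀.ha)
  have hCF : aeval ![C₀.x, C₀.ξ, C₀.a' / C₀.a ^ 4 ^ e] F' = 0 := by
    have h1 := C₀.hF
    have h0 : ∀ v : Fin 3 → Ω, aeval v F₃ = v 2 ^ k * aeval v F' := by
      intro v
      rw [hF', map_mul, map_pow, aeval_X]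
    rw [h0] at h1
    rcases mul_eq_zero.1 h1 with h3 | h3
    · exact absurd h3 (pow_ne_zero _ hξ1)
    · exact h3
  let C : Cfg (Ω := Ω) W e c g g' F' :=
    { p := C₀.p
      p' := C₀.p'
      x := C₀.x
      x' := C₀.x'
      a := C₀.a
      a' := C₀.a'
      hx := C₀.hx
      hx' := C₀.hx'
      ha := C₀.ha
      ha' := C₀.ha'
      ind := C₀.ind
      top := C₀.top
      hg := C₀.hg
      hg' := C₀.hg'
      ξ := C₀.ξ
      r := C₀.r
      hr := C₀.hr
      hξ := C₀.hξ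
      hF := hCF }
  have hFs : F'.degreeOf 0 ≤ s := (hdF' 0).trans (hd0.le.trans hs)
  have hFb : F'.degreeOf 2 ≤ b := (hdF' 2).trans (hd2.le.trans (hb 1))
  have ha0 : C.a ∉ acl K (∅ : Set Ω) :=
    snd_not_mem_acl (x := ![C.x, C.a]) hg.irreducible hg.degreeOf_ne C.hg C.ind.1
  have key : ∀ T ∈ s₀, ∃ w : Ω, w ^ N = 1 ∧ aeval ![(C.p + T).xRep 0, w * C.a] g = 0 := by
    intro T hTs
    have hTi := hT T hTs
    have hTe : 2 ^ e • T = 0 := by
      obtain ⟨k, hk⟩ := Nat.exists_eq_add_of_le he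
      rw [hk, pow_add, mul_comm, mul_smul, hTi, smul_zero]
    have hPT : PA (acl K (∅ : Set Ω)) T := PA_of_torsion W (pow_ne_zero M two_ne_zero) hTi
    obtain ⟨w, σ, hw, hσ, hp, ha⟩ := C.auto hg.irreducible.ne_zero hg'.irreducible.ne_zero
      (hg.2 1).2 hF'0 hFs hFb h32 T hPT hTe
    refine ⟨w, ?_, ?_⟩
    · rw [hN]
      exact finite_order hg.irreducible.ne_zero (hg.2 1).2 C.ind.1 C.hg C.ha C.p T C.hx σ hσ
        hPT hw hp ha hTi
    · have h1 : σ (aeval ![C.x, C.a] g) = 0 := by rw [C.hg, map_zero]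
      rw [MvPolynomial.comp_aeval_apply] at h1
      have h2 : (fun i => σ ((![C.x, C.a] : Fin 2 → Ω) i)) = ![(C.p + T).xRep 0, w * C.a] := by
        funext i
        fin_cases i
        · change σ C.x = (C.p + T).xRep 0
          rw [← hp, mp_xRep, C.hx]
          rfl
        · exact ha
      rw [← h2]
      exact h1
  -- the coordinates of the points
  obtain ⟨E⟩ : Nonempty (Fin (4 ^ M) ≃ s₀) := by
    rw [← hs₀]
    exact ⟨(Finset.equivFin s₀).symm⟩
  have hinj : Function.Injective fun i =>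
      (C.p + (E i : (W.map (algebraMap K Ω)).toAffine.Point)).xRep 0 := by
    intro i i' hii
    apply E.injective
    apply Subtype.ext
    have hgen : ∀ T ∈ s₀, C.p + T ≠ 0 := by
      intro T hTs h0
      apply C.ind.1
      have h1 : C.p = -T := eq_neg_of_add_eq_zero_left h0
      have h2 : 2 ^ M • C.p = 0 := by rw [h1, smul_neg, hT T hTs, neg_zero]
      have h3 : PA (acl K (∅ : Set Ω)) C.p := PA_of_torsion W (pow_ne_zero M two_ne_zero) h2
      exact h3.mem C.hx
    refine VSI19_inj W C.ind.1 C.p _ _ C.hx (pow_ne_zero M two_ne_zero) (hT _ (E i).2)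
      (hT _ (E i').2) ?_
    rw [xRep_eq (hgen _ (E i).2), xRep_eq (hgen _ (E i').2)]
    exact congrArg (fun z => ![z, 1]) hii
  have hcount := VSI19_count hg.irreducible.ne_zero (hg.2 0).2 ha0 hN0 _ hinj
    (fun i => key _ (E i).2)
  -- contradiction
  have h1 : 4 ^ M = 2 ^ M * 2 ^ M := by
    rw [← mul_pow]
    norm_num
  have h2 : D.factorial * D < 2 ^ M := by
    rw [hM]
    exact Nat.lt_two_pow_self
  rw [h1, hN] at hcount
  have h3 : D.factorial * 2 ^ M * D = D.factorial * D * 2 ^ M := by ring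
  rw [h3] at hcount
  exact absurd (Nat.le_of_mul_le_mul_right hcount (by positivity)) (not_le.2 h2)

end Pool.Agent.Lib.MP_17a322_nt.VS
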