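import Pool.Agent.Lib.MP_17a322_nt.VJ.I7
import Pool.Agent.Lib.MP_17a322_nt.VJ.I8

/-!
# The relation between X and Z (10.2), and its nonvanishing

Variables of `MvPolynomial (Fin 7) K` as in VJ/I7: `0` is `X`, `1` is `X_t`, `2` is the x-coordinate of the
torsion point, `3` is `ξ_0`, `4` and `5` are the two values of `ξ_1`, `6` is `Z`. `rX`, `fA`, `fB` are those of VJ/I7;
the last relation is `Y = Z Y'`.
-/

namespace Pool.Agent.Lib.MP_17a322_nt.VS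

open MvPolynomial
open Pool.Agent.Lib.MP_17a322_nt.RO Pool.Agent.Lib.MP_17a322_nt.VJ

section

variable {K : Type*} [Field K]

/-- The relation `Y = Z Y'`. -/
noncomputable def rG (K : Type*) [Field K] : MvPolynomial (Fin 7) K := X 4 - X 6 * X 5

/-- The eliminant. -/
noncomputable def R3 (W : WeierstrassCurve K) (F : MvPolynomial (Fin 3) K) :
    MvPolynomial (Fin 7) K :=
  El 1 (rX W) (El 4 (fA F) (El 5 (fB F) (rG K)))

theorem degreeOf_rG_le (t : Fin 7) : (rG K).degreeOf t ≤ 1 := by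
  unfold rG
  refine I7_sub ?_ (I7_mul (I7_X 6).le (I7_X 5).le ?_)
  · rw [I7_X]
    split_ifs <;> omega
  · fin_cases t <;> simp

theorem vars_rG : (rG K).vars ⊆ {4, 5, 6} := by
  have h : rG K ∈ supported K (({4, 5, 6} : Finset (Fin 7)) : Set (Fin 7)) :=
    sub_mem (X_mem_supported.2 (by decide))
      (mul_mem (X_mem_supported.2 (by decide)) (X_mem_supported.2 (by decide)))
  exact Finset.coe_subset.1 (mem_supported.1 h)

/-- `vars_El_subset` (VJ/C2), as in VJ/I7. -/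
theorem vars_R3 (W : WeierstrassCurve K) (F : MvPolynomial (Fin 3) K) :
    (R3 W F).vars ⊆ {0, 2, 3, 6} := by
  have h1 : (El 5 (fB F) (rG K)).vars ⊆ ({1, 3, 4, 6} : Finset (Fin 7)) :=
    (vars_El_subset 5 _ _).trans ((Finset.erase_subset_erase 5
      (Finset.union_subset_union (vars_fB F) vars_rG)).trans (by decide))
  have h2 : (El 4 (fA F) (El 5 (fB F) (rG K))).vars ⊆ ({0, 1, 3, 6} : Finset (Fin 7)) :=
    (vars_El_subset 4 _ _).trans ((Finset.erase_subset_erase 4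
      (Finset.union_subset_union (vars_fA F) h1)).trans (by decide))
  exact (vars_El_subset 1 _ _).trans ((Finset.erase_subset_erase 1
      (Finset.union_subset_union (vars_rX W) h2)).trans (by decide))

/-- `degreeOf_El_le` (VJ/C2) three times: `E1 = El 5 (fB F) (rG)`: `deg_0 = 0`, `deg_1 ≤ s`, `deg_4 ≤ b`;
`E2 = El 4 (fA F) E1`: `deg_0 ≤ b s`, `deg_1 ≤ b s`; `R3`: `deg_0 ≤ 2 (b s) + 2 (b s)`. -/
theorem degreeOf_R3 (W : WeierstrassCurve K) (F : MvPolynomial (Fin 3) K)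
    {s b : ℕ} (hs : F.degreeOf 0 ≤ s) (hb : F.degreeOf 2 ≤ b) :
    (R3 W F).degreeOf 0 ≤ 4 * b * s := by
  have hz : ∀ (P : MvPolynomial (Fin 7) K) (T : Finset (Fin 7)) (t : Fin 7), P.vars ⊆ T →
      t ∉ T → P.degreeOf t = 0 := by
    intro P T t hP ht
    rw [← Nat.le_zero, degreeOf_le_iff]
    intro m hm
    by_contra h0
    exact ht (hP ((mem_vars_iff_mem_support t).2 ⟨m, hm, Finsupp.mem_support_iff.2 (by omega)⟩))
  have hA4 : (fA F).degreeOf 4 ≤ b := (degreeOf_fA F 2).le.trans hb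
  have hA0 : (fA F).degreeOf 0 ≤ s := (degreeOf_fA F 0).le.trans hs
  have hA1 : (fA F).degreeOf 1 = 0 := hz _ _ 1 (vars_fA F) (by decide)
  have hB5 : (fB F).degreeOf 5 ≤ b := (degreeOf_fB F 2).le.trans hb
  have hB1 : (fB F).degreeOf 1 ≤ s := (degreeOf_fB F 0).le.trans hs
  have hB0 : (fB F).degreeOf 0 = 0 := hz _ _ 0 (vars_fB F) (by decide)
  have hB4 : (fB F).degreeOf 4 = 0 := hz _ _ 4 (vars_fB F) (by decide)
  have hZ0 : (rG K).degreeOf 0 = 0 := hz _ _ 0 vars_rG (by decide)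
  have hZ1 : (rG K).degreeOf 1 = 0 := hz _ _ 1 vars_rG (by decide)
  have hZ4 : (rG K).degreeOf 4 ≤ 1 := degreeOf_rG_le _
  have hZ5 : (rG K).degreeOf 5 ≤ 1 := degreeOf_rG_le _
  have hE0 : (El 5 (fB F) (rG K)).degreeOf 0 ≤ 0 := by
    refine (degreeOf_El_le' 5 _ _ 0).trans ?_
    rw [hB0, hZ0, mul_zero, mul_zero, add_zero]
  have hE1 : (El 5 (fB F) (rG K)).degreeOf 1 ≤ 1 * s := by
    refine (degreeOf_El_le' 5 _ _ 1).trans ?_
    rw [hZ1, mul_zero, add_zero]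
    exact Nat.mul_le_mul hZ5 hB1
  have hE4 : (El 5 (fB F) (rG K)).degreeOf 4 ≤ b * 1 := by
    refine (degreeOf_El_le' 5 _ _ 4).trans ?_
    rw [hB4, mul_zero, zero_add]
    exact Nat.mul_le_mul hB5 hZ4
  have hG0 : (El 4 (fA F) (El 5 (fB F) (rG K))).degreeOf 0 ≤ b * 1 * s + b * 0 :=
    (degreeOf_El_le' 4 _ _ 0).trans (Nat.add_le_add (Nat.mul_le_mul hE4 hA0)
      (Nat.mul_le_mul hA4 hE0))
  have hG1 : (El 4 (fA F) (El 5 (fB F) (rG K))).degreeOf 1 ≤ b * 1 * 0 + b * (1 * s) :=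
    (degreeOf_El_le' 4 _ _ 1).trans (Nat.add_le_add (Nat.mul_le_mul hE4 hA1.le)
      (Nat.mul_le_mul hA4 hE1))
  have hR := (degreeOf_El_le' 1 (rX W) (El 4 (fA F) (El 5 (fB F) (rG K))) 0).trans
    (Nat.add_le_add (Nat.mul_le_mul hG1 (degreeOf_rX W 0))
      (Nat.mul_le_mul (degreeOf_rX W 1) hG0))
  refine hR.trans (le_of_eq ?_)
  ring

end

section

variable {K Ω : Type*} [Field K] [Field Ω] [Algebra K Ω]

theorem aeval_rG (s : Fin 7 → Ω) : aeval s (rG K) = s 4 - s 6 * s 5 := by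
  unfold rG
  rw [map_sub, map_mul, aeval_X, aeval_X, aeval_X]

/-- If the four relations hold at `s` then `R3` vanishes (`aeval_dvd_El` three times, as VJ `aeval_R3`). -/
theorem aeval_R3 (W : WeierstrassCurve K) (F : MvPolynomial (Fin 3) K)
    (hF : F.degreeOf 2 ≠ 0) (hd : (rX W).degreeOf 1 ≠ 0) (s : Fin 7 → Ω)
    (h1 : S3 W ![s 0, 1] ![s 2, 1] ![s 1, 1] = 0) (h2 : aeval ![s 0, s 3, s 4] F = 0)
    (h3 : aeval ![s 1, s 3, s 5] F = 0)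
    (h4 : s 4 = s 6 * s 5) : aeval s (R3 W F) = 0 := by
  have e1 : aeval s (El 5 (fB F) (rG K)) = 0 := by
    have h := aeval_dvd_El 5 (fB F) (rG K)
      (Or.inl (by rw [show (5 : Fin 7) = (![1, 3, 5] : Fin 3 → Fin 7) 2 from rfl, degreeOf_fB]
                  exact hF)) s (by rw [aeval_fB]; exact h3)
    rw [aeval_rG, h4, sub_self] at h
    exact zero_dvd_iff.1 h
  have e2 : aeval s (El 4 (fA F) (El 5 (fB F) (rG K))) = 0 := by
    have h := aeval_dvd_El 4 (fA F) (El 5 (fB F) (rG K))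
      (Or.inl (by rw [show (4 : Fin 7) = (![0, 3, 4] : Fin 3 → Fin 7) 2 from rfl, degreeOf_fA]
                  exact hF)) s (by rw [aeval_fA]; exact h2)
    rw [e1] at h
    exact zero_dvd_iff.1 h
  have h := aeval_dvd_El 1 (rX W) (El 4 (fA F) (El 5 (fB F) (rG K)))
    (Or.inl hd) s (by rw [aeval_rX]; exact h1)
  rw [e2] at h
  exact zero_dvd_iff.1 h

/-- The exceptional set is finite. -/
theorem VSI7_finite [DecidableEq Ω] [IsAlgClosed Ω] (W : WeierstrassCurve K) [W.IsElliptic]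
    (F : MvPolynomial (Fin 3) K) (hF : F ≠ 0) {x τ ξ : Ω}
    (hx : Ind2 K x ξ) (hτ : x ≠ τ)
    (hr : ∀ r : Ω, S3 W ![x, 1] ![τ, 1] ![r, 1] = 0 → Ind2 K r ξ)
    (hF0 : aeval ![x, ξ, 0] F ≠ 0) :
    {ζ : Ω | ∃ r₁ r₄ r₅ : Ω, S3 W ![x, 1] ![τ, 1] ![r₁, 1] = 0 ∧
      aeval ![x, ξ, r₄] F = 0 ∧ aeval ![r₁, ξ, r₅] F = 0 ∧ r₄ = ζ * r₅}.Finite := by
  have h1 : {r : Ω | S3 W ![x, 1] ![τ, 1] ![r, 1] = 0}.Finite := by
    refine (finite_roots 1 (![x, 0, τ, ξ, 0, 0, 0] : Fin 7 → Ω) (rX W)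
      (lcv_rX W _ hτ).2).subset fun r hr => ?_
    show aeval _ _ = 0
    rw [aeval_rX]
    exact hr
  have h4 : {r : Ω | aeval ![x, ξ, r] F = 0}.Finite := by
    refine (finite_roots 4 (![x, 0, τ, ξ, 0, 0, 0] : Fin 7 → Ω) (fA F)
      (I8_lcvA F hF hx)).subset fun r hr => ?_
    show aeval _ _ = 0
    rw [aeval_fA]
    exact hr
  have h5 : ∀ r₁, Ind2 K r₁ ξ → {r : Ω | aeval ![r₁, ξ, r] F = 0}.Finite := by
    intro r₁ hr₁
    refine (finite_roots 5 (![x, r₁, τ, ξ, 0, 0, 0] : Fin 7 → Ω) (fB F)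
      (I8_lcvB F hF hr₁)).subset fun r hr => ?_
    show aeval _ _ = 0
    rw [aeval_fB]
    exact hr
  have hfin : (⋃ r₁ ∈ {r : Ω | S3 W ![x, 1] ![τ, 1] ![r, 1] = 0},
      ⋃ r₄ ∈ {r : Ω | aeval ![x, ξ, r] F = 0}, ⋃ r₅ ∈ {r : Ω | aeval ![r₁, ξ, r] F = 0},
      {r₄ / r₅}).Finite := by
    refine h1.biUnion fun r₁ hr₁ => ?_
    refine h4.biUnion fun r₄ _ => ?_
    refine (h5 r₁ (hr r₁ hr₁)).biUnion fun r₅ _ => ?_
    exact Set.finite_singleton _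
  refine hfin.subset ?_
  rintro ζ ⟨r₁, r₄, r₅, g1, g2, g3, g4⟩
  refine Set.mem_biUnion (show r₁ ∈ {r : Ω | S3 W ![x, 1] ![τ, 1] ![r, 1] = 0} from g1) ?_
  refine Set.mem_biUnion (show r₄ ∈ {r : Ω | aeval ![x, ξ, r] F = 0} from g2) ?_
  refine Set.mem_biUnion (show r₅ ∈ {r : Ω | aeval ![r₁, ξ, r] F = 0} from g3) ?_
  have h40 : r₄ ≠ 0 := by
    rintro rfl
    exact hF0 g2
  have h50 : r₅ ≠ 0 := by
    rintro rfl
    rw [mul_zero] at g4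
    exact h40 g4
  exact (eq_div_of_mul_eq h50 g4.symm)

/-- Proof: as VJ/I8 `exists_R3_ne_zero`. Let `T` be the set of `ζ` such that for some `r₁, r₄, r₅`:
`S3 W ![x, 1] ![τ, 1] ![r₁, 1] = 0`, `aeval ![x, ξ, r₄] F = 0`, `aeval ![r₁, ξ, r₅] F = 0`, `r₄ = ζ * r₅`. `r₄ ≠ 0`
by `hF0`, so `r₅ ≠ 0` and `ζ = r₄ / r₅`: `T` is finite (finitely many `r₁`, `r₄`, `r₅` as there). Take `ζ ∉ T`. -/
theorem exists_R3_ne_zero [DecidableEq Ω] [IsAlgClosed Ω] (W : WeierstrassCurve K) [W.IsElliptic]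
    (F : MvPolynomial (Fin 3) K) (hF : F ≠ 0) (h2 : F.degreeOf 2 ≠ 0) {x τ ξ : Ω}
    (hx : Ind2 K x ξ) (hτ : x ≠ τ)
    (hr : ∀ r : Ω, S3 W ![x, 1] ![τ, 1] ![r, 1] = 0 → Ind2 K r ξ)
    (hF0 : aeval ![x, ξ, 0] F ≠ 0) :
    ∃ ζ : Ω, aeval (![x, 0, τ, ξ, 0, 0, ζ] : Fin 7 → Ω) (R3 W F) ≠ 0 := by
  obtain ⟨ζ, hζ⟩ := (VSI7_finite W F hF hx hτ hr hF0).exists_notMem
  refine ⟨ζ, fun h0 => hζ ?_⟩
  obtain ⟨r₁, a1, b1⟩ := exists_root_of_El 1 (rX W)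
    (El 4 (fA F) (El 5 (fB F) (rG K)))
    (by rw [(lcv_rX W (![x, 0, τ, ξ, 0, 0, ζ] : Fin 7 → Ω) hτ).1]; decide)
    (![x, 0, τ, ξ, 0, 0, ζ] : Fin 7 → Ω) (lcv_rX W _ hτ).2 h0
  rw [aeval_rX] at a1
  have a1' : S3 W ![x, 1] ![τ, 1] ![r₁, 1] = 0 := a1
  have hd4 : (fA F).degreeOf 4 ≠ 0 := by
    have h3 := degreeOf_fA F 2
    rw [show (![0, 3, 4] : Fin 3 → Fin 7) 2 = 4 from rfl] at h3
    rw [h3]
    exact h2
  have hd5 : (fB F).degreeOf 5 ≠ 0 := by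
    have h3 := degreeOf_fB F 2
    rw [show (![1, 3, 5] : Fin 3 → Fin 7) 2 = 5 from rfl] at h3
    rw [h3]
    exact h2
  obtain ⟨r₄, a4, b4⟩ := exists_root_of_El 4 (fA F) (El 5 (fB F) (rG K)) hd4
    (Function.update (![x, 0, τ, ξ, 0, 0, ζ] : Fin 7 → Ω) 1 r₁) (I8_lcvA F hF hx) b1
  rw [aeval_fA] at a4
  obtain ⟨r₅, a5, b5⟩ := exists_root_of_El 5 (fB F) (rG K) hd5
    (Function.update (Function.update (![x, 0, τ, ξ, 0, 0, ζ] : Fin 7 → Ω) 1 r₁) 4 r₄)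
    (I8_lcvB F hF (hr r₁ a1')) b4
  rw [aeval_fB] at a5
  rw [aeval_rG] at b5
  exact ⟨r₁, r₄, r₅, a1', a4, a5, sub_eq_zero.1 b5⟩

end

end Pool.Agent.Lib.MP_17a322_nt.VS
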