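import Pool.Agent.Lib.MP_17a322_nt.VS.K6

/-!
Interface: section 11.
-/

universe u

namespace Pool.Agent.Lib.MP_17a322_nt.VS

open MvPolynomial Height
open Pool.Agent.Lib.MP_17a322_nt.RO Pool.Agent.Lib.MP_17a322_nt.VJ

/-- Theorem T_S (the origin, all ranks). -/
theorem T_S {K : Type u} [Field K] [NumberField K] [DecidableEq K] (W : WeierstrassCurve K)
    [W.IsElliptic] (S : Set (AbsoluteValue K ℝ)) (hS' : S.Finite) (ε : ℝ) (hε : 0 < ε) :
    ∃ (δ C : ℝ), 0 < δ ∧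
      ∀ (P : W.toAffine.Point) (u : K), P ≠ 0 → u ≠ 0 → u ≠ 1 →
        cS S u ≤ δ * HS P u → hS P u ≤ ε * HS P u + C :=
  T_S_proof W S hS' ε hε

end Pool.Agent.Lib.MP_17a322_nt.VS
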