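import Pool.Agent.Lib.MP_17a322_nt.VS.J1b
import Pool.Agent.Lib.MP_17a322_nt.VJ.J10a
import Pool.Agent.Lib.MP_17a322_nt.VJ.J10b
import Pool.Agent.Lib.MP_17a322_nt.VJ.J10d

/-!
The leading coefficients of `B` and `F` along the branch
-/

universe u

namespace Pool.Agent.Lib.MP_17a322_nt.VS

open MvPolynomial Height
open Pool.Agent.Lib.MP_17a322_nt.RO Pool.Agent.Lib.MP_17a322_nt.VJ

private theorem J10c_coeff {K : Type*} [Field K] (φ ψ : PowerSeries K) (n : ℕ)
    (h : (PowerSeries.X : PowerSeries K) ^ n ∣ φ) :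
    PowerSeries.coeff n (ψ * φ) = PowerSeries.constantCoeff ψ * PowerSeries.coeff n φ := by
  obtain ⟨w, rfl⟩ := h
  have h1 : ψ * (PowerSeries.X ^ n * w) = PowerSeries.X ^ n * (ψ * w) := by ring
  have h2 := PowerSeries.coeff_X_pow_mul (ψ * w) n 0
  have h3 := PowerSeries.coeff_X_pow_mul w n 0
  rw [zero_add] at h2 h3
  rw [h1, h2, h3, PowerSeries.coeff_zero_eq_constantCoeff_apply,
    PowerSeries.coeff_zero_eq_constantCoeff_apply, map_mul]

private theorem J10c_first {K : Type*} [Field K] (φ : PowerSeries K) (h : φ ≠ 0) :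
    ∃ n : ℕ, (PowerSeries.X : PowerSeries K) ^ n ∣ φ ∧ PowerSeries.coeff n φ ≠ 0 := by
  classical
  have h1 : ∃ n, PowerSeries.coeff n φ ≠ 0 := by
    by_contra hcon
    push Not at hcon
    exact h (PowerSeries.ext fun n => by rw [hcon n, map_zero])
  refine ⟨Nat.find h1, PowerSeries.X_pow_dvd_iff.mpr fun m hm => ?_, Nat.find_spec h1⟩
  by_contra hne
  exact Nat.find_min h1 hm hne

private theorem J10c_congr {K σ A : Type*} [Field K] [CommRing A] [Algebra K A]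
    (F : MvPolynomial σ K) (s s' : σ → A) (h : ∀ i ∈ F.vars, s i = s' i) :
    aeval s F = aeval s' F := by
  refine hom_congr_vars (f₁ := (aeval s : MvPolynomial σ K →ₐ[K] A).toRingHom)
    (f₂ := (aeval s' : MvPolynomial σ K →ₐ[K] A).toRingHom) ?_ ?_ rfl
  · ext r
    simp
  · intro i hi _
    simpa using h i hi

private theorem J10c_vars {K : Type*} [Field K] (N : MvPolynomial (Fin 4 × Fin 2) K) (α : K)
    (hN : N.vars ⊆ {(0, 0), (1, 0)}) :
    (aeval (Function.update X ((1, 0) : Fin 4 × Fin 2) (C α)) N :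
      MvPolynomial (Fin 4 × Fin 2) K).vars ⊆ {((0, 0) : Fin 4 × Fin 2)} := by
  classical
  have h1 : (aeval (Function.update X ((1, 0) : Fin 4 × Fin 2) (C α)) N :
      MvPolynomial (Fin 4 × Fin 2) K).vars ⊆ _ :=
    vars_bind₁ (Function.update X ((1, 0) : Fin 4 × Fin 2) (C α)) N
  intro y hy
  have h3 := h1 hy
  rw [Finset.mem_biUnion] at h3
  obtain ⟨z, hz1, hz2⟩ := h3
  have h4 := hN hz1
  rw [Finset.mem_insert, Finset.mem_singleton] at h4
  rcases h4 with rfl | rfl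
  · rw [Function.update_of_ne (by decide), vars_X] at hz2
    exact hz2
  · rw [Function.update_self, vars_C] at hz2
    exact absurd hz2 (Finset.notMem_empty _)

private theorem J10c_sub {K : Type*} [Field K] (N : MvPolynomial (Fin 4 × Fin 2) K) (α : K)
    (s : Fin 4 × Fin 2 → PowerSeries K) (hs : s (1, 0) = PowerSeries.C α) :
    aeval s (aeval (Function.update X ((1, 0) : Fin 4 × Fin 2) (C α)) N :
      MvPolynomial (Fin 4 × Fin 2) K) = aeval s N := by
  classical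
  have h1 : aeval s (aeval (Function.update X ((1, 0) : Fin 4 × Fin 2) (C α)) N :
      MvPolynomial (Fin 4 × Fin 2) K) = _ :=
    aeval_bind₁ s (Function.update X ((1, 0) : Fin 4 × Fin 2) (C α)) N
  have h2 : (fun i => aeval s ((Function.update X ((1, 0) : Fin 4 × Fin 2) (C α) :
      Fin 4 × Fin 2 → MvPolynomial (Fin 4 × Fin 2) K) i)) = s := by
    funext i
    by_cases hi : i = (1, 0)
    · rw [hi, Function.update_self, hs, ← algebraMap_eq, AlgHom.commutes,
        PowerSeries.algebraMap_apply]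
      rfl
    · rw [Function.update_of_ne hi, aeval_X]
  rw [h2] at h1
  exact h1

/-- The point with `X (0, t) = x t`, `X (2, 0)`, `X (3, 0)` the entries of the column `ξ κ` (the entry of
`X (3, 0)` is the one which is `1` in `vc c _`), `X (2, 1) = a`, `X (3, 1) = x 1 ^ 4 ^ e`. -/
def bpS {A : Type*} [CommRing A] (c : Bool) (e : ℕ) (x : Fin 2 → A) (ξ : Fin 2 → Fin 2 → A)
    (a : A) (κ : Fin 2) : Fin 4 × Fin 2 → A :=
  bp ![c, false] x ![ξ, fun _ => ![a, x 1 ^ 4 ^ e]] fun _ => κ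

/-- Proof. `logHeight_smul_eq_logHeight` and the height of a power. -/
theorem logHeight_y1 {L : Type*} [Field L] [AdmissibleAbsValues L] (b : ℕ) (y₀ : L) (hy : y₀ ≠ 0)
    (p : Fin 2 → L) (hp : p ≠ 0) :
    logHeight (fun κ : Fin 2 => y₀ * p κ ^ b) = b * logHeight p := by
  have e1 : (fun κ : Fin 2 => y₀ * p κ ^ b) = y₀ • (p ^ b) := by
    ext κ
    rfl
  rw [e1, logHeight_smul_eq_logHeight _ hy, logHeight_pow]

/-- The leading coefficients along the branch (9.5), (9.7).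
Proof: as VJ/J10c `exists_y`, with `ζ 0` from `affine_coord` for the columns `ξ` and
`ζ 1 = C (a' 1) * (x 1 ^ 4 ^ e)⁻¹` (`x 1` has constant coefficient `a 1 ≠ 0`, so `x 1 ^ 4 ^ e` is a unit),
`C (a' 1) = x 1 ^ 4 ^ e * ζ 1`: the hypothesis `h2'` of `aeval_QS_eq_zero`, `aeval_dvd_NS`. In (4) the scaling
factors are `l 0 = ξ κ (if c then 0 else 1)`, `l 1 = x 1 ^ 4 ^ e`, with constant coefficients
`γ * (qb κ * q (if c then 0 else 1))` and `(a 1) ^ 4 ^ e`; so
`y₀ = (γ * q (if c then 0 else 1) * (a 1) ^ 4 ^ e) ^ b * coeff n β`. -/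
theorem exists_y {K : Type u} [Field K] (W : WeierstrassCurve K) (e : ℕ)
    (c : Bool) (g g' : MvPolynomial (Fin 2) K) (hg : g.degreeOf 1 ≠ 0)
    (hg' : g'.degreeOf 1 ≠ 0) (F A B : MvPolynomial (Fin 4 × Fin 2) K) (b k cc : ℕ)
    (hF : F.vars ⊆ {(0, 0), (2, 0), (2, 1)}) (hB : B.vars ⊆ {(0, 0), (2, 0), (2, 1)})
    (hFb : ∀ t, F.degreeOf (2, t) ≤ b) (hBb : ∀ t, B.degreeOf (2, t) ≤ b)
    (hFAB : F = QS W e c g g' * A + (X (0, 0) ^ k - C (cc : K)) * B)
    (a a' : Fin 2 → K) (ha1 : a 1 ≠ 0) (hc : a 0 ^ k ≠ (cc : K)) (ha' : aeval a' g' = 0)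
    (hN : aeval (Function.update X ((1, 0) : Fin 4 × Fin 2) (C (a' 0))) (NS W e c g g' F) ≠ 0)
    (x : Fin 2 → PowerSeries K) (ξ : Fin 2 → Fin 2 → PowerSeries K) (γ : K)
    (qb q : Fin 2 → K) (hx0 : x 0 = PowerSeries.X + PowerSeries.C (a 0))
    (hx1 : PowerSeries.constantCoeff (x 1) = a 1) (hx : aeval x g = 0)
    (hS : ∀ k, S3 W (mu W e ![x 0, 1]) ![PowerSeries.C (a' 0), 1] (ξ k) = 0)
    (hξ : ξ 0 0 * ξ 1 1 = ξ 0 1 * ξ 1 0) (hγ : γ ≠ 0)
    (hqb : qb ≠ 0) (hq : q (if c then 0 else 1) ≠ 0)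
    (h0 : ∀ k i, PowerSeries.constantCoeff (ξ k i) = γ * (qb k * q i)) :
    ∃ (n : ℕ) (y₀ : K), y₀ ≠ 0 ∧
      (∀ κ : Fin 2, PowerSeries.coeff n
        (aeval (bpS c e x ξ (PowerSeries.C (a' 1)) κ) (hm b B)) = y₀ * qb κ ^ b) ∧
      (∀ κ : Fin 2, PowerSeries.coeff n
        (aeval (bpS c e x ξ (PowerSeries.C (a' 1)) κ) (hm b F)) =
          (a 0 ^ k - (cc : K)) * (y₀ * qb κ ^ b)) ∧
      (X (0, 0) - C (a 0)) ^ n ∣
        aeval (Function.update X ((1, 0) : Fin 4 × Fin 2) (C (a' 0))) (NS W e c g g' F) := by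
  classical
  obtain ⟨ζ0, hζ1, hζ2⟩ := affine_coord W c (mu W e ![x 0, 1]) ![PowerSeries.C (a' 0), 1] ξ γ qb
      q hξ hγ hqb hq h0 hS
  -- the power series of the multiplicative group
  set w : PowerSeries K := x 1 ^ 4 ^ e with hw
  have hw0 : PowerSeries.constantCoeff w = a 1 ^ 4 ^ e := by rw [hw, map_pow, hx1]
  have hw1 : PowerSeries.constantCoeff w ≠ 0 := by
    rw [hw0]
    exact pow_ne_zero _ ha1
  have hww : w * w⁻¹ = 1 := PowerSeries.mul_inv_cancel w hw1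
  set ζ : Fin 2 → PowerSeries K := ![ζ0, PowerSeries.C (a' 1) * w⁻¹] with hζ
  have hζz : ζ 0 = ζ0 := rfl
  have hζo : ζ 1 = PowerSeries.C (a' 1) * w⁻¹ := rfl
  have hwζ : w * ζ 1 = PowerSeries.C (a' 1) := by
    rw [hζo, mul_left_comm, hww, mul_one]
  -- the point `s₃`
  set s₃ : Fin 4 × Fin 2 → PowerSeries K := fun p =>
    if p.1 = 0 then x p.2 else if p.1 = 2 then ζ p.2 else PowerSeries.C (a' p.2) with hs₃
  have e0 : ∀ t, s₃ (0, t) = x t := fun t => by simp [hs₃]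
  have e1 : ∀ t, s₃ (1, t) = PowerSeries.C (a' t) := fun t => by simp [hs₃]
  have e2 : ∀ t, s₃ (2, t) = ζ t := fun t => by simp [hs₃]
  have e3 : ∀ t, s₃ (3, t) = PowerSeries.C (a' t) := fun t => by simp [hs₃]
  have hCa : aeval (fun t => (PowerSeries.C (a' t) : PowerSeries K)) g' = 0 := by
    have h1 := aeval_algebraMap_apply (PowerSeries K) a' g'
    rw [ha', map_zero] at h1
    have h2 : (algebraMap K (PowerSeries K) ∘ a') =
        fun t => (PowerSeries.C (a' t) : PowerSeries K) := by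
      funext t
      simp
    rw [h2] at h1
    exact h1
  have hx' : aeval (fun t => s₃ (0, t)) g = 0 := by
    have h1 : (fun t => s₃ (0, t)) = x := funext e0
    rw [h1]
    exact hx
  have h31 : aeval (fun t => s₃ (1, t)) g' = 0 := by
    have h1 : (fun t => s₃ (1, t)) = fun t => (PowerSeries.C (a' t) : PowerSeries K) := funext e1
    rw [h1]
    exact hCa
  have h33 : aeval (fun t => s₃ (3, t)) g' = 0 := by
    have h1 : (fun t => s₃ (3, t)) = fun t => (PowerSeries.C (a' t) : PowerSeries K) := funext e3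
    rw [h1]
    exact hCa
  have hr1 : S3 W (mu W e ![s₃ (0, 0), 1]) ![s₃ (1, 0), 1] (vc c (s₃ (2, 0))) = 0 := by
    rw [e0, e1, e2]
    exact hζ2
  have hr3 : S3 W (mu W e ![s₃ (0, 0), 1]) ![s₃ (3, 0), 1] (vc c (s₃ (2, 0))) = 0 := by
    rw [e0, e3, e2]
    exact hζ2
  have hr1' : s₃ (1, 1) = s₃ (0, 1) ^ 4 ^ e * s₃ (2, 1) := by
    rw [e0, e1, e2]
    exact hwζ.symm
  have hr3' : s₃ (3, 1) = s₃ (0, 1) ^ 4 ^ e * s₃ (2, 1) := by
    rw [e0, e3, e2]
    exact hwζ.symm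
  have hQ : aeval s₃ (QS W e c g g') = 0 := aeval_QS_eq_zero W e c g g' hg s₃ hx' hr3 hr3' h33
  have hdv : aeval s₃ F ∣ aeval s₃ (NS W e c g g' F) :=
    aeval_dvd_NS W e c g g' hg hg' F s₃ hx' hr1 hr1' h31
  set G : MvPolynomial (Fin 4 × Fin 2) K :=
    aeval (Function.update X ((1, 0) : Fin 4 × Fin 2) (C (a' 0))) (NS W e c g g' F) with hG
  have hGv : G.vars ⊆ {((0, 0) : Fin 4 × Fin 2)} :=
    J10c_vars (NS W e c g g' F) (a' 0) (NS_vars W e c g g' F hF)
  have hGs : aeval s₃ G = aeval s₃ (NS W e c g g' F) :=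
    J10c_sub (NS W e c g g' F) (a' 0) s₃ (e1 0)
  have hs00 : s₃ (0, 0) = PowerSeries.X + PowerSeries.C (a 0) := by rw [e0, hx0]
  have hG0 : aeval s₃ G ≠ 0 := branch_ne_zero (0, 0) (a 0) G hGv hN s₃ hs00
  have hf0 : aeval s₃ F ≠ 0 := by
    intro h1
    rw [h1, zero_dvd_iff, ← hGs] at hdv
    exact hG0 hdv
  obtain ⟨n, hn1, hn2⟩ := J10c_first _ hf0
  -- the unit
  set u : PowerSeries K := x 0 ^ k - PowerSeries.C (cc : K) with hu
  have hfu : aeval s₃ F = u * aeval s₃ B := by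
    have h1 := congrArg (aeval s₃) hFAB
    rw [map_add, map_mul, map_mul, hQ, zero_mul, zero_add] at h1
    rw [h1, map_sub, map_pow, aeval_X, e0, ← algebraMap_eq, AlgHom.commutes,
      PowerSeries.algebraMap_apply]
    rfl
  have hu0 : PowerSeries.constantCoeff u = a 0 ^ k - (cc : K) := by
    rw [hu, map_sub, map_pow, hx0, map_add]
    simp
  have hu1 : PowerSeries.constantCoeff u ≠ 0 := by
    rw [hu0]
    exact sub_ne_zero.mpr hc
  have huu : IsUnit u := PowerSeries.isUnit_iff_constantCoeff.mpr (isUnit_iff_ne_zero.mpr hu1)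
  have hβ : (PowerSeries.X : PowerSeries K) ^ n ∣ aeval s₃ B := by
    rw [hfu] at hn1
    exact (huu.dvd_mul_left).mp hn1
  have hfn : PowerSeries.coeff n (aeval s₃ F) =
      (a 0 ^ k - (cc : K)) * PowerSeries.coeff n (aeval s₃ B) := by
    rw [hfu, J10c_coeff _ _ _ hβ, hu0]
  have hβn : PowerSeries.coeff n (aeval s₃ B) ≠ 0 := by
    intro h1
    rw [hfn, h1, mul_zero] at hn2
    exact hn2 rfl
  -- the point `s₄`
  set s₄ : Fin 4 × Fin 2 → PowerSeries K := fun p =>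
    if p.1 = 0 then x p.2 else if p.1 = 2 then ζ p.2 else 1 with hs₄
  have d0 : ∀ t, s₄ (0, t) = x t := fun t => by simp [hs₄]
  have d2 : ∀ t, s₄ (2, t) = ζ t := fun t => by simp [hs₄]
  have d3 : ∀ t, s₄ (3, t) = 1 := fun t => by simp [hs₄]
  have b0 : ∀ κ : Fin 2, ∀ t, bpS c e x ξ (PowerSeries.C (a' 1)) κ (0, t) = x t :=
    fun κ t => by simp [bpS, bp]
  have key : ∀ (H : MvPolynomial (Fin 4 × Fin 2) K), H.vars ⊆ {(0, 0), (2, 0), (2, 1)} →
      (∀ t, H.degreeOf (2, t) ≤ b) → (PowerSeries.X : PowerSeries K) ^ n ∣ aeval s₃ H →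
      ∀ κ : Fin 2, PowerSeries.coeff n
          (aeval (bpS c e x ξ (PowerSeries.C (a' 1)) κ) (hm b H)) =
        ((γ * q (if c then 0 else 1)) * a 1 ^ 4 ^ e) ^ b *
          PowerSeries.coeff n (aeval s₃ H) * qb κ ^ b := by
    intro H hH hHb hHn κ
    have h1 := aeval_hm_scale b H hH hHb s₄ (bpS c e x ξ (PowerSeries.C (a' 1)) κ)
      (fun t => ![ξ κ (if c then 0 else 1), w] t) (by rw [b0, d0])
      (fun t => by
        rw [d2]
        fin_cases t
        · exact hζ1 κ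
        · exact hwζ.symm)
      (fun t => by
        rw [d3, mul_one]
        fin_cases t
        · rfl
        · rfl)
    have h2 := aeval_hm_one b H hH s₄ d3
    have h3 : aeval s₄ H = aeval s₃ H := by
      refine J10c_congr H s₄ s₃ fun i hi => ?_
      have h4 := hH hi
      rw [Finset.mem_insert, Finset.mem_insert, Finset.mem_singleton] at h4
      rcases h4 with rfl | rfl | rfl
      · rw [d0, e0]
      · rw [d2, e2]
      · rw [d2, e2]
    rw [h1, h2, h3, J10c_coeff _ _ _ hHn, map_pow, map_mul]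
    show (PowerSeries.constantCoeff (ξ κ (if c then 0 else 1)) *
      PowerSeries.constantCoeff w) ^ b * _ = _
    rw [h0, hw0]
    ring
  refine ⟨n, ((γ * q (if c then 0 else 1)) * a 1 ^ 4 ^ e) ^ b *
      PowerSeries.coeff n (aeval s₃ B), ?_, ?_, ?_, ?_⟩
  · exact mul_ne_zero (pow_ne_zero _ (mul_ne_zero (mul_ne_zero hγ hq)
      (pow_ne_zero _ ha1))) hβn
  · intro κ
    exact key B hB hBb hβ κ
  · intro κ
    rw [key F hF hFb hn1 κ, hfn]
    ring
  · refine dvd_of_branch (0, 0) (a 0) G hGv s₃ hs00 n ?_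
    rw [hGs]
    exact hn1.trans hdv

end Pool.Agent.Lib.MP_17a322_nt.VS
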