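import Pool.Agent.Lib.MP_17a322_nt.VS.Defs
import Pool.Agent.Lib.MP_17a322_nt.VJ.DefsE
import Pool.Agent.Lib.MP_17a322_nt.VS.BR

/-!
The branch lemma (9.5), (9.6) on `E × 𝔾_m`.
-/

universe u

namespace Pool.Agent.Lib.MP_17a322_nt.VS

open MvPolynomial Height
open Pool.Agent.Lib.MP_17a322_nt.RO Pool.Agent.Lib.MP_17a322_nt.VJ

/-- The branch of the curve `g` through `(P, u)`, the two columns for the x-coordinate of
`P' - 2 ^ e P`, and their sizes. The radius is the one of VJ multiplied by `min 1 (v u)`. -/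
theorem branch {K : Type u} [Field K] [NumberField K] [DecidableEq K]
    (W : WeierstrassCurve K) [W.IsElliptic] (D : ℕ) :
    ∃ (C : ℝ) (N : ℕ), 0 ≤ C ∧ ∀ (g : MvPolynomial (Fin 2) K) (P P' : W.toAffine.Point) (u : K)
      (e : ℕ),
      (∀ t, g.degreeOf t ≤ D) → P ≠ 0 → P' ≠ 0 → u ≠ 0 →
      eval ![P.xRep 0, u] g = 0 → eval ![P.xRep 0, u] (pderiv 1 g) ≠ 0 →
      ph W P.xRep ≠ 0 → ph W P'.xRep ≠ 0 →
      ∃ (r : AbsoluteValue K ℝ → ℝ) (x : Fin 2 → PowerSeries K)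
        (ξ : Fin 2 → Fin 2 → PowerSeries K) (γ : K),
        x 0 = PowerSeries.X + PowerSeries.C (P.xRep 0) ∧
        PowerSeries.constantCoeff (x 0) = P.xRep 0 ∧ PowerSeries.constantCoeff (x 1) = u ∧
        aeval x g = 0 ∧
        (∀ k, S3 W (mu W e ![x 0, 1]) ![PowerSeries.C (P'.xRep 0), 1] (ξ k) = 0) ∧
        ξ 0 0 * ξ 1 1 = ξ 0 1 * ξ 1 0 ∧
        γ ≠ 0 ∧
        (∀ k i, PowerSeries.constantCoeff (ξ k i) =
          γ * ((P' + 2 ^ e • P).xRep k * (P' - 2 ^ e • P).xRep i)) ∧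
        (∀ v, Pl v → 0 < r v ∧ r v ≤ 1) ∧ FS (fun v => Real.log (r v)) ∧
        - gs (fun v => Real.log (r v)) ≤ C * (1 + nh g + logHeight P.xRep + logHeight₁ u) ∧
        (∀ v, Pl v → ∀ n, PN v (r v) n (x 0) ≤ cst v 2 * max 1 (v (P.xRep 0))) ∧
        (∀ v, Pl v → ∀ n, PN v (r v) n (x 1) ≤ cst v 2 * v u) ∧
        (∀ v, Pl v → ∀ n k i, PN v (r v) n (ξ k i) ≤
          max 1 (v ((2 : K)⁻¹)) * (lc W v ^ (N * 4 ^ e) *
            (vn v P.xRep ^ (2 * 4 ^ e) * vn v P'.xRep ^ 2))) := by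
  obtain ⟨C, N, hC, h⟩ := branchG W D
  refine ⟨C, N, hC, ?_⟩
  intro g P P' u e hD hP hP' hu hg0 hg1 hph _
  obtain ⟨r, x, ξ, γ, a1, a2, a3, a4, a5, a6, a7, a8, a9, a10, a11, a12, a13, a14⟩ :=
    h g P P' u e hD hP hP' hu hg0 hg1 hph
  exact ⟨r, x, ξ, γ, a1, a2, a3, a4, a5, a6, a7, a8, a9, a10, by rw [← add_assoc] at a11; exact a11,
    a12, a13, a14⟩

end Pool.Agent.Lib.MP_17a322_nt.VS
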