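import Pool.Agent.Lib.MP_17a322_nt.VS.J10c
import Pool.Agent.Lib.MP_17a322_nt.VS.J9
import Pool.Agent.Lib.MP_17a322_nt.VJ.J10d
import Pool.Agent.Lib.MP_17a322_nt.VJ.J5
import Pool.Agent.Lib.MP_17a322_nt.VJ.E6

/-!
The inequality (9.7)
-/

universe u

namespace Pool.Agent.Lib.MP_17a322_nt.VS

open MvPolynomial Height
open Pool.Agent.Lib.MP_17a322_nt.RO Pool.Agent.Lib.MP_17a322_nt.VJ

/-- Sum over all places of a local inequality. -/
private theorem J10e_sum {L : Type*} [Field L] [AdmissibleAbsValues L] {ι : Type*} [Finite ι]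
    [Nonempty ι] (y : ι → L) (hy : y ≠ 0) (r M Y : AbsoluteValue L ℝ → ℝ) (α : L)
    (n m b p q c : ℕ) (hc : 1 ≤ c) (hr : ∀ v, Pl v → 0 < r v) (hM : ∀ v, Pl v → 0 < M v)
    (hY : ∀ v, Pl v → 0 < Y v) (hrF : FS fun v => Real.log (r v))
    (hMF : FS fun v => Real.log (M v)) (hYF : FS fun v => Real.log (Y v))
    (h : ∀ v, Pl v → ∀ κ, v (y κ) * r v ^ n * max 1 (v α) ^ m ≤
      M v * Y v ^ b * (cst v 2 ^ p * cst v c ^ q)) :
    logHeight y + n * gs (fun v => Real.log (r v)) + m * logHeight₁ α ≤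
      gs (fun v => Real.log (M v)) + b * gs (fun v => Real.log (Y v)) +
        p * (totalWeight L * Real.log 2) + q * (totalWeight L * Real.log c) := by
  have h2 := gs_log_cst (L := L) (n := 2) (by norm_num)
  have hcc := gs_log_cst (L := L) (n := c) hc
  have f1 : FS (fun v : AbsoluteValue L ℝ => Real.log (⨆ i, v (y i))) := FS_log_iSup hy
  have f2 : FS (fun v : AbsoluteValue L ℝ => (n : ℝ) * Real.log (r v)) := FS_const_mul _ hrF
  have f3 : FS (fun v : AbsoluteValue L ℝ => (m : ℝ) * Real.log (max 1 (v α))) :=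
    FS_const_mul _ (FS_log_max α)
  have f5 : FS (fun v : AbsoluteValue L ℝ => (b : ℝ) * Real.log (Y v)) := FS_const_mul _ hYF
  have f6 : FS (fun v : AbsoluteValue L ℝ => (p : ℝ) * Real.log (cst v 2)) :=
    FS_const_mul _ (FS_log_cst 2)
  have f7 : FS (fun v : AbsoluteValue L ℝ => (q : ℝ) * Real.log (cst v c)) :=
    FS_const_mul _ (FS_log_cst c)
  have key := gs_le (FS_add (FS_add f1 f2) f3) (FS_add (FS_add (FS_add hMF f5) f6) f7) (by
    intro v hv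
    obtain ⟨κ, hκ⟩ := exists_eq_ciSup_of_finite (f := fun i => v (y i))
    have hpos : 0 < v (y κ) := by
      obtain ⟨i, hi⟩ := Function.ne_iff.mp hy
      rw [hκ]
      exact (v.pos hi).trans_le (Finite.le_ciSup_of_le i le_rfl)
    have hm : 0 < max 1 (v α) := lt_max_of_lt_left one_pos
    have hc2 : 0 < cst v 2 := zero_lt_one.trans_le (one_le_cst v (by norm_num))
    have hcc : 0 < cst v c := zero_lt_one.trans_le (one_le_cst v hc)
    have hrp := pow_pos (hr v hv) n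
    have hl := Real.log_le_log (by positivity) (h v hv κ)
    rw [Real.log_mul (by positivity) (by positivity), Real.log_mul hpos.ne' hrp.ne',
      Real.log_mul (mul_pos (hM v hv) (pow_pos (hY v hv) b)).ne' (by positivity),
      Real.log_mul (hM v hv).ne' (pow_pos (hY v hv) b).ne',
      Real.log_mul (pow_pos hc2 p).ne' (pow_pos hcc q).ne',
      Real.log_pow, Real.log_pow, Real.log_pow, Real.log_pow, Real.log_pow] at hl
    rw [← hκ]
    linarith)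
  rw [gs_add (FS_add f1 f2) f3, gs_add f1 f2, gs_add (FS_add (FS_add hMF f5) f6) f7,
    gs_add (FS_add hMF f5) f6, gs_add hMF f5, gs_const_mul, gs_const_mul, gs_const_mul,
    gs_const_mul, gs_const_mul, gs_log_iSup hy, gs_log_max] at key
  have h3 := mul_le_mul_of_nonneg_left h2 (Nat.cast_nonneg (α := ℝ) p)
  have h4 := mul_le_mul_of_nonneg_left hcc (Nat.cast_nonneg (α := ℝ) q)
  push_cast at h3
  linarith

/-- The vector `y`. -/
private theorem J10e_y_ne {K : Type*} [Field K] (b : ℕ) (y₀ : K) (hy : y₀ ≠ 0)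
    (p : Fin 2 → K) (hp : p ≠ 0) :
    (fun κ : Fin 2 => y₀ * p κ ^ b) ≠ 0 := by
  obtain ⟨i, hi⟩ := Function.ne_iff.mp hp
  intro h
  have h2 : y₀ * p i ^ b = 0 := congrFun h i
  exact mul_ne_zero hy (pow_ne_zero b hi) h2

/-- The bound of the column of the multiplicative group. -/
private theorem J10e_G {K : Type u} [Field K] [NumberField K] (u u' : K) (hu : u ≠ 0) (e : ℕ) :
    (∀ v : AbsoluteValue K ℝ, 0 < cst v 2 ^ 4 ^ e * max (v u') (v u ^ 4 ^ e)) ∧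
      FS (fun v : AbsoluteValue K ℝ => Real.log (cst v 2 ^ 4 ^ e * max (v u') (v u ^ 4 ^ e))) ∧
      gs (fun v : AbsoluteValue K ℝ => Real.log (cst v 2 ^ 4 ^ e * max (v u') (v u ^ 4 ^ e))) ≤
        4 ^ e * (totalWeight K * Real.log 2) + logHeight₁ (u' / u ^ 4 ^ e) := by
  have hue : u ^ 4 ^ e ≠ 0 := pow_ne_zero _ hu
  have hpos : ∀ v : AbsoluteValue K ℝ, 0 < cst v 2 := fun v =>
    zero_lt_one.trans_le (one_le_cst v (by norm_num))
  have hmax : ∀ v : AbsoluteValue K ℝ, max (v u') (v u ^ 4 ^ e) =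
      v (u ^ 4 ^ e) * max 1 (v (u' / u ^ 4 ^ e)) := by
    intro v
    have h1 : 0 < v (u ^ 4 ^ e) := v.pos hue
    rw [mul_max_of_nonneg _ _ h1.le, mul_one, ← map_mul, mul_div_cancel₀ _ hue, map_pow, max_comm]
  have hm0 : ∀ v : AbsoluteValue K ℝ, 0 < max 1 (v (u' / u ^ 4 ^ e)) := fun v =>
    lt_max_of_lt_left one_pos
  have hlog : (fun v : AbsoluteValue K ℝ =>
      Real.log (cst v 2 ^ 4 ^ e * max (v u') (v u ^ 4 ^ e))) =
      fun v => ((4 ^ e : ℕ) : ℝ) * Real.log (cst v 2) +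
        (Real.log (v (u ^ 4 ^ e)) + Real.log (max 1 (v (u' / u ^ 4 ^ e)))) := by
    funext v
    rw [hmax, Real.log_mul (pow_pos (hpos v) _).ne' (mul_pos (v.pos hue) (hm0 v)).ne',
      Real.log_mul (v.pos hue).ne' (hm0 v).ne', Real.log_pow]
  have f1 : FS (fun v : AbsoluteValue K ℝ => ((4 ^ e : ℕ) : ℝ) * Real.log (cst v 2)) :=
    FS_const_mul _ (FS_log_cst 2)
  have f2 : FS (fun v : AbsoluteValue K ℝ => Real.log (v (u ^ 4 ^ e))) := FS_log_abv hue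
  have f3 : FS (fun v : AbsoluteValue K ℝ => Real.log (max 1 (v (u' / u ^ 4 ^ e)))) :=
    FS_log_max _
  refine ⟨fun v => ?_, ?_, ?_⟩
  · rw [hmax]
    exact mul_pos (pow_pos (hpos v) _) (mul_pos (v.pos hue) (hm0 v))
  · rw [hlog]
    exact FS_add f1 (FS_add f2 f3)
  · rw [hlog, gs_add f1 (FS_add f2 f3), gs_add f2 f3, gs_const_mul, gs_log_abv hue, gs_log_max,
      zero_add]
    have h2 := gs_log_cst (L := K) (n := 2) (by norm_num)
    have h3 := mul_le_mul_of_nonneg_left h2 (Nat.cast_nonneg (α := ℝ) (4 ^ e))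
    push_cast at h3 ⊢
    linarith

/-- The sum of the logarithms of the bounds of the column of the elliptic curve. -/
private theorem J10e_Y {K : Type u} [Field K] [NumberField K] [DecidableEq K]
    (W : WeierstrassCurve K) (P P' : W.toAffine.Point) (N e : ℕ) (cl : ℝ)
    (hcl : gs (fun v : AbsoluteValue K ℝ => Real.log (lc W v)) ≤ cl) :
    (∀ v : AbsoluteValue K ℝ, 0 < max 1 (v ((2 : K)⁻¹)) * (lc W v ^ (N * 4 ^ e) *
            (vn v P.xRep ^ (2 * 4 ^ e) * vn v P'.xRep ^ 2))) ∧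
      FS (fun v : AbsoluteValue K ℝ => Real.log (max 1 (v ((2 : K)⁻¹)) * (lc W v ^ (N * 4 ^ e) *
            (vn v P.xRep ^ (2 * 4 ^ e) * vn v P'.xRep ^ 2)))) ∧
      gs (fun v : AbsoluteValue K ℝ => Real.log (max 1 (v ((2 : K)⁻¹)) * (lc W v ^ (N * 4 ^ e) *
            (vn v P.xRep ^ (2 * 4 ^ e) * vn v P'.xRep ^ 2)))) ≤
        logHeight₁ ((2 : K)⁻¹) + N * 4 ^ e * cl + 2 * 4 ^ e * logHeight P.xRep +
          2 * logHeight P'.xRep := by
  have h1 : ∀ v : AbsoluteValue K ℝ, 0 < max 1 (v ((2 : K)⁻¹)) := fun v =>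
    lt_max_of_lt_left one_pos
  have h2 : ∀ v : AbsoluteValue K ℝ, 0 < lc W v := fun v =>
    zero_lt_one.trans_le (one_le_lc W v)
  have h3 : ∀ v : AbsoluteValue K ℝ, 0 < vn v P.xRep := fun v =>
    zero_lt_one.trans_le (one_le_vn_xRep v P)
  have h4 : ∀ v : AbsoluteValue K ℝ, 0 < vn v P'.xRep := fun v =>
    zero_lt_one.trans_le (one_le_vn_xRep v P')
  have hlog : (fun v : AbsoluteValue K ℝ => Real.log (max 1 (v ((2 : K)⁻¹)) *
      (lc W v ^ (N * 4 ^ e) * (vn v P.xRep ^ (2 * 4 ^ e) * vn v P'.xRep ^ 2)))) =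
      fun v => Real.log (max 1 (v ((2 : K)⁻¹))) +
      (((N * 4 ^ e : ℕ) : ℝ) * Real.log (lc W v) +
        (((2 * 4 ^ e : ℕ) : ℝ) * Real.log (vn v P.xRep) +
          ((2 : ℕ) : ℝ) * Real.log (vn v P'.xRep))) := by
    funext v
    rw [Real.log_mul (h1 v).ne' (mul_pos (pow_pos (h2 v) _) (mul_pos (pow_pos (h3 v) _)
      (pow_pos (h4 v) _))).ne', Real.log_mul (pow_pos (h2 v) _).ne'
      (mul_pos (pow_pos (h3 v) _) (pow_pos (h4 v) _)).ne',
      Real.log_mul (pow_pos (h3 v) _).ne' (pow_pos (h4 v) _).ne', Real.log_pow, Real.log_pow,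
      Real.log_pow]
  have f1 : FS (fun v : AbsoluteValue K ℝ => Real.log (max 1 (v ((2 : K)⁻¹)))) := FS_log_max _
  have f2 : FS (fun v : AbsoluteValue K ℝ =>
      ((N * 4 ^ e : ℕ) : ℝ) * Real.log (lc W v)) := FS_const_mul _ (FS_log_lc W)
  have f3 : FS (fun v : AbsoluteValue K ℝ =>
      ((2 * 4 ^ e : ℕ) : ℝ) * Real.log (vn v P.xRep)) :=
    FS_const_mul _ (FS_log_vn (xRep_ne_zero P))
  have f4 : FS (fun v : AbsoluteValue K ℝ =>
      ((2 : ℕ) : ℝ) * Real.log (vn v P'.xRep)) :=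
    FS_const_mul _ (FS_log_vn (xRep_ne_zero P'))
  refine ⟨fun v => mul_pos (h1 v) (mul_pos (pow_pos (h2 v) _) (mul_pos (pow_pos (h3 v) _)
      (pow_pos (h4 v) _))), ?_, ?_⟩
  · rw [hlog]
    exact FS_add f1 (FS_add f2 (FS_add f3 f4))
  · rw [hlog, gs_add f1 (FS_add f2 (FS_add f3 f4)),
      gs_add f2 (FS_add f3 f4), gs_add f3 f4, gs_const_mul, gs_const_mul,
      gs_const_mul, gs_log_max, gs_log_vn (xRep_ne_zero P), gs_log_vn (xRep_ne_zero P')]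
    have h5 := mul_le_mul_of_nonneg_left hcl (Nat.cast_nonneg (α := ℝ) (N * 4 ^ e))
    push_cast at h5 ⊢
    linarith

/-- The local bound of one coefficient. -/
private theorem J10e_coeff {K : Type u} [Field K] (v : AbsoluteValue K ℝ) (b d n : ℕ) (r : ℝ)
    (hr : 0 < r) (G : MvPolynomial (Fin 4 × Fin 2) K)
    (hG : G.vars ⊆ {(0, 0), (2, 0), (2, 1)}) (hGb : ∀ t, G.degreeOf (2, t) ≤ b)
    (hGd : G.degreeOf (0, 0) ≤ d) (c : Fin 2 → Bool) (x : Fin 2 → PowerSeries K)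
    (ξ : Fin 2 → Fin 2 → Fin 2 → PowerSeries K) (α : K) (Y : Fin 2 → ℝ)
    (hx : PN v r n (x 0) ≤ cst v 2 * max 1 (v α)) (hY0 : ∀ t, 0 ≤ Y t)
    (hY : ∀ t k i, PN v r n (ξ t k i) ≤ Y t) (κ : Fin 2 → Fin 2) :
    v (PowerSeries.coeff n (aeval (bp c x ξ κ) (hm b G))) * r ^ n ≤
      NV v G * (cst v 2 * max 1 (v α)) ^ d * (Y 0 * Y 1) ^ b := by
  refine (PN_coeff_le v hr.le le_rfl _).trans ?_
  refine (hm_size b G hG hGb (SN_PN v hr.le n) (bp c x ξ κ) d hGd Y ?_ ?_).trans ?_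
  · intro t
    exact hY t (κ t) _
  · intro t
    exact hY t (κ t) _
  · refine mul_le_mul_of_nonneg_right (mul_le_mul_of_nonneg_left ?_ ((SN_NV v).nonneg G))
      (pow_nonneg (mul_nonneg (hY0 0) (hY0 1)) b)
    refine pow_le_pow_left₀ (le_max_of_le_left zero_le_one) (max_le ?_ hx) d
    have h1 : 1 ≤ max 1 (v α) := le_max_left _ _
    have h2 : 1 ≤ cst v 2 := one_le_cst v (by norm_num)
    exact one_le_mul_of_one_le_of_one_le h2 h1

/-- The final arithmetic. -/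
private theorem J10e_arith (b n k s e D w cc : ℕ)
    (C₀ d h2 c0 N lq lα gr nhg hP hu HP' hr gM Yg : ℝ)
    (hC₀ : 0 ≤ C₀) (hd : 0 ≤ d) (hh2 : 0 ≤ h2) (hc0 : 0 ≤ c0) (hN : 0 ≤ N)
    (hg0 : 0 ≤ nhg) (hHP : 0 ≤ hP) (hHu : 0 ≤ hu) (hs : s ≤ 4 ^ e) (hcc : 1 ≤ cc)
    (hgr : - gr ≤ C₀ * (1 + nhg + hP + hu))
    (hYg : Yg ≤ (h2 + N * 4 ^ e * c0 + 2 * 4 ^ e * hP + 2 * HP') +
      (4 ^ e * (d * Real.log 2) + hr))
    (hsk : s ≤ k)
    (h : b * lq + n * gr + ((k - s : ℕ) : ℝ) * lα ≤ gM + b * Yg +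
      ((16 * D ^ 2 * 4 ^ e + s + 1 : ℕ) : ℝ) * (d * Real.log 2) +
        ((w + 1 : ℕ) : ℝ) * (d * Real.log ((2 * cc : ℕ) : ℝ))) :
    b * lq + ((k : ℝ) - s) * lα ≤
      n * ((C₀ + (b * (h2 + N * c0 + d * Real.log 2) + ((16 * D ^ 2 + 2) * (d * Real.log 2) +
        (w + 1) * d))) * (1 + nhg + hP + hu)) + gM + b * (2 * 4 ^ e * hP + 2 * HP' + hr) +
        (C₀ + (b * (h2 + N * c0 + d * Real.log 2) + ((16 * D ^ 2 + 2) * (d * Real.log 2) +
        (w + 1) * d))) * (4 ^ e + Real.log (2 * cc)) := by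
  have hlog2 : 0 ≤ Real.log 2 := Real.log_nonneg (by norm_num)
  have hcc' : (1 : ℝ) ≤ cc := by exact_mod_cast hcc
  have hlogc : 0 ≤ Real.log (2 * cc) := Real.log_nonneg (by linarith)
  have h4 : (1 : ℝ) ≤ 4 ^ e := one_le_pow₀ (by norm_num)
  have hs' : (s : ℝ) ≤ 4 ^ e := by exact_mod_cast hs
  have hb : (0 : ℝ) ≤ b := Nat.cast_nonneg b
  have hn : (0 : ℝ) ≤ n := Nat.cast_nonneg n
  have hw : (0 : ℝ) ≤ w := Nat.cast_nonneg w
  have hD : (0 : ℝ) ≤ 16 * (D : ℝ) ^ 2 := by positivity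
  rw [Nat.cast_sub hsk] at h
  push_cast at h
  generalize hE : (4 : ℝ) ^ e = E at *
  generalize hL : Real.log (2 * (cc : ℝ)) = Lc at *
  set X1 := (b : ℝ) * (h2 + N * c0 + d * Real.log 2) with hX1
  set X2 := (16 * (D : ℝ) ^ 2 + 2) * (d * Real.log 2) with hX2
  set X3 := ((w : ℝ) + 1) * d with hX3
  have p1 : 0 ≤ X1 := by positivity
  have p2 : 0 ≤ X2 := by positivity
  have p3 : 0 ≤ X3 := by positivity
  have q0 : 0 ≤ 1 + nhg + hP + hu := by linarith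
  -- the term with `n`
  have a1 : (n : ℝ) * (- gr) ≤ n * ((C₀ + (X1 + (X2 + X3))) * (1 + nhg + hP + hu)) := by
    refine mul_le_mul_of_nonneg_left (hgr.trans ?_) hn
    exact mul_le_mul_of_nonneg_right (by linarith) q0
  -- the term with `b`
  have a2 : (b : ℝ) * Yg ≤ b * (2 * E * hP + 2 * HP' + hr) + X1 * E := by
    have e1 : (b : ℝ) * Yg ≤ b * ((h2 + N * E * c0 + 2 * E * hP + 2 * HP') +
        (E * (d * Real.log 2) + hr)) :=
      mul_le_mul_of_nonneg_left hYg hb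
    have e2 : (b : ℝ) * h2 * 1 ≤ b * h2 * E :=
      mul_le_mul_of_nonneg_left h4 (by positivity)
    rw [hX1]
    calc (b : ℝ) * Yg ≤ b * ((h2 + N * E * c0 + 2 * E * hP + 2 * HP') +
        (E * (d * Real.log 2) + hr)) := e1
      _ = b * (2 * E * hP + 2 * HP' + hr) + (b * h2 * 1 + b * (N * c0) * E +
          b * (d * Real.log 2) * E) := by ring
      _ ≤ b * (2 * E * hP + 2 * HP' + hr) + (b * h2 * E + b * (N * c0) * E +
          b * (d * Real.log 2) * E) := by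
        linarith
      _ = _ := by ring
  -- the third term
  have a3 : (16 * (D : ℝ) ^ 2 * E + s + 1) * (d * Real.log 2) ≤ X2 * E := by
    have e1 : 16 * (D : ℝ) ^ 2 * E + s + 1 ≤ (16 * (D : ℝ) ^ 2 + 2) * E := by linarith
    have e2 := mul_le_mul_of_nonneg_right e1 (mul_nonneg hd hlog2)
    rw [hX2]
    linarith
  have a4 : ((w : ℝ) + 1) * (d * Lc) = X3 * Lc := by
    rw [hX3]
    ring
  have a5 : X1 * E + X2 * E + X3 * Lc ≤ (C₀ + (X1 + (X2 + X3))) * (E + Lc) := by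
    have hE0 : 0 ≤ E := zero_le_one.trans h4
    have e1 := mul_nonneg hC₀ hE0
    have e2 := mul_nonneg hC₀ hlogc
    have e3 := mul_nonneg p1 hlogc
    have e4 := mul_nonneg p2 hlogc
    have e5 := mul_nonneg p3 hE0
    have e6 : (C₀ + (X1 + (X2 + X3))) * (E + Lc) = X1 * E + X2 * E + X3 * Lc +
      (C₀ * E + C₀ * Lc + X1 * Lc + X2 * Lc + X3 * E) := by ring
    rw [e6]
    linarith
  linarith

/-- (9.7).
Proof: as VJ/J10e `final_ineq`, with `branch` of VS/J9 and `exists_y` of VS/J10c (`a = ![P.xRep 0, u]`,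
`a' = ![P'.xRep 0, u']`, `qb = (P' + 2 ^ e • P).xRep`, `q = (P' - 2 ^ e • P).xRep`, `y κ = y₀ * qb κ ^ b`). For every
place `v`, `ν = PN v (r v) n`: `Y 0 = max 1 (v 2⁻¹) * (lc ^ (N 4^e) * (vn P ^ (2 4^e) * vn P' ^ 2))` for the column of `E`,
and for `𝔾_m`: `ν (C u') = v u'`, `ν (x 1 ^ 4 ^ e) ≤ (cst v 2 * v u) ^ 4 ^ e`, so
`Y 1 = cst v 2 ^ 4 ^ e * max (v u') (v u ^ 4 ^ e)`. `hm_size` (VJ/J10a) for `s = bpS ..` (unfold `bp`), `local_y` with
`YY = (Y 0 * Y 1) ^ b`. Sum over all places: `gs (log max (v u') (v u ^ 4 ^ e)) = logHeight ![u', u ^ 4 ^ e] =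
logHeight₁ (u' / u ^ 4 ^ e)` (`gs_log_iSup`, scaling by `u ^ 4 ^ e`), `gs (log cst v 2 ^ 4 ^ e) ≤ C 4 ^ e`;
`logHeight_y1` for the left hand side. -/
theorem final_ineq {K : Type u} [Field K] [NumberField K] [DecidableEq K]
    (W : WeierstrassCurve K) [W.IsElliptic] (D b w : ℕ) :
    ∃ C : ℝ, 0 ≤ C ∧ ∀ (g g' : MvPolynomial (Fin 2) K)
      (P P' : W.toAffine.Point) (u u' : K) (e k s cc : ℕ) (c : Bool)
      (F A B : MvPolynomial (Fin 4 × Fin 2) K),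
      GC g D → GC g' D → P ≠ 0 → P' ≠ 0 → u ≠ 0 → u' ≠ 0 →
      eval ![P.xRep 0, u] g = 0 → eval ![P'.xRep 0, u'] g' = 0 →
      eval ![P.xRep 0, u] (pderiv 1 g) ≠ 0 →
      ph W P.xRep ≠ 0 → ph W P'.xRep ≠ 0 →
      (P' - 2 ^ e • P).xRep (if c then 0 else 1) ≠ 0 →
      F.vars ⊆ {(0, 0), (2, 0), (2, 1)} → B.vars ⊆ {(0, 0), (2, 0), (2, 1)} →
      (∀ t, F.degreeOf (2, t) ≤ b) → (∀ t, B.degreeOf (2, t) ≤ b) →
      F.degreeOf (0, 0) ≤ s → B.degreeOf (0, 0) ≤ 16 * D ^ 2 * 4 ^ e →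
      s ≤ 4 ^ e → 1 ≤ k → s ≤ k → 16 * D ^ 2 * 4 ^ e ≤ w * k → 1 ≤ cc →
      F = QS W e c g g' * A + (X (0, 0) ^ k - MvPolynomial.C (cc : K)) * B →
      F ≠ 0 → FS (fun v : AbsoluteValue K ℝ => Real.log (max (NV v F) (NV v B))) →
      P.xRep 0 ^ k ≠ (cc : K) →
      aeval (Function.update X ((1, 0) : Fin 4 × Fin 2) (MvPolynomial.C (P'.xRep 0)))
        (NS W e c g g' F) ≠ 0 →
      ∃ n : ℕ, (X (0, 0) - MvPolynomial.C (P.xRep 0)) ^ n ∣
          aeval (Function.update X ((1, 0) : Fin 4 × Fin 2) (MvPolynomial.C (P'.xRep 0)))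
            (NS W e c g g' F) ∧
        b * logHeight (P' + 2 ^ e • P).xRep + ((k : ℝ) - s) * logHeight P.xRep ≤
          n * (C * (1 + nh g + logHeight P.xRep + logHeight₁ u)) +
          gs (fun v : AbsoluteValue K ℝ => Real.log (max (NV v F) (NV v B))) +
          b * (2 * 4 ^ e * logHeight P.xRep + 2 * logHeight P'.xRep +
            logHeight₁ (u' / u ^ 4 ^ e)) + C * (4 ^ e + Real.log (2 * cc)) := by
  obtain ⟨C₀, N, hC₀, hbr⟩ := branch W D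
  obtain ⟨l0, hl0, hlc0⟩ := gs_log_lc_le W
  have hfr : (0 : ℝ) ≤ Module.finrank ℚ K := Nat.cast_nonneg _
  have hd : (0 : ℝ) ≤ totalWeight K := Nat.cast_nonneg _
  have hh2 : 0 ≤ logHeight₁ ((2 : K)⁻¹) := zero_le_logHeight₁ _
  have hlog2 : 0 ≤ Real.log 2 := Real.log_nonneg (by norm_num)
  refine ⟨C₀ + (b * (logHeight₁ ((2 : K)⁻¹) +
      N * (l0 * Module.finrank ℚ K) + totalWeight K * Real.log 2) +
      ((16 * D ^ 2 + 2) * (totalWeight K * Real.log 2) + (w + 1) * totalWeight K)),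
      by positivity, ?_⟩
  intro g g' P P' u u' e k s cc c F A B hg hg' hP hP' hu hu' hge hge' hpd hph hph' hq hFv hBv hFb
    hBb hFs hBs hs4 hk hsk hwk hcc hFAB hF0 hFS hc hN
  obtain ⟨r, x, ξ, γ, hx0, hxc0, hxc1, hxg, hS, hξ, hγ, h0, hr, hrF, hrg, hPx0, hPx1, hPξ⟩ :=
    hbr g P P' u e (fun t => (hg.2 t).2) hP hP' hu hge hpd hph hph'
  have hge'' : aeval ![P'.xRep 0, u'] g' = 0 := by
    rw [aeval_eq_eval]
    exact hge'
  obtain ⟨n, y₀, hy₀, hyB, hyF, hdvd⟩ := exists_y W e c g g' (by have := (hg.2 1).1; omega)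
    (by have := (hg'.2 1).1; omega) F A B b k cc hFv hBv hFb hBb hFAB
    ![P.xRep 0, u] ![P'.xRep 0, u'] hu hc hge'' hN x ξ γ
    (P' + 2 ^ e • P).xRep (P' - 2 ^ e • P).xRep hx0 hxc1 hxg hS hξ hγ
    (xRep_ne_zero _) hq h0
  refine ⟨n, hdvd, ?_⟩
  obtain ⟨hY0p, hY0F, hY0g⟩ := J10e_Y W P P' N e (l0 * Module.finrank ℚ K) (hlc0 K)
  obtain ⟨hY1p, hY1F, hY1g⟩ := J10e_G u u' hu e
  set Y0 : AbsoluteValue K ℝ → ℝ := fun v => max 1 (v ((2 : K)⁻¹)) * (lc W v ^ (N * 4 ^ e) *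
            (vn v P.xRep ^ (2 * 4 ^ e) * vn v P'.xRep ^ 2)) with hY0d
  set Y1 : AbsoluteValue K ℝ → ℝ := fun v => cst v 2 ^ 4 ^ e * max (v u') (v u ^ 4 ^ e) with hY1d
  have hYp : ∀ v, 0 < Y0 v * Y1 v := fun v => mul_pos (hY0p v) (hY1p v)
  have hlog2' : (fun v => Real.log (Y0 v * Y1 v)) =
      fun v => Real.log (Y0 v) + Real.log (Y1 v) := by
    funext v
    exact Real.log_mul (hY0p v).ne' (hY1p v).ne'
  have hYF : FS (fun v => Real.log (Y0 v * Y1 v)) := by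
    rw [hlog2']
    exact FS_add hY0F hY1F
  have hYg : gs (fun v => Real.log (Y0 v * Y1 v)) ≤
      (logHeight₁ ((2 : K)⁻¹) + N * 4 ^ e * (l0 * Module.finrank ℚ K) +
        2 * 4 ^ e * logHeight P.xRep + 2 * logHeight P'.xRep) +
      (4 ^ e * (totalWeight K * Real.log 2) + logHeight₁ (u' / u ^ 4 ^ e)) := by
    rw [hlog2', gs_add hY0F hY1F]
    exact add_le_add hY0g hY1g
  set Ξ : Fin 2 → Fin 2 → Fin 2 → PowerSeries K :=
    ![ξ, fun _ => ![PowerSeries.C u', x 1 ^ 4 ^ e]] with hΞ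
  have hYξ : ∀ v, Pl v → ∀ t k i, PN v (r v) n (Ξ t k i) ≤ (![Y0 v, Y1 v] : Fin 2 → ℝ) t := by
    intro v hv t k i
    fin_cases t
    · exact hPξ v hv n k i
    · show PN v (r v) n ((![PowerSeries.C u', x 1 ^ 4 ^ e] : Fin 2 → PowerSeries K) i) ≤ Y1 v
      have hc1 : 1 ≤ cst v 2 ^ 4 ^ e := one_le_pow₀ (one_le_cst v (by norm_num))
      have hm0 : 0 ≤ max (v u') (v u ^ 4 ^ e) := le_max_of_le_left (v.nonneg u')
      fin_cases i
      · show PN v (r v) n (PowerSeries.C u') ≤ Y1 v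
        rw [PN_C]
        refine (le_max_left (v u') (v u ^ 4 ^ e)).trans ?_
        exact le_mul_of_one_le_left hm0 hc1
      · show PN v (r v) n (x 1 ^ 4 ^ e) ≤ Y1 v
        refine ((SN_PN v (hr v hv).1.le n).pow_le _ _).trans ?_
        refine (pow_le_pow_left₀ ((SN_PN v (hr v hv).1.le n).nonneg _) (hPx1 v hv n) _).trans ?_
        rw [mul_pow]
        exact mul_le_mul_of_nonneg_left (le_max_right _ _) (zero_le_one.trans hc1)
  have hYn : ∀ v, ∀ t, 0 ≤ (![Y0 v, Y1 v] : Fin 2 → ℝ) t := by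
    intro v t
    fin_cases t
    · exact (hY0p v).le
    · exact (hY1p v).le
  have hloc : ∀ v, Pl v → ∀ κ : Fin 2,
      v (y₀ * (P' + 2 ^ e • P).xRep κ ^ b) * r v ^ n *
        max 1 (v (P.xRep 0)) ^ (k - s) ≤
      max (NV v F) (NV v B) * (Y0 v * Y1 v) ^ b *
        (cst v 2 ^ (16 * D ^ 2 * 4 ^ e + s + 1) * cst v (2 * cc) ^ (w + 1)) := by
    intro v hv κ
    refine local_y v (P.xRep 0) _ k s (16 * D ^ 2 * 4 ^ e) w n cc hk hsk hwk hcc (r v)
      (NV v F) (NV v B) ((Y0 v * Y1 v) ^ b) (hr v hv).1 ((SN_NV v).nonneg F)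
      ((SN_NV v).nonneg B) (pow_nonneg (hYp v).le b) ?_ ?_
    · rw [← hyB κ]
      exact J10e_coeff v b _ n (r v) (hr v hv).1 B hBv hBb hBs ![c, false] x Ξ (P.xRep 0)
        ![Y0 v, Y1 v] (hPx0 v hv n) (hYn v) (hYξ v hv) fun _ => κ
    · rw [← map_mul]
      have e1 := hyF κ
      have e2 : ((![P.xRep 0, u] : Fin 2 → K) 0 ^ k - (cc : K)) = P.xRep 0 ^ k - (cc : K) := rfl
      rw [e2] at e1
      rw [← e1]
      exact J10e_coeff v b _ n (r v) (hr v hv).1 F hFv hFb hFs ![c, false] x Ξ (P.xRep 0)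
        ![Y0 v, Y1 v] (hPx0 v hv n) (hYn v) (hYξ v hv) fun _ => κ
  have hsum := J10e_sum
    (fun κ : Fin 2 => y₀ * (P' + 2 ^ e • P).xRep κ ^ b)
    (J10e_y_ne b y₀ hy₀ _ (xRep_ne_zero _)) r
    (fun v => max (NV v F) (NV v B)) (fun v => Y0 v * Y1 v) (P.xRep 0) n (k - s) b
    (16 * D ^ 2 * 4 ^ e + s + 1) (w + 1) (2 * cc) (by omega) (fun v hv => (hr v hv).1)
    (fun v _ => lt_max_of_lt_left (NV_pos v hF0)) (fun v _ => hYp v) hrF hFS hYF hloc
  rw [logHeight_y1 b y₀ hy₀ _ (xRep_ne_zero _), ← logHeight_xRep hP] at hsum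
  have hg0 : g ≠ 0 := by
    intro h
    have h1 := (hg.2 0).1
    rw [h, degreeOf_zero] at h1
    exact absurd h1 (by norm_num)
  exact J10e_arith b n k s e D w cc C₀ (totalWeight K) _ (l0 * Module.finrank ℚ K)
    N _ _ _ _ _ _ _ _ _ _ hC₀ hd hh2 (mul_nonneg hl0 hfr)
    (Nat.cast_nonneg N) (nh_nonneg hg0) (logHeight_xRep_nonneg P) (zero_le_logHeight₁ u) hs4 hcc
    hrg hYg hsk hsum

end Pool.Agent.Lib.MP_17a322_nt.VS
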