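import Pool.Agent.Lib.MP_17a322_nt.VS.J1c
import Pool.Agent.Lib.MP_17a322_nt.VJ.J2d
import Pool.Agent.Lib.MP_17a322_nt.VJ.J4b
import Pool.Agent.Lib.MP_17a322_nt.VS.J10e
import Pool.Agent.Lib.MP_17a322_nt.VJ.J11
import Pool.Agent.Lib.MP_17a322_nt.VJ.J12a
import Pool.Agent.Lib.MP_17a322_nt.VS.I19

/-!
Stage II, the inequalities for two points on two curves
-/

universe u

namespace Pool.Agent.Lib.MP_17a322_nt.VS

open MvPolynomial Height
open Pool.Agent.Lib.MP_17a322_nt.RO Pool.Agent.Lib.MP_17a322_nt.VJ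

/-- The chart: `c = true` iff `q = 0`. -/
private theorem J12a_chart {K : Type*} [Field K] [DecidableEq K] {W : WeierstrassCurve K}
    (q : W.toAffine.Point) : ∃ c : Bool, q.xRep (if c then 0 else 1) ≠ 0 := by
  by_cases hq : q = 0
  · refine ⟨true, ?_⟩
    rw [if_pos rfl, hq, xRep_zero]
    exact one_ne_zero
  · refine ⟨false, ?_⟩
    rw [if_neg (by simp), xRep_one hq]
    exact one_ne_zero

/-- The two laws. -/
private theorem J12a_parS {K : Type u} [Field K] [NumberField K] [DecidableEq K]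
    (W : WeierstrassCurve K) [W.IsElliptic] :
    ∃ CE : ℝ, 0 ≤ CE ∧ ∀ (P Q : W.toAffine.Point) (e : ℕ),
      2 * logHeight Q.xRep + 2 * 4 ^ e * logHeight P.xRep - 3 * 4 ^ e * CE ≤
        logHeight (Q + 2 ^ e • P).xRep + logHeight (Q - 2 ^ e • P).xRep := by
  obtain ⟨C, hC, h⟩ := height_unif W
  refine ⟨C * Module.finrank ℚ K, mul_nonneg hC (Nat.cast_nonneg _), ?_⟩
  intro P Q e
  obtain ⟨h1, _, h3, _⟩ := h K W (map_self W)
  have hC0 : 0 ≤ C * Module.finrank ℚ K := mul_nonneg hC (Nat.cast_nonneg _)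
  have e1 := (abs_le.mp (h1 Q (2 ^ e • P))).1
  have e3 := (abs_le.mp (h3 P e)).1
  have e4 : (1 : ℝ) ≤ 4 ^ e := one_le_pow₀ (by norm_num)
  generalize C * Module.finrank ℚ K = a at *
  have e6 : a ≤ 4 ^ e * a := le_mul_of_one_le_left hC0 e4
  linarith

private theorem J12a_secondS {κ h b n G hP hu Hs hP' hr E L Z C C1 CB CE D2 hq hqb k s GG dl : ℝ}
    (hκ : 0 ≤ κ) (hh : 0 ≤ h) (hb : 0 ≤ b) (hn : 0 ≤ n) (hG : 0 ≤ G) (hHs0 : 0 ≤ Hs)
    (hdl : 0 ≤ dl) (hD2 : 0 ≤ D2)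
    (hC1 : 0 ≤ C1) (hCB : 0 ≤ CB) (hCE : 0 ≤ CE) (hE : 0 ≤ E) (hEZ : E ≤ Z)
    (hHs : hP + hu ≤ Hs + dl)
    (hfin : b * hqb + (k - s) * h ≤ n * (CB * (1 + G + hP + hu)) + GG +
      b * (2 * E * hP + 2 * hP' + hr) + CB * (E + L))
    (hpar : 2 * hP' + 2 * E * hP - 3 * E * CE ≤ hqb + hq) (hGG : GG ≤ C1 * Z)
    (hL : L ≤ 18 * D2 * E) (hk : 3 * E ≤ κ * (k - s)) (hBC : CB * (1 + dl) ≤ C)
    (hC : C1 + b * (3 * CE) + CB * (1 + 18 * D2) ≤ C) :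
    3 * E * h ≤ κ * (n * (C * (1 + G + Hs)) + C * Z + b * (hq + hr)) := by
  have hZ : 0 ≤ Z := hE.trans hEZ
  have h1 : 3 * E * h ≤ κ * (k - s) * h := mul_le_mul_of_nonneg_right hk hh
  have h2 : (k - s) * h ≤ n * (C * (1 + G + Hs)) + C * Z + b * (hq + hr) := by
    have e0 : CB * (1 + G + hP + hu) ≤ C * (1 + G + Hs) := by
      have f1 : CB * (1 + G + hP + hu) ≤ CB * (1 + G + Hs + dl) :=
        mul_le_mul_of_nonneg_left (by linarith only [hHs]) hCB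
      have f2 : 1 + G + Hs + dl ≤ (1 + dl) * (1 + G + Hs) := by
        have f3 : 0 ≤ dl * (G + Hs) := mul_nonneg hdl (add_nonneg hG hHs0)
        linarith only [f3]
      have f4 : CB * (1 + G + Hs + dl) ≤ CB * ((1 + dl) * (1 + G + Hs)) :=
        mul_le_mul_of_nonneg_left f2 hCB
      have f5 : CB * (1 + dl) * (1 + G + Hs) ≤ C * (1 + G + Hs) :=
        mul_le_mul_of_nonneg_right hBC (by linarith only [hG, hHs0])
      linarith only [f1, f4, f5]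
    have e1 : n * (CB * (1 + G + hP + hu)) ≤ n * (C * (1 + G + Hs)) :=
      mul_le_mul_of_nonneg_left e0 hn
    have e2 : b * (2 * hP' + 2 * E * hP - 3 * E * CE) ≤ b * (hqb + hq) :=
      mul_le_mul_of_nonneg_left hpar hb
    have e3 : CB * (E + L) ≤ CB * (E + 18 * D2 * E) :=
      mul_le_mul_of_nonneg_left (by linarith only [hL]) hCB
    have e4 : (b * (3 * CE) + CB * (1 + 18 * D2)) * E ≤
        (b * (3 * CE) + CB * (1 + 18 * D2)) * Z :=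
      mul_le_mul_of_nonneg_left hEZ (by positivity)
    have e5 : (C1 + b * (3 * CE) + CB * (1 + 18 * D2)) * Z ≤ C * Z :=
      mul_le_mul_of_nonneg_right hC hZ
    have e6 : b * (2 * E * hP + 2 * hP' + hr) = b * (2 * hP' + 2 * E * hP - 3 * E * CE) +
        b * (3 * CE) * E + b * hr := by ring
    have e7 : (C1 + b * (3 * CE) + CB * (1 + 18 * D2)) * Z =
        C1 * Z + (b * (3 * CE) + CB * (1 + 18 * D2)) * Z := by ring
    have e8 : (b * (3 * CE) + CB * (1 + 18 * D2)) * E =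
        b * (3 * CE) * E + CB * (E + 18 * D2 * E) := by ring
    have e9 : b * (hqb + hq) = b * hqb + b * hq := by ring
    have e10 : b * (hq + hr) = b * hq + b * hr := by ring
    linarith only [hfin, e1, e2, e3, e4, e5, e6, e7, e8, e9, e10, hGG]
  calc 3 * E * h ≤ κ * (k - s) * h := h1
    _ = κ * ((k - s) * h) := by ring
    _ ≤ _ := mul_le_mul_of_nonneg_left h2 hκ

private theorem J12a_sub1 (K : Type u) [Field K] [NumberField K] (u : K) :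
    logHeight₁ (1 - u) ≤ logHeight₁ u + Module.finrank ℚ K * Real.log 2 := by
  have h2 := gs_log_cst (L := K) (n := 2) (by norm_num)
  have h3 := gs_le (FS_log_max (1 - u)) (FS_add (FS_log_cst (L := K) 2) (FS_log_max u)) (by
    intro v hv
    have hc : 1 ≤ cst v 2 := one_le_cst v (by norm_num)
    have hc0 : 0 < cst v 2 := zero_lt_one.trans_le hc
    have hm : 1 ≤ max 1 (v u) := le_max_left _ _
    have hm0 : 0 < max 1 (v u) := zero_lt_one.trans_le hm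
    rw [← Real.log_mul hc0.ne' hm0.ne']
    refine Real.log_le_log (zero_lt_one.trans_le (le_max_left _ _)) (max_le ?_ ?_)
    · exact one_le_mul_of_one_le_of_one_le hc hm
    · rw [sub_eq_add_neg]
      refine (SN_self v).add_le_cst ?_ ?_
      · rw [map_one]
        exact hm
      · show v (-u) ≤ _
        rw [v.map_neg]
        exact le_max_right _ _)
  rw [gs_add (FS_log_cst 2) (FS_log_max u), gs_log_max, gs_log_max] at h3
  rw [NumberField.totalWeight_eq_finrank] at h2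
  push_cast at h2
  linarith

/-- The heights of `u` and of `1 / (1 - u)` differ by a bounded amount. -/
theorem logHeight₁_sub_le (K : Type u) [Field K] [NumberField K] (u : K) :
    logHeight₁ u ≤ logHeight₁ (1 - u)⁻¹ + Module.finrank ℚ K * Real.log 2 ∧
      logHeight₁ (1 - u)⁻¹ ≤ logHeight₁ u + Module.finrank ℚ K * Real.log 2 := by
  rw [logHeight₁_inv]
  refine ⟨?_, J12a_sub1 K u⟩
  have h := J12a_sub1 K (1 - u)
  rw [sub_sub_cancel] at h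
  exact h

/-- From (9.7) and the parallelogram law. Proof: as VJ/J12a `stageII_core` with `QS`, `NS`, VS `final_ineq`,
VS `ind_proof`, `height_unif` for `W`; `logHeight P.xRep + logHeight₁ u ≤ HS P u + d log 2`. -/
theorem stageII_core {K : Type u} [Field K] [NumberField K] [DecidableEq K]
    (W : WeierstrassCurve K) [W.IsElliptic] (D : ℕ) (hD : 1 ≤ D) :
    ∃ (C : ℝ) (R₀ : ℕ), 0 ≤ C ∧ ∀ (g g' : MvPolynomial (Fin 2) K)
      (P P' : W.toAffine.Point) (u u' : K) (e : ℕ), GC g D → GC g' D →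
      P ≠ 0 → P' ≠ 0 → u ≠ 0 → u' ≠ 0 →
      eval ![P.xRep 0, u] g = 0 → eval ![P'.xRep 0, u'] g' = 0 →
      R₀ ≤ 4 ^ e →
      C * (1 + nh g) < logHeight P.xRep → C < logHeight P'.xRep →
      C * (4 ^ e * (1 + nh g) + nh g') < logHeight P'.xRep →
      ∃ n : ℕ, n * logHeight P.xRep ≤
          C * logHeight P.xRep + C * (4 ^ e * (1 + nh g) + nh g') ∧
        3 * 4 ^ e * logHeight P.xRep ≤ 4096 * D ^ 4 * (n * (C * (1 + nh g + HS P u)) +
          C * (4 ^ e * (1 + nh g) + nh g') +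
          64 * D ^ 2 * (logHeight (P' - 2 ^ e • P).xRep + logHeight₁ (u' / u ^ 4 ^ e))) := by
  obtain ⟨CQ, hCQ0, hCQ⟩ := nh_QS_le W D
  obtain ⟨CF, hCF0, hCF⟩ := exists_F K D hD
  obtain ⟨CN, hCN0, hCN⟩ := nh_NS_le W D (64 * D ^ 2)
  obtain ⟨CB, hCB0, hCB⟩ := final_ineq W D (64 * D ^ 2) (16384 * D ^ 6)
  obtain ⟨CE, hCE0, hCE⟩ := J12a_parS W
  obtain ⟨Ca, hCa0, hCa⟩ := pderiv_ne_zero_of_height K D
  obtain ⟨Cp, hCp0, hCp⟩ := ph_ne_zero_of_height W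
  obtain ⟨e₀, hind⟩ := ind_proof W D
  obtain ⟨d, hd⟩ : ∃ d : ℝ, d = (Module.finrank ℚ K : ℝ) := ⟨_, rfl⟩
  have hd0 : 0 ≤ d := by rw [hd]; exact Nat.cast_nonneg _
  have hD1 : (1 : ℝ) ≤ D := by exact_mod_cast hD
  have hD0 : (0 : ℝ) ≤ D := by linarith
  obtain ⟨C1, hC1⟩ : ∃ C1 : ℝ, C1 = CF * (1 + CQ) := ⟨_, rfl⟩
  have hC10 : 0 ≤ C1 := by rw [hC1]; positivity
  obtain ⟨C2, hC2⟩ : ∃ C2 : ℝ, C2 = CN * (1 + C1) := ⟨_, rfl⟩
  have hC20 : 0 ≤ C2 := by rw [hC2]; positivity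
  obtain ⟨r, hr⟩ : ∃ r : ℕ, r = 8 * (64 * D ^ 2) * D ^ 2 := ⟨_, rfl⟩
  have hdl : 0 ≤ d * Real.log 2 := mul_nonneg hd0 (Real.log_nonneg (by norm_num))
  obtain ⟨C, hC0, hC⟩ := J12a_bound ![C2, Ca, Cp, 9216 * d * (D : ℝ) ^ 6, (r : ℝ),
    (2 * r + 1) * C2 + 20 * d * (r + 1) ^ 2 * (r + 4 * (D : ℝ) ^ 2 + 1),
    CB * (1 + d * Real.log 2),
    C1 + 64 * (D : ℝ) ^ 2 * (3 * CE) + CB * (1 + 18 * (D : ℝ) ^ 2)]
  have hb2 : C2 ≤ C := hC 0
  have hba : Ca ≤ C := hC 1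
  have hbp : Cp ≤ C := hC 2
  have hbd : 9216 * d * (D : ℝ) ^ 6 ≤ C := hC 3
  have hbr : (r : ℝ) ≤ C := hC 4
  have hb3 : (2 * r + 1) * C2 + 20 * d * (r + 1) ^ 2 * (r + 4 * (D : ℝ) ^ 2 + 1) ≤ C := hC 5
  have hbB : CB * (1 + d * Real.log 2) ≤ C := hC 6
  have hb4 : C1 + 64 * (D : ℝ) ^ 2 * (3 * CE) + CB * (1 + 18 * (D : ℝ) ^ 2) ≤ C := hC 7
  clear hC
  refine ⟨C, max (4 ^ e₀) (4096 * D ^ 4), hC0, ?_⟩
  intro g g' P P' u u' e hg hg' hP hP' hu hu' hPg hPg' hR hh0 hhP' hα'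
  have hG00 : 0 ≤ nh g := nh_nonneg hg.ne_zero
  have hhP : C < logHeight P.xRep :=
    lt_of_le_of_lt (le_mul_of_one_le_right hC0 (by linarith only [hG00])) hh0
  have he₀ : e₀ ≤ e := (Nat.pow_le_pow_iff_right (by norm_num : 1 < 4)).mp
    ((le_max_left _ _).trans hR)
  have hκ : 4096 * D ^ 4 ≤ 4 ^ e := (le_max_right _ _).trans hR
  have hgd : ∀ t, 1 ≤ g.degreeOf t ∧ g.degreeOf t ≤ D := hg.2
  have hgd' : ∀ t, 1 ≤ g'.degreeOf t ∧ g'.degreeOf t ≤ D := hg'.2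
  have hg0 : g ≠ 0 := hg.ne_zero
  have hg0' : g' ≠ 0 := hg'.ne_zero
  obtain ⟨c, hc⟩ := J12a_chart (P' - 2 ^ e • P)
  have hQ0 := QS_ne_zero W e c g g' D hg hg'
  have hQh := hCQ e c g g' hg0 hg0' hgd hgd' hQ0
  obtain ⟨hQd0, hQd2⟩ := QS_degreeOf W e c g g' D (fun t => (hgd t).2) (fun t => (hgd' t).2)
  obtain ⟨cc, A, B, F, hcc1, hcc2, hF0, hFeq, hFv, hBv, hFd, hBd, hFd2, hBd2, hFS, hGG⟩ :=
    hCF e _ hκ hQ0 (QS_vars W e c g g') hQd0 hQd2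
  have hDpos : 0 < 4096 * D ^ 4 := by positivity
  have hs1 : 4096 * D ^ 4 * (4 ^ e / (4096 * D ^ 4)) ≤ 4 ^ e := Nat.mul_div_le _ _
  have hs2 : 4 ^ e < 4096 * D ^ 4 * (4 ^ e / (4096 * D ^ 4) + 1) := Nat.lt_mul_div_succ _ hDpos
  have hse : 4 ^ e / (4096 * D ^ 4) ≤ 4 ^ e := Nat.div_le_self _ _
  generalize 4 ^ e / (4096 * D ^ 4) = s at *
  obtain ⟨k, hk⟩ : ∃ k : ℕ, k = 4 * (s + 1) := ⟨_, rfl⟩
  rw [← hk] at hFeq
  have hE1 : (1 : ℝ) ≤ 4 ^ e := one_le_pow₀ (by norm_num)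
  have hG0 : 0 ≤ nh g := nh_nonneg hg0
  have hG0' : 0 ≤ nh g' := nh_nonneg hg0'
  have h4pos : 0 < 4 ^ e := by positivity
  have hs1r : 4096 * (D : ℝ) ^ 4 * s ≤ 4 ^ e := by exact_mod_cast hs1
  have hs2r : (4 : ℝ) ^ e ≤ 4096 * (D : ℝ) ^ 4 * (s + 1) := by exact_mod_cast hs2.le
  have hser : (s : ℝ) ≤ 4 ^ e := by exact_mod_cast hse
  -- the eliminant does not vanish
  have hN0 : NS W e c g g' F ≠ 0 := by
    refine hind g g' F c e s (64 * D ^ 2) hg hg' hF0 hFv hFd hFd2 he₀ ?_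
    have h1 : 2 * (32 * D ^ 2 * (64 * D ^ 2) * s) = 4096 * D ^ 4 * s := by ring
    linarith only [h1, hs1, h4pos]
  have hnF : nh F ≤ gs (fun v : AbsoluteValue K ℝ => Real.log (max (NV v F) (NV v B))) :=
    gs_le (FS_log_NV hF0) hFS
      (fun v _ => Real.log_le_log (NV_pos v hF0) (le_max_left _ _))
  have hNh := hCN e c g g' F hg0 hg0' hgd hgd' hFv hFd2 hF0 hN0
  obtain ⟨Z, hZ⟩ : ∃ Z : ℝ, Z = 4 ^ e * (1 + nh g) + nh g' := ⟨_, rfl⟩
  have hEZ : (4 : ℝ) ^ e ≤ Z := by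
    rw [hZ]
    exact J12a_Z (by positivity) hG0 hG0'
  have hZ0 : 0 ≤ Z := (by positivity : (0 : ℝ) ≤ 4 ^ e).trans hEZ
  rw [← hZ] at hQh hNh hα' ⊢
  have hGG1 : gs (fun v : AbsoluteValue K ℝ => Real.log (max (NV v F) (NV v B))) ≤ C1 * Z := by
    refine hGG.trans ?_
    rw [hC1, mul_assoc]
    apply mul_le_mul_of_nonneg_left _ hCF0
    linarith only [hQh, hEZ]
  have hN1 : nh (NS W e c g g' F) ≤ C2 * Z := by
    refine hNh.trans ?_
    rw [hC2, mul_assoc]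
    apply mul_le_mul_of_nonneg_left _ hCN0
    have h1 := hnF.trans hGG1
    linarith only [h1]
  have hlα' : logHeight P'.xRep = logHeight₁ (P'.xRep 0) := logHeight_xRep hP'
  have hlα : logHeight P.xRep = logHeight₁ (P.xRep 0) := logHeight_xRep hP
  have hNv := NS_vars W e c g g' F hFv
  have hval : aeval (Function.update X ((1, 0) : Fin 4 × Fin 2) (MvPolynomial.C (P'.xRep 0)))
      (NS W e c g g' F) ≠ 0 := by
    intro h0
    have h1 := height_of_value_zero K ((0, 0) : Fin 4 × Fin 2) (1, 0) (by decide) _ hN0 hNv _ h0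
    rw [← hlα'] at h1
    have h2 : C2 * Z ≤ C * Z := mul_le_mul_of_nonneg_right hb2 hZ0
    exact absurd hα' (not_lt.mpr ((h1.trans hN1).trans h2))
  have hpd : eval ![P.xRep 0, u] (pderiv 1 g) ≠ 0 := by
    apply hCa g _ hg hPg
    show Ca * (1 + nh g) < logHeight₁ (P.xRep 0)
    rw [← hlα]
    refine lt_of_le_of_lt ?_ hh0
    exact mul_le_mul_of_nonneg_right hba (add_nonneg zero_le_one hG0)
  have hccr : (cc : ℝ) ≤ 9 * (D : ℝ) ^ 2 * 4 ^ e := by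
    have h1 : (cc : ℝ) ≤ 8 * (D : ℝ) ^ 2 * 4 ^ e + 1 := by exact_mod_cast hcc2
    have h2 : (1 : ℝ) ≤ (D : ℝ) ^ 2 * 4 ^ e :=
      one_le_mul_of_one_le_of_one_le (one_le_pow₀ hD1) hE1
    linarith only [h1, h2]
  have hcc0 : (1 : ℝ) ≤ cc := by exact_mod_cast hcc1
  have hkr : (k : ℝ) = 4 * (s + 1) := by rw [hk]; push_cast; ring
  have hpow : P.xRep 0 ^ k ≠ (cc : K) := by
    apply pow_ne_natCast K _ k cc hcc1
    rw [← hlα, ← hd, hkr]
    have h1 : Real.log cc ≤ 9 * (D : ℝ) ^ 2 * 4 ^ e :=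
      ((Real.log_le_sub_one_of_pos (by linarith only [hcc0])).trans
        (by linarith only)).trans hccr
    exact J12a_pow hd0 hD1 (by positivity) hs2r h1 (lt_of_le_of_lt hbd hhP) (by positivity)
  have hk1 : 1 ≤ k := by omega
  have hsk : s ≤ k := by omega
  have hwk : 16 * D ^ 2 * 4 ^ e ≤ 16384 * D ^ 6 * k := by
    calc 16 * D ^ 2 * 4 ^ e ≤ 16 * D ^ 2 * (4096 * D ^ 4 * (s + 1)) :=
          Nat.mul_le_mul_left _ hs2.le
      _ = 16384 * D ^ 6 * k := by rw [hk]; ring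
  obtain ⟨n, hdvd, hfin⟩ := hCB g g' P P' u u' e k s cc c F A B hg hg' hP hP' hu hu' hPg hPg' hpd
    (hCp P (lt_of_le_of_lt hbp hhP))
    (hCp P' (lt_of_le_of_lt hbp hhP')) hc hFv hBv hFd2 hBd2 hFd hBd hse hk1 hsk
    hwk hcc1 hFeq hF0 hFS hpow hval
  obtain ⟨hNd0, hNd1⟩ := NS_degreeOf W e c g g' D (fun t => (hgd t).2) (fun t => (hgd' t).2) F hFv
    s (64 * D ^ 2) hFd hFd2
  rw [← hr] at hNd0 hNd1
  have hord := order_le K ((0, 0) : Fin 4 × Fin 2) (1, 0) (by decide) _ hNv r hNd1 _ _ hval n hdvd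
  rw [← hlα, ← hd] at hord
  have hh00 : 0 ≤ logHeight P.xRep := logHeight_xRep_nonneg _
  refine ⟨n, ?_, ?_⟩
  · have hdeg : ((NS W e c g g' F).degreeOf (0, 0) : ℝ) + 1 ≤
        ((r : ℝ) + 4 * (D : ℝ) ^ 2 + 1) * 4 ^ e := by
      have h1 : ((NS W e c g g' F).degreeOf (0, 0) : ℝ) ≤ r * 4 ^ e + 4 * (D : ℝ) ^ 2 * s := by
        exact_mod_cast hNd0
      have h2 : 4 * (D : ℝ) ^ 2 * s ≤ 4 * (D : ℝ) ^ 2 * 4 ^ e :=
        mul_le_mul_of_nonneg_left hser (by positivity)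
      linarith only [h1, h2, hE1]
    exact J12a_first (Nat.cast_nonneg _) hd0 (by positivity) hh00 hZ0 hEZ hord hN1 hdeg hbr hb3
  · have hHH : 0 ≤ HS P u := add_nonneg (logHeight_xRep_nonneg _) (zero_le_logHeight₁ _)
    have hHs : logHeight P.xRep + logHeight₁ u ≤ HS P u + d * Real.log 2 := by
      have h1 := (logHeight₁_sub_le K u).1
      rw [← hd] at h1
      unfold HS
      linarith only [h1]
    have hpar := hCE P P' e
    have hlog : Real.log (2 * cc) ≤ 18 * (D : ℝ) ^ 2 * 4 ^ e :=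
      ((Real.log_le_sub_one_of_pos (by linarith only [hcc0])).trans (by linarith only [hccr] :
        2 * (cc : ℝ) - 1 ≤ 18 * (D : ℝ) ^ 2 * 4 ^ e))
    have hκk : 3 * (4 : ℝ) ^ e ≤ 4096 * (D : ℝ) ^ 4 * ((k : ℝ) - s) := by
      rw [hkr]
      have h1 : 4096 * (D : ℝ) ^ 4 * (4 * ((s : ℝ) + 1) - s) =
          3 * (4096 * (D : ℝ) ^ 4 * (s + 1)) + 4096 * (D : ℝ) ^ 4 := by ring
      rw [h1]
      have h2 : 0 ≤ 4096 * (D : ℝ) ^ 4 := by positivity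
      linarith only [h2, hs2r]
    have hb : ((64 * D ^ 2 : ℕ) : ℝ) = 64 * (D : ℝ) ^ 2 := by push_cast; ring
    rw [hb] at hfin
    exact J12a_secondS (by positivity) hh00 (by positivity) (Nat.cast_nonneg _)
      hG0 hHH hdl
      (by positivity) hC10 hCB0 hCE0 (by positivity) hEZ hHs hfin hpar hGG1 hlog hκk hbB hb4

end Pool.Agent.Lib.MP_17a322_nt.VS
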