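import Pool.Agent.Lib.MP_17a322_nt.VS.J12a
import Pool.Agent.Lib.MP_17a322_nt.VJ.J12b

/-!
Proposition S2 (stage II), final form
-/

universe u

namespace Pool.Agent.Lib.MP_17a322_nt.VS

open MvPolynomial Height
open Pool.Agent.Lib.MP_17a322_nt.RO Pool.Agent.Lib.MP_17a322_nt.VJ

/-- Proposition S2. Proof: as VJ/J12b `stageII_proof` with VJ `constants_contradiction`
(`H = HS P u`, `H' = HS P' u'`, `h = logHeight P.xRep`,
`S = logHeight (P' - 2 ^ e • P).xRep + logHeight₁ (u' / u ^ 4 ^ e)`). -/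
theorem stageII_proof {K : Type u} [Field K] [NumberField K] [DecidableEq K]
    (W : WeierstrassCurve K) [W.IsElliptic] (D : ℕ) (ε : ℝ) (hε : 0 < ε) :
    ∃ (η C₁ : ℝ) (R₁ : ℕ), 0 < η ∧ 0 < C₁ ∧ ∀ (g g' : MvPolynomial (Fin 2) K)
      (P P' : W.toAffine.Point) (u u' : K) (e : ℕ), GC g D → GC g' D →
      P ≠ 0 → P' ≠ 0 → u ≠ 0 → u' ≠ 0 →
      eval ![P.xRep 0, u] g = 0 → eval ![P'.xRep 0, u'] g' = 0 →
      ε * HS P u ≤ logHeight P.xRep → ε * HS P' u' ≤ logHeight P'.xRep →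
      C₁ * nh g ≤ HS P u → C₁ * nh g' ≤ HS P' u' → C₁ ≤ HS P u → R₁ ≤ 4 ^ e →
      logHeight (P' - 2 ^ e • P).xRep ≤ η * HS P' u' →
      logHeight₁ (u' / u ^ 4 ^ e) ≤ η * HS P' u' →
      |HS P' u' - 4 ^ e * HS P u| ≤ η * HS P' u' → False := by
  rcases Nat.eq_zero_or_pos D with hD0 | hD
  · refine ⟨1, 1, 0, one_pos, one_pos, ?_⟩
    intro g g' P P' u u' e hg
    have h1 := (hg.2 0).1
    have h2 := (hg.2 0).2
    omega
  obtain ⟨C, R₀, hC, hcore⟩ := stageII_core W D hD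
  have hD1 : (1 : ℝ) ≤ D := by exact_mod_cast hD
  obtain ⟨κ, hκe⟩ : ∃ κ : ℝ, κ = 4096 * D ^ 4 := ⟨_, rfl⟩
  have hκ : 0 < κ := by
    rw [hκe]
    positivity
  obtain ⟨η, hηe⟩ : ∃ η : ℝ, η = min (1 / 2) (ε / (512 * D ^ 2 * κ)) := ⟨_, rfl⟩
  have hη0 : 0 < η := by
    rw [hηe]
    exact lt_min (by norm_num) (by positivity)
  have hη1 : η ≤ 1 / 2 := hηe ▸ min_le_left _ _
  have hη2 : η ≤ ε / (512 * D ^ 2 * κ) := hηe ▸ min_le_right _ _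
  obtain ⟨C₁, hC₁e⟩ : ∃ C₁ : ℝ, C₁ = max 1 (max (8 * C / ε + 1)
    (2 * κ / ε * (12 * C ^ 2 / ε + 4 * C))) := ⟨_, rfl⟩
  have hC₁1 : 1 ≤ C₁ := hC₁e ▸ le_max_left _ _
  have hC₁2 : 8 * C / ε + 1 ≤ C₁ := hC₁e ▸ (le_max_left _ _).trans (le_max_right _ _)
  have hC₁3 : 2 * κ / ε * (12 * C ^ 2 / ε + 4 * C) ≤ C₁ :=
    hC₁e ▸ (le_max_right _ _).trans (le_max_right _ _)
  have h8C : 8 * C < ε * C₁ := by
    have e1 : 8 * C / ε < C₁ := by linarith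
    rw [div_lt_iff₀ hε] at e1
    linarith
  obtain ⟨R₁, hR₁e⟩ : ∃ R₁ : ℕ, R₁ = max R₀ (max 1 ⌈6 * C ^ 2 * κ / ε⌉₊) := ⟨_, rfl⟩
  have hR₁1 : R₀ ≤ R₁ := hR₁e ▸ le_max_left _ _
  have hR₁2 : 1 ≤ R₁ := hR₁e ▸ (le_max_left _ _).trans (le_max_right _ _)
  have hR₁3 : 6 * C ^ 2 * κ / ε ≤ R₁ := by
    refine (Nat.le_ceil _).trans ?_
    exact_mod_cast hR₁e ▸ (le_max_right _ _).trans (le_max_right _ _)
  refine ⟨η, C₁, R₁, hη0, by linarith, ?_⟩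
  intro g g' P P' u u' e hg hg' hP hP' hu hu' hpg hpg' hεP hεP' hag hag' hCH hRe hq hqu habs
  have hg0 := hg.ne_zero
  have hg0' := hg'.ne_zero
  obtain ⟨a, hae⟩ : ∃ a, a = nh g := ⟨_, rfl⟩
  obtain ⟨a', hae'⟩ : ∃ a', a' = nh g' := ⟨_, rfl⟩
  have ha0 : 0 ≤ a := hae ▸ nh_nonneg hg0
  have ha0' : 0 ≤ a' := hae' ▸ nh_nonneg hg0'
  obtain ⟨H, hHe⟩ : ∃ H, H = HS P u := ⟨_, rfl⟩
  obtain ⟨H', hHe'⟩ : ∃ H', H' = HS P' u' := ⟨_, rfl⟩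
  have hH'0 : 0 ≤ H' := by
    rw [hHe']
    exact add_nonneg (logHeight_xRep_nonneg _) (zero_le_logHeight₁ _)
  have hE0 : (1 : ℝ) ≤ 4 ^ e := one_le_pow₀ (by norm_num)
  have hRe' : (R₁ : ℝ) ≤ 4 ^ e := by exact_mod_cast hRe
  have hcore' := hcore g g' P P' u u' e hg hg' hP hP' hu hu' hpg hpg' (hR₁1.trans hRe)
  rw [← hae, ← hae', ← hHe] at hcore'
  rw [← hae, ← hHe] at hag
  rw [← hae', ← hHe'] at hag'
  rw [← hHe] at hCH hεP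
  rw [← hHe'] at hεP' hq hqu
  rw [← hHe, ← hHe'] at habs
  obtain ⟨E, hEe⟩ : ∃ E : ℝ, E = 4 ^ e := ⟨_, rfl⟩
  rw [← hEe] at hcore' hE0 hRe' habs
  have hE00 : 0 < E := by linarith
  have hC₁0 : 0 < C₁ := by linarith
  have hH0 : 0 < H := by linarith
  have hEH : 0 < E * H := mul_pos hE00 hH0
  obtain ⟨habs1, habs2⟩ := abs_le.mp habs
  have hηH : η * H' ≤ 1 / 2 * H' := mul_le_mul_of_nonneg_right hη1 hH'0
  have hH'1 : H' ≤ 2 * E * H := by linarith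
  have hH'2 : E * H / 2 ≤ H' := by linarith
  obtain ⟨Z, hZe⟩ : ∃ Z, Z = E * (1 + a) + a' := ⟨_, rfl⟩
  have hZ1 : C₁ * Z ≤ 4 * (E * H) := by
    have e1 : E * C₁ ≤ E * H := mul_le_mul_of_nonneg_left hCH hE00.le
    have e2 : E * (C₁ * a) ≤ E * H := mul_le_mul_of_nonneg_left hag hE00.le
    rw [hZe]
    linarith
  have hEa : 1 + a ≤ E * (1 + a) := le_mul_of_one_le_left (by linarith) hE0
  have hZ0 : 1 + a ≤ Z := by
    rw [hZe]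
    linarith
  have hZpos : 0 < Z := by linarith
  have k1 : C * (1 + a) < ε * H := by
    have e1 : 8 * C * (1 + a) < ε * C₁ * (1 + a) := mul_lt_mul_of_pos_right h8C (by linarith)
    have e2 : C₁ * (1 + a) ≤ 2 * H := by linarith
    have e3 : ε * (C₁ * (1 + a)) ≤ ε * (2 * H) := mul_le_mul_of_nonneg_left e2 hε.le
    have e4 : 0 < ε * H := mul_pos hε hH0
    linarith
  have k2 : C * Z < ε * H' := by
    have e1 : 8 * C * Z < ε * C₁ * Z := mul_lt_mul_of_pos_right h8C hZpos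
    have e3 : ε * (C₁ * Z) ≤ ε * (4 * (E * H)) := mul_le_mul_of_nonneg_left hZ1 hε.le
    have e4 : ε * (E * H / 2) ≤ ε * H' := mul_le_mul_of_nonneg_left hH'2 hε.le
    linarith
  have k3 : C ≤ C * (1 + a) := le_mul_of_one_le_right hC (by linarith)
  have k4 : C ≤ C * Z := le_mul_of_one_le_right hC (by linarith)
  rw [← hZe] at hcore'
  obtain ⟨n, hn1, hn2⟩ := hcore' (k1.trans_le hεP)
    ((k4.trans_lt k2).trans_le hεP') (k2.trans_le hεP')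
  rw [hZe] at hn1 hn2
  rw [hκe] at hη2 hC₁3 hR₁3
  refine constants_contradiction D hD ε C η C₁ R₁ hε hC hη2 hη0 hC₁3 hC₁1 hR₁3
    (by exact_mod_cast hR₁2) E H H' (logHeight P.xRep) a a'
    (logHeight (P' - 2 ^ e • P).xRep + logHeight₁ (u' / u ^ 4 ^ e)) n hRe' hCH hH'1 hH'0 hεP ha0 ha0' hag hag' ?_
    (Nat.cast_nonneg n) hn1 hn2
  linarith [hq, hqu]

end Pool.Agent.Lib.MP_17a322_nt.VS
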