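import Pool.Agent.Lib.MP_17a322_nt.VS.Defs
import Pool.Agent.Lib.MP_17a322_nt.VJ.J1a

/-!
The relations `relE`, `relG`: values, degrees, leading coefficients, sizes.

`relE` is the relation `relI` of VJ for the family `fun _ => W` and `t = 0`: the lemmas of VJ/J1a apply
directly. `relG` is `X (i, 1) - X (0, 1) ^ (4 ^ e) * X (2, 1)`.
-/

universe u

namespace Pool.Agent.Lib.MP_17a322_nt.VS

open MvPolynomial Height
open Pool.Agent.Lib.MP_17a322_nt.RO Pool.Agent.Lib.MP_17a322_nt.VJ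

section

variable {K : Type*} [Field K] (W : WeierstrassCurve K) (e : ℕ) (c : Bool)

/-- VJ `aeval_relI`. -/
theorem aeval_relE {A : Type*} [CommRing A] [Algebra K A] (s : Fin 4 × Fin 2 → A) (i : Fin 4) :
    aeval s (relE W e c i) =
      S3 W (mu W e ![s (0, 0), 1]) ![s (i, 0), 1] (vc c (s (2, 0))) :=
  aeval_relI (fun _ => W) e (fun _ => c) s i 0

theorem aeval_relG {A : Type*} [CommRing A] [Algebra K A] (s : Fin 4 × Fin 2 → A) (i : Fin 4) :
    aeval s (relG K e i) = s (i, 1) - s (0, 1) ^ 4 ^ e * s (2, 1) := by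
  unfold relG
  rw [map_sub, map_mul, map_pow, aeval_X, aeval_X, aeval_X]

/-- VJ `relI_vars`. -/
theorem relE_vars (i : Fin 4) : (relE W e c i).vars ⊆ {(0, 0), (i, 0), (2, 0)} :=
  relI_vars (fun _ => W) e (fun _ => c) i 0

theorem relE_degreeOf_zero_le (i : Fin 4) (hi : i = 1 ∨ i = 3) :
    (relE W e c i).degreeOf (0, 0) ≤ 2 * 4 ^ e :=
  relI_degreeOf_zero_le (fun _ => W) e (fun _ => c) i hi 0

theorem relE_degreeOf_i (i : Fin 4) (hi : i = 1 ∨ i = 3) :
    (relE W e c i).degreeOf (i, 0) = 2 ∧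
      lcv (i, 0) (relE W e c i) = SV W (mu W e ![X (0, 0), 1]) (vc c (X (2, 0))) 2 :=
  relI_degreeOf_i (fun _ => W) e (fun _ => c) i hi 0

theorem relE_degreeOf_two (i : Fin 4) (hi : i = 1 ∨ i = 3) :
    (relE W e c i).degreeOf (2, 0) = 2 ∧
      lcv (2, 0) (relE W e c i) =
        SV W (mu W e ![X (0, 0), 1]) ![X (i, 0), 1] (if c then 0 else 2) :=
  relI_degreeOf_two (fun _ => W) e (fun _ => c) i hi 0

theorem relE_ne_zero (i : Fin 4) (hi : i = 1 ∨ i = 3) : relE W e c i ≠ 0 :=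
  relI_ne_zero (fun _ => W) e (fun _ => c) i hi 0

theorem VSJ1a_relG (i : Fin 4) (y : Fin 4 × Fin 2) :
    degreeOf y (relG K e i) ≤ (4 ^ e * if y = (0, 1) then 1 else 0) +
      (if y = (i, 1) then 1 else 0) + (if y = (2, 1) then 1 else 0) := by
  unfold relG
  refine E8_sub ?_ ?_
  · exact (E8_X _ _).trans (by omega)
  · exact (E8_mul (E8_pow (4 ^ e) (E8_X (0, 1) y)) (E8_X (2, 1) y)).trans (by omega)

/-- `vars_sub_subset` or `vars_add_subset`, `vars_mul`, `vars_pow`, `vars_X`. -/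
theorem relG_vars (i : Fin 4) : (relG K e i).vars ⊆ {(0, 1), (i, 1), (2, 1)} := by
  refine J1a_vars _ _ fun y hy => ?_
  simp only [Finset.mem_insert, Finset.mem_singleton, not_or] at hy
  have h1 := VSJ1a_relG (K := K) e i y
  rw [if_neg hy.1, if_neg hy.2.1, if_neg hy.2.2] at h1
  omega

theorem relG_degreeOf_zero_le (i : Fin 4) (hi : i = 1 ∨ i = 3) :
    (relG K e i).degreeOf (0, 1) ≤ 4 ^ e := by
  refine (VSJ1a_relG e i _).trans ?_
  rcases hi with rfl | rfl <;> simp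

/-- A linear polynomial in `X y`. -/
theorem VSJ1a_lin {σ : Type*} [DecidableEq σ] (y : σ) (p q : MvPolynomial σ K)
    (hp : degreeOf y p ≤ 0) (hq : degreeOf y q ≤ 0) (h0 : q ≠ 0)
    (F : MvPolynomial σ K) (hF : F = q * X y + p) :
    F.degreeOf y = 1 ∧ lcv y F = q := by
  have hv : vw y F = Polynomial.C q * Polynomial.X + Polynomial.C p := by
    rw [hF, vw_add, vw_mul, vw_of_degreeOf_eq_zero y (Nat.le_zero.1 hp),
      vw_of_degreeOf_eq_zero y (Nat.le_zero.1 hq), vw_X_self]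
  have hd : F.degreeOf y = 1 := by
    rw [← natDegree_vw, hv]
    exact Polynomial.natDegree_linear h0
  refine ⟨hd, ?_⟩
  rw [lcv, hd, hv]
  simp

/-- `vw (i, 1) (relG K e i) = X - C (X (0, 1) ^ (4 ^ e) * X (2, 1))`. -/
theorem relG_degreeOf_i (i : Fin 4) (hi : i = 1 ∨ i = 3) :
    (relG K e i).degreeOf (i, 1) = 1 ∧ lcv (i, 1) (relG K e i) = 1 := by
  have hi0 : (i, (1 : Fin 2)) ≠ ((0 : Fin 4), 1) := by rcases hi with rfl | rfl <;> simp
  have hi2 : (i, (1 : Fin 2)) ≠ ((2 : Fin 4), 1) := by rcases hi with rfl | rfl <;> simp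
  refine VSJ1a_lin (i, 1) (-(X (0, 1) ^ 4 ^ e * X (2, 1))) 1 ?_ ?_ one_ne_zero _ ?_
  · rw [degreeOf_neg]
    have h1 := E8_mul (E8_pow (4 ^ e) (E8_X (K := K) ((0 : Fin 4), (1 : Fin 2)) (i, 1)))
      (E8_X ((2 : Fin 4), (1 : Fin 2)) (i, 1))
    rw [if_neg hi0, if_neg hi2] at h1
    simpa using h1
  · rw [degreeOf_one]
  · unfold relG
    ring

theorem relG_degreeOf_two (i : Fin 4) (hi : i = 1 ∨ i = 3) :
    (relG K e i).degreeOf (2, 1) = 1 ∧ lcv (2, 1) (relG K e i) = - X (0, 1) ^ 4 ^ e := by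
  have h20 : ((2 : Fin 4), (1 : Fin 2)) ≠ ((0 : Fin 4), 1) := by simp
  have hi2 : ((2 : Fin 4), (1 : Fin 2)) ≠ (i, 1) := by rcases hi with rfl | rfl <;> simp
  refine VSJ1a_lin (2, 1) (X (i, 1)) (- X (0, 1) ^ 4 ^ e) ?_ ?_ ?_ _ ?_
  · have h1 := E8_X (K := K) (i, (1 : Fin 2)) ((2 : Fin 4), 1)
    rwa [if_neg hi2] at h1
  · rw [degreeOf_neg]
    have h1 := E8_pow (4 ^ e) (E8_X (K := K) ((0 : Fin 4), (1 : Fin 2)) ((2 : Fin 4), 1))
    rw [if_neg h20] at h1
    simpa using h1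
  · exact neg_ne_zero.2 (pow_ne_zero _ (X_ne_zero _))
  · unfold relG
    ring

theorem relG_ne_zero (i : Fin 4) (hi : i = 1 ∨ i = 3) : relG K e i ≠ 0 := by
  intro h
  have h1 := (relG_degreeOf_i (K := K) e i hi).1
  rw [h, degreeOf_zero] at h1
  exact absurd h1 (by norm_num)

/-- Two monomials with coefficients `1`, `-1`. -/
theorem NV_relG_le (v : AbsoluteValue K ℝ) (i : Fin 4) : NV v (relG K e i) ≤ cst v 2 := by
  have hSN := SN_NV v (σ := Fin 4 × Fin 2)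
  have h1 : NV v (X (i, 1) : MvPolynomial (Fin 4 × Fin 2) K) ≤ 1 := (NV_X v _).le
  have h2 : NV v (X (0, 1) ^ 4 ^ e : MvPolynomial (Fin 4 × Fin 2) K) ≤ 1 := by
    generalize 4 ^ e = n
    induction n with
    | zero =>
      rw [pow_zero]
      exact hSN.one_le
    | succ n ih =>
      rw [pow_succ]
      refine (hSN.mul _ _).trans ?_
      exact mul_le_one₀ ih (hSN.nonneg _) (NV_X v _).le
  have h3 : NV v (X (0, 1) ^ 4 ^ e * X (2, 1) : MvPolynomial (Fin 4 × Fin 2) K) ≤ 1 :=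
    (hSN.mul _ _).trans (mul_le_one₀ h2 (hSN.nonneg _) (NV_X v _).le)
  have h4 : NV v (-(X (0, 1) ^ 4 ^ e * X (2, 1)) : MvPolynomial (Fin 4 × Fin 2) K) ≤ 1 :=
    (hSN.neg _).le.trans h3
  unfold relG
  rw [sub_eq_add_neg]
  by_cases hv : IsNonarchimedean v
  · have h5 : cst v 2 = 1 := by
      unfold cst
      rw [if_pos hv]
    rw [h5]
    exact (hSN.add_max hv _ _).trans (max_le h1 h4)
  · have h5 : cst v 2 = 2 := by
      unfold cst
      rw [if_neg hv]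
      norm_num
    rw [h5]
    exact (hSN.add _ _).trans (by linarith)

end

/-- VJ `nh_relI_le`. -/
theorem nh_relE_le {K : Type u} [Field K] [NumberField K] (W : WeierstrassCurve K) :
    ∃ C : ℝ, 0 ≤ C ∧ ∀ (e : ℕ) (c : Bool) (i : Fin 4), (i = 1 ∨ i = 3) →
      nh (relE W e c i) ≤ C * 4 ^ e := by
  obtain ⟨C, hC, h⟩ := nh_relI_le (fun _ => W)
  exact ⟨C, hC, fun e c i hi => h e (fun _ => c) i 0 hi⟩

/-- `NV_relG_le`, `gs_log_cst` (A4). -/
theorem nh_relG_le (K : Type u) [Field K] [NumberField K] :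
    ∃ C : ℝ, 0 ≤ C ∧ ∀ (e : ℕ) (i : Fin 4), (i = 1 ∨ i = 3) → nh (relG K e i) ≤ C * 4 ^ e := by
  refine ⟨totalWeight K * Real.log 2, mul_nonneg (Nat.cast_nonneg _) (Real.log_nonneg (by norm_num)), ?_⟩
  intro e i hi
  have hne := relG_ne_zero (K := K) e i hi
  have h1 : nh (relG K e i) ≤ gs (fun v : AbsoluteValue K ℝ => Real.log (cst v 2)) :=
    gs_le (FS_log_NV hne) (FS_log_cst 2) fun v _ =>
      Real.log_le_log (NV_pos v hne) (NV_relG_le e v i)
  have h2 : gs (fun v : AbsoluteValue K ℝ => Real.log (cst v 2)) ≤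
      totalWeight K * Real.log (2 : ℕ) := gs_log_cst (by norm_num)
  have h3 : (0 : ℝ) ≤ totalWeight K * Real.log 2 :=
    mul_nonneg (Nat.cast_nonneg _) (Real.log_nonneg (by norm_num))
  refine h1.trans (h2.trans ?_)
  rw [Nat.cast_ofNat]
  exact le_mul_of_one_le_right h3 (one_le_pow₀ (by norm_num))

end Pool.Agent.Lib.MP_17a322_nt.VS
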