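import Pool.Agent.Lib.MP_17a322_nt.VS.J1a
import Pool.Agent.Lib.MP_17a322_nt.VJ.J1b

/-!
The eliminants `QS` and `NS`: variables, degrees, heights, vanishing.

As VJ/J1b; the second relation is `relG`, of degree `1` in `X (i, 1)`, `X (2, 1)` and
`4 ^ e` in `X (0, 1)`, so all degrees are at most those of VJ.
-/

universe u

namespace Pool.Agent.Lib.MP_17a322_nt.VS

open MvPolynomial Height
open Pool.Agent.Lib.MP_17a322_nt.RO Pool.Agent.Lib.MP_17a322_nt.VJ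

section

variable {K : Type*} [Field K] (W : WeierstrassCurve K) (e : ℕ) (c : Bool)
  (g g' : MvPolynomial (Fin 2) K) (D : ℕ)

theorem VSJ1b_M0_vars : (El (3, 0) (relE W e c 3) (gX 3 g')).vars ⊆ {(0, 0), (2, 0), (3, 1)} :=
  J1b_vars _ (relE_vars W e c 3) (gX_vars 3 g') (by decide)

theorem VSJ1b_M1_vars : (El (3, 1) (relG K e 3) (El (3, 0) (relE W e c 3) (gX 3 g'))).vars ⊆
    {(0, 0), (0, 1), (2, 0), (2, 1)} :=
  J1b_vars _ (relG_vars e 3) (VSJ1b_M0_vars W e c g') (by decide)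

theorem QS_vars : (QS W e c g g').vars ⊆ {(0, 0), (2, 0), (2, 1)} :=
  J1b_vars _ (gX_vars 0 g) (VSJ1b_M1_vars W e c g') (by decide)

theorem VSJ1b_relE_i (i : Fin 4) (hi : i = 1 ∨ i = 3) :
    (relE W e c i).degreeOf (i, 0) ≤ 2 := (relE_degreeOf_i W e c i hi).1.le

theorem VSJ1b_relE_2 (i : Fin 4) (hi : i = 1 ∨ i = 3) :
    (relE W e c i).degreeOf (2, 0) ≤ 2 := (relE_degreeOf_two W e c i hi).1.le

theorem VSJ1b_relG_i (i : Fin 4) (hi : i = 1 ∨ i = 3) :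
    (relG K e i).degreeOf (i, 1) ≤ 1 := (relG_degreeOf_i e i hi).1.le

theorem VSJ1b_relG_2 (i : Fin 4) (hi : i = 1 ∨ i = 3) :
    (relG K e i).degreeOf (2, 1) ≤ 1 := (relG_degreeOf_two e i hi).1.le

theorem VSJ1b_M0_deg (hg' : ∀ t, g'.degreeOf t ≤ D) :
    (El (3, 0) (relE W e c 3) (gX 3 g')).degreeOf (0, 0) ≤ 2 * D * 4 ^ e ∧
    (El (3, 0) (relE W e c 3) (gX 3 g')).degreeOf (2, 0) ≤ 2 * D ∧
    (El (3, 0) (relE W e c 3) (gX 3 g')).degreeOf (3, 1) ≤ 2 * D := by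
  refine ⟨?_, ?_, ?_⟩
  · exact J1b_deg _ (J1b_gX hg' 3 0) (relE_degreeOf_zero_le W e c 3 (Or.inr rfl))
      (VSJ1b_relE_i W e c 3 (Or.inr rfl)) (J1b_deg0 (gX_vars 3 g') (by decide)) (by ring)
  · exact J1b_deg _ (J1b_gX hg' 3 0) (VSJ1b_relE_2 W e c 3 (Or.inr rfl))
      (VSJ1b_relE_i W e c 3 (Or.inr rfl)) (J1b_deg0 (gX_vars 3 g') (by decide)) (by ring)
  · exact J1b_deg _ (J1b_gX hg' 3 0) (J1b_deg0 (relE_vars W e c 3) (by decide))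
      (VSJ1b_relE_i W e c 3 (Or.inr rfl)) (J1b_gX hg' 3 1) (by ring)

theorem VSJ1b_M1_deg (hg' : ∀ t, g'.degreeOf t ≤ D) :
    (El (3, 1) (relG K e 3) (El (3, 0) (relE W e c 3) (gX 3 g'))).degreeOf (0, 0) ≤
      2 * D * 4 ^ e ∧
    (El (3, 1) (relG K e 3) (El (3, 0) (relE W e c 3) (gX 3 g'))).degreeOf (0, 1) ≤
      2 * D * 4 ^ e ∧
    ∀ t, (El (3, 1) (relG K e 3) (El (3, 0) (relE W e c 3) (gX 3 g'))).degreeOf (2, t) ≤
      2 * D := by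
  obtain ⟨h1, h2, h3⟩ := VSJ1b_M0_deg W e c g' D hg'
  refine ⟨?_, ?_, ?_⟩
  · exact J1b_deg _ h3 (J1b_deg0 (relG_vars e 3) (by decide))
      (VSJ1b_relG_i e 3 (Or.inr rfl)) h1 (by ring)
  · exact J1b_deg _ h3 (relG_degreeOf_zero_le e 3 (Or.inr rfl))
      (VSJ1b_relG_i e 3 (Or.inr rfl)) (J1b_deg0 (VSJ1b_M0_vars W e c g') (by decide)) (by ring)
  · intro t
    fin_cases t
    · exact J1b_deg _ h3 (J1b_deg0 (relG_vars e 3) (by decide))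
        (VSJ1b_relG_i e 3 (Or.inr rfl)) h2 (by ring)
    · exact J1b_deg _ h3 (VSJ1b_relG_2 e 3 (Or.inr rfl))
        (VSJ1b_relG_i e 3 (Or.inr rfl)) (J1b_deg0 (VSJ1b_M0_vars W e c g') (by decide))
        (by ring)

/-- Degrees of the successive eliminants: `QS`: `4 D^2 4^e` in `(0,0)`, `2 D^2` in `(2,t)`. -/
theorem QS_degreeOf (hg : ∀ t, g.degreeOf t ≤ D) (hg' : ∀ t, g'.degreeOf t ≤ D) :
    (QS W e c g g').degreeOf (0, 0) ≤ 8 * D ^ 2 * 4 ^ e ∧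
      ∀ t, (QS W e c g g').degreeOf (2, t) ≤ 4 * D ^ 2 := by
  obtain ⟨h1, h2, h3⟩ := VSJ1b_M1_deg W e c g' D hg'
  refine ⟨?_, fun t => ?_⟩
  · have h4 : (QS W e c g g').degreeOf (0, 0) ≤ 4 * D ^ 2 * 4 ^ e :=
      J1b_deg _ h2 (J1b_gX hg 0 0) (J1b_gX hg 0 1) h1 (by ring)
    refine h4.trans ?_
    have h5 : 8 * D ^ 2 * 4 ^ e = 2 * (4 * D ^ 2 * 4 ^ e) := by ring
    omega
  · have h4 : (QS W e c g g').degreeOf (2, t) ≤ 2 * D ^ 2 := by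
      refine J1b_deg _ h2 (J1b_deg0 (gX_vars 0 g) ?_) (J1b_gX hg 0 1) (h3 t) (by ring)
      fin_cases t <;> decide
    omega

/-- `QS` vanishes on the relation. -/
theorem aeval_QS_eq_zero (hg : g.degreeOf 1 ≠ 0) {A : Type*} [CommRing A] [Algebra K A]
    (s : Fin 4 × Fin 2 → A) (h1 : aeval (fun t => s (0, t)) g = 0)
    (h2 : S3 W (mu W e ![s (0, 0), 1]) ![s (3, 0), 1] (vc c (s (2, 0))) = 0)
    (h2' : s (3, 1) = s (0, 1) ^ 4 ^ e * s (2, 1))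
    (h3 : aeval (fun t => s (3, t)) g' = 0) : aeval s (QS W e c g g') = 0 := by
  have hne0 : (relE W e c 3).degreeOf (3, 0) ≠ 0 := by
    rw [(relE_degreeOf_i W e c 3 (Or.inr rfl)).1]
    norm_num
  have hne1 : (relG K e 3).degreeOf (3, 1) ≠ 0 := by
    rw [(relG_degreeOf_i e 3 (Or.inr rfl)).1]
    norm_num
  have hr0 : aeval s (relE W e c 3) = 0 := by
    rw [aeval_relE]
    exact h2
  have hr1 : aeval s (relG K e 3) = 0 := by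
    rw [aeval_relG, h2', sub_self]
  have e1 := aeval_dvd_El (3, 0) (relE W e c 3) (gX 3 g') (Or.inl hne0) s hr0
  rw [aeval_gX, h3] at e1
  have e2 := aeval_dvd_El (3, 1) (relG K e 3) (El (3, 0) (relE W e c 3) (gX 3 g'))
    (Or.inl hne1) s hr1
  rw [zero_dvd_iff.1 e1] at e2
  have e3 := aeval_dvd_El (0, 1) (gX 0 g)
    (El (3, 1) (relG K e 3) (El (3, 0) (relE W e c 3) (gX 3 g')))
    (Or.inl (by rw [gX_degreeOf]; exact hg)) s (by rw [aeval_gX]; exact h1)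
  rw [zero_dvd_iff.1 e2] at e3
  exact zero_dvd_iff.1 e3

section NSlem

variable {F : MvPolynomial (Fin 4 × Fin 2) K} (hF : F.vars ⊆ {(0, 0), (2, 0), (2, 1)})

include hF

theorem VSJ1b_N0_vars : (El (2, 0) (relE W e c 1) F).vars ⊆ {(0, 0), (1, 0), (2, 1)} :=
  J1b_vars _ (relE_vars W e c 1) hF (by decide)

theorem VSJ1b_N1_vars : (El (2, 1) (relG K e 1) (El (2, 0) (relE W e c 1) F)).vars ⊆
    {(0, 0), (0, 1), (1, 0), (1, 1)} :=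
  J1b_vars _ (relG_vars e 1) (VSJ1b_N0_vars W e c hF) (by decide)

theorem VSJ1b_N2_vars : (El (0, 1) (gX 0 g) (El (2, 1) (relG K e 1)
    (El (2, 0) (relE W e c 1) F))).vars ⊆ {(0, 0), (1, 0), (1, 1)} :=
  J1b_vars _ (gX_vars 0 g) (VSJ1b_N1_vars W e c hF) (by decide)

theorem VSJ1b_N0_deg {s b : ℕ} (hs : F.degreeOf (0, 0) ≤ s) (hb : ∀ t, F.degreeOf (2, t) ≤ b) :
    (El (2, 0) (relE W e c 1) F).degreeOf (0, 0) ≤ 2 * b * 4 ^ e + 2 * s ∧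
    (El (2, 0) (relE W e c 1) F).degreeOf (1, 0) ≤ 2 * b ∧
    (El (2, 0) (relE W e c 1) F).degreeOf (2, 1) ≤ 2 * b := by
  refine ⟨?_, ?_, ?_⟩
  · exact J1b_deg _ (hb 0) (relE_degreeOf_zero_le W e c 1 (Or.inl rfl))
      (VSJ1b_relE_2 W e c 1 (Or.inl rfl)) hs (by ring)
  · exact J1b_deg _ (hb 0) (VSJ1b_relE_i W e c 1 (Or.inl rfl))
      (VSJ1b_relE_2 W e c 1 (Or.inl rfl)) (J1b_deg0 hF (by decide)) (by ring)
  · exact J1b_deg _ (hb 0) (J1b_deg0 (relE_vars W e c 1) (by decide))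
      (VSJ1b_relE_2 W e c 1 (Or.inl rfl)) (hb 1) (by ring)

theorem VSJ1b_N1_deg {s b : ℕ} (hs : F.degreeOf (0, 0) ≤ s) (hb : ∀ t, F.degreeOf (2, t) ≤ b) :
    (El (2, 1) (relG K e 1) (El (2, 0) (relE W e c 1) F)).degreeOf (0, 0) ≤
      2 * b * 4 ^ e + 2 * s ∧
    (El (2, 1) (relG K e 1) (El (2, 0) (relE W e c 1) F)).degreeOf (0, 1) ≤ 2 * b * 4 ^ e ∧
    ∀ t, (El (2, 1) (relG K e 1) (El (2, 0) (relE W e c 1) F)).degreeOf (1, t) ≤ 2 * b := by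
  obtain ⟨h1, h2, h3⟩ := VSJ1b_N0_deg W e c hF hs hb
  refine ⟨?_, ?_, ?_⟩
  · exact J1b_deg _ h3 (J1b_deg0 (relG_vars e 1) (by decide))
      (VSJ1b_relG_2 e 1 (Or.inl rfl)) h1 (by ring)
  · exact J1b_deg _ h3 (relG_degreeOf_zero_le e 1 (Or.inl rfl))
      (VSJ1b_relG_2 e 1 (Or.inl rfl)) (J1b_deg0 (VSJ1b_N0_vars W e c hF) (by decide)) (by ring)
  · intro t
    fin_cases t
    · exact J1b_deg _ h3 (J1b_deg0 (relG_vars e 1) (by decide))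
        (VSJ1b_relG_2 e 1 (Or.inl rfl)) h2 (by ring)
    · exact J1b_deg _ h3 (VSJ1b_relG_i e 1 (Or.inl rfl))
        (VSJ1b_relG_2 e 1 (Or.inl rfl)) (J1b_deg0 (VSJ1b_N0_vars W e c hF) (by decide))
        (by ring)

variable {g} in
theorem VSJ1b_N2_deg (hg : ∀ t, g.degreeOf t ≤ D) {s b : ℕ} (hs : F.degreeOf (0, 0) ≤ s)
    (hb : ∀ t, F.degreeOf (2, t) ≤ b) :
    (El (0, 1) (gX 0 g) (El (2, 1) (relG K e 1) (El (2, 0) (relE W e c 1) F))).degreeOf (0, 0) ≤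
      4 * b * D * 4 ^ e + 2 * D * s ∧
    ∀ t, (El (0, 1) (gX 0 g) (El (2, 1) (relG K e 1)
      (El (2, 0) (relE W e c 1) F))).degreeOf (1, t) ≤ 2 * b * D := by
  obtain ⟨h1, h2, h3⟩ := VSJ1b_N1_deg W e c hF hs hb
  refine ⟨?_, fun t => ?_⟩
  · exact J1b_deg _ h2 (J1b_gX hg 0 0) (J1b_gX hg 0 1) h1 (by ring)
  · refine J1b_deg _ h2 (J1b_deg0 (gX_vars 0 g) ?_) (J1b_gX hg 0 1) (h3 t) (by ring)
    fin_cases t <;> decide

end NSlem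

theorem NS_vars (F : MvPolynomial (Fin 4 × Fin 2) K)
    (hF : F.vars ⊆ {(0, 0), (2, 0), (2, 1)}) : (NS W e c g g' F).vars ⊆ {(0, 0), (1, 0)} :=
  J1b_vars _ (gX_vars 1 g') (VSJ1b_N2_vars W e c g hF) (by decide)

/-- Degrees of the successive eliminants: `NS`: `4 b D^2 4^e + 2 D^2 s` in `(0,0)`, `4 b D^2` in `(1,0)`. -/
theorem NS_degreeOf (hg : ∀ t, g.degreeOf t ≤ D) (hg' : ∀ t, g'.degreeOf t ≤ D)
    (F : MvPolynomial (Fin 4 × Fin 2) K) (hF : F.vars ⊆ {(0, 0), (2, 0), (2, 1)}) (s b : ℕ)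
    (hs : F.degreeOf (0, 0) ≤ s) (hb : ∀ t, F.degreeOf (2, t) ≤ b) :
    (NS W e c g g' F).degreeOf (0, 0) ≤ 8 * b * D ^ 2 * 4 ^ e + 4 * D ^ 2 * s ∧
      (NS W e c g g' F).degreeOf (1, 0) ≤ 8 * b * D ^ 2 := by
  obtain ⟨h1, h2⟩ := VSJ1b_N2_deg W e c D hF hg hs hb
  refine ⟨?_, ?_⟩
  · have h4 : (NS W e c g g' F).degreeOf (0, 0) ≤ 4 * b * D ^ 2 * 4 ^ e + 2 * D ^ 2 * s :=
      J1b_deg _ (h2 1) (J1b_deg0 (gX_vars 1 g') (by decide)) (J1b_gX hg' 1 1) h1 (by ring)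
    refine h4.trans ?_
    have h5 : 8 * b * D ^ 2 * 4 ^ e + 4 * D ^ 2 * s =
        2 * (4 * b * D ^ 2 * 4 ^ e + 2 * D ^ 2 * s) := by ring
    omega
  · have h4 : (NS W e c g g' F).degreeOf (1, 0) ≤ 4 * b * D ^ 2 :=
      J1b_deg _ (h2 1) (J1b_gX hg' 1 0) (J1b_gX hg' 1 1) (h2 0) (by ring)
    refine h4.trans ?_
    have h5 : 8 * b * D ^ 2 = 2 * (4 * b * D ^ 2) := by ring
    omega

/-- `aeval_dvd_El` four times. -/
theorem aeval_dvd_NS (hg : g.degreeOf 1 ≠ 0) (hg' : g'.degreeOf 1 ≠ 0)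
    (F : MvPolynomial (Fin 4 × Fin 2) K) {A : Type*} [CommRing A] [Algebra K A]
    (s : Fin 4 × Fin 2 → A) (h1 : aeval (fun t => s (0, t)) g = 0)
    (h2 : S3 W (mu W e ![s (0, 0), 1]) ![s (1, 0), 1] (vc c (s (2, 0))) = 0)
    (h2' : s (1, 1) = s (0, 1) ^ 4 ^ e * s (2, 1))
    (h3 : aeval (fun t => s (1, t)) g' = 0) : aeval s F ∣ aeval s (NS W e c g g' F) := by
  have hne0 : (relE W e c 1).degreeOf (2, 0) ≠ 0 := by
    rw [(relE_degreeOf_two W e c 1 (Or.inl rfl)).1]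
    norm_num
  have hne1 : (relG K e 1).degreeOf (2, 1) ≠ 0 := by
    rw [(relG_degreeOf_two e 1 (Or.inl rfl)).1]
    norm_num
  have hr0 : aeval s (relE W e c 1) = 0 := by
    rw [aeval_relE]
    exact h2
  have hr1 : aeval s (relG K e 1) = 0 := by
    rw [aeval_relG, h2', sub_self]
  refine (aeval_dvd_El (2, 0) (relE W e c 1) F (Or.inl hne0) s hr0).trans ?_
  refine (aeval_dvd_El (2, 1) (relG K e 1) _ (Or.inl hne1) s hr1).trans ?_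
  refine (aeval_dvd_El (0, 1) (gX 0 g) _ (Or.inl (by rw [gX_degreeOf]; exact hg)) s
    (by rw [aeval_gX]; exact h1)).trans ?_
  exact aeval_dvd_El (1, 1) (gX 1 g') _ (Or.inl (by rw [gX_degreeOf]; exact hg')) s
    (by rw [aeval_gX]; exact h3)

end

/-- Height of `QS`: `nh_El_le` three times:
`nh QS ≤ 2 D 4^e nh g + D (2 D C₁ 4^e + (D C₀ 4^e + 2 nh g'))`. -/
theorem nh_QS_le {K : Type u} [Field K] [NumberField K] (W : WeierstrassCurve K) (D : ℕ) :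
    ∃ C : ℝ, 0 ≤ C ∧ ∀ (e : ℕ) (c : Bool) (g g' : MvPolynomial (Fin 2) K), g ≠ 0 →
      g' ≠ 0 → (∀ t, 1 ≤ g.degreeOf t ∧ g.degreeOf t ≤ D) →
      (∀ t, 1 ≤ g'.degreeOf t ∧ g'.degreeOf t ≤ D) → QS W e c g g' ≠ 0 →
      nh (QS W e c g g') ≤ C * (4 ^ e * (1 + nh g) + nh g') := by
  obtain ⟨C₀, hC₀, hrel⟩ := nh_relE_le W
  obtain ⟨C₁, hC₁, hrelG⟩ := nh_relG_le K
  refine ⟨2 * D + 2 * D ^ 2 * C₁ + D ^ 2 * C₀ + 2 * D, by positivity, ?_⟩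
  intro e c g g' hg hg' hd hd' hQ
  have hM1 : El (3, 1) (relG K e 3) (El (3, 0) (relE W e c 3) (gX 3 g')) ≠ 0 := by
    intro h0
    apply hQ
    rw [QS, h0]
    refine El_zero_right _ _ ?_
    rw [gX_degreeOf]
    have := (hd 1).1
    omega
  have hM0 : El (3, 0) (relE W e c 3) (gX 3 g') ≠ 0 := by
    intro h0
    apply hM1
    rw [h0]
    refine El_zero_right _ _ ?_
    rw [(relG_degreeOf_i e 3 (Or.inr rfl)).1]
    norm_num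
  have hD : ∀ t, g.degreeOf t ≤ D := fun t => (hd t).2
  have hD' : ∀ t, g'.degreeOf t ≤ D := fun t => (hd' t).2
  have n0 := J1b_nh (3, 0) hM0 (relE_ne_zero W e c 3 (Or.inr rfl)) (gX_ne_zero 3 hg')
    (J1b_gX hD' 3 0) (hrel e c 3 (Or.inr rfl)) (VSJ1b_relE_i W e c 3 (Or.inr rfl))
    (J1b_nh_gX 3 g').le
  have n1 := J1b_nh (3, 1) hM1 (relG_ne_zero e 3 (Or.inr rfl)) hM0
    (VSJ1b_M0_deg W e c g' D hD').2.2 (hrelG e 3 (Or.inr rfl))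
    (VSJ1b_relG_i e 3 (Or.inr rfl)) n0
  have n2 := J1b_nh (0, 1) hQ (gX_ne_zero 0 hg) hM1 (VSJ1b_M1_deg W e c g' D hD').2.1
    (J1b_nh_gX 0 g).le (J1b_gX hD 0 1) n1
  refine n2.trans ?_
  have hg0 := nh_nonneg hg
  have hg0' := nh_nonneg hg'
  have hE : (0 : ℝ) ≤ 4 ^ e := by positivity
  have hD0 : (0 : ℝ) ≤ D := Nat.cast_nonneg _
  push_cast
  have k1 : 0 ≤ (4 : ℝ) * D * 4 ^ e := by positivity
  have k2 : 0 ≤ (2 * (D : ℝ) ^ 2 * C₁ + D ^ 2 * C₀ + 2 * D) * (4 ^ e * nh g) := by positivity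
  have k3 : 0 ≤ (2 * (D : ℝ) ^ 2 * C₁ + D ^ 2 * C₀ + 2 * D) * nh g' := by positivity
  nlinarith [k1, k2, k3]

/-- Height of `NS`: `nh_El_le` four times:
`nh NS ≤ 2 b D nh g' + D (2 b 4^e nh g + D (2 b C₁ 4^e + (b C₀ 4^e + 2 nh F)))`. -/
theorem nh_NS_le {K : Type u} [Field K] [NumberField K] (W : WeierstrassCurve K)
    (D b : ℕ) :
    ∃ C : ℝ, 0 ≤ C ∧ ∀ (e : ℕ) (c : Bool) (g g' : MvPolynomial (Fin 2) K)
      (F : MvPolynomial (Fin 4 × Fin 2) K), g ≠ 0 → g' ≠ 0 →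
      (∀ t, 1 ≤ g.degreeOf t ∧ g.degreeOf t ≤ D) →
      (∀ t, 1 ≤ g'.degreeOf t ∧ g'.degreeOf t ≤ D) →
      F.vars ⊆ {(0, 0), (2, 0), (2, 1)} → (∀ t, F.degreeOf (2, t) ≤ b) → F ≠ 0 →
      NS W e c g g' F ≠ 0 →
      nh (NS W e c g g' F) ≤ C * (4 ^ e * (1 + nh g) + nh g' + nh F) := by
  obtain ⟨C₀, hC₀, hrel⟩ := nh_relE_le W
  obtain ⟨C₁, hC₁, hrelG⟩ := nh_relG_le K
  refine ⟨2 * b * D + 2 * b * D + 2 * b * D ^ 2 * C₁ + b * D ^ 2 * C₀ + 2 * D ^ 2,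
    by positivity, ?_⟩
  intro e c g g' F hg hg' hd hd' hF hb hF0 hN
  have hN2 : El (0, 1) (gX 0 g) (El (2, 1) (relG K e 1) (El (2, 0) (relE W e c 1) F)) ≠ 0 := by
    intro h0
    apply hN
    rw [NS, h0]
    refine El_zero_right _ _ ?_
    rw [gX_degreeOf]
    have := (hd' 1).1
    omega
  have hN1 : El (2, 1) (relG K e 1) (El (2, 0) (relE W e c 1) F) ≠ 0 := by
    intro h0
    apply hN2
    rw [h0]
    refine El_zero_right _ _ ?_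
    rw [gX_degreeOf]
    have := (hd 1).1
    omega
  have hN0 : El (2, 0) (relE W e c 1) F ≠ 0 := by
    intro h0
    apply hN1
    rw [h0]
    refine El_zero_right _ _ ?_
    rw [(relG_degreeOf_two e 1 (Or.inl rfl)).1]
    norm_num
  have hD : ∀ t, g.degreeOf t ≤ D := fun t => (hd t).2
  have hD' : ∀ t, g'.degreeOf t ≤ D := fun t => (hd' t).2
  have n0 := J1b_nh (2, 0) hN0 (relE_ne_zero W e c 1 (Or.inl rfl)) hF0 (hb 0)
    (hrel e c 1 (Or.inl rfl)) (VSJ1b_relE_2 W e c 1 (Or.inl rfl)) le_rfl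
  have n1 := J1b_nh (2, 1) hN1 (relG_ne_zero e 1 (Or.inl rfl)) hN0
    (VSJ1b_N0_deg W e c hF le_rfl hb).2.2 (hrelG e 1 (Or.inl rfl))
    (VSJ1b_relG_2 e 1 (Or.inl rfl)) n0
  have n2 := J1b_nh (0, 1) hN2 (gX_ne_zero 0 hg) hN1 (VSJ1b_N1_deg W e c hF le_rfl hb).2.1
    (J1b_nh_gX 0 g).le (J1b_gX hD 0 1) n1
  have n3 := J1b_nh (1, 1) hN (gX_ne_zero 1 hg') hN2
    ((VSJ1b_N2_deg W e c D hF hD le_rfl hb).2 1) (J1b_nh_gX 1 g').le (J1b_gX hD' 1 1) n2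
  refine n3.trans ?_
  have hg0 := nh_nonneg hg
  have hg0' := nh_nonneg hg'
  have hF1 := nh_nonneg hF0
  push_cast
  have k1 : 0 ≤ (2 * b * D + 2 * b * D + 2 * D ^ 2 : ℝ) * 4 ^ e := by positivity
  have k2 : 0 ≤ (2 * b * D + 2 * b * D ^ 2 * C₁ + b * D ^ 2 * C₀ + 2 * D ^ 2 : ℝ) * nh g' := by
    positivity
  have k3 : 0 ≤ (2 * b * D + 2 * b * D + 2 * b * D ^ 2 * C₁ + b * D ^ 2 * C₀ : ℝ) * nh F := by
    positivity
  have k4 : 0 ≤ (2 * b * D + 2 * b * D ^ 2 * C₁ + b * D ^ 2 * C₀ + 2 * D ^ 2 : ℝ) *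
      (4 ^ e * nh g) := by positivity
  nlinarith [k1, k2, k3, k4]

end Pool.Agent.Lib.MP_17a322_nt.VS
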