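import Pool.Agent.Lib.MP_17a322_nt.VS.J1b
import Pool.Agent.Lib.MP_17a322_nt.VJ.J1c

/-!
`QS` is not zero.
-/

universe u

namespace Pool.Agent.Lib.MP_17a322_nt.VS

open MvPolynomial Height
open Pool.Agent.Lib.MP_17a322_nt.RO Pool.Agent.Lib.MP_17a322_nt.VJ

/-- A zero of `g` with nonzero second coordinate. -/
theorem VSJ1c_zero {K : Type u} [Field K] (g : MvPolynomial (Fin 2) K)
    (hg : g.degreeOf 0 ≠ 0) : ∃ a : Fin 2 → AlgebraicClosure K, aeval a g = 0 ∧ a 1 ≠ 0 := by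
  classical
  have hg0 : g ≠ 0 := by
    rintro rfl
    exact hg (degreeOf_zero 0)
  have hp : lcv 0 g * X 1 ≠ 0 := mul_ne_zero (J1c_lcv_ne_zero 0 hg0) (X_ne_zero _)
  obtain ⟨s₀, hs₀⟩ := J1c_exists_ne (F := AlgebraicClosure K) hp
  rw [map_mul, aeval_X] at hs₀
  obtain ⟨r, hr⟩ := exists_root 0 g hg s₀ (left_ne_zero_of_mul hs₀)
  refine ⟨Function.update s₀ 0 r, hr, ?_⟩
  rw [Function.update_of_ne (by decide)]
  exact right_ne_zero_of_mul hs₀

/-- The value of the second eliminant at a suitable point. -/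
theorem VSJ1c_point {K : Type u} [Field K] [CharZero K] (W : WeierstrassCurve K)
    [W.IsElliptic] (e : ℕ) (c : Bool) (g g' : MvPolynomial (Fin 2) K)
    (hg : g.degreeOf 0 ≠ 0) (hg' : g' ≠ 0) :
    ∃ s : Fin 4 × Fin 2 → AlgebraicClosure K, aeval s (gX 0 g) = 0 ∧
      aeval s (El (3, 1) (relG K e 3) (El (3, 0) (relE W e c 3) (gX 3 g'))) ≠ 0 := by
  classical
  obtain ⟨a, ha, ha1⟩ := VSJ1c_zero g hg
  have hu : ∃ P : (W.map (algebraMap K (AlgebraicClosure K))).toAffine.Point,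
      P ≠ 0 ∧ P.xRep = ![a 0, 1] := exists_affine_point _ _
  obtain ⟨u, _, hu⟩ := hu
  have hZ0 := J1c_finite (F := AlgebraicClosure K) (J1c_lcv_ne_zero 1 hg')
    (degreeOf_coeff_vw_self 1 g' _)
  obtain ⟨q₀, q0a, q0b, q0c, q0d, q0e, q0f⟩ := exists_point_avoid _ (2 ^ e • u) _ hZ0
  have hZ1 := (J1c_finite' g' _ q0e).union (J1c_finite' g' _ q0f)
  obtain ⟨z, -, hz⟩ := (Set.infinite_univ (α := AlgebraicClosure K)).exists_notMem_finite hZ1
  obtain ⟨ξ₀, κ₀, hκ₀, hξ₀⟩ := J1c_chart c _ q0b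
  rw [← xRep_eq q0a] at hξ₀
  have ha2 : a 1 ^ 4 ^ e ≠ 0 := pow_ne_zero _ ha1
  let s : Fin 4 × Fin 2 → AlgebraicClosure K := fun p =>
    if p.1 = 0 then a p.2 else if p = (2, 0) then ξ₀ else (a 1 ^ 4 ^ e)⁻¹ * z
  have s00 : s (0, 0) = a 0 := if_pos rfl
  have s01 : s (0, 1) = a 1 := if_pos rfl
  have s20 : s (2, 0) = ξ₀ := by simp [s]
  have s21 : s (2, 1) = (a 1 ^ 4 ^ e)⁻¹ * z := by simp [s]
  refine ⟨s, ?_, fun h => ?_⟩
  · rw [aeval_gX]
    have h1 : (fun t => s (0, t)) = a := by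
      funext t
      fin_cases t
      · exact s00
      · exact s01
    rw [h1]
    exact ha
  have hne0 : (relE W e c 3).degreeOf (3, 0) ≠ 0 := by
    rw [(relE_degreeOf_i W e c 3 (Or.inr rfl)).1]
    norm_num
  have hne1 : (relG K e 3).degreeOf (3, 1) ≠ 0 := by
    rw [(relG_degreeOf_i e 3 (Or.inr rfl)).1]
    norm_num
  obtain ⟨r₁, h1, h2⟩ := exists_root_of_El (3, 1) (relG K e 3) _ hne1 s (by
    rw [(relG_degreeOf_i e 3 (Or.inr rfl)).2, map_one]
    exact one_ne_zero) h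
  set s' := Function.update s (3, 1) r₁ with hs'
  have s'0 : ∀ t, s' (0, t) = s (0, t) := fun t => Function.update_of_ne (by simp) _ _
  have s'2 : ∀ t, s' (2, t) = s (2, t) := fun t => Function.update_of_ne (by simp) _ _
  have s'3 : s' (3, 1) = r₁ := Function.update_self _ _ _
  obtain ⟨r₀, h3, h4⟩ := exists_root_of_El (3, 0) (relE W e c 3) _ hne0 s' (by
    unfold relE
    rw [J1c_lcv, s'0, s'2, s00, s20]
    exact J1c_lead W _ rfl e c u q₀ (a 0) ξ₀ κ₀ hu hκ₀ hξ₀ q0c q0d) h2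
  set s'' := Function.update s' (3, 0) r₀ with hs''
  have s''0 : s'' (0, 0) = a 0 := by
    rw [hs'', Function.update_of_ne (by simp), s'0, s00]
  have s''2 : s'' (2, 0) = ξ₀ := by
    rw [hs'', Function.update_of_ne (by simp), s'2, s20]
  have s''3 : s'' (3, 0) = r₀ := Function.update_self _ _ _
  have s''4 : s'' (3, 1) = r₁ := by
    rw [hs'', Function.update_of_ne (by simp), s'3]
  have k1 : r₁ = z := by
    rw [aeval_relG, s'3, s'0, s'2, s01, s21, mul_inv_cancel_left₀ ha2] at h1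
    exact sub_eq_zero.1 h1
  rw [aeval_relE, s''0, s''2, s''3] at h3
  have k0 := J1c_root W _ rfl e c u q₀ (a 0) ξ₀ κ₀ r₀ hu hκ₀ hξ₀ q0c q0d h3
  have h5 : aeval ![r₀, z] g' = 0 := by
    rw [aeval_gX] at h4
    have h6 : (fun t => s'' (3, t)) = ![r₀, z] := by
      funext t
      fin_cases t
      · exact s''3
      · exact s''4.trans k1
    rwa [h6] at h4
  apply hz
  rcases k0 with k | k
  · left
    rw [k] at h5
    exact h5
  · right
    rw [k] at h5
    exact h5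

/-- `QS ≠ 0`. Let `F` be the algebraic closure of `K`, `M₀ = El (3, 0) (relE W e c 3) (gX 3 g')`,
`M₁ = El (3, 1) (relG K e 3) M₀`. By `El_ne_zero_of_irreducible` it is enough to find a point `s` over
`F` with `aeval s (gX 0 g) = 0`, `aeval s M₁ ≠ 0` (`VSJ1c_point`). -/
theorem QS_ne_zero {K : Type u} [Field K] [CharZero K] (W : WeierstrassCurve K)
    [W.IsElliptic] (e : ℕ) (c : Bool) (g g' : MvPolynomial (Fin 2) K) (D : ℕ)
    (hg : GC g D) (hg' : GC g' D) : QS W e c g g' ≠ 0 := by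
  have hg1 : g.degreeOf 1 ≠ 0 := by
    have := (hg.2 1).1
    omega
  have hg2 : g.degreeOf 0 ≠ 0 := by
    have := (hg.2 0).1
    omega
  have hg'0 : g' ≠ 0 := by
    rintro rfl
    have := (hg'.2 1).1
    rw [degreeOf_zero] at this
    omega
  obtain ⟨s, h1, h2⟩ := VSJ1c_point W e c g g' hg2 hg'0
  intro h0
  set M₁ := El (3, 1) (relG K e 3) (El (3, 0) (relE W e c 3) (gX 3 g')) with hM
  have hφ : Function.Injective (algebraMap K (AlgebraicClosure K)) :=
    (algebraMap K (AlgebraicClosure K)).injective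
  have hQ : El (0, 1) (MvPolynomial.map (algebraMap K (AlgebraicClosure K)) (gX 0 g))
      (MvPolynomial.map (algebraMap K (AlgebraicClosure K)) M₁) = 0 := by
    rw [El_map _ hφ]
    have h3 : El (0, 1) (gX 0 g) M₁ = 0 := h0
    rw [h3, map_zero]
  refine El_ne_zero_of_irreducible (0, 1) _ _ ?_ ?_ ?_ hQ
  · rw [gX, map_rename]
    exact J1c_irreducible _ (J1a_inj 0) hg.1
  · rw [← natDegree_vw, vw_map, Polynomial.natDegree_map_eq_of_injective (map_injective _ hφ),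
      natDegree_vw, gX_degreeOf]
    exact hg1
  · intro hdvd
    apply h2
    have h3 := map_dvd (eval s) hdvd
    rw [eval_map, eval_map, ← aeval_def, ← aeval_def, h1] at h3
    exact zero_dvd_iff.1 h3

end Pool.Agent.Lib.MP_17a322_nt.VS
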