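import Pool.Agent.Lib.MP_17a322_nt.VJ.K2

/-!
# K2: pigeonhole for sequences with quadratic and linear coordinates
-/

namespace Pool.Agent.Lib.MP_17a322_nt.VS

open Filter Topology
open Pool.Agent.Lib.MP_17a322_nt.VJ

/-- The signed square root. -/
noncomputable def ssq (x : ℝ) : ℝ := if 0 ≤ x then √x else -√(-x)

theorem ssq_sq (x : ℝ) : ssq x ^ 2 = |x| := by
  unfold ssq
  split_ifs with h
  · rw [Real.sq_sqrt h, abs_of_nonneg h]
  · rw [neg_sq, Real.sq_sqrt (by linarith), abs_of_neg (not_le.1 h)]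

theorem ssq_mul_abs (x : ℝ) : ssq x * |ssq x| = x := by
  unfold ssq
  split_ifs with h
  · rw [abs_of_nonneg (Real.sqrt_nonneg _), Real.mul_self_sqrt h]
  · rw [abs_neg, abs_of_nonneg (Real.sqrt_nonneg _), neg_mul, Real.mul_self_sqrt (by linarith),
      neg_neg]

theorem VSK2_abs (a b : ℝ) : abs (a * |a| - b * |b|) ≤ |a - b| * (|a| + |b|) := by
  have e : a * |a| - b * |b| = (a - b) * |a| + b * (|a| - |b|) := by ring
  rw [e]
  refine (abs_add_le _ _).trans ?_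
  rw [abs_mul, abs_mul, abs_abs]
  have h1 : abs (|a| - |b|) ≤ |a - b| := abs_abs_sub_abs_le a b
  have h2 := mul_le_mul_of_nonneg_left h1 (abs_nonneg b)
  nlinarith [abs_nonneg a, abs_nonneg b]

theorem VSK2_close (x x' t : ℝ) (ht : 0 ≤ t) :
    |x' - t ^ 2 * x| ≤ |ssq x' - t * ssq x| * (|ssq x'| + t * |ssq x|) := by
  have h1 := VSK2_abs (ssq x') (t * ssq x)
  rw [ssq_mul_abs, abs_mul t, abs_of_nonneg ht] at h1
  have e : t * ssq x * (t * |ssq x|) = t ^ 2 * (ssq x * |ssq x|) := by ring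
  rw [e, ssq_mul_abs] at h1
  exact h1

theorem K2S_seq {r : ℕ} {ι : Type*} [Fintype ι] (f : ℕ → EuclideanSpace ℝ (Fin r))
    (a : ℕ → ι → ℝ) (hN : Tendsto (fun n => ‖f n‖ ^ 2 + ∑ i, |a n i|) atTop atTop)
    {η : ℝ} (hη : 0 < η) (R : ℕ) (H₀ : ℝ) :
    ∃ φ j : ℕ → ℕ, StrictMono φ ∧ StrictMono j ∧ j 0 = 0 ∧
      (∀ i, H₀ ≤ ‖f (φ i)‖ ^ 2 + ∑ k, |a (φ i) k|) ∧
      (∀ i i', i < i' → R * 4 ^ j i ≤ 4 ^ j i') ∧
      ∀ i i', i ≤ i' →
        ‖f (φ i') - (2 : ℝ) ^ (j i' - j i) • f (φ i)‖ ^ 2 ≤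
          η * (‖f (φ i')‖ ^ 2 + ∑ k, |a (φ i') k|) ∧
        ∑ k, |a (φ i') k - 4 ^ (j i' - j i) * a (φ i) k| ≤
          η * (‖f (φ i')‖ ^ 2 + ∑ k, |a (φ i') k|) ∧
        |(‖f (φ i')‖ ^ 2 + ∑ k, |a (φ i') k|) -
            4 ^ (j i' - j i) * (‖f (φ i)‖ ^ 2 + ∑ k, |a (φ i) k|)| ≤
          η * (‖f (φ i')‖ ^ 2 + ∑ k, |a (φ i') k|) := by
  classical
  obtain ⟨s, hs0, hs1, hsη⟩ : ∃ s : ℝ, 0 < s ∧ s ≤ 1 ∧ 4 * s ≤ η :=
    ⟨min 1 (η / 4), by positivity, min_le_left _ _, by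
      have := min_le_right 1 (η / 4)
      linarith⟩
  -- the combined vectors
  obtain ⟨E⟩ : Nonempty ((Fin r ⊕ ι) ≃ Fin (Fintype.card (Fin r ⊕ ι))) := ⟨Fintype.equivFin _⟩
  obtain ⟨T, hT⟩ : ∃ T : (Fin r ⊕ ι → ℝ) → EuclideanSpace ℝ (Fin (Fintype.card (Fin r ⊕ ι))),
      ∀ w, T w = WithLp.toLp 2 fun k => w (E.symm k) := ⟨_, fun _ => rfl⟩
  have hTn : ∀ (x : EuclideanSpace ℝ (Fin r)) (y : ι → ℝ),
      ‖T (Sum.elim x y)‖ ^ 2 = ‖x‖ ^ 2 + ∑ k, y k ^ 2 := by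
    intro x y
    rw [hT, EuclideanSpace.norm_sq_eq, EuclideanSpace.norm_sq_eq]
    simp only [Real.norm_eq_abs, sq_abs]
    rw [Equiv.sum_comp E.symm (fun k => (Sum.elim (fun i => x i) y k) ^ 2), Fintype.sum_sum_type]
    rfl
  obtain ⟨v, hv⟩ : ∃ v : ℕ → EuclideanSpace ℝ (Fin (Fintype.card (Fin r ⊕ ι))),
      ∀ n, v n = T (Sum.elim (f n) (fun k => ssq (a n k))) := ⟨_, fun _ => rfl⟩
  have hvn : ∀ n, ‖v n‖ ^ 2 = ‖f n‖ ^ 2 + ∑ k, |a n k| := by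
    intro n
    rw [hv, hTn]
    simp only [ssq_sq]
  have hvlim : Tendsto (fun n => ‖v n‖) atTop atTop := by
    have h1 : (fun n => ‖v n‖) = fun n => √(‖f n‖ ^ 2 + ∑ k, |a n k|) := by
      funext n
      rw [← hvn, Real.sqrt_sq (norm_nonneg _)]
    rw [h1]
    exact Real.tendsto_sqrt_atTop.comp hN
  have hdiff : ∀ (n n' : ℕ) (t : ℝ), ‖v n' - t • v n‖ ^ 2 =
      ‖f n' - t • f n‖ ^ 2 + ∑ k, (ssq (a n' k) - t * ssq (a n k)) ^ 2 := by
    intro n n' t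
    have h1 : v n' - t • v n = T (Sum.elim (f n' - t • f n)
        (fun k => ssq (a n' k) - t * ssq (a n k))) := by
      rw [hv, hv, hT, hT, hT, ← WithLp.toLp_smul, ← WithLp.toLp_sub]
      congr 1
      funext k
      rcases hk : E.symm k with i | i
      · simp [hk]
      · simp [hk]
    rw [h1, hTn]
    rfl
  obtain ⟨φ, j, h1, h2, h3, h4, h5, h6⟩ :=
    K2_seq v hvlim (η := s ^ 2) (by positivity) R (max 1 H₀)
  refine ⟨φ, j, h1, h2, h3, ?_, h5, ?_⟩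
  · intro i
    have h7 := h4 i
    have h8 := (le_max_left 1 H₀).trans h7
    have h9 := (le_max_right 1 H₀).trans h7
    rw [← hvn]
    nlinarith
  · intro i i' h
    obtain ⟨h7, h8⟩ := h6 i i' h
    rw [hdiff, hvn] at h7
    rw [hvn, hvn] at h8
    obtain ⟨N', hN'⟩ : ∃ N' : ℝ, N' = ‖f (φ i')‖ ^ 2 + ∑ k, |a (φ i') k| := ⟨_, rfl⟩
    obtain ⟨N, hNd⟩ : ∃ N : ℝ, N = ‖f (φ i)‖ ^ 2 + ∑ k, |a (φ i) k| := ⟨_, rfl⟩
    obtain ⟨t, ht⟩ : ∃ t : ℝ, t = (2 : ℝ) ^ (j i' - j i) := ⟨_, rfl⟩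
    have ht4 : (4 : ℝ) ^ (j i' - j i) = t ^ 2 := by
      rw [ht, ← pow_mul, mul_comm, pow_mul]
      norm_num
    have ht0 : 0 ≤ t := by rw [ht]; positivity
    rw [← hN'] at h7 h8
    rw [← hNd] at h8
    rw [← ht] at h7
    rw [ht4] at h8
    rw [← hN', ← hNd, ht4, ← ht]
    have hN'0 : 0 ≤ N' := by
      rw [hN']
      exact add_nonneg (by positivity) (Finset.sum_nonneg fun _ _ => abs_nonneg _)
    have hsN : s ^ 2 * N' ≤ η * N' := by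
      apply mul_le_mul_of_nonneg_right _ hN'0
      nlinarith
    have hS1 : 0 ≤ ∑ k, (ssq (a (φ i') k) - t * ssq (a (φ i) k)) ^ 2 :=
      Finset.sum_nonneg fun _ _ => by positivity
    have hS2 : 0 ≤ ‖f (φ i') - t • f (φ i)‖ ^ 2 := by positivity
    refine ⟨by linarith, ?_, h8.trans hsN⟩
    -- the linear coordinates
    have hle : ∀ k, 2 * s * |a (φ i') k - t ^ 2 * a (φ i) k| ≤
        (ssq (a (φ i') k) - t * ssq (a (φ i) k)) ^ 2 +
          s ^ 2 * (2 * |a (φ i') k| + 2 * (t ^ 2 * |a (φ i) k|)) := by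
      intro k
      have h9 := VSK2_close (a (φ i) k) (a (φ i') k) t ht0
      obtain ⟨p, hp⟩ : ∃ p : ℝ, p = |ssq (a (φ i') k) - t * ssq (a (φ i) k)| := ⟨_, rfl⟩
      obtain ⟨y', hy'⟩ : ∃ y' : ℝ, y' = |ssq (a (φ i') k)| := ⟨_, rfl⟩
      obtain ⟨y, hy⟩ : ∃ y : ℝ, y = t * |ssq (a (φ i) k)| := ⟨_, rfl⟩
      have e1 : (ssq (a (φ i') k) - t * ssq (a (φ i) k)) ^ 2 = p ^ 2 := by rw [hp, sq_abs]
      have e2 : |a (φ i') k| = y' ^ 2 := by rw [hy', sq_abs, ssq_sq]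
      have e3 : t ^ 2 * |a (φ i) k| = y ^ 2 := by rw [hy, mul_pow, sq_abs, ssq_sq]
      rw [← hp, ← hy', ← hy] at h9
      rw [e1, e2, e3]
      have h10 := mul_le_mul_of_nonneg_left h9 (show 0 ≤ 2 * s by positivity)
      have h11 : 2 * s * (p * (y' + y)) ≤ p ^ 2 + s ^ 2 * (y' + y) ^ 2 := by
        nlinarith [sq_nonneg (p - s * (y' + y))]
      have h12 : (y' + y) ^ 2 ≤ 2 * y' ^ 2 + 2 * y ^ 2 := by nlinarith [sq_nonneg (y' - y)]
      have h13 := mul_le_mul_of_nonneg_left h12 (show 0 ≤ s ^ 2 by positivity)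
      linarith
    have hsum := Finset.sum_le_sum fun k (_ : k ∈ Finset.univ) => hle k
    rw [← Finset.mul_sum, Finset.sum_add_distrib, ← Finset.mul_sum, Finset.sum_add_distrib,
      ← Finset.mul_sum, ← Finset.mul_sum, ← Finset.mul_sum] at hsum
    have hA' : ∑ k, |a (φ i') k| ≤ N' := by
      rw [hN']
      have : 0 ≤ ‖f (φ i')‖ ^ 2 := by positivity
      linarith
    have hA : ∑ k, |a (φ i) k| ≤ N := by
      rw [hNd]
      have : 0 ≤ ‖f (φ i)‖ ^ 2 := by positivity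
      linarith
    have h14 : t ^ 2 * N ≤ 2 * N' := by
      have h15 := (abs_le.1 h8).1
      have h16 : s ^ 2 * N' ≤ 1 * N' := by
        apply mul_le_mul_of_nonneg_right _ hN'0
        nlinarith
      linarith
    have h17 : t ^ 2 * ∑ k, |a (φ i) k| ≤ 2 * N' :=
      (mul_le_mul_of_nonneg_left hA (by positivity)).trans h14
    have h18 : ∑ k, (ssq (a (φ i') k) - t * ssq (a (φ i) k)) ^ 2 ≤ s ^ 2 * N' := by linarith
    have h19 : 2 * s * ∑ k, |a (φ i') k - t ^ 2 * a (φ i) k| ≤ 7 * s ^ 2 * N' := by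
      have h20 := mul_le_mul_of_nonneg_left
        (show 2 * ∑ k, |a (φ i') k| + 2 * (t ^ 2 * ∑ k, |a (φ i) k|) ≤ 6 * N' by linarith)
        (show 0 ≤ s ^ 2 by positivity)
      linarith
    have h21 : ∑ k, |a (φ i') k - t ^ 2 * a (φ i) k| ≤ 4 * s * N' := by
      have h22 : s * ∑ k, |a (φ i') k - t ^ 2 * a (φ i) k| ≤ s * (4 * s * N') := by
        have h23 : 0 ≤ s ^ 2 * N' := by positivity
        nlinarith
      exact le_of_mul_le_mul_left h22 hs0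
    exact h21.trans (mul_le_mul_of_nonneg_right hsη hN'0)

end Pool.Agent.Lib.MP_17a322_nt.VS
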