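import Pool.Agent.Lib.MP_17a322_nt.VS.G6a

/-!
# K3a: the height of `u` in terms of the absolute values `|log |u|_v|`
-/

universe u

namespace Pool.Agent.Lib.MP_17a322_nt.VS

open MvPolynomial Height
open Pool.Agent.Lib.MP_17a322_nt.RO Pool.Agent.Lib.MP_17a322_nt.VJ

section

variable {K : Type*} [Field K] [AdmissibleAbsValues K]

theorem FS_abs_log {u : K} (hu : u ≠ 0) :
    FS (fun v : AbsoluteValue K ℝ => |Real.log (v u)|) := by
  refine (FS_log_abv hu).subset fun v hv => ?_
  intro h
  apply hv
  have h' : Real.log (v.val u) = 0 := h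
  change |Real.log (v.val u)| = 0
  rw [h', abs_zero]

/-- The height is half of the sum of the absolute values of the logarithms. -/
theorem two_logHeight₁ {u : K} (hu : u ≠ 0) :
    2 * logHeight₁ u = gs (fun v : AbsoluteValue K ℝ => |Real.log (v u)|) := by
  have h1 : ∀ v : AbsoluteValue K ℝ,
      |Real.log (v u)| = 2 * Real.log (max 1 (v u)) - Real.log (v u) := by
    intro v
    have hv : 0 < v u := v.pos hu
    rcases le_total 1 (v u) with h | h
    · rw [max_eq_right h, abs_of_nonneg (Real.log_nonneg h)]
      ring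
    · rw [max_eq_left h, Real.log_one, abs_of_nonpos (Real.log_nonpos hv.le h)]
      ring
  have h2 : (fun v : AbsoluteValue K ℝ => |Real.log (v u)|) =
      fun v => 2 * Real.log (max 1 (v u)) - Real.log (v u) := funext h1
  rw [h2, gs_sub (FS_const_mul 2 (FS_log_max u)) (FS_log_abv hu), gs_const_mul, gs_log_max,
    gs_log_abv hu, sub_zero]

theorem cS_nonneg (S : Set (AbsoluteValue K ℝ)) (u : K) : 0 ≤ cS S u := by
  unfold cS
  refine finsum_nonneg fun v => ?_
  split_ifs
  · exact le_rfl
  · exact abs_nonneg _

theorem VSK3_fin (S : Set (AbsoluteValue K ℝ)) {u : K} (hu : u ≠ 0) :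
    Function.HasFiniteSupport (fun v : AdmissibleAbsValues.nonarchAbsVal (K := K) =>
      open Classical in if v.val ∈ S then 0 else |Real.log (v.val u)|) := by
  classical
  refine (FS_abs_log hu).subset fun v hv => ?_
  intro h
  apply hv
  simp only
  split_ifs
  · rfl
  · exact h

theorem cS_div_pow_le (S : Set (AbsoluteValue K ℝ)) {u u' : K} (hu : u ≠ 0) (hu' : u' ≠ 0)
    (k : ℕ) : cS S (u' / u ^ k) ≤ cS S u' + k * cS S u := by
  classical
  unfold cS
  rw [← smul_eq_mul, smul_finsum, ← finsum_add_distrib (VSK3_fin S hu')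
    ((VSK3_fin S hu).subset fun v hv => by
      intro h
      apply hv
      simp only at h
      simp only [h, smul_zero])]
  refine finsum_le_finsum' (VSK3_fin S (div_ne_zero hu' (pow_ne_zero _ hu))) ?_ fun v => ?_
  · refine ((VSK3_fin S hu').union (VSK3_fin S hu)).subset fun v hv => ?_
    by_contra hc
    rw [Set.mem_union, not_or] at hc
    apply hv
    have h1 := Function.notMem_support.1 hc.1
    have h2 := Function.notMem_support.1 hc.2
    simp only [h1, h2, smul_zero, add_zero]
  · split_ifs
    · simp
    · rw [map_div₀, map_pow, Real.log_div (v.val.pos hu').ne' (pow_ne_zero _ (v.val.pos hu).ne'),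
        Real.log_pow, smul_eq_mul]
      refine (abs_sub _ _).trans ?_
      rw [abs_mul, Nat.abs_cast]

end

section

variable {K : Type*} [Field K] [AdmissibleAbsValues K]

/-- The nonarchimedean places of `S`. -/
noncomputable def SSf {S : Set (AbsoluteValue K ℝ)} (hS : S.Finite) :
    Finset (AdmissibleAbsValues.nonarchAbsVal (K := K)) :=
  (hS.preimage (f := Subtype.val) Subtype.val_injective.injOn).toFinset

/-- The archimedean places (without multiplicity). -/
noncomputable def AAf (K : Type*) [Field K] [AdmissibleAbsValues K] :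
    Finset (AbsoluteValue K ℝ) :=
  open Classical in (AdmissibleAbsValues.archAbsVal (K := K)).toFinset

/-- The logarithms at the archimedean places and at the places of `S`. -/
noncomputable def LS {S : Set (AbsoluteValue K ℝ)} (hS : S.Finite) (u : K) :
    AAf K ⊕ SSf hS → ℝ :=
  open Classical in
  Sum.elim (fun v => ((AdmissibleAbsValues.archAbsVal (K := K)).count v.val : ℝ) / 2 *
    Real.log (v.val u)) (fun v => 1 / 2 * Real.log (v.val.val u))

theorem sum_LS {S : Set (AbsoluteValue K ℝ)} (hS : S.Finite) {u : K} (hu : u ≠ 0) :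
    ∑ k, |LS hS u k| = logHeight₁ u - 1 / 2 * cS S u := by
  classical
  have h1 := two_logHeight₁ hu
  have h2 : (Multiset.map (fun v : AbsoluteValue K ℝ => |Real.log (v u)|)
      AdmissibleAbsValues.archAbsVal).sum =
      ∑ v ∈ AAf K, ((AdmissibleAbsValues.archAbsVal (K := K)).count v : ℝ) *
        |Real.log (v u)| := by
    rw [Finset.sum_multiset_map_count]
    unfold AAf
    refine Finset.sum_congr ?_ fun v _ => ?_
    · congr
    · rw [nsmul_eq_mul]
  have h3 : ∑ᶠ v : AdmissibleAbsValues.nonarchAbsVal (K := K), |Real.log (v.val u)| =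
      ∑ v ∈ SSf hS, |Real.log (v.val u)| + cS S u := by
    have h4 : ∀ v : AdmissibleAbsValues.nonarchAbsVal (K := K), |Real.log (v.val u)| =
        (if v.val ∈ S then |Real.log (v.val u)| else 0) +
          (if v.val ∈ S then 0 else |Real.log (v.val u)|) := by
      intro v
      split_ifs
      · rw [add_zero]
      · rw [zero_add]
    have hsub : (Function.support fun v : AdmissibleAbsValues.nonarchAbsVal (K := K) =>
        if v.val ∈ S then |Real.log (v.val u)| else 0) ⊆ (SSf hS : Set _) := by
      intro v hv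
      rw [Function.mem_support] at hv
      rw [Finset.mem_coe]
      unfold SSf
      rw [Set.Finite.mem_toFinset, Set.mem_preimage]
      by_contra hc
      rw [if_neg hc] at hv
      exact hv rfl
    rw [finsum_congr h4, finsum_add_distrib ((Finset.finite_toSet _).subset hsub)
      (VSK3_fin S hu), finsum_eq_sum_of_support_subset _ hsub]
    congr 1
    refine Finset.sum_congr rfl fun v hv => ?_
    unfold SSf at hv
    rw [Set.Finite.mem_toFinset, Set.mem_preimage] at hv
    rw [if_pos hv]
  unfold gs at h1
  rw [h2, h3] at h1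
  rw [Fintype.sum_sum_type]
  have h5 : ∑ v : AAf K, |LS hS u (Sum.inl v)| = 1 / 2 * ∑ v ∈ AAf K,
      ((AdmissibleAbsValues.archAbsVal (K := K)).count v : ℝ) * |Real.log (v u)| := by
    rw [← Finset.sum_coe_sort (AAf K), Finset.mul_sum]
    refine Finset.sum_congr rfl fun v _ => ?_
    unfold LS
    rw [Sum.elim_inl, abs_mul, abs_of_nonneg (by positivity)]
    ring
  have h6 : ∑ v : SSf hS, |LS hS u (Sum.inr v)| = 1 / 2 * ∑ v ∈ SSf hS,
      |Real.log (v.val u)| := by
    rw [← Finset.sum_coe_sort (SSf hS), Finset.mul_sum]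
    refine Finset.sum_congr rfl fun v _ => ?_
    unfold LS
    rw [Sum.elim_inr, abs_mul, abs_of_nonneg (by positivity)]
  rw [h5, h6]
  linarith

theorem LS_div_pow {S : Set (AbsoluteValue K ℝ)} (hS : S.Finite) {u u' : K} (hu : u ≠ 0)
    (hu' : u' ≠ 0) (k : ℕ) (i : AAf K ⊕ SSf hS) :
    LS hS (u' / u ^ k) i = LS hS u' i - k * LS hS u i := by
  have h : ∀ v : AbsoluteValue K ℝ, Real.log (v (u' / u ^ k)) =
      Real.log (v u') - k * Real.log (v u) := by
    intro v
    rw [map_div₀, map_pow, Real.log_div (v.pos hu').ne' (pow_ne_zero _ (v.pos hu).ne'),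
      Real.log_pow]
  unfold LS
  rcases i with v | v
  · simp only [Sum.elim_inl]
    rw [h]
    ring
  · simp only [Sum.elim_inr]
    rw [h]
    ring

end

end Pool.Agent.Lib.MP_17a322_nt.VS
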