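import Pool.Agent.Lib.MP_17a322_nt.RO.A2
import Pool.Agent.Lib.MP_17a322_nt.VJ.K1
import Pool.Agent.Lib.MP_17a322_nt.VJ.MW4
import Pool.Agent.Lib.MP_17a322_nt.VS.K2
import Pool.Agent.Lib.MP_17a322_nt.VS.K3a

/-!
# K3: the pigeonhole (11.1') for points on the product of an elliptic curve and the multiplicative group
-/

universe u

namespace Pool.Agent.Lib.MP_17a322_nt.VS

open Filter Topology Height
open Pool.Agent.Lib.MP_17a322_nt.RO Pool.Agent.Lib.MP_17a322_nt.VJ

/-- The pigeonhole (11.1'). -/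
theorem PIG_S {K : Type u} [Field K] [NumberField K] [DecidableEq K]
    (W : WeierstrassCurve K) [W.IsElliptic] {S : Set (AbsoluteValue K ℝ)} (hS : S.Finite)
    {η : ℝ} (hη : 0 < η) :
    ∃ δ : ℝ, 0 < δ ∧ ∀ (P : ℕ → W.toAffine.Point) (u : ℕ → K), (∀ n, u n ≠ 0) →
      Tendsto (fun n => HS (P n) (u n)) atTop atTop →
      (∀ n, cS S (u n) ≤ δ * HS (P n) (u n)) → ∀ (R : ℕ) (H₀ : ℝ),
      ∃ φ j : ℕ → ℕ, StrictMono φ ∧ StrictMono j ∧ j 0 = 0 ∧
        (∀ i, H₀ ≤ HS (P (φ i)) (u (φ i))) ∧ (∀ i i', i < i' → R * 4 ^ j i ≤ 4 ^ j i') ∧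
        ∀ i i', i ≤ i' →
          logHeight (P (φ i') - 2 ^ (j i' - j i) • P (φ i)).xRep ≤
            η * HS (P (φ i')) (u (φ i')) ∧
          logHeight₁ (u (φ i') / u (φ i) ^ 4 ^ (j i' - j i)) ≤
            η * HS (P (φ i')) (u (φ i')) ∧
          |HS (P (φ i')) (u (φ i')) - 4 ^ (j i' - j i) * HS (P (φ i)) (u (φ i))| ≤
            η * HS (P (φ i')) (u (φ i')) := by
  classical
  obtain ⟨δ, hδ0, hδ1, hδη⟩ : ∃ δ : ℝ, 0 < δ ∧ δ ≤ 1 ∧ 32 * δ ≤ η :=
    ⟨min 1 (η / 32), by positivity, min_le_left _ _, by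
      have := min_le_right 1 (η / 32)
      linarith⟩
  refine ⟨δ, hδ0, ?_⟩
  intro P u hu hH hcS R H₀
  -- exact quadratic function
  obtain ⟨q, C, hqC, hq0, hpar⟩ : ∃ (q : W.toAffine.Point → ℝ) (C : ℝ),
      (∀ Q, |q Q - logHeight Q.xRep| ≤ C) ∧ (∀ Q, 0 ≤ q Q) ∧
      ∀ Q Q', q (Q + Q') + q (Q - Q') = 2 * q Q + 2 * q Q' := by
    obtain ⟨C, hC⟩ := RO.parallelogram W
    exact RO.exists_quadratic (fun Q : W.toAffine.Point => logHeight Q.xRep)
      ⟨0, fun Q => logHeight_nonneg _⟩ C hC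
  have hC0 : 0 ≤ C := (abs_nonneg _).trans (hqC 0)
  have hMW : AddGroup.FG W.toAffine.Point := mordell_weil W
  obtain ⟨r, f, hf⟩ := exists_euclid q hq0 hpar
  have hqf : ∀ x, q x = ‖f x‖ ^ 2 := by
    intro x
    have := hf x 0 0
    simpa using this
  obtain ⟨d, hd⟩ : ∃ d : ℝ, d = Module.finrank ℚ K * Real.log 2 := ⟨_, rfl⟩
  have hd0 : 0 ≤ d := by
    rw [hd]
    exact mul_nonneg (Nat.cast_nonneg _) (Real.log_nonneg (by norm_num))
  obtain ⟨B, hB⟩ : ∃ B : ℝ, B = C + d := ⟨_, rfl⟩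
  have hB0 : 0 ≤ B := by rw [hB]; linarith
  obtain ⟨N, hN⟩ : ∃ N : ℕ → ℝ, ∀ n, N n = ‖f (P n)‖ ^ 2 + ∑ k, |LS hS (u n) k| :=
    ⟨_, fun _ => rfl⟩
  -- comparison of `N` and `HS`
  have hcmp : ∀ n, |N n + 1 / 2 * cS S (u n) - HS (P n) (u n)| ≤ B := by
    intro n
    rw [hN, sum_LS hS (hu n), ← hqf]
    have h1 := abs_le.1 (hqC (P n))
    have h2 := logHeight₁_one_sub (u n)
    rw [← hd] at h2
    unfold HS
    rw [abs_le, hB]
    constructor <;> linarith [h1.1, h1.2, h2.1, h2.2]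
  have hN0 : ∀ n, 0 ≤ N n := by
    intro n
    rw [hN]
    exact add_nonneg (by positivity) (Finset.sum_nonneg fun _ _ => abs_nonneg _)
  have hle1 : ∀ n, N n ≤ HS (P n) (u n) + B := by
    intro n
    have h1 := (abs_le.1 (hcmp n)).2
    have h2 := cS_nonneg S (u n)
    linarith
  have hle2 : ∀ n, HS (P n) (u n) ≤ 2 * N n + 2 * B := by
    intro n
    have h1 := (abs_le.1 (hcmp n)).1
    have h2 := hcS n
    have h3 : δ * HS (P n) (u n) ≤ 1 * HS (P n) (u n) :=
      mul_le_mul_of_nonneg_right hδ1 (HS_nonneg _ _)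
    linarith
  have hlimN : Tendsto (fun n => ‖f (P n)‖ ^ 2 + ∑ k, |LS hS (u n) k|) atTop atTop := by
    have h1 : Tendsto (fun n => 1 / 2 * HS (P n) (u n) + -B) atTop atTop :=
      tendsto_atTop_add_const_right _ _ (hH.const_mul_atTop (by norm_num))
    refine tendsto_atTop_mono (fun n => ?_) h1
    have h2 := hle2 n
    rw [← hN]
    linarith
  -- threshold
  obtain ⟨M, hMH, hM1, hMB⟩ : ∃ M : ℝ, H₀ + B ≤ M ∧ 1 ≤ M ∧ B ≤ δ / 8 * M := by
    refine ⟨max (H₀ + B) (max 1 (8 * B / δ)), le_max_left _ _,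
      (le_max_left _ _).trans (le_max_right _ _), ?_⟩
    have h1 : 8 * B / δ ≤ max (H₀ + B) (max 1 (8 * B / δ)) :=
      (le_max_right _ _).trans (le_max_right _ _)
    rw [div_le_iff₀ hδ0] at h1
    linarith
  obtain ⟨φ, j, h1, h2, h3, h4, h5, h6⟩ := K2S_seq (fun n => f (P n)) (fun n => LS hS (u n))
    hlimN hδ0 R M
  simp only [← hN] at h4 h6
  refine ⟨φ, j, h1, h2, h3, ?_, h5, ?_⟩
  · intro i
    have h7 := h4 i
    have h8 := hle1 (φ i)
    linarith
  · intro i i' hii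
    obtain ⟨h7, h8, h9⟩ := h6 i i' hii
    obtain ⟨e, he⟩ : ∃ e : ℕ, e = j i' - j i := ⟨_, rfl⟩
    obtain ⟨E, hE⟩ : ∃ E : ℝ, E = (4 : ℝ) ^ e := ⟨_, rfl⟩
    obtain ⟨n', hn'⟩ : ∃ n' : ℕ, n' = φ i' := ⟨_, rfl⟩
    obtain ⟨n, hn⟩ : ∃ n : ℕ, n = φ i := ⟨_, rfl⟩
    have hMn := h4 i
    have hMn' := h4 i'
    rw [← he, ← hn', ← hn] at h7 h8 h9 ⊢
    rw [← hn] at hMn
    rw [← hn'] at hMn'
    rw [← hE] at h8 h9 ⊢
    have hEpos : 0 < E := by rw [hE]; positivity
    have hBn' : B ≤ δ / 8 * N n' := hMB.trans (mul_le_mul_of_nonneg_left hMn' (by positivity))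
    have hBn : B ≤ δ / 8 * N n := hMB.trans (mul_le_mul_of_nonneg_left hMn (by positivity))
    have hδN' : δ / 8 * N n' ≤ 1 / 8 * N n' :=
      mul_le_mul_of_nonneg_right (by linarith) (hN0 _)
    have hδN : δ / 8 * N n ≤ 1 / 8 * N n :=
      mul_le_mul_of_nonneg_right (by linarith) (hN0 _)
    -- `E * N n ≤ 2 * N n'`
    have hEN : E * N n ≤ 2 * N n' := by
      have h10 := (abs_le.1 h9).1
      have h11 : δ * N n' ≤ 1 * N n' := mul_le_mul_of_nonneg_right hδ1 (hN0 _)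
      linarith
    have hEδN : E * (δ * N n) ≤ 2 * (δ * N n') := by
      have := mul_le_mul_of_nonneg_left hEN hδ0.le
      linarith
    have hNH : N n' ≤ 2 * HS (P n') (u n') := by
      have := hle1 n'
      linarith
    have hHN' : HS (P n') (u n') ≤ 3 * N n' := by
      have := hle2 n'
      linarith
    have hHN : HS (P n) (u n) ≤ 3 * N n := by
      have := hle2 n
      linarith
    have hδNH : 16 * (δ * N n') ≤ η * HS (P n') (u n') := by
      have h10 : δ * N n' ≤ δ * (2 * HS (P n') (u n')) := mul_le_mul_of_nonneg_left hNH hδ0.le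
      have h11 : 32 * δ * HS (P n') (u n') ≤ η * HS (P n') (u n') :=
        mul_le_mul_of_nonneg_right hδη (HS_nonneg _ _)
      linarith
    have hδN'0 : 0 ≤ δ * N n' := mul_nonneg hδ0.le (hN0 _)
    -- the counting functions
    have hc' : cS S (u n') ≤ 3 * (δ * N n') := by
      have h10 := hcS n'
      have h11 := mul_le_mul_of_nonneg_left hHN' hδ0.le
      linarith
    have hc : E * cS S (u n) ≤ 6 * (δ * N n') := by
      have h10 : cS S (u n) ≤ 3 * (δ * N n) := by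
        have h10 := hcS n
        have h11 := mul_le_mul_of_nonneg_left hHN hδ0.le
        linarith
      have h11 := mul_le_mul_of_nonneg_left h10 hEpos.le
      linarith
    have hEB : E * B ≤ δ * N n' := by
      have h10 := mul_le_mul_of_nonneg_left hBn hEpos.le
      linarith
    refine ⟨?_, ?_, ?_⟩
    · -- the elliptic coordinate
      have h10 := hf (P n') (P n) ((2 ^ e : ℕ) : ℤ)
      rw [natCast_zsmul] at h10
      have h11 : ((((2 ^ e : ℕ) : ℤ)) : ℝ) = (2 : ℝ) ^ e := by push_cast; rfl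
      rw [h11] at h10
      have h12 := (abs_le.1 (hqC (P n' - 2 ^ e • P n))).1
      rw [h10] at h12
      have h13 : C ≤ B := by rw [hB]; linarith
      linarith
    · -- the multiplicative coordinate
      have hw : u n' / u n ^ 4 ^ e ≠ 0 := div_ne_zero (hu _) (pow_ne_zero _ (hu _))
      have h10 := sum_LS hS hw
      have h11 : ∑ k, |LS hS (u n' / u n ^ 4 ^ e) k| =
          ∑ k, |LS hS (u n') k - E * LS hS (u n) k| := by
        refine Finset.sum_congr rfl fun k _ => ?_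
        rw [LS_div_pow hS (hu n) (hu n')]
        push_cast
        rw [hE]
      have h12 := cS_div_pow_le S (hu n) (hu n') (4 ^ e)
      have h13 : (((4 ^ e : ℕ)) : ℝ) = E := by
        push_cast
        exact hE.symm
      rw [h13] at h12
      rw [h11] at h10
      linarith
    · -- the heights
      have h10 := abs_le.1 (hcmp n')
      have h11 := abs_le.1 (hcmp n)
      have h12 := abs_le.1 h9
      have h13 := mul_le_mul_of_nonneg_left h11.1 hEpos.le
      have h14 := mul_le_mul_of_nonneg_left h11.2 hEpos.le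
      have h15 := cS_nonneg S (u n')
      have h16 := mul_nonneg hEpos.le (cS_nonneg S (u n))
      rw [abs_le]
      constructor <;> linarith [h10.1, h10.2, h12.1, h12.2]

end Pool.Agent.Lib.MP_17a322_nt.VS
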