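import Pool.Agent.Lib.MP_17a322_nt.VS.K3
import Pool.Agent.Lib.MP_17a322_nt.VS.G14
import Pool.Agent.Lib.MP_17a322_nt.VS.J12b

/-!
# K6: Theorem T_S (section 11.2)
-/

universe u

namespace Pool.Agent.Lib.MP_17a322_nt.VS

open MvPolynomial Height Filter Topology
open Pool.Agent.Lib.MP_17a322_nt.RO Pool.Agent.Lib.MP_17a322_nt.VJ

/-- Theorem T_S (the origin, all ranks). -/
theorem T_S_proof {K : Type u} [Field K] [NumberField K] [DecidableEq K] (W : WeierstrassCurve K)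
    [W.IsElliptic] (S : Set (AbsoluteValue K ℝ)) (hS' : S.Finite) (ε : ℝ) (hε : 0 < ε) :
    ∃ (δ C : ℝ), 0 < δ ∧
      ∀ (P : W.toAffine.Point) (u : K), P ≠ 0 → u ≠ 0 → u ≠ 1 →
        cS S u ≤ δ * HS P u → hS P u ≤ ε * HS P u + C := by
  obtain ⟨m, D, R₀, C₀, η, hm, hC₀, hη, hst0⟩ := stage0_proof W ε hε
  obtain ⟨η', C₁, R₁, hη', hC₁, hst2⟩ := stageII_proof W D ε hε
  obtain ⟨η₀, hη₀, hη₀1, hη₀η, hη₀η'⟩ : ∃ η₀ : ℝ, 0 < η₀ ∧ η₀ ≤ 1 ∧ η₀ ≤ η ∧ η₀ ≤ η' :=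
    ⟨min 1 (min η η'), lt_min one_pos (lt_min hη hη'), min_le_left _ _,
      (min_le_right _ _).trans (min_le_left _ _), (min_le_right _ _).trans (min_le_right _ _)⟩
  obtain ⟨δ, hδ, hPIG⟩ := PIG_S W hS' hη₀
  by_contra hcon
  push Not at hcon
  have hcon' : ∀ n : ℕ, ∃ (P : W.toAffine.Point) (u : K), P ≠ 0 ∧ u ≠ 0 ∧ u ≠ 1 ∧
      cS S u ≤ δ * HS P u ∧ ε * HS P u + n < hS P u := fun n => hcon δ n hδ
  choose P u hP0 hu0 hu1 hcS hPh using hcon'
  -- the heights tend to infinity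
  have hSH : ∀ n, hS (P n) (u n) ≤ HS (P n) (u n) := by
    intro n
    have h1 := hS_nonneg (P n) (u n) (hP0 n)
    have h2 := two_hS_le (P n) (u n) (hP0 n)
    linarith
  have hHge : ∀ n : ℕ, (n : ℝ) ≤ HS (P n) (u n) := by
    intro n
    have h1 := hPh n
    have h2 := hSH n
    have h4 : 0 ≤ ε * HS (P n) (u n) := mul_nonneg hε.le (HS_nonneg _ _)
    linarith
  have hH : Tendsto (fun n => HS (P n) (u n)) atTop atTop :=
    tendsto_atTop_mono hHge tendsto_natCast_atTop_atTop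
  -- the sparse sequence
  obtain ⟨H₀, h1H, hC0H, hC1H, hCCH⟩ : ∃ H₀ : ℝ, 1 ≤ H₀ ∧ C₀ ≤ H₀ ∧ C₁ ≤ H₀ ∧
      C₁ * (2 * C₀) ≤ H₀ := by
    refine ⟨max 1 (max C₀ (max C₁ (C₁ * (2 * C₀)))), le_max_left _ _, ?_, ?_, ?_⟩
    · exact (le_max_left _ _).trans (le_max_right _ _)
    · exact (le_max_left _ _).trans ((le_max_right _ _).trans (le_max_right _ _))
    · exact (le_max_right _ _).trans ((le_max_right _ _).trans (le_max_right _ _))
  obtain ⟨φ, j, -, hj, hj0, hH₀, hR, hpig⟩ := hPIG P u hu0 hH hcS (max R₀ R₁) H₀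
  have hHpos : ∀ i, 0 < HS (P (φ i)) (u (φ i)) := fun i => by linarith [hH₀ i]
  have hOge : ∀ n, ε * HS (P n) (u n) ≤ hS (P n) (u n) := by
    intro n
    have := hPh n
    have h2 : (0 : ℝ) ≤ (n : ℝ) := Nat.cast_nonneg _
    linarith
  -- a curve through one of the points of each block
  have hblock : ∀ s : ℕ, ∃ (i : ℕ) (g : MvPolynomial (Fin 2) K), s ≤ i ∧ i < s + m ∧ GC g D ∧
      eval ![(P (φ i)).xRep 0, u (φ i)] g = 0 ∧ nh g ≤ C₀ * 4 ^ (j i - j s) := by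
    intro s
    have hjs : ∀ i : ℕ, j s ≤ j (s + i) := fun i => hj.monotone (Nat.le_add_right _ _)
    obtain ⟨i, g, hg, hg0, hgh⟩ := hst0 (fun i => P (φ (s + i))) (fun i => u (φ (s + i)))
      (fun i => j (s + i) - j s) ⟨0, hm⟩
      (fun i i' h => by
        have h1 : j (s + i) < j (s + i') := hj (Nat.add_lt_add_left h s)
        have h2 := hjs i
        simp only
        omega)
      (by simp)
      (fun i i' h => by
        have h1 := hR (s + i) (s + i') (Nat.add_lt_add_left h s)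
        have h2 : 4 ^ j (s + (i : ℕ)) = 4 ^ (j (s + i) - j s) * 4 ^ j s := by
          rw [← pow_add, Nat.sub_add_cancel (hjs i)]
        have h3 : 4 ^ j (s + (i' : ℕ)) = 4 ^ (j (s + i') - j s) * 4 ^ j s := by
          rw [← pow_add, Nat.sub_add_cancel (hjs i')]
        rw [h2, h3, ← mul_assoc] at h1
        exact le_trans (Nat.mul_le_mul_right _ (le_max_left R₀ R₁))
          (Nat.le_of_mul_le_mul_right h1 (by positivity)))
      (fun i => hP0 _) (fun i => hu0 _) (fun i => hu1 _) (fun i => hOge _)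
      (hC0H.trans (hH₀ _))
      (fun i => ((hpig (s + 0) (s + i) (by omega)).1).trans
        (mul_le_mul_of_nonneg_right hη₀η (hHpos _).le))
      (fun i => ((hpig (s + 0) (s + i) (by omega)).2.1).trans
        (mul_le_mul_of_nonneg_right hη₀η (hHpos _).le))
      (fun i => ((hpig (s + 0) (s + i) (by omega)).2.2).trans
        (mul_le_mul_of_nonneg_right hη₀η (hHpos _).le))
    exact ⟨s + i, g, Nat.le_add_right _ _, Nat.add_lt_add_left i.isLt s, hg, hg0, hgh⟩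
  -- sizes
  have hsize : ∀ (s i : ℕ) (g : MvPolynomial (Fin 2) K), s ≤ i → nh g ≤ C₀ * 4 ^ (j i - j s) →
      C₁ * nh g ≤ HS (P (φ i)) (u (φ i)) := by
    intro s i g hsi h
    have h1 := (hpig s i hsi).2.2
    have h2 := (abs_le.mp h1).1
    have h3 : (4 : ℝ) ^ (j i - j s) * HS (P (φ s)) (u (φ s)) ≤ 2 * HS (P (φ i)) (u (φ i)) := by
      have : η₀ * HS (P (φ i)) (u (φ i)) ≤ 1 * HS (P (φ i)) (u (φ i)) :=
        mul_le_mul_of_nonneg_right hη₀1 (hHpos _).le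
      linarith
    have h4 : (4 : ℝ) ^ (j i - j s) * H₀ ≤ 2 * HS (P (φ i)) (u (φ i)) :=
      (mul_le_mul_of_nonneg_left (hH₀ s) (by positivity)).trans h3
    have hp : (0 : ℝ) < 4 ^ (j i - j s) := by positivity
    have h5 : C₁ * nh g ≤ C₁ * (C₀ * 4 ^ (j i - j s)) := mul_le_mul_of_nonneg_left h hC₁.le
    have h6 : C₁ * (2 * C₀) * 4 ^ (j i - j s) ≤ H₀ * 4 ^ (j i - j s) :=
      mul_le_mul_of_nonneg_right hCCH hp.le
    linarith
  obtain ⟨a, ga, -, ham, hga, hga0, hgah⟩ := hblock 0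
  obtain ⟨b, gb, hbm, -, hgb, hgb0, hgbh⟩ := hblock m
  have hab : a < b := by omega
  refine hst2 ga gb (P (φ a)) (P (φ b)) (u (φ a)) (u (φ b)) (j b - j a) hga hgb (hP0 _) (hP0 _)
    (hu0 _) (hu0 _) hga0 hgb0 ((hOge _).trans (hS_le _ _ (hP0 _)).1)
    ((hOge _).trans (hS_le _ _ (hP0 _)).1)
    (hsize 0 a ga (Nat.zero_le _) hgah) (hsize m b gb hbm hgbh) (hC1H.trans (hH₀ _)) ?_
    ((hpig a b hab.le).1.trans (mul_le_mul_of_nonneg_right hη₀η' (hHpos _).le))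
    ((hpig a b hab.le).2.1.trans (mul_le_mul_of_nonneg_right hη₀η' (hHpos _).le))
    ((hpig a b hab.le).2.2.trans (mul_le_mul_of_nonneg_right hη₀η' (hHpos _).le))
  have h1 := hR a b hab
  have h2 : 4 ^ j b = 4 ^ (j b - j a) * 4 ^ j a := by
    rw [← pow_add, Nat.sub_add_cancel (hj hab).le]
  rw [h2] at h1
  exact (le_max_right R₀ R₁).trans (Nat.le_of_mul_le_mul_right h1 (by positivity))

end Pool.Agent.Lib.MP_17a322_nt.VS
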