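import Pool.Agent.Lib.MP_17a322_nt.VS.Defs
import Pool.Agent.Lib.MP_17a322_nt.VJ.M4a

/-!
Definitions for section 12 of VS.
-/

universe u

namespace Pool.Agent.Lib.MP_17a322_nt.VS

open MvPolynomial Height
open Pool.Agent.Lib.MP_17a322_nt.RO Pool.Agent.Lib.MP_17a322_nt.RV Pool.Agent.Lib.MP_17a322_nt.VJ

/-- The vector `w` is proportional to the vector in block `t` of a common zero of the forms `g k`. -/
def OnY {K : Type u} [Field K] {κ : Type*} (g : κ → MvPolynomial (Fin 2 × Fin 2) K) (t : Fin 2)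
    (w : Fin 2 → K) : Prop :=
  ∃ z : Fin 2 → Fin 2 → AlgebraicClosure K, (∀ b, z b ≠ 0) ∧ (∀ k, evl z (g k) = 0) ∧
    algebraMap K (AlgebraicClosure K) (w 0) * z t 1 =
      algebraMap K (AlgebraicClosure K) (w 1) * z t 0

/-- The data of the elimination. -/
structure ED {K : Type*} [Field K] {κ : Type} [Fintype κ] (D : Fin 2 → ℕ)
    (g : κ → MvPolynomial (Fin 2 × Fin 2) K) (N : ℕ) (n : Fin 2 → ℕ)
    (r : Fin 2 → MvPolynomial (Fin 2 × Fin 2) K)
    (h : Fin 2 → (Fin 2 → Fin 2) → κ → MvPolynomial (Fin 2 × Fin 2) K) : Prop where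
  le : ∀ b, D b ≤ N
  mhg : ∀ k, MH (g k) D
  ne : ∀ t, r t ≠ 0
  mhr : ∀ t, MH (r t) (fun b => if b = t then n t else 0)
  mhh : ∀ t τ k, MH (h t τ k) (fun b => (if b = t then n t + N else N) - D b)
  rel : ∀ t τ, r t * ∏ b, X (b, τ b) ^ N = ∑ k, h t τ k * g k

end Pool.Agent.Lib.MP_17a322_nt.VS
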