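import Pool.Agent.Lib.MP_17a322_nt.VS.M0

/-!
Elimination in a chart, with a polynomial whose roots in `K` are coordinates of common zeros.
-/

universe u

namespace Pool.Agent.Lib.MP_17a322_nt.VS

open MvPolynomial Height
open Pool.Agent.Lib.MP_17a322_nt.RO Pool.Agent.Lib.MP_17a322_nt.RV Pool.Agent.Lib.MP_17a322_nt.VJ

/-- Values in an algebraic field extension can be moved to the algebraic closure. -/
theorem M1a_descend {K F : Type u} [Field K] [Field F] [Algebra K F]
    {κ : Type*} (g : κ → MvPolynomial (Fin 2 × Fin 2) K) (z : Fin 2 → Fin 2 → F)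
    (hz : ∀ b, z b ≠ 0) (hg : ∀ k, evl z (g k) = 0) (halg : ∀ b i, IsAlgebraic K (z b i))
    (t : Fin 2) (w : Fin 2 → K) (hw : algebraMap K F (w 0) * z t 1 = algebraMap K F (w 1) * z t 0) :
    OnY g t w := by
  set E := IntermediateField.adjoin K (Set.range fun p : Fin 2 × Fin 2 => z p.1 p.2) with hE
  have hEalg : Algebra.IsAlgebraic K E := by
    refine IntermediateField.isAlgebraic_adjoin ?_
    rintro _ ⟨p, rfl⟩
    exact (halg p.1 p.2).isIntegral
  have hmem : ∀ b i, z b i ∈ E := fun b i => IntermediateField.subset_adjoin K _ ⟨(b, i), rfl⟩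
  let θ : E →ₐ[K] AlgebraicClosure K := IsAlgClosed.lift
  let y : Fin 2 → Fin 2 → E := fun b i => ⟨z b i, hmem b i⟩
  have hev : ∀ f : MvPolynomial (Fin 2 × Fin 2) K, (evl y f : E) = (0 : E) ↔ evl z f = 0 := by
    intro f
    have h1 : evl z f = (E.val) (evl y f) := by
      unfold evl
      exact (comp_aeval_apply (fun p : Fin 2 × Fin 2 => y p.1 p.2) E.val f).symm
    rw [h1]
    exact (map_eq_zero_iff _ E.val.injective).symm
  refine ⟨fun b i => θ (y b i), ?_, ?_, ?_⟩
  · intro b h
    apply hz b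
    funext i
    have h1 : θ (y b i) = 0 := congrFun h i
    have h2 : y b i = 0 := (map_eq_zero_iff _ θ.injective).1 h1
    exact congrArg Subtype.val h2
  · intro k
    have h1 : evl (fun b i => θ (y b i)) (g k) = θ (evl y (g k)) := by
      unfold evl
      exact (comp_aeval_apply (fun p : Fin 2 × Fin 2 => y p.1 p.2) θ (g k)).symm
    rw [h1, (hev (g k)).2 (hg k), map_zero]
  · have h1 : algebraMap K E (w 0) * y t 1 = algebraMap K E (w 1) * y t 0 := by
      apply Subtype.ext
      exact hw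
    have h2 := congrArg θ h1
    rw [map_mul, map_mul, θ.commutes, θ.commutes] at h2
    exact h2

theorem exists_contractionT {K : Type u} [Field K] {κ : Type} [Fintype κ]
    (g : κ → MvPolynomial (Fin 2 × Fin 2) K) (hdim : DimLT g 1) (t : Fin 2) (τ : Fin 2 → Fin 2) :
    ∃ q : Polynomial K, q ≠ 0 ∧
      (∀ x : K, q.eval x = 0 → OnY g t (fun i => if i = τ t then 1 else x)) ∧
      ∃ a : κ → MvPolynomial (Fin 2) K,
        Polynomial.aeval (X t : MvPolynomial (Fin 2) K) q =
          ∑ k, a k * aeval (fun p : Fin 2 × Fin 2 => if p.2 = τ p.1 then 1 else X p.1) (g k) := by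
  classical
  set G : κ → MvPolynomial (Fin 2) K :=
    fun k => aeval (fun p : Fin 2 × Fin 2 => if p.2 = τ p.1 then 1 else X p.1) (g k) with hG
  let I : Ideal (MvPolynomial (Fin 2) K) := Ideal.span (Set.range G)
  by_contra hcon
  let M₀ : Submonoid (Polynomial K) :=
    { carrier := {q | q ≠ 0 ∧ ∀ x : K, q.eval x = 0 → OnY g t (fun i => if i = τ t then 1 else x)}
      mul_mem' := fun {a b} ha hb => ⟨mul_ne_zero ha.1 hb.1, fun x hx => by
        rw [Polynomial.eval_mul, mul_eq_zero] at hx
        rcases hx with hx | hx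
        · exact ha.2 x hx
        · exact hb.2 x hx⟩
      one_mem' := ⟨one_ne_zero, fun x hx => by
        rw [Polynomial.eval_one] at hx
        exact absurd hx one_ne_zero⟩ }
  let φ₁ : Polynomial K →ₐ[K] MvPolynomial (Fin 2) K :=
    Polynomial.aeval (X t : MvPolynomial (Fin 2) K)
  let M : Submonoid (MvPolynomial (Fin 2) K) := M₀.map φ₁.toRingHom.toMonoidHom
  have hdisj : Disjoint (I : Set (MvPolynomial (Fin 2) K)) (M : Set (MvPolynomial (Fin 2) K)) := by
    rw [Set.disjoint_left]
    rintro H h1 ⟨q, hq, hqH⟩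
    have h2 : φ₁ q ∈ I := by
      have h3 : φ₁ q = H := hqH
      rw [h3]
      exact h1
    obtain ⟨a, ha⟩ := (Ideal.mem_span_range_iff_exists_fun).1 h2
    exact hcon ⟨q, hq.1, hq.2, a, ha.symm⟩
  obtain ⟨p, hp, hIp, hpM⟩ := Ideal.exists_le_prime_disjoint I M hdisj
  have := hp
  let F := AlgebraicClosure (FractionRing (MvPolynomial (Fin 2) K ⧸ p))
  have hinj : Function.Injective (algebraMap (MvPolynomial (Fin 2) K ⧸ p) F) := by
    rw [IsScalarTower.algebraMap_eq (MvPolynomial (Fin 2) K ⧸ p)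
      (FractionRing (MvPolynomial (Fin 2) K ⧸ p)) F]
    exact (algebraMap (FractionRing (MvPolynomial (Fin 2) K ⧸ p)) F).injective.comp
      (IsFractionRing.injective _ _)
  let ψ : MvPolynomial (Fin 2) K →ₐ[K] F :=
    (IsScalarTower.toAlgHom K (MvPolynomial (Fin 2) K ⧸ p) F).comp (Ideal.Quotient.mkₐ K p)
  have hψ : ∀ f, ψ f = 0 → f ∈ p := by
    intro f hf
    have h1 : algebraMap (MvPolynomial (Fin 2) K ⧸ p) F (Ideal.Quotient.mk p f) = 0 := hf
    rw [← map_zero (algebraMap (MvPolynomial (Fin 2) K ⧸ p) F)] at h1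
    exact Ideal.Quotient.eq_zero_iff_mem.1 (hinj h1)
  have hψ' : ∀ f ∈ p, ψ f = 0 := by
    intro f hf
    have h1 : ψ f = algebraMap (MvPolynomial (Fin 2) K ⧸ p) F (Ideal.Quotient.mk p f) := rfl
    rw [h1, Ideal.Quotient.eq_zero_iff_mem.2 hf, map_zero]
  have hGp : ∀ k, G k ∈ p := fun k => hIp (Ideal.subset_span ⟨k, rfl⟩)
  let z : Fin 2 → Fin 2 → F := fun b i => if i = τ b then 1 else ψ (X b)
  have hz0 : ∀ b, z b ≠ 0 := by
    intro b h
    have h1 : z b (τ b) = 0 := by rw [h]; rfl
    have h2 : z b (τ b) = 1 := if_pos rfl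
    exact one_ne_zero (h2.symm.trans h1)
  have hzg : ∀ k, evl z (g k) = 0 := by
    intro k
    have h1 : ψ (G k) = evl z (g k) := by
      unfold evl
      rw [hG]
      simp only
      rw [← AlgHom.comp_apply]
      congr 1
      apply MvPolynomial.algHom_ext
      intro q
      rw [AlgHom.comp_apply, aeval_X, aeval_X]
      simp only [z]
      split_ifs
      · exact map_one ψ
      · rfl
    rw [← h1]
    exact hψ' _ (hGp k)
  obtain ⟨s, hs1, hs⟩ := hdim F z hz0 hzg
  have hs0 : s = ∅ := Finset.card_eq_zero.1 (by omega)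
  have hx : ∀ b, IsAlgebraic K (ψ (X b)) := by
    intro b
    have h0 := hs b
    rw [hs0, Finset.coe_empty, IntermediateField.adjoin_empty] at h0
    have h1 : IsAlgebraic K (z b 0 / z b 1) := by
      have : Algebra.IsAlgebraic K (⊥ : IntermediateField K F) := inferInstance
      exact h0.restrictScalars K
    have h2 : z b (τ b) = 1 := if_pos rfl
    rcases Fin.exists_fin_two.1 ⟨τ b, rfl⟩ with h | h
    · have h3 : z b 1 = ψ (X b) := if_neg (by rw [h]; decide)
      have h4 : z b 0 = 1 := by rw [← h]; exact h2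
      rw [h3, h4, one_div] at h1
      exact IsAlgebraic.inv_iff.1 h1
    · have h3 : z b 0 = ψ (X b) := if_neg (by rw [h]; decide)
      have h4 : z b 1 = 1 := by rw [← h]; exact h2
      rw [h3, h4, div_one] at h1
      exact h1
  have hzalg : ∀ b i, IsAlgebraic K (z b i) := by
    intro b i
    by_cases hi : i = τ b
    · have h1 : z b i = 1 := if_pos hi
      rw [h1]
      exact isAlgebraic_one
    · have h1 : z b i = ψ (X b) := if_neg hi
      rw [h1]
      exact hx b
  set y : F := ψ (X t) with hy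
  have hint : IsIntegral K y := (hx t).isIntegral
  set q : Polynomial K := minpoly K y with hq
  have hq0 : q ≠ 0 := minpoly.ne_zero hint
  have hqp : φ₁ q ∈ p := by
    apply hψ
    have h1 : ψ (φ₁ q) = Polynomial.aeval y q := by
      show ψ (Polynomial.aeval (X t : MvPolynomial (Fin 2) K) q) = _
      rw [Polynomial.aeval_algHom_apply]
    rw [h1, hq, minpoly.aeval]
  have hqM : q ∉ M₀ := fun h => Set.disjoint_left.1 hpM hqp ⟨q, h, rfl⟩
  apply hqM
  refine ⟨hq0, fun x hxq => ?_⟩
  have hyx : algebraMap K F x = y := minpoly.root hint hxq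
  refine M1a_descend g z hz0 hzg hzalg t _ ?_
  have h2 : z t (τ t) = 1 := if_pos rfl
  rcases Fin.exists_fin_two.1 ⟨τ t, rfl⟩ with h | h
  · have h3 : z t 1 = y := if_neg (by rw [h]; decide)
    have h4 : z t 0 = 1 := by rw [← h]; exact h2
    rw [h3, h4, h, if_pos rfl, if_neg (by decide), map_one, hyx, one_mul, mul_one]
  · have h3 : z t 0 = y := if_neg (by rw [h]; decide)
    have h4 : z t 1 = 1 := by rw [← h]; exact h2
    rw [h3, h4, h, if_neg (by decide), if_pos rfl, map_one, hyx, one_mul, mul_one]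

end Pool.Agent.Lib.MP_17a322_nt.VS
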