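import Pool.Agent.Lib.MP_17a322_nt.VS.M0
import Pool.Agent.Lib.MP_17a322_nt.RV.H2

/-!
Homogenisation of the relation of M1a.
-/

universe u

namespace Pool.Agent.Lib.MP_17a322_nt.VS

open MvPolynomial Height
open Pool.Agent.Lib.MP_17a322_nt.RO Pool.Agent.Lib.MP_17a322_nt.RV Pool.Agent.Lib.MP_17a322_nt.VJ

theorem M1b_key : ∀ v : Fin 2, 1 - v ≠ v := by decide

theorem M1b_key' : ∀ v w : Fin 2, v ≠ w → v = 1 - w := by decide

/-- The form attached to a polynomial in one variable. -/
theorem M1b_form {K : Type u} [Field K] {κ : Type*} (g : κ → MvPolynomial (Fin 2 × Fin 2) K)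
    (t : Fin 2) (τ : Fin 2 → Fin 2) (q : Polynomial K) (hq : q ≠ 0)
    (hqY : ∀ x : K, q.eval x = 0 → OnY g t (fun i => if i = τ t then 1 else x)) :
    ∃ φ : MvPolynomial (Fin 2 × Fin 2) K, MH φ (fun b => if b = t then q.natDegree else 0) ∧
      φ ≠ 0 ∧ (∀ w : Fin 2 → K, w ≠ 0 → evl (fun _ => w) φ = 0 → OnY g t w) ∧
        aeval (fun p : Fin 2 × Fin 2 => if p.2 = τ p.1 then (1 : MvPolynomial (Fin 2) K)
          else X p.1) φ = Polynomial.aeval (X t : MvPolynomial (Fin 2) K) q := by
  classical
  set n := q.natDegree with hn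
  set φ : MvPolynomial (Fin 2 × Fin 2) K := ∑ i ∈ Finset.range (n + 1),
    C (q.coeff i) * (X (t, 1 - τ t) ^ i * X (t, τ t) ^ (n - i)) with hφ
  have hne := M1b_key (τ t)
  have hMH : MH φ (fun b => if b = t then n else 0) := by
    unfold MH
    rw [hφ]
    apply IsWeightedHomogeneous.sum
    intro i hi
    apply IsWeightedHomogeneous.C_mul
    have hi' : i ≤ n := Nat.lt_succ_iff.1 (Finset.mem_range.1 hi)
    have h1 := ((isWeightedHomogeneous_X K (bwt (Fin 2) (Fin 2)) (t, 1 - τ t)).pow i).mul
      ((isWeightedHomogeneous_X K (bwt (Fin 2) (Fin 2)) (t, τ t)).pow (n - i))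
    have h2 : i • bwt (Fin 2) (Fin 2) (t, 1 - τ t) + (n - i) • bwt (Fin 2) (Fin 2) (t, τ t) =
        fun b => if b = t then n else 0 := by
      funext b
      by_cases hb : b = t
      · subst hb
        simp [bwt]
        omega
      · simp [bwt, hb]
    rw [h2] at h1
    exact h1
  have hev : ∀ w : Fin 2 → K, evl (fun _ => w) φ =
      ∑ i ∈ Finset.range (n + 1), q.coeff i * (w (1 - τ t) ^ i * w (τ t) ^ (n - i)) := by
    intro w
    rw [hφ]
    unfold evl
    rw [map_sum]
    refine Finset.sum_congr rfl fun i _ => ?_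
    rw [map_mul, map_mul, map_pow, map_pow, aeval_X, aeval_X, aeval_C]
    rfl
  have hzero : ∀ w : Fin 2 → K, w ≠ 0 → evl (fun _ => w) φ = 0 → OnY g t w := by
    intro w hw h0
    rw [hev] at h0
    by_cases hc : w (τ t) = 0
    · exfalso
      have hc' : w (1 - τ t) ≠ 0 := by
        intro h
        apply hw
        funext i
        by_cases hi : i = τ t
        · rw [hi]
          exact hc
        · rw [M1b_key' i (τ t) hi]
          exact h
      rw [Finset.sum_eq_single n] at h0
      · rw [Nat.sub_self, pow_zero, mul_one] at h0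
        rcases mul_eq_zero.1 h0 with h1 | h1
        · exact hq (Polynomial.leadingCoeff_eq_zero.1 h1)
        · exact pow_ne_zero n hc' h1
      · intro i hi hin
        have hi' : i < n + 1 := Finset.mem_range.1 hi
        rw [hc, zero_pow (by omega), mul_zero, mul_zero]
      · intro h
        exact absurd (Finset.mem_range.2 (Nat.lt_succ_self n)) h
    · set x := w (1 - τ t) / w (τ t) with hx
      have h1 : q.eval x = 0 := by
        rw [Polynomial.eval_eq_sum_range]
        have h2 : w (τ t) ^ n * ∑ i ∈ Finset.range (n + 1), q.coeff i * x ^ i = 0 := by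
          rw [← h0, Finset.mul_sum]
          refine Finset.sum_congr rfl fun i hi => ?_
          have hi' : i ≤ n := Nat.lt_succ_iff.1 (Finset.mem_range.1 hi)
          have h3 : w (τ t) ^ n = w (τ t) ^ i * w (τ t) ^ (n - i) := by
            rw [← pow_add, Nat.add_sub_cancel' hi']
          rw [hx, div_pow, h3]
          field_simp
        exact (mul_eq_zero.1 h2).resolve_left (pow_ne_zero _ hc)
      obtain ⟨z, hz0, hzg, hzw⟩ := hqY x h1
      refine ⟨z, hz0, hzg, ?_⟩
      have h2 : ∀ i, w i = w (τ t) * (if i = τ t then 1 else x) := by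
        intro i
        by_cases hi : i = τ t
        · rw [if_pos hi, hi, mul_one]
        · rw [if_neg hi, M1b_key' i (τ t) hi, hx, mul_div_cancel₀ _ hc]
      rw [h2 0, h2 1, map_mul, map_mul, mul_assoc, hzw, ← mul_assoc]
  refine ⟨φ, hMH, ?_, hzero, ?_⟩
  · intro h0
    have h1 := hev (fun i => if i = τ t then 0 else 1)
    rw [h0] at h1
    have h2 : evl (fun _ => (fun i => if i = τ t then 0 else 1 : Fin 2 → K))
        (0 : MvPolynomial (Fin 2 × Fin 2) K) = 0 := by
      unfold evl
      exact map_zero _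
    rw [h2, Finset.sum_eq_single n] at h1
    · simp only [if_neg hne, one_pow, Nat.sub_self, pow_zero, mul_one] at h1
      exact hq (Polynomial.leadingCoeff_eq_zero.1 h1.symm)
    · intro i hi hin
      have hi' : i < n + 1 := Finset.mem_range.1 hi
      simp only [if_true]
      rw [zero_pow (by omega), mul_zero, mul_zero]
    · intro h
      exact absurd (Finset.mem_range.2 (Nat.lt_succ_self n)) h
  · rw [hφ, map_sum, Polynomial.aeval_eq_sum_range]
    refine Finset.sum_congr rfl fun i _ => ?_
    rw [map_mul, map_mul, map_pow, map_pow, aeval_X, aeval_X, aeval_C]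
    simp only
    rw [if_neg hne, if_pos trivial, one_pow, mul_one, Algebra.smul_def]

theorem exists_homogenisedT {K : Type u} [Field K] {κ : Type} [Fintype κ] (D : Fin 2 → ℕ)
    (g : κ → MvPolynomial (Fin 2 × Fin 2) K) (hg : ∀ k, MH (g k) D) (t : Fin 2)
    (τ : Fin 2 → Fin 2) (q : Polynomial K) (hq : q ≠ 0)
    (hqY : ∀ x : K, q.eval x = 0 → OnY g t (fun i => if i = τ t then 1 else x))
    (a : κ → MvPolynomial (Fin 2) K)
    (ha : Polynomial.aeval (X t : MvPolynomial (Fin 2) K) q =
      ∑ k, a k * aeval (fun p : Fin 2 × Fin 2 => if p.2 = τ p.1 then 1 else X p.1) (g k)) :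
    ∃ (n : ℕ) (φ : MvPolynomial (Fin 2 × Fin 2) K), MH φ (fun b => if b = t then n else 0) ∧
      φ ≠ 0 ∧ (∀ w : Fin 2 → K, w ≠ 0 → evl (fun _ => w) φ = 0 → OnY g t w) ∧
      ∃ N₀ : ℕ, ∀ N, N₀ ≤ N → ∃ h : κ → MvPolynomial (Fin 2 × Fin 2) K,
        (∀ k, MH (h k) (fun b => (if b = t then n + N else N) - D b)) ∧
          φ * ∏ b, X (b, τ b) ^ N = ∑ k, h k * g k := by
  classical
  obtain ⟨φ, hφ, hφ0, hφY, hφδ⟩ := M1b_form g t τ q hq hqY
  refine ⟨q.natDegree, φ, hφ, hφ0, hφY, (∑ k, ∑ b, (a k).degreeOf b) + ∑ b, D b, fun N hN => ?_⟩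
  have hDN : ∀ b, D b + ∑ k, ∑ b, (a k).degreeOf b ≤ N := by
    intro b
    have h1 : D b ≤ ∑ b, D b := Finset.single_le_sum (f := fun b => D b)
      (fun _ _ => Nat.zero_le _) (Finset.mem_univ b)
    omega
  have hak : ∀ k b, (a k).degreeOf b ≤ ∑ k, ∑ b, (a k).degreeOf b := by
    intro k b
    exact (Finset.single_le_sum (f := fun b => (a k).degreeOf b) (fun _ _ => Nat.zero_le _)
      (Finset.mem_univ b)).trans (Finset.single_le_sum (f := fun k => ∑ b, (a k).degreeOf b)
      (fun _ _ => Nat.zero_le _) (Finset.mem_univ k))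
  have hhk : ∀ k, ∃ φ : MvPolynomial (Fin 2 × Fin 2) K,
      MH φ (fun b => (if b = t then q.natDegree + N else N) - D b) ∧
        aeval (fun p : Fin 2 × Fin 2 => if p.2 = τ p.1 then (1 : MvPolynomial (Fin 2) K)
          else X p.1) φ = a k := by
    intro k
    apply H2_ho
    intro b
    have h1 := hDN b
    have h2 := hak k b
    split_ifs <;> omega
  choose h hh hh2 using hhk
  have hDE : ∀ b, D b ≤ if b = t then q.natDegree + N else N := by
    intro b
    have h1 := hDN b
    split_ifs <;> omega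
  refine ⟨h, hh, ?_⟩
  have hL : MH (φ * ∏ b, (X (b, τ b) : MvPolynomial (Fin 2 × Fin 2) K) ^ N)
      (fun b => if b = t then q.natDegree + N else N) := by
    unfold MH
    have h1 : IsWeightedHomogeneous (bwt (Fin 2) (Fin 2))
        (∏ b : Fin 2, (X (b, τ b) : MvPolynomial (Fin 2 × Fin 2) K) ^ N)
        (∑ b : Fin 2, (N • bwt (Fin 2) (Fin 2) (b, τ b))) := by
      apply IsWeightedHomogeneous.prod
      intro b _
      exact (isWeightedHomogeneous_X K (bwt (Fin 2) (Fin 2)) (b, τ b)).pow _
    have h2 : (fun b => if b = t then q.natDegree + N else N) =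
        (fun b => if b = t then q.natDegree else 0) +
          ∑ b : Fin 2, (N • bwt (Fin 2) (Fin 2) (b, τ b)) := by
      funext b
      rw [Pi.add_apply, Finset.sum_apply, Finset.sum_eq_single b]
      · simp only [bwt, Pi.smul_apply, Pi.single_eq_same, smul_eq_mul, mul_one]
        split_ifs <;> omega
      · intro c _ hc
        simp [bwt, Pi.single_eq_of_ne (Ne.symm hc)]
      · intro h
        exact absurd (Finset.mem_univ b) h
    rw [h2]
    exact IsWeightedHomogeneous.mul hφ h1
  have hR : MH (∑ k, h k * g k) (fun b => if b = t then q.natDegree + N else N) := by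
    unfold MH
    apply IsWeightedHomogeneous.sum
    intro k _
    have h2 : (fun b => if b = t then q.natDegree + N else N) =
        (fun b => (if b = t then q.natDegree + N else N) - D b) + D := by
      funext b
      rw [Pi.add_apply, Nat.sub_add_cancel (hDE b)]
    rw [h2]
    exact IsWeightedHomogeneous.mul (hh k) (hg k)
  have hsub : MH (φ * ∏ b, (X (b, τ b) : MvPolynomial (Fin 2 × Fin 2) K) ^ N - ∑ k, h k * g k)
      (fun b => if b = t then q.natDegree + N else N) := IsWeightedHomogeneous.sub hL hR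
  have hz := H2_inj τ hsub (by
    rw [map_sub, map_mul, map_prod, map_sum, hφδ, ha, sub_eq_zero]
    have e1 : ∏ b, aeval (fun p : Fin 2 × Fin 2 => if p.2 = τ p.1 then
        (1 : MvPolynomial (Fin 2) K) else X p.1)
        ((X (b, τ b) : MvPolynomial (Fin 2 × Fin 2) K) ^ N) = 1 := by
      apply Finset.prod_eq_one
      intro b _
      rw [map_pow, aeval_X]
      simp
    rw [e1, mul_one]
    apply Finset.sum_congr rfl
    intro k _
    rw [map_mul, hh2])
  exact sub_eq_zero.1 hz

end Pool.Agent.Lib.MP_17a322_nt.VS
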