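import Pool.Agent.Lib.MP_17a322_nt.VS.M1a
import Pool.Agent.Lib.MP_17a322_nt.VS.M1b

/-!
Elimination with forms whose zeros in `K` are coordinates of common zeros.
-/

universe u

namespace Pool.Agent.Lib.MP_17a322_nt.VS

open MvPolynomial Height
open Pool.Agent.Lib.MP_17a322_nt.RO Pool.Agent.Lib.MP_17a322_nt.RV Pool.Agent.Lib.MP_17a322_nt.VJ

theorem exists_elim1 {K : Type u} [Field K] {κ : Type} [Fintype κ] (D : Fin 2 → ℕ)
    (g : κ → MvPolynomial (Fin 2 × Fin 2) K) (hg : ∀ k, MH (g k) D) (hdim : DimLT g 1)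
    (t : Fin 2) :
    ∃ (M N₁ : ℕ) (r : MvPolynomial (Fin 2 × Fin 2) K), MH r (fun b => if b = t then M else 0) ∧
      r ≠ 0 ∧ (∀ w : Fin 2 → K, w ≠ 0 → evl (fun _ => w) r = 0 → OnY g t w) ∧
      ∀ N, N₁ ≤ N → ∀ τ : Fin 2 → Fin 2, ∃ h : κ → MvPolynomial (Fin 2 × Fin 2) K,
        (∀ k, MH (h k) (fun b => (if b = t then M + N else N) - D b)) ∧
          r * ∏ b, X (b, τ b) ^ N = ∑ k, h k * g k := by
  have h1 : ∀ τ : Fin 2 → Fin 2, ∃ (n : ℕ) (φ : MvPolynomial (Fin 2 × Fin 2) K),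
      MH φ (fun b => if b = t then n else 0) ∧
      φ ≠ 0 ∧ (∀ w : Fin 2 → K, w ≠ 0 → evl (fun _ => w) φ = 0 → OnY g t w) ∧
      ∃ N₀ : ℕ, ∀ N, N₀ ≤ N → ∃ h : κ → MvPolynomial (Fin 2 × Fin 2) K,
        (∀ k, MH (h k) (fun b => (if b = t then n + N else N) - D b)) ∧
          φ * ∏ b, X (b, τ b) ^ N = ∑ k, h k * g k := by
    intro τ
    obtain ⟨q, hq, hqY, a, ha⟩ := exists_contractionT g hdim t τ
    exact exists_homogenisedT D g hg t τ q hq hqY a ha
  choose n φ hφ hφ0 hφY N₀ hN₀ using h1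
  refine ⟨∑ τ, n τ, (∑ τ, N₀ τ) + ∑ b, D b, ∏ τ, φ τ, ?_,
    Finset.prod_ne_zero_iff.2 fun τ _ => hφ0 τ, ?_, ?_⟩
  · have h3 : (fun b : Fin 2 => if b = t then ∑ τ, n τ else 0) =
        ∑ τ : Fin 2 → Fin 2, (fun b : Fin 2 => if b = t then n τ else 0) := by
      funext b
      rw [Finset.sum_apply]
      by_cases hb : b = t
      · simp only [hb, if_true]
      · simp only [hb, if_false, Finset.sum_const_zero]
    unfold MH
    rw [h3]
    exact IsWeightedHomogeneous.prod _ _ _ fun τ _ => hφ τ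
  · intro w hw hw0
    unfold evl at hw0
    rw [map_prod] at hw0
    obtain ⟨τ, _, hτ⟩ := Finset.prod_eq_zero_iff.1 hw0
    exact hφY τ w hw hτ
  · intro N hN τ
    have hD : ∀ b, D b ≤ N := fun b =>
      ((Finset.single_le_sum (f := fun b => D b) (fun _ _ => Nat.zero_le _)
        (Finset.mem_univ b)).trans (Nat.le_add_left _ _)).trans hN
    have hNτ : N₀ τ ≤ N :=
      ((Finset.single_le_sum (f := fun τ => N₀ τ) (fun _ _ => Nat.zero_le _)
        (Finset.mem_univ τ)).trans (Nat.le_add_right _ _)).trans hN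
    obtain ⟨h, hh, he⟩ := hN₀ τ N hNτ
    refine ⟨fun k => (∏ τ' ∈ Finset.univ.erase τ, φ τ') * h k, fun k => ?_, ?_⟩
    · have h3 : (fun b : Fin 2 => (if b = t then (∑ τ, n τ) + N else N) - D b) =
          (∑ τ' ∈ Finset.univ.erase τ, (fun b : Fin 2 => if b = t then n τ' else 0)) +
            (fun b => (if b = t then n τ + N else N) - D b) := by
        funext b
        have h4 := hD b
        have h5 : ∑ τ' ∈ Finset.univ.erase τ, n τ' + n τ = ∑ τ, n τ :=
          Finset.sum_erase_add _ _ (Finset.mem_univ τ)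
        rw [Pi.add_apply, Finset.sum_apply]
        by_cases hb : b = t
        · simp only [hb, if_true]
          rw [hb] at h4
          omega
        · simp only [hb, if_false, Finset.sum_const_zero, zero_add]
      unfold MH
      rw [h3]
      exact IsWeightedHomogeneous.mul (IsWeightedHomogeneous.prod _ _ _ fun τ _ => hφ τ) (hh k)
    · rw [← Finset.prod_erase_mul _ _ (Finset.mem_univ τ), mul_assoc, he, Finset.mul_sum]
      exact Finset.sum_congr rfl fun k _ => (mul_assoc _ _ _).symm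

theorem exists_elimT {K : Type u} [Field K] {κ : Type} [Fintype κ] (D : Fin 2 → ℕ)
    (g : κ → MvPolynomial (Fin 2 × Fin 2) K) (hg : ∀ k, MH (g k) D) (hdim : DimLT g 1) :
    ∃ (N : ℕ) (n : Fin 2 → ℕ) (r : Fin 2 → MvPolynomial (Fin 2 × Fin 2) K)
      (h : Fin 2 → (Fin 2 → Fin 2) → κ → MvPolynomial (Fin 2 × Fin 2) K),
      ED D g N n r h ∧
        ∀ t (w : Fin 2 → K), w ≠ 0 → evl (fun _ => w) (r t) = 0 → OnY g t w := by
  choose n N₁ r hr hr0 hrY h1 using exists_elim1 D g hg hdim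
  have hN : ∀ t, N₁ t ≤ (∑ t, N₁ t) + ∑ b, D b := fun t =>
    (Finset.single_le_sum (f := fun t => N₁ t) (fun _ _ => Nat.zero_le _)
      (Finset.mem_univ t)).trans (Nat.le_add_right _ _)
  have hD : ∀ b, D b ≤ (∑ t, N₁ t) + ∑ b, D b := fun b =>
    (Finset.single_le_sum (f := fun b => D b) (fun _ _ => Nat.zero_le _)
      (Finset.mem_univ b)).trans (Nat.le_add_left _ _)
  choose h hh he using fun t => h1 t _ (hN t)
  exact ⟨(∑ t, N₁ t) + ∑ b, D b, n, r, h, ⟨hD, hg, hr0, hr, hh, he⟩, hrY⟩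

end Pool.Agent.Lib.MP_17a322_nt.VS
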