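import Pool.Agent.Lib.MP_17a322_nt.VS.M0
import Pool.Agent.Lib.MP_17a322_nt.VJ.M2
import Pool.Agent.Lib.MP_17a322_nt.RO.E0

/-!
The roots of the eliminants.
-/

universe u

namespace Pool.Agent.Lib.MP_17a322_nt.VS

open MvPolynomial Height
open Pool.Agent.Lib.MP_17a322_nt.RO Pool.Agent.Lib.MP_17a322_nt.RV Pool.Agent.Lib.MP_17a322_nt.VJ

/-- The value at a vector with entries in `K` is not zero over `L`. -/
private theorem VSM2_ne {K L : Type u} [Field K] [Field L] [Algebra K L]
    (r : MvPolynomial (Fin 2 × Fin 2) K) (w : Fin 2 → K) (h1 : evl (fun _ => w) r ≠ 0) :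
    evl (fun _ i => algebraMap K L (w i)) r ≠ 0 := by
  have h2 : evl (fun _ i => algebraMap K L (w i)) r = algebraMap K L (evl (fun _ => w) r) := by
    unfold evl
    exact (comp_aeval_apply (fun p : Fin 2 × Fin 2 => w p.2) (Algebra.ofId K L) r).symm
  rw [h2]
  intro h3
  exact h1 ((map_eq_zero_iff _ (algebraMap K L).injective).1 h3)

/-- The factorisation over a finite extension. -/
theorem M2_split {K : Type u} [Field K] [NumberField K] (W : WeierstrassCurve K)
    [W.IsElliptic] (n : Fin 2 → ℕ) (r : Fin 2 → MvPolynomial (Fin 2 × Fin 2) K)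
    (hr : ∀ t, r t ≠ 0) (hMH : ∀ t, MH (r t) (fun b => if b = t then n t else 0)) :
    ∃ (L : Type u) (_ : Field L) (_ : NumberField L) (_ : DecidableEq L) (_ : Algebra K L)
      (V : WeierstrassCurve L) (A : Fin (n 0) → V.toAffine.Point) (a : Fin (n 1) → Fin 2 → L)
      (c : Fin 2 → L), W.map (algebraMap K L) = V ∧ (∀ t, c t ≠ 0) ∧
        (∀ i, a i 1 = 0 ∨ a i 1 = 1) ∧
        (∀ x : Fin 2 → L,
          evl (fun b => ![x b, 1]) (r 0) = c 0 * ∏ i, wd (A i).xRep ![x 0, 1]) ∧
        ∀ x : Fin 2 → L, evl (fun b => ![x b, 1]) (r 1) = c 1 * ∏ i, wd (a i) ![x 1, 1] := by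
  classical
  choose q hq0 hqn hq using fun t => M2_poly (n t) t (r t) (hr t) (hMH t)
  let K₁ := (q 0 * q 1).SplittingField
  have hfd : FiniteDimensional K K₁ := inferInstance
  have hnf : NumberField K₁ := NumberField.of_module_finite K K₁
  have hsp01 : ((q 0 * q 1).map (algebraMap K K₁)).Splits := Polynomial.SplittingField.splits _
  have hprod0 : (q 0 * q 1).map (algebraMap K K₁) ≠ 0 :=
    (Polynomial.map_ne_zero_iff (algebraMap K K₁).injective).2 (mul_ne_zero (hq0 0) (hq0 1))
  have hsp : ∀ t, ((q t).map (algebraMap K K₁)).Splits := by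
    intro t
    refine hsp01.of_dvd hprod0 ?_
    apply Polynomial.map_dvd
    fin_cases t
    · exact dvd_mul_right _ _
    · exact dvd_mul_left _ _
  have hm0 : ∀ t, (q t).map (algebraMap K K₁) ≠ 0 := fun t =>
    (Polynomial.map_ne_zero_iff (algebraMap K K₁).injective).2 (hq0 t)
  have hmn : ∀ t, ((q t).map (algebraMap K K₁)).natDegree ≤ n t := by
    intro t
    rw [Polynomial.natDegree_map]
    exact hqn t
  choose d ρ hρ using fun t => M2_roots (n t) ((q t).map (algebraMap K K₁)) (hmn t) (hsp t)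
  obtain ⟨L, iF, iN, iD, iA, V', P, hV', hP0, hPx⟩ := exists_field_points
    (fun _ : Fin (n 0) => W.map (algebraMap K K₁)) (ρ 0)
  let instA : Algebra K L := ((algebraMap K₁ L).comp (algebraMap K K₁)).toAlgebra
  have htower : IsScalarTower K K₁ L := IsScalarTower.of_algebraMap_eq' rfl
  have hmap : (W.map (algebraMap K K₁)).map (algebraMap K₁ L) = W.map (algebraMap K L) := by
    rw [WeierstrassCurve.map_map]
    rfl
  have key : ∀ (U U' : WeierstrassCurve L), U = U' → ∀ P : U.toAffine.Point, P ≠ 0 →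
      ∃ A : U'.toAffine.Point, A ≠ 0 ∧ A.xRep 0 = P.xRep 0 := by
    intro U U' h P hP
    subst h
    exact ⟨P, hP, rfl⟩
  have hA : ∀ i : Fin (n 0), ∃ A : (W.map (algebraMap K L)).toAffine.Point, A ≠ 0 ∧
      A.xRep 0 = algebraMap K₁ L (ρ 0 i) := by
    intro i
    have h1 : V' i = W.map (algebraMap K L) := by
      rw [← hV' i, hmap]
    obtain ⟨A, hA0, hAx⟩ := key _ _ h1 (P i) (hP0 i)
    exact ⟨A, hA0, by rw [hAx, hPx i]⟩
  choose A hA0 hAx using hA
  refine ⟨L, iF, iN, iD, instA, W.map (algebraMap K L),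
    fun i => if (i : ℕ) < d 0 then A i else 0,
    fun i => if (i : ℕ) < d 1 then ![algebraMap K₁ L (ρ 1 i), 1] else ![1, 0],
    fun t => algebraMap K₁ L ((q t).map (algebraMap K K₁)).leadingCoeff *
      ∏ i : Fin (n t), if (i : ℕ) < d t then (-1 : L) else 1, rfl, ?_, ?_, ?_, ?_⟩
  · intro t
    apply mul_ne_zero
    · rw [Ne, map_eq_zero_iff _ (algebraMap K₁ L).injective]
      exact Polynomial.leadingCoeff_ne_zero.2 (hm0 t)
    · rw [Finset.prod_ne_zero_iff]
      intro i _
      split_ifs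
      · exact neg_ne_zero.2 one_ne_zero
      · exact one_ne_zero
  · intro i
    by_cases hi : (i : ℕ) < d 1
    · right
      simp only [if_pos hi]
      simp
    · left
      simp only [if_neg hi]
      simp
  · intro x
    rw [hq 0 L x, ← Polynomial.aeval_map_algebraMap K₁ (x 0) (q 0)]
    conv_lhs => rw [hρ 0]
    rw [map_mul, map_prod, Polynomial.aeval_C, mul_assoc, ← Finset.prod_mul_distrib]
    congr 1
    apply Finset.prod_congr rfl
    intro i _
    by_cases hi : (i : ℕ) < d 0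
    · simp only [if_pos hi]
      rw [xRep_eq (hA0 i), hAx i]
      simp [wd]
    · simp only [if_neg hi]
      rw [xRep_zero]
      simp [wd]
  · intro x
    rw [hq 1 L x, ← Polynomial.aeval_map_algebraMap K₁ (x 1) (q 1)]
    conv_lhs => rw [hρ 1]
    rw [map_mul, map_prod, Polynomial.aeval_C, mul_assoc, ← Finset.prod_mul_distrib]
    congr 1
    apply Finset.prod_congr rfl
    intro i _
    by_cases hi : (i : ℕ) < d 1
    · simp only [if_pos hi]
      simp [wd]
    · simp only [if_neg hi]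
      simp [wd]

theorem exists_rootsT {K : Type u} [Field K] [NumberField K] (W : WeierstrassCurve K)
    [W.IsElliptic] (n : Fin 2 → ℕ) (r : Fin 2 → MvPolynomial (Fin 2 × Fin 2) K)
    (hr : ∀ t, r t ≠ 0) (hMH : ∀ t, MH (r t) (fun b => if b = t then n t else 0))
    (hnv0 : evl (fun _ => ![0, 1]) (r 1) ≠ (0 : K)) (hnv1 : evl (fun _ => ![1, 0]) (r 1) ≠ (0 : K)) :
    ∃ (L : Type u) (_ : Field L) (_ : NumberField L) (_ : DecidableEq L) (_ : Algebra K L)
      (V : WeierstrassCurve L) (A : Fin (n 0) → V.toAffine.Point) (ρ : Fin (n 1) → L)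
      (c : Fin 2 → L), W.map (algebraMap K L) = V ∧ (∀ t, c t ≠ 0) ∧ (∀ i, ρ i ≠ 0) ∧
        (∀ x : Fin 2 → L,
          evl (fun b => ![x b, 1]) (r 0) = c 0 * ∏ i, wd (A i).xRep ![x 0, 1]) ∧
        ∀ x : Fin 2 → L, evl (fun b => ![x b, 1]) (r 1) = c 1 * ∏ i, (ρ i - x 1) := by
  obtain ⟨L, iF, iN, iD, iA, V, A, a, c, hV, hc, ha01, hroot0, hroot⟩ := M2_split W n r hr hMH
  have ha0 : ∀ i, a i 0 ≠ 0 := by
    intro i h
    have h1 := hroot (fun _ => 0)
    have h2 : evl (fun _ => ![(0 : L), 1]) (r 1) = 0 := by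
      rw [h1]
      apply mul_eq_zero_of_right
      apply Finset.prod_eq_zero (Finset.mem_univ i)
      simp [wd, h]
    refine VSM2_ne (L := L) (r 1) ![0, 1] hnv0 ?_
    rw [← h2]
    congr 1
    funext _ i
    fin_cases i <;> simp
  have hinf : ∀ y : L, y ≠ 0 → evl (fun _ => ![1, y]) (r 1) =
      c 1 * ∏ i, (a i 0 * y - a i 1) := by
    intro y hy
    have h1 := evl_smul (A := L) (fun b : Fin 2 => if b = 1 then n 1 else 0) (r 1) (hMH 1)
      (fun _ => y) (fun _ => ![y⁻¹, 1])
    have h2 : (fun b : Fin 2 => (fun _ => y) b • (fun _ => ![y⁻¹, 1] : Fin 2 → Fin 2 → L) b) =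
        fun _ => ![1, y] := by
      funext b i
      fin_cases i <;> simp [hy]
    rw [h2] at h1
    rw [h1, hroot (fun _ => y⁻¹)]
    have h3 : ∏ b : Fin 2, (fun _ => y) b ^ (if b = 1 then n 1 else 0) = y ^ n 1 := by
      simp
    rw [h3]
    have h4 : ∏ i, (a i 0 * y - a i 1) = ∏ i, (y * wd (a i) ![y⁻¹, 1]) := by
      apply Finset.prod_congr rfl
      intro i _
      simp only [wd, Matrix.cons_val_zero, Matrix.cons_val_one]
      field_simp
    rw [h4, Finset.prod_mul_distrib, Finset.prod_const, Finset.card_univ, Fintype.card_fin]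
    ring
  have hev : ∀ y : L, Polynomial.eval y (evl (fun _ => ![(1 : Polynomial L), Polynomial.X])
      (r 1)) = evl (fun _ => ![1, y]) (r 1) := by
    intro y
    unfold evl
    have h2 := comp_aeval_apply (fun p : Fin 2 × Fin 2 => (![(1 : Polynomial L), Polynomial.X]) p.2)
      ((Polynomial.aeval y : Polynomial L →ₐ[L] L).restrictScalars K) (r 1)
    simp only [AlgHom.restrictScalars_apply, Polynomial.coe_aeval_eq_eval] at h2
    rw [h2]
    congr 2
    funext p
    obtain ⟨b, i⟩ := p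
    fin_cases i <;> simp
  have hpoly : evl (fun _ => ![(1 : Polynomial L), Polynomial.X]) (r 1) =
      Polynomial.C (c 1) * ∏ i, (Polynomial.C (a i 0) * Polynomial.X - Polynomial.C (a i 1)) := by
    apply Polynomial.eq_of_infinite_eval_eq
    refine Set.Infinite.mono ?_ (Set.Finite.infinite_compl (Set.finite_singleton (0 : L)))
    intro y hy
    have hy0 : y ≠ 0 := hy
    show Polynomial.eval y _ = Polynomial.eval y _
    rw [hev, hinf y hy0, Polynomial.eval_mul, Polynomial.eval_C, Polynomial.eval_prod]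
    simp
  have ha1 : ∀ i, a i 1 ≠ 0 := by
    intro i h
    have h0 : evl (fun _ => ![(1 : L), 0]) (r 1) = 0 := by
      rw [← hev 0, hpoly, Polynomial.eval_mul, Polynomial.eval_prod]
      apply mul_eq_zero_of_right
      apply Finset.prod_eq_zero (Finset.mem_univ i)
      simp [h]
    refine VSM2_ne (L := L) (r 1) ![1, 0] hnv1 ?_
    rw [← h0]
    congr 1
    funext _ i
    fin_cases i <;> simp
  refine ⟨L, iF, iN, iD, iA, V, A, fun i => a i 0, c, hV, hc, ha0, hroot0, ?_⟩
  intro x
  rw [hroot x]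
  congr 1
  apply Finset.prod_congr rfl
  intro i _
  simp [wd, (ha01 i).resolve_left (ha1 i)]

end Pool.Agent.Lib.MP_17a322_nt.VS
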