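import Pool.Agent.Lib.MP_17a322_nt.VS.M0
import Pool.Agent.Lib.MP_17a322_nt.VJ.M3

/-!
# M3: the height with respect to the origin as a sum over the places

`P ≠ 0`, so `P.xRep 1 = 1`. For `z : K` the vector `![z, 1]` has `vn v ![z, 1] = max (v z) 1` (unfold `vn`), and `M3_key` (VJ/M3) for
`R = P.xRep`, `Q = ![z, 1]` gives
`min (log (vn v P.xRep)) (log (max 1 (v z))) = (log (vn v P.xRep) + log (max 1 (v z))) - log (⨆ i, v (![1, P.xRep 0, z] i))`.
* `FS_minS`: `FS_sub`, `FS_add`, `FS_log_vn` (VJ/E6), `FS_log_max` (VJ/A4), `FS_log_iSup` (VJ/A4) with `M3_ne`.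
* `hS_eq_gs`: with `z = (1 - u)⁻¹`: `gs_sub`, `gs_add`, `gs_log_vn` (VJ/E6), `gs_log_max` (VJ/A4), `gs_log_iSup` (VJ/A4). Compare `FS_min`,
  `hO_eq_gs` in VJ/M3.
* `VSM3_HS_nonneg`: `logHeight_xRep_nonneg` (VJ/E6), `zero_le_logHeight₁`. `hS_le_HS`: the subtracted height is `≥ 0` (`logHeight_nonneg`, VJ/A7 uses it).
* `T_S'`: `T_S` gives `δ`, `G`, `C`. If `cS S u ≤ δ * HS P u` use it; otherwise `hS P u ≤ HS P u < cS S u / δ`. The constants are `|C|` and `δ⁻¹`
  (`VSM3_cS_nonneg`).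
* `VSM3_cS_nonneg`: `finsum_nonneg`.
-/

universe u

namespace Pool.Agent.Lib.MP_17a322_nt.VS

open MvPolynomial Height
open Pool.Agent.Lib.MP_17a322_nt.RO Pool.Agent.Lib.MP_17a322_nt.RV Pool.Agent.Lib.MP_17a322_nt.VJ

theorem VSM3_key {K : Type u} [Field K] {W : WeierstrassCurve K}
    (P : W.toAffine.Point) (hP : P ≠ 0) (z : K) :
    (fun v : AbsoluteValue K ℝ => min (Real.log (vn v P.xRep)) (Real.log (max 1 (v z)))) =
      fun v => (Real.log (vn v P.xRep) + Real.log (max 1 (v z))) -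
        Real.log (⨆ i, v (![1, P.xRep 0, z] i)) := by
  funext v
  have h : P.xRep 1 = 1 := by
    rw [M3_xRep hP]
    rfl
  have h1 := M3_key v (R := P.xRep) (Q := ![z, 1]) h rfl
  have h2 : vn v ![z, 1] = max 1 (v z) := by
    show max (v z) (v 1) = max 1 (v z)
    rw [map_one, max_comm]
  rw [h2] at h1
  exact h1

theorem FS_minS {K : Type u} [Field K] [AdmissibleAbsValues K] {W : WeierstrassCurve K}
    (P : W.toAffine.Point) (hP : P ≠ 0) (z : K) :
    FS (fun v : AbsoluteValue K ℝ => min (Real.log (vn v P.xRep)) (Real.log (max 1 (v z)))) := by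
  rw [VSM3_key P hP z]
  exact FS_sub (FS_add (FS_log_vn P.xRep_ne_zero) (FS_log_max z)) (FS_log_iSup (M3_ne _ _))

theorem hS_eq_gs {K : Type u} [Field K] [AdmissibleAbsValues K] {W : WeierstrassCurve K}
    (P : W.toAffine.Point) (hP : P ≠ 0) (u : K) :
    hS P u = gs (fun v : AbsoluteValue K ℝ =>
      min (Real.log (vn v P.xRep)) (Real.log (max 1 (v (1 - u)⁻¹)))) := by
  rw [VSM3_key P hP, gs_sub (FS_add (FS_log_vn P.xRep_ne_zero) (FS_log_max _))
    (FS_log_iSup (M3_ne _ _)), gs_add (FS_log_vn P.xRep_ne_zero) (FS_log_max _),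
    gs_log_vn P.xRep_ne_zero, gs_log_max, gs_log_iSup (M3_ne _ _)]
  rfl

theorem VSM3_HS_nonneg {K : Type u} [Field K] [AdmissibleAbsValues K] {W : WeierstrassCurve K}
    (P : W.toAffine.Point) (u : K) : 0 ≤ HS P u :=
  add_nonneg (logHeight_xRep_nonneg P) (zero_le_logHeight₁ _)

theorem hS_le_HS {K : Type u} [Field K] [AdmissibleAbsValues K] {W : WeierstrassCurve K}
    (P : W.toAffine.Point) (u : K) : hS P u ≤ HS P u :=
  sub_le_self _ (logHeight_nonneg _)

theorem VSM3_cS_nonneg {K : Type u} [Field K] [AdmissibleAbsValues K] (S : Set (AbsoluteValue K ℝ))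
    (u : K) : 0 ≤ cS S u := by
  unfold cS
  refine finsum_nonneg fun v => ?_
  split_ifs
  · exact le_rfl
  · exact abs_nonneg _

end Pool.Agent.Lib.MP_17a322_nt.VS
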