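import Pool.Agent.Lib.MP_17a322_nt.VS.M3
import Pool.Agent.Lib.MP_17a322_nt.VS.IF_K

/-!
The form of Theorem T_O which is used: if `cS S u ≤ δ * HS P u` use `T_S`; otherwise `hS P u ≤ HS P u < cS S u / δ`.
-/

universe u

namespace Pool.Agent.Lib.MP_17a322_nt.VS

open MvPolynomial Height
open Pool.Agent.Lib.MP_17a322_nt.RO Pool.Agent.Lib.MP_17a322_nt.RV Pool.Agent.Lib.MP_17a322_nt.VJ

theorem T_S' {K : Type u} [Field K] [NumberField K] [DecidableEq K] (W : WeierstrassCurve K)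
    [W.IsElliptic] (S : Set (AbsoluteValue K ℝ)) (hS' : S.Finite) (ε : ℝ) (hε : 0 < ε) :
    ∃ C C' : ℝ, 0 ≤ C ∧ 0 ≤ C' ∧
      ∀ (P : W.toAffine.Point) (u : K), P ≠ 0 → u ≠ 0 → u ≠ 1 →
        hS P u ≤ ε * HS P u + C + C' * cS S u := by
  obtain ⟨δ, C, hδ, h⟩ := T_S W S hS' ε hε
  refine ⟨|C|, δ⁻¹, abs_nonneg C, inv_nonneg.2 hδ.le, fun P u hP hu hu1 => ?_⟩
  have h0 := VSM3_cS_nonneg S u
  have h1 := VSM3_HS_nonneg P u
  by_cases hc : cS S u ≤ δ * HS P u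
  · have h2 := h P u hP hu hu1 hc
    have h3 := le_abs_self C
    have h4 : 0 ≤ δ⁻¹ * cS S u := mul_nonneg (inv_nonneg.2 hδ.le) h0
    linarith
  · push Not at hc
    have h2 := hS_le_HS P u
    have h3 : HS P u ≤ δ⁻¹ * cS S u := by
      rw [inv_mul_eq_div, le_div_iff₀ hδ]
      linarith
    have h4 : 0 ≤ ε * HS P u := mul_nonneg hε.le h1
    have h5 := abs_nonneg C
    linarith

end Pool.Agent.Lib.MP_17a322_nt.VS
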