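import Pool.Agent.Lib.MP_17a322_nt.VS.M0
import Pool.Agent.Lib.MP_17a322_nt.VJ.E2

/-!
The local inequality from elimination (as VJ/M4a, general degrees), and the local inequality for the multiplicative group.
-/

universe u

namespace Pool.Agent.Lib.MP_17a322_nt.VS

open MvPolynomial Height
open Pool.Agent.Lib.MP_17a322_nt.RO Pool.Agent.Lib.MP_17a322_nt.RV Pool.Agent.Lib.MP_17a322_nt.VJ

section

variable {K L : Type*} [Field K] [Field L] [Algebra K L] {κ : Type} [Fintype κ]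
  (v : AbsoluteValue L ℝ)

theorem local_AS {D : Fin 2 → ℕ} {g : κ → MvPolynomial (Fin 2 × Fin 2) K} {N : ℕ} {n : Fin 2 → ℕ}
    {r : Fin 2 → MvPolynomial (Fin 2 × Fin 2) K}
    {h : Fin 2 → (Fin 2 → Fin 2) → κ → MvPolynomial (Fin 2 × Fin 2) K}
    (H : ED D g N n r h) (t : Fin 2) (x : Fin 2 → L) :
    v (evl (fun b => ![x b, 1]) (r t)) * ∏ b, max 1 (v (x b)) ^ D b ≤
      Cg (L := L) h v * (⨆ k, v (evl (fun b => ![x b, 1]) (g k))) *
        max 1 (v (x t)) ^ n t := by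
  classical
  set m : Fin 2 → ℝ := fun b => max 1 (v (x b)) with hm
  have hm1 : ∀ b, 1 ≤ m b := fun b => le_max_left _ _
  have hm0 : ∀ b, 0 < m b := fun b => zero_lt_one.trans_le (hm1 b)
  set y : Fin 2 → Fin 2 → L := fun b => ![x b, 1] with hy
  obtain ⟨τ, hτ⟩ : ∃ τ : Fin 2 → Fin 2, ∀ b, v (y b (τ b)) = m b := by
    refine ⟨fun b => if 1 ≤ v (x b) then 0 else 1, fun b => ?_⟩
    by_cases hb : 1 ≤ v (x b)
    · simp [hy, hm, hb]
    · simp [hy, hm, hb, (not_le.1 hb).le]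
  set S : ℝ := ⨆ k, v (evl y (g k)) with hS
  have hS0 : 0 ≤ S := Real.iSup_nonneg fun k => v.nonneg _
  set PP : ℝ := ∏ p : Fin 2 × (Fin 2 → Fin 2) × κ,
      max 1 (NV v (MvPolynomial.map (algebraMap K L) (h p.1 p.2.1 p.2.2))) with hPP
  have hPP1 : 1 ≤ PP := M4a_one_le_prod _ _ fun p _ => le_max_left _ _
  set E : Fin 2 → ℕ := fun b => if b = t then n t + N else N with hE
  have hDE : ∀ b, D b ≤ E b := fun b => by
    have := H.le b
    rw [hE]
    dsimp only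
    split_ifs <;> omega
  have hrel : evl y (r t) * ∏ b, y b (τ b) ^ N = ∑ k, evl y (h t τ k) * evl y (g k) := by
    have h1 := congrArg (evl y) (H.rel t τ)
    unfold evl at h1 ⊢
    rw [map_mul, map_prod, map_sum] at h1
    simpa only [map_pow, aeval_X, map_mul] using h1
  have hB0 : 0 ≤ PP * (∏ b, m b ^ (E b - D b)) * S :=
    mul_nonneg (mul_nonneg (zero_le_one.trans hPP1)
      (Finset.prod_nonneg fun b _ => pow_nonneg (hm0 b).le _)) hS0
  have h2 : v (evl y (r t)) * ∏ b, m b ^ N ≤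
      cst v (Fintype.card κ + 1) * (PP * (∏ b, m b ^ (E b - D b)) * S) := by
    have h3 : v (evl y (r t)) * ∏ b, m b ^ N = v (evl y (r t) * ∏ b, y b (τ b) ^ N) := by
      rw [map_mul, map_prod]
      simp only [map_pow, hτ]
    rw [h3, hrel]
    refine ((SN_self v).sum_le Finset.univ _ hB0 fun k _ => ?_).trans ?_
    · show v (evl y (h t τ k) * evl y (g k)) ≤ _
      rw [map_mul]
      refine mul_le_mul ?_ (le_ciSup (f := fun k => v (evl y (g k)))
        (Set.finite_range _).bddAbove k) (v.nonneg _)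
        (mul_nonneg (zero_le_one.trans hPP1)
          (Finset.prod_nonneg fun b _ => pow_nonneg (hm0 b).le _))
      refine (abs_evl_le v _ _ (H.mhh t τ k) x).trans ?_
      refine mul_le_mul_of_nonneg_right ?_
        (Finset.prod_nonneg fun b _ => pow_nonneg (hm0 b).le _)
      exact (le_max_right 1 _).trans (M4a_le_prod
        (fun p : Fin 2 × (Fin 2 → Fin 2) × κ =>
          max 1 (NV v (MvPolynomial.map (algebraMap K L) (h p.1 p.2.1 p.2.2))))
        (fun p => le_max_left _ _) (t, τ, k))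
    · exact mul_le_mul_of_nonneg_right (cst_mono v (by rw [Finset.card_univ]; omega)) hB0
  have h4 : (∏ b, m b ^ (E b - D b)) * ∏ b, m b ^ D b = (∏ b, m b ^ N) * m t ^ n t := by
    rw [← Finset.prod_mul_distrib]
    have h5 : ∀ b, m b ^ (E b - D b) * m b ^ D b = m b ^ N * (if t = b then m b ^ n b else 1) := by
      intro b
      rw [← pow_add, Nat.sub_add_cancel (hDE b)]
      rw [hE]
      dsimp only
      by_cases hb : b = t
      · rw [if_pos hb, if_pos hb.symm, ← pow_add, hb, add_comm]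
      · rw [if_neg hb, if_neg (Ne.symm hb), mul_one]
    rw [Finset.prod_congr rfl fun b _ => h5 b, Finset.prod_mul_distrib, Finset.prod_ite_eq,
      if_pos (Finset.mem_univ t)]
  have hN : 0 < ∏ b, m b ^ N := Finset.prod_pos fun b _ => pow_pos (hm0 b) _
  refine le_of_mul_le_mul_right ?_ hN
  calc v (evl y (r t)) * (∏ b, m b ^ D b) * ∏ b, m b ^ N
      = (v (evl y (r t)) * ∏ b, m b ^ N) * ∏ b, m b ^ D b := by ring
    _ ≤ (cst v (Fintype.card κ + 1) * (PP * (∏ b, m b ^ (E b - D b)) * S)) *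
          ∏ b, m b ^ D b :=
        mul_le_mul_of_nonneg_right h2 (Finset.prod_nonneg fun b _ => pow_nonneg (hm0 b).le _)
    _ = (cst v (Fintype.card κ + 1) * PP) * S *
          ((∏ b, m b ^ (E b - D b)) * ∏ b, m b ^ D b) := by ring
    _ = (cst v (Fintype.card κ + 1) * PP) * S * ((∏ b, m b ^ N) * m t ^ n t) := by rw [h4]
    _ = Cg (L := L) h v * S * m t ^ n t * ∏ b, m b ^ N := by
        unfold Cg
        ring

end

theorem local_G {L : Type*} [Field L] (v : AbsoluteValue L ℝ) (ρ u : L) (hρ : ρ ≠ 0)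
    (hu : u ≠ ρ) :
    max 1 (v u) ≤ cst v 2 * max 1 (v ρ⁻¹) * (v (ρ - u) * max 1 (v (1 - u / ρ)⁻¹)) := by
  have hw : ρ - u ≠ 0 := sub_ne_zero.2 hu.symm
  have hvw : 0 < v (ρ - u) := v.pos hw
  have hinv : (1 - u / ρ)⁻¹ = ρ / (ρ - u) := by
    have h1 : 1 - u / ρ = (ρ - u) / ρ := by rw [sub_div, div_self hρ]
    rw [h1, inv_div]
  have h2 : v (ρ - u) * max 1 (v (1 - u / ρ)⁻¹) = max (v (ρ - u)) (v ρ) := by
    rw [hinv, map_div₀, mul_max_of_nonneg _ _ hvw.le, mul_one, mul_div_cancel₀ _ hvw.ne']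
  rw [h2]
  have hc : 1 ≤ cst v 2 := one_le_cst v (by norm_num)
  have hm : 1 ≤ max 1 (v ρ⁻¹) := le_max_left _ _
  have hM : 0 ≤ max (v (ρ - u)) (v ρ) := hvw.le.trans (le_max_left _ _)
  have h3 : v u ≤ cst v 2 * max (v (ρ - u)) (v ρ) := by
    have h4 : u = ρ - (ρ - u) := by ring
    calc v u = v (ρ - (ρ - u)) := by rw [← h4]
      _ ≤ cst v 2 * max (v (ρ - u)) (v ρ) :=
        (SN_self v).sub_le_cst (le_max_right _ _) (le_max_left _ _)
  have h5 : 1 ≤ max 1 (v ρ⁻¹) * max (v (ρ - u)) (v ρ) := by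
    calc (1 : ℝ) = v ρ⁻¹ * v ρ := by rw [← map_mul, inv_mul_cancel₀ hρ, map_one]
      _ ≤ max 1 (v ρ⁻¹) * max (v (ρ - u)) (v ρ) :=
        mul_le_mul (le_max_right _ _) (le_max_right _ _) (v.nonneg _) (zero_le_one.trans hm)
  refine max_le ?_ ?_
  · calc (1 : ℝ) ≤ 1 * (max 1 (v ρ⁻¹) * max (v (ρ - u)) (v ρ)) := by rw [one_mul]; exact h5
      _ ≤ cst v 2 * (max 1 (v ρ⁻¹) * max (v (ρ - u)) (v ρ)) :=
        mul_le_mul_of_nonneg_right hc (zero_le_one.trans h5)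
      _ = cst v 2 * max 1 (v ρ⁻¹) * max (v (ρ - u)) (v ρ) := by ring
  · calc v u ≤ cst v 2 * max (v (ρ - u)) (v ρ) := h3
      _ = 1 * (cst v 2 * max (v (ρ - u)) (v ρ)) := by rw [one_mul]
      _ ≤ max 1 (v ρ⁻¹) * (cst v 2 * max (v (ρ - u)) (v ρ)) :=
        mul_le_mul_of_nonneg_right hm (mul_nonneg (zero_le_one.trans hc) hM)
      _ = cst v 2 * max 1 (v ρ⁻¹) * max (v (ρ - u)) (v ρ) := by ring

theorem local_BS {L : Type*} [Field L] (v : AbsoluteValue L ℝ) (n : ℕ) (ρ : Fin n → L) (u : L)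
    (hρ : ∀ i, ρ i ≠ 0) (hu : ∀ i, u ≠ ρ i) :
    max 1 (v u) ^ (2 * n) ≤ (∏ i, (cst v 2 * max 1 (v (ρ i)⁻¹))) ^ 2 *
      (v (∏ i, (ρ i - u)) ^ 2 * ∏ j : Fin n × Bool, max 1 (v (1 - u / ρ j.1)⁻¹)) := by
  have h1 : max 1 (v u) ^ n ≤ ∏ i, (cst v 2 * max 1 (v (ρ i)⁻¹) *
      (v (ρ i - u) * max 1 (v (1 - u / ρ i)⁻¹))) := by
    calc max 1 (v u) ^ n = ∏ _i : Fin n, max 1 (v u) := by
          rw [Finset.prod_const, Finset.card_univ, Fintype.card_fin]
      _ ≤ _ := Finset.prod_le_prod (fun _ _ => zero_le_one.trans (le_max_left _ _))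
          (fun i _ => local_G v (ρ i) u (hρ i) (hu i))
  have h0 : 0 ≤ max 1 (v u) ^ n := pow_nonneg (zero_le_one.trans (le_max_left _ _)) n
  have h2 : ∏ j : Fin n × Bool, max 1 (v (1 - u / ρ j.1)⁻¹) =
      (∏ i, max 1 (v (1 - u / ρ i)⁻¹)) ^ 2 := by
    rw [Fintype.prod_prod_type, ← Finset.prod_pow]
    refine Finset.prod_congr rfl fun i _ => ?_
    rw [Fintype.prod_bool, sq]
  calc max 1 (v u) ^ (2 * n) = (max 1 (v u) ^ n) ^ 2 := by rw [mul_comm, pow_mul]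
    _ ≤ (∏ i, (cst v 2 * max 1 (v (ρ i)⁻¹) *
      (v (ρ i - u) * max 1 (v (1 - u / ρ i)⁻¹)))) ^ 2 := pow_le_pow_left₀ h0 h1 2
    _ = _ := by
      have e : ∏ i, (cst v 2 * max 1 (v (ρ i)⁻¹) *
          (v (ρ i - u) * max 1 (v (1 - u / ρ i)⁻¹))) =
          (∏ i, (cst v 2 * max 1 (v (ρ i)⁻¹))) *
            ((∏ i, v (ρ i - u)) * ∏ i, max 1 (v (1 - u / ρ i)⁻¹)) := by
        rw [← Finset.prod_mul_distrib, ← Finset.prod_mul_distrib]
      rw [h2, e, map_prod]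
      ring

end Pool.Agent.Lib.MP_17a322_nt.VS
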