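import Pool.Agent.Lib.MP_17a322_nt.VS.M4a
import Pool.Agent.Lib.MP_17a322_nt.VJ.M3
import Pool.Agent.Lib.MP_17a322_nt.VJ.M4a

/-!
The local inequality (as VJ/M4b).
-/

universe u

namespace Pool.Agent.Lib.MP_17a322_nt.VS

open MvPolynomial Height
open Pool.Agent.Lib.MP_17a322_nt.RO Pool.Agent.Lib.MP_17a322_nt.RV Pool.Agent.Lib.MP_17a322_nt.VJ

/-- The constant. -/
noncomputable def CVS {K : Type*} [Field K] (W : WeierstrassCurve K) {L : Type*} [Field L]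
    [Algebra K L] {κ : Type} [Fintype κ] (n : Fin 2 → ℕ)
    (h : Fin 2 → (Fin 2 → Fin 2) → κ → MvPolynomial (Fin 2 × Fin 2) K) (ρ : Fin (n 1) → L)
    (c : Fin 2 → L) (v : AbsoluteValue L ℝ) : ℝ :=
  2 * Real.log (Cg (L := L) h v) + 10 * n 0 * Real.log (lc W v) +
    2 * ∑ i, (Real.log (cst v 2) + Real.log (max 1 (v (ρ i)⁻¹))) +
    ∑ t, 2 * Real.log (max 1 (v (c t)⁻¹))

theorem M4b_cancel {m B w Q vc M Cc Gv : ℝ} (n : ℕ) (hm : 0 < m) (hB : 0 ≤ B) (hw : 0 ≤ w)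
    (hQ : 0 ≤ Q) (hvc : 0 ≤ vc) (hM : 0 ≤ M) (h1 : m ^ (2 * n) ≤ B * (w ^ 2 * Q))
    (h2 : vc * w * M ≤ Cc * Gv * m ^ n) : vc ^ 2 * M ^ 2 ≤ B * (Cc ^ 2 * Gv ^ 2) * Q := by
  have hpow : 0 < m ^ (2 * n) := pow_pos hm _
  have e3 : (m ^ n) ^ 2 = m ^ (2 * n) := by
    rw [← pow_mul]
    congr 1
    ring
  have h4 : (vc * w * M) ^ 2 ≤ (Cc * Gv * m ^ n) ^ 2 :=
    pow_le_pow_left₀ (mul_nonneg (mul_nonneg hvc hw) hM) h2 2
  have h5 : m ^ (2 * n) * (vc ^ 2 * M ^ 2) ≤ B * (w ^ 2 * Q) * (vc ^ 2 * M ^ 2) :=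
    mul_le_mul_of_nonneg_right h1 (by positivity)
  have h6 : B * Q * (vc * w * M) ^ 2 ≤ B * Q * (Cc * Gv * m ^ n) ^ 2 :=
    mul_le_mul_of_nonneg_left h4 (mul_nonneg hB hQ)
  refine le_of_mul_le_mul_left ?_ hpow
  calc m ^ (2 * n) * (vc ^ 2 * M ^ 2) ≤ B * (w ^ 2 * Q) * (vc ^ 2 * M ^ 2) := h5
    _ = B * Q * (vc * w * M) ^ 2 := by ring
    _ ≤ B * Q * (Cc * Gv * m ^ n) ^ 2 := h6
    _ = m ^ (2 * n) * (B * (Cc ^ 2 * Gv ^ 2) * Q) := by
      rw [mul_pow, mul_pow, e3]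
      ring

theorem M4b_oneS {K : Type*} [Field K] (W : WeierstrassCurve K) [W.IsElliptic]
    {L : Type*} [Field L] [DecidableEq L] [Algebra K L] (V : WeierstrassCurve L)
    (hV : W.map (algebraMap K L) = V) (v : AbsoluteValue L ℝ)
    {κ : Type} [Fintype κ] {D : Fin 2 → ℕ} {g : κ → MvPolynomial (Fin 2 × Fin 2) K} {N : ℕ} {n : Fin 2 → ℕ}
    {r : Fin 2 → MvPolynomial (Fin 2 × Fin 2) K}
    {h : Fin 2 → (Fin 2 → Fin 2) → κ → MvPolynomial (Fin 2 × Fin 2) K}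
    (H : ED D g N n r h) (A : Fin (n 0) → V.toAffine.Point) (ρ : Fin (n 1) → L)
    (c : Fin 2 → L) (hρ : ∀ i, ρ i ≠ 0)
    (hr0 : ∀ x : Fin 2 → L,
      evl (fun b => ![x b, 1]) (r 0) = c 0 * ∏ i, wd (A i).xRep ![x 0, 1])
    (hr1 : ∀ x : Fin 2 → L, evl (fun b => ![x b, 1]) (r 1) = c 1 * ∏ i, (ρ i - x 1))
    (P : V.toAffine.Point) (u : L) (hP : P ≠ 0) (hA : ∀ i, P + A i ≠ 0 ∧ P - A i ≠ 0)
    (hu : ∀ i, u ≠ ρ i) :
    (v (c 0) ^ 2 * (vn v P.xRep ^ D 0 * max 1 (v u) ^ D 1) ^ 2 ≤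
      lc W v ^ (10 * n 0) * (Cg (L := L) h v ^ 2 *
        (⨆ k, v (evl ![P.xRep, ![u, 1]] (g k))) ^ 2) *
        ∏ j : Fin (n 0) × Bool, vn v (P + sg j.2 (A j.1)).xRep) ∧
    (v (c 1) ^ 2 * (vn v P.xRep ^ D 0 * max 1 (v u) ^ D 1) ^ 2 ≤
      (∏ i, (cst v 2 * max 1 (v (ρ i)⁻¹))) ^ 2 * (Cg (L := L) h v ^ 2 *
        (⨆ k, v (evl ![P.xRep, ![u, 1]] (g k))) ^ 2) *
        ∏ j : Fin (n 1) × Bool, max 1 (v (1 - u / ρ j.1)⁻¹)) := by
  have hx : (fun b => ![(![P.xRep 0, u] : Fin 2 → L) b, 1]) = ![P.xRep, ![u, 1]] := by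
    funext b
    fin_cases b
    · simpa using (xRep_eq hP).symm
    · simp
  have hm0 : vn v P.xRep = max 1 (v (P.xRep 0)) := by
    rw [vn_xRep v hP, max_comm]
  have hM : vn v P.xRep ^ D 0 * max 1 (v u) ^ D 1 =
      ∏ b, max 1 (v ((![P.xRep 0, u] : Fin 2 → L) b)) ^ D b := by
    rw [Fin.prod_univ_two, hm0]
    simp
  have hlc : (0 : ℝ) ≤ lc W v := zero_le_one.trans (one_le_lc W v)
  have hM0 : 0 ≤ vn v P.xRep ^ D 0 * max 1 (v u) ^ D 1 :=
    mul_nonneg (pow_nonneg (vn_nonneg v _) _) (pow_nonneg (zero_le_one.trans (le_max_left _ _)) _)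
  constructor
  · have h1 := hr0 ![P.xRep 0, u]
    have h2 := local_AS v H 0 ![P.xRep 0, u]
    have h3 := local_B W V hV v (n 0) P A hA
    rw [← hM] at h2
    rw [hx] at h1 h2
    have h1' : evl ![P.xRep, ![u, 1]] (r 0) = c 0 * ∏ i, wd (A i).xRep P.xRep := by
      rw [h1]
      have h4 : (![(![P.xRep 0, u] : Fin 2 → L) 0, 1] : Fin 2 → L) = P.xRep := by
        simpa using (xRep_eq hP).symm
      simp only [h4]
    have h5 : max 1 (v ((![P.xRep 0, u] : Fin 2 → L) 0)) = vn v P.xRep := by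
      rw [hm0]
      simp
    rw [h1', map_mul, h5] at h2
    exact M4b_cancel (n 0) (zero_lt_one.trans_le (one_le_vn_xRep v P)) (pow_nonneg hlc _)
      (v.nonneg _) (Finset.prod_nonneg fun j _ => vn_nonneg v _) (v.nonneg _) hM0 h3 h2
  · have h1 := hr1 ![P.xRep 0, u]
    have h2 := local_AS v H 1 ![P.xRep 0, u]
    have h3 := local_BS v (n 1) ρ u hρ hu
    rw [← hM] at h2
    rw [hx] at h1 h2
    have h1' : evl ![P.xRep, ![u, 1]] (r 1) = c 1 * ∏ i, (ρ i - u) := by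
      rw [h1]
      simp
    have h5 : max 1 (v ((![P.xRep 0, u] : Fin 2 → L) 1)) = max 1 (v u) := by
      simp
    rw [h1', map_mul, h5] at h2
    exact M4b_cancel (n 1) (zero_lt_one.trans_le (le_max_left _ _)) (sq_nonneg _)
      (v.nonneg _) (Finset.prod_nonneg fun j _ => zero_le_one.trans (le_max_left _ _))
      (v.nonneg _) hM0 h3 h2

theorem local_CS {K : Type*} [Field K] (W : WeierstrassCurve K) [W.IsElliptic]
    {L : Type*} [Field L] [DecidableEq L] [Algebra K L] (V : WeierstrassCurve L)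
    (hV : W.map (algebraMap K L) = V) (v : AbsoluteValue L ℝ)
    {κ : Type} [Fintype κ] {D : Fin 2 → ℕ} {g : κ → MvPolynomial (Fin 2 × Fin 2) K} {N : ℕ} {n : Fin 2 → ℕ}
    {r : Fin 2 → MvPolynomial (Fin 2 × Fin 2) K}
    {h : Fin 2 → (Fin 2 → Fin 2) → κ → MvPolynomial (Fin 2 × Fin 2) K}
    (H : ED D g N n r h) (A : Fin (n 0) → V.toAffine.Point) (ρ : Fin (n 1) → L)
    (c : Fin 2 → L) (hc : ∀ t, c t ≠ 0) (hρ : ∀ i, ρ i ≠ 0)
    (hr0 : ∀ x : Fin 2 → L,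
      evl (fun b => ![x b, 1]) (r 0) = c 0 * ∏ i, wd (A i).xRep ![x 0, 1])
    (hr1 : ∀ x : Fin 2 → L, evl (fun b => ![x b, 1]) (r 1) = c 1 * ∏ i, (ρ i - x 1))
    (P : V.toAffine.Point) (u : L) (hP : P ≠ 0) (hA : ∀ i, P + A i ≠ 0 ∧ P - A i ≠ 0)
    (hu : ∀ i, u ≠ ρ i) :
    2 * ((D 0 : ℝ) * Real.log (vn v P.xRep) + (D 1 : ℝ) * Real.log (max 1 (v u)) -
        Real.log (⨆ k, v (evl ![P.xRep, ![u, 1]] (g k)))) ≤
      CVS W n h ρ c v + ∑ j : (Fin (n 0) × Bool) × (Fin (n 1) × Bool),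
        min (Real.log (vn v (P + sg j.1.2 (A j.1.1)).xRep))
          (Real.log (max 1 (v (1 - u / ρ j.2.1)⁻¹))) := by
  have hgv0 : 0 ≤ ⨆ k, v (evl ![P.xRep, ![u, 1]] (g k)) :=
    Real.iSup_nonneg fun k => v.nonneg _
  obtain ⟨one0, one1⟩ := M4b_oneS W V hV v H A ρ c hρ hr0 hr1 P u hP hA hu
  set Gv := ⨆ k, v (evl ![P.xRep, ![u, 1]] (g k)) with hGv
  have hm0 : 0 < vn v P.xRep := zero_lt_one.trans_le (one_le_vn_xRep v P)
  have hm1 : 0 < max 1 (v u) := zero_lt_one.trans_le (le_max_left _ _)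
  have hvc : ∀ t, 0 < v (c t) := fun t => v.pos (hc t)
  have hvc0 : 0 < v (c 0) := hvc 0
  have hvc1 : 0 < v (c 1) := hvc 1
  have hGpos : 0 < Gv := by
    refine lt_of_le_of_ne hgv0 fun h0 => ?_
    rw [← h0] at one0
    have h2 : 0 < v (c 0) ^ 2 * (vn v P.xRep ^ D 0 * max 1 (v u) ^ D 1) ^ 2 :=
      mul_pos (pow_pos hvc0 2) (by positivity)
    have h3 : lc W v ^ (10 * n 0) * (Cg (L := L) h v ^ 2 * (0 : ℝ) ^ 2) *
        ∏ j : Fin (n 0) × Bool, vn v (P + sg j.2 (A j.1)).xRep = 0 := by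
      ring
    rw [h3] at one0
    exact absurd one0 (not_le.2 h2)
  have hCg : 1 ≤ Cg (L := L) h v := one_le_Cg v h
  have hCg0 : 0 < Cg (L := L) h v := zero_lt_one.trans_le hCg
  have hl0 : 0 < lc W v := zero_lt_one.trans_le (one_le_lc W v)
  have hcst : 1 ≤ cst v 2 := one_le_cst v (by norm_num)
  have hcst0 : 0 < cst v 2 := zero_lt_one.trans_le hcst
  have hll : 0 ≤ 10 * (n 0 : ℝ) * Real.log (lc W v) := by
    have := Real.log_nonneg (one_le_lc W v)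
    positivity
  have hcl : ∀ t, 0 ≤ 2 * Real.log (max 1 (v (c t)⁻¹)) := fun t =>
    mul_nonneg zero_le_two (Real.log_nonneg (le_max_left _ _))
  have hrl : 0 ≤ 2 * ∑ i, (Real.log (cst v 2) + Real.log (max 1 (v (ρ i)⁻¹))) :=
    mul_nonneg zero_le_two (Finset.sum_nonneg fun i _ =>
      add_nonneg (Real.log_nonneg hcst) (Real.log_nonneg (le_max_left _ _)))
  have hvcl : ∀ t, -Real.log (v (c t)) ≤ Real.log (max 1 (v (c t)⁻¹)) := fun t => by
    have h2 : Real.log (v (c t)⁻¹) ≤ Real.log (max 1 (v (c t)⁻¹)) := by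
      refine Real.log_le_log ?_ (le_max_right _ _)
      rw [map_inv₀]
      exact inv_pos.2 (hvc t)
    rwa [map_inv₀, Real.log_inv, ← map_inv₀] at h2
  have hct : ∀ t, 2 * Real.log (max 1 (v (c t)⁻¹)) ≤ ∑ t, 2 * Real.log (max 1 (v (c t)⁻¹)) :=
    fun t => Finset.single_le_sum (fun t _ => hcl t) (Finset.mem_univ t)
  have hlhs : ∀ t, Real.log (v (c t) ^ 2 * (vn v P.xRep ^ D 0 * max 1 (v u) ^ D 1) ^ 2) =
      2 * Real.log (v (c t)) + 2 * ((D 0 : ℝ) * Real.log (vn v P.xRep) +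
        (D 1 : ℝ) * Real.log (max 1 (v u))) := fun t => by
    rw [Real.log_mul (pow_pos (hvc t) 2).ne' (by positivity), Real.log_pow, Real.log_pow,
      Real.log_mul (pow_pos hm0 _).ne' (pow_pos hm1 _).ne', Real.log_pow, Real.log_pow]
    push_cast
    ring
  have hrhs : ∀ B Q : ℝ, 0 < B → 0 < Q → Real.log (B * (Cg (L := L) h v ^ 2 * Gv ^ 2) * Q) =
      Real.log B + 2 * Real.log (Cg (L := L) h v) + 2 * Real.log Gv + Real.log Q :=
    fun B Q hB hQ => by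
      rw [Real.log_mul (by positivity) hQ.ne', Real.log_mul hB.ne' (by positivity),
        Real.log_mul (by positivity) (by positivity), Real.log_pow, Real.log_pow]
      push_cast
      ring
  have hlog0 : 2 * ((D 0 : ℝ) * Real.log (vn v P.xRep) + (D 1 : ℝ) * Real.log (max 1 (v u)) -
      Real.log Gv) ≤ CVS W n h ρ c v + ∑ j : Fin (n 0) × Bool,
        Real.log (vn v (P + sg j.2 (A j.1)).xRep) := by
    have hQ0 : 0 < ∏ j : Fin (n 0) × Bool, vn v (P + sg j.2 (A j.1)).xRep :=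
      Finset.prod_pos fun j _ => zero_lt_one.trans_le (one_le_vn_xRep v _)
    have h1 := Real.log_le_log (mul_pos (pow_pos hvc0 2) (by positivity)) one0
    rw [hlhs, hrhs _ _ (pow_pos hl0 _) hQ0, Real.log_pow,
      Real.log_prod (fun j _ => (zero_lt_one.trans_le (one_le_vn_xRep v _)).ne')] at h1
    push_cast at h1
    have h2 := hvcl 0
    have h3 := hct 0
    unfold CVS
    linarith
  have hlog1 : 2 * ((D 0 : ℝ) * Real.log (vn v P.xRep) + (D 1 : ℝ) * Real.log (max 1 (v u)) -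
      Real.log Gv) ≤ CVS W n h ρ c v + ∑ j : Fin (n 1) × Bool,
        Real.log (max 1 (v (1 - u / ρ j.1)⁻¹)) := by
    have hQ0 : 0 < ∏ j : Fin (n 1) × Bool, max 1 (v (1 - u / ρ j.1)⁻¹) :=
      Finset.prod_pos fun j _ => zero_lt_one.trans_le (le_max_left _ _)
    have hBp : 0 < ∏ i, (cst v 2 * max 1 (v (ρ i)⁻¹)) :=
      Finset.prod_pos fun i _ => mul_pos hcst0 (zero_lt_one.trans_le (le_max_left _ _))
    have hBl : Real.log (∏ i, (cst v 2 * max 1 (v (ρ i)⁻¹))) =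
        ∑ i, (Real.log (cst v 2) + Real.log (max 1 (v (ρ i)⁻¹))) := by
      rw [Real.log_prod (fun i _ =>
        (mul_pos hcst0 (zero_lt_one.trans_le (le_max_left _ _))).ne')]
      exact Finset.sum_congr rfl fun i _ =>
        Real.log_mul hcst0.ne' (zero_lt_one.trans_le (le_max_left _ _)).ne'
    have h1 := Real.log_le_log (mul_pos (pow_pos hvc1 2) (by positivity)) one1
    rw [hlhs, hrhs _ _ (pow_pos hBp _) hQ0, Real.log_pow, hBl,
      Real.log_prod (fun j _ => (zero_lt_one.trans_le (le_max_left _ _)).ne')] at h1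
    push_cast at h1
    have h2 := hvcl 1
    have h3 := hct 1
    unfold CVS
    linarith
  have hmin := min_sum_le (fun j : Fin (n 0) × Bool => Real.log (vn v (P + sg j.2 (A j.1)).xRep))
    (fun j : Fin (n 1) × Bool => Real.log (max 1 (v (1 - u / ρ j.1)⁻¹)))
    (fun j => Real.log_nonneg (one_le_vn_xRep v _)) (fun j => Real.log_nonneg (le_max_left _ _))
  rw [← Fintype.sum_prod_type'] at hmin
  refine le_trans ?_ (add_le_add_right hmin (CVS W n h ρ c v))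
  rcases le_total (∑ j : Fin (n 0) × Bool, Real.log (vn v (P + sg j.2 (A j.1)).xRep))
    (∑ j : Fin (n 1) × Bool, Real.log (max 1 (v (1 - u / ρ j.1)⁻¹))) with hle | hle
  · rw [min_eq_left hle]
    exact hlog0
  · rw [min_eq_right hle]
    exact hlog1

end Pool.Agent.Lib.MP_17a322_nt.VS
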