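import Pool.Agent.Lib.MP_17a322_nt.VS.M4b
import Pool.Agent.Lib.MP_17a322_nt.VS.M3
import Pool.Agent.Lib.MP_17a322_nt.VJ.E7

/-!
The global inequality (as VJ/M5).
-/

universe u

namespace Pool.Agent.Lib.MP_17a322_nt.VS

open MvPolynomial Height
open Pool.Agent.Lib.MP_17a322_nt.RO Pool.Agent.Lib.MP_17a322_nt.RV Pool.Agent.Lib.MP_17a322_nt.VJ

theorem FS_CVS {K : Type u} [Field K] [NumberField K] (W : WeierstrassCurve K)
    {L : Type u} [Field L] [NumberField L] [Algebra K L] {κ : Type} [Fintype κ] (n : Fin 2 → ℕ)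
    (h : Fin 2 → (Fin 2 → Fin 2) → κ → MvPolynomial (Fin 2 × Fin 2) K) (ρ : Fin (n 1) → L)
    (c : Fin 2 → L) : FS (fun v : AbsoluteValue L ℝ => CVS W n h ρ c v) := by
  have h1 : ∀ x : ℝ, max 1 x ≠ 0 := fun x => (lt_max_of_lt_left one_pos).ne'
  have h2 : ∀ v : AbsoluteValue L ℝ, Real.log (Cg (L := L) h v) =
      Real.log (cst v (Fintype.card κ + 1)) + ∑ p : Fin 2 × (Fin 2 → Fin 2) × κ,
        Real.log (max 1 (NV v (MvPolynomial.map (algebraMap K L) (h p.1 p.2.1 p.2.2)))) := by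
    intro v
    unfold Cg
    rw [Real.log_mul, Real.log_prod]
    · exact fun i _ => h1 _
    · exact (one_pos.trans_le (one_le_cst v (by omega))).ne'
    · exact Finset.prod_ne_zero_iff.mpr fun i _ => h1 _
  simp only [CVS, h2]
  exact FS_add (FS_add (FS_add
    (FS_const_mul 2 (FS_add (FS_log_cst _) (FS_sum _ fun p _ => FS_log_max_NV _)))
    (FS_const_mul _ (FS_log_lc _)))
    (FS_const_mul 2 (FS_sum _ fun i _ => FS_add (FS_log_cst _) (FS_log_max _))))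
    (FS_sum _ fun t _ => FS_const_mul 2 (FS_log_max _))

/-- The family of vectors in affine form. -/
theorem VSM5_vec {L : Type*} [Field L] [DecidableEq L] {V : WeierstrassCurve L}
    {P : V.toAffine.Point} (hP : P ≠ 0) (u : L) :
    (![P.xRep, ![u, 1]] : Fin 2 → Fin 2 → L) =
      fun b => ![(![P.xRep 0, u] : Fin 2 → L) b, 1] := by
  funext b
  fin_cases b
  · exact xRep_eq hP
  · rfl

theorem exists_ne_zero_evlS {K : Type*} [Field K] {L : Type*} [Field L] [DecidableEq L]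
    [Algebra K L] (V : WeierstrassCurve L)
    {κ : Type} [Fintype κ] {D : Fin 2 → ℕ} {g : κ → MvPolynomial (Fin 2 × Fin 2) K} {N : ℕ} {n : Fin 2 → ℕ}
    {r : Fin 2 → MvPolynomial (Fin 2 × Fin 2) K}
    {h : Fin 2 → (Fin 2 → Fin 2) → κ → MvPolynomial (Fin 2 × Fin 2) K}
    (H : ED D g N n r h) (A : Fin (n 0) → V.toAffine.Point) (c : Fin 2 → L)
    (hc : ∀ t, c t ≠ 0)
    (hr0 : ∀ x : Fin 2 → L,
      evl (fun b => ![x b, 1]) (r 0) = c 0 * ∏ i, wd (A i).xRep ![x 0, 1])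
    (P : V.toAffine.Point) (u : L) (hP : P ≠ 0) (hA : ∀ i, P + A i ≠ 0 ∧ P - A i ≠ 0) :
    (fun k => evl ![P.xRep, ![u, 1]] (g k)) ≠ 0 := by
  intro h0
  have h1 := congrArg (evl ![P.xRep, ![u, 1]]) (H.rel 0 (fun _ => 1))
  have h2 : ∀ k, evl ![P.xRep, ![u, 1]] (g k) = 0 := fun k => congrFun h0 k
  have h3 : evl ![P.xRep, ![u, 1]] (∑ k, h 0 (fun _ => 1) k * g k) = 0 := by
    unfold evl
    rw [map_sum]
    refine Finset.sum_eq_zero fun k _ => ?_
    rw [map_mul]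
    have := h2 k
    unfold evl at this
    rw [this, mul_zero]
  have h4 : evl ![P.xRep, ![u, 1]]
      (∏ b : Fin 2, (X (b, 1) : MvPolynomial (Fin 2 × Fin 2) K) ^ N) = 1 := by
    unfold evl
    rw [map_prod]
    refine Finset.prod_eq_one fun b _ => ?_
    rw [map_pow, aeval_X]
    show (![P.xRep, ![u, 1]] : Fin 2 → Fin 2 → L) b 1 ^ N = 1
    rw [VSM5_vec hP]
    simp
  have h5 : evl ![P.xRep, ![u, 1]] (r 0) = 0 := by
    have h6 : evl ![P.xRep, ![u, 1]] (r 0 * ∏ b : Fin 2, X (b, 1) ^ N) =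
        evl ![P.xRep, ![u, 1]] (r 0) *
        evl ![P.xRep, ![u, 1]] (∏ b : Fin 2, (X (b, 1) : MvPolynomial (Fin 2 × Fin 2) K) ^ N) := by
      unfold evl
      rw [map_mul]
    rw [h4, mul_one] at h6
    rw [← h6, h1, h3]
  rw [VSM5_vec hP, hr0 ![P.xRep 0, u], mul_eq_zero] at h5
  rcases h5 with h5 | h5
  · exact hc 0 h5
  · rw [Finset.prod_eq_zero_iff] at h5
    obtain ⟨i, _, hi⟩ := h5
    have hi' : wd (A i).xRep P.xRep = 0 := by
      rw [xRep_eq hP]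
      exact hi
    rcases eq_or_eq_neg hi' with h8 | h8
    · exact (hA i).2 (by rw [h8, sub_self])
    · exact (hA i).1 (by rw [h8, add_neg_cancel])

theorem M5_globalS {K : Type u} [Field K] [NumberField K] (W : WeierstrassCurve K)
    [W.IsElliptic] {L : Type u} [Field L] [NumberField L] [DecidableEq L] [Algebra K L]
    (V : WeierstrassCurve L) (hV : W.map (algebraMap K L) = V)
    {κ : Type} [Fintype κ] {D : Fin 2 → ℕ} {g : κ → MvPolynomial (Fin 2 × Fin 2) K} {N : ℕ} {n : Fin 2 → ℕ}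
    {r : Fin 2 → MvPolynomial (Fin 2 × Fin 2) K}
    {h : Fin 2 → (Fin 2 → Fin 2) → κ → MvPolynomial (Fin 2 × Fin 2) K}
    (H : ED D g N n r h) (A : Fin (n 0) → V.toAffine.Point) (ρ : Fin (n 1) → L)
    (c : Fin 2 → L) (hc : ∀ t, c t ≠ 0) (hρ : ∀ i, ρ i ≠ 0)
    (hr0 : ∀ x : Fin 2 → L,
      evl (fun b => ![x b, 1]) (r 0) = c 0 * ∏ i, wd (A i).xRep ![x 0, 1])
    (hr1 : ∀ x : Fin 2 → L, evl (fun b => ![x b, 1]) (r 1) = c 1 * ∏ i, (ρ i - x 1)) :
    ∃ C : ℝ, ∀ (P : V.toAffine.Point) (u : L), P ≠ 0 →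
      (∀ i, P + A i ≠ 0 ∧ P - A i ≠ 0) → (∀ i, u ≠ ρ i) →
      2 * ((D 0 : ℝ) * logHeight P.xRep + (D 1 : ℝ) * logHeight₁ u -
          logHeight (fun k => evl ![P.xRep, ![u, 1]] (g k))) ≤
        C + ∑ j : (Fin (n 0) × Bool) × (Fin (n 1) × Bool),
          hS (P + sg j.1.2 (A j.1.1)) (u / ρ j.2.1) := by
  refine ⟨gs (fun v : AbsoluteValue L ℝ => CVS W n h ρ c v), fun P u hP hA hu => ?_⟩
  have hne := exists_ne_zero_evlS V H A c hc hr0 P u hP hA
  have hQ : ∀ j : (Fin (n 0) × Bool) × (Fin (n 1) × Bool), P + sg j.1.2 (A j.1.1) ≠ 0 := by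
    intro j
    unfold sg
    split_ifs
    · exact (hA _).1
    · rw [← sub_eq_add_neg]
      exact (hA _).2
  have hfP : FS (fun v : AbsoluteValue L ℝ => (D 0 : ℝ) * Real.log (vn v P.xRep)) :=
    FS_const_mul _ (FS_log_vn (xRep_ne_zero _))
  have hfu : FS (fun v : AbsoluteValue L ℝ => (D 1 : ℝ) * Real.log (max 1 (v u))) :=
    FS_const_mul _ (FS_log_max _)
  have hf1 := FS_add hfP hfu
  have hf2 : FS (fun v : AbsoluteValue L ℝ =>
      Real.log (⨆ k, v (evl ![P.xRep, ![u, 1]] (g k)))) := FS_log_iSup hne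
  have hm : ∀ j : (Fin (n 0) × Bool) × (Fin (n 1) × Bool), FS (fun v : AbsoluteValue L ℝ =>
      min (Real.log (vn v (P + sg j.1.2 (A j.1.1)).xRep))
        (Real.log (max 1 (v (1 - u / ρ j.2.1)⁻¹)))) := fun j => FS_minS _ (hQ j) _
  have hg2 : FS (fun v : AbsoluteValue L ℝ => ∑ j : (Fin (n 0) × Bool) × (Fin (n 1) × Bool),
      min (Real.log (vn v (P + sg j.1.2 (A j.1.1)).xRep))
        (Real.log (max 1 (v (1 - u / ρ j.2.1)⁻¹)))) :=
    FS_sum _ fun j _ => hm j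
  have h1 := gs_le (FS_const_mul 2 (FS_sub hf1 hf2)) (FS_add (FS_CVS W n h ρ c) hg2)
    (fun v _ => local_CS W V hV v H A ρ c hc hρ hr0 hr1 P u hP hA hu)
  rw [gs_const_mul, gs_sub hf1 hf2, gs_add (FS_CVS W n h ρ c) hg2, gs_add hfP hfu,
    gs_sum Finset.univ (fun j _ => hm j), gs_log_iSup hne] at h1
  have h2 : gs (fun v : AbsoluteValue L ℝ => (D 0 : ℝ) * Real.log (vn v P.xRep)) =
      (D 0 : ℝ) * logHeight P.xRep := by
    rw [gs_const_mul, gs_log_vn (xRep_ne_zero _)]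
  have h2' : gs (fun v : AbsoluteValue L ℝ => (D 1 : ℝ) * Real.log (max 1 (v u))) =
      (D 1 : ℝ) * logHeight₁ u := by
    rw [gs_const_mul, gs_log_max]
  have h3 : ∀ j : (Fin (n 0) × Bool) × (Fin (n 1) × Bool), gs (fun v : AbsoluteValue L ℝ =>
      min (Real.log (vn v (P + sg j.1.2 (A j.1.1)).xRep))
        (Real.log (max 1 (v (1 - u / ρ j.2.1)⁻¹)))) =
      hS (P + sg j.1.2 (A j.1.1)) (u / ρ j.2.1) := fun j =>
    (hS_eq_gs _ (hQ j) _).symm
  simp only [h2, h2', h3] at h1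
  exact h1

end Pool.Agent.Lib.MP_17a322_nt.VS
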