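import Pool.Agent.Lib.MP_17a322_nt.VS.M0
import Pool.Agent.Lib.MP_17a322_nt.VJ.M7
import Pool.Agent.Lib.MP_17a322_nt.VJ.E7

/-!
Heights of translates, exceptional fibres, common zeros.
-/

universe u

namespace Pool.Agent.Lib.MP_17a322_nt.VS

open MvPolynomial Height
open Pool.Agent.Lib.MP_17a322_nt.RO Pool.Agent.Lib.MP_17a322_nt.RV Pool.Agent.Lib.MP_17a322_nt.VJ

theorem HS_shift_le {K : Type u} [Field K] [NumberField K] (W : WeierstrassCurve K)
    [W.IsElliptic] {L : Type u} [Field L] [NumberField L] [DecidableEq L] [Algebra K L]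
    (V : WeierstrassCurve L) (hV : W.map (algebraMap K L) = V) (b : V.toAffine.Point) (ρ : L)
    (hρ : ρ ≠ 0) :
    ∃ C : ℝ, ∀ (P : V.toAffine.Point) (u : L),
      HS (P + b) (u / ρ) ≤ 2 * (logHeight P.xRep + logHeight₁ u) + C := by
  obtain ⟨Cu, hCu, hE⟩ := height_unif W
  obtain ⟨-, h2, -, -⟩ := hE L V hV
  refine ⟨2 * logHeight b.xRep + Cu * Module.finrank ℚ L + totalWeight L * Real.log 2 +
    logHeight₁ ρ, fun P u => ?_⟩
  have h3 := h2 P b
  have h4 : logHeight₁ (1 - u / ρ)⁻¹ ≤ totalWeight L * Real.log 2 + logHeight₁ (u / ρ) := by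
    rw [logHeight₁_inv]
    have h5 := logHeight₁_sub_le (1 : L) (u / ρ)
    rw [logHeight₁_one] at h5
    linarith
  have h6 : logHeight₁ (u / ρ) ≤ logHeight₁ u + logHeight₁ ρ := by
    rw [div_eq_mul_inv, ← logHeight₁_inv ρ]
    exact logHeight₁_mul_le u ρ⁻¹
  have h7 := zero_le_logHeight₁ u
  unfold HS
  linarith

/-- The translates of a point outside of the fibres given by the eliminants. -/
theorem avoidS {K L : Type u} [Field K] [Field L] [DecidableEq L] [Algebra K L]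
    (V : WeierstrassCurve L) {n : Fin 2 → ℕ} (r : Fin 2 → MvPolynomial (Fin 2 × Fin 2) K)
    (A : Fin (n 0) → V.toAffine.Point) (ρ : Fin (n 1) → L) (c : Fin 2 → L)
    (hr0 : ∀ x : Fin 2 → L,
      evl (fun b => ![x b, 1]) (r 0) = c 0 * ∏ i, wd (A i).xRep ![x 0, 1])
    (hr1 : ∀ x : Fin 2 → L, evl (fun b => ![x b, 1]) (r 1) = c 1 * ∏ i, (ρ i - x 1))
    (P : V.toAffine.Point) (hP : P ≠ 0) (x u : K) (hx : P.xRep 0 = algebraMap K L x)
    (h0 : evl (fun _ => ![x, 1]) (r 0) ≠ (0 : K)) (h1 : evl (fun _ => ![u, 1]) (r 1) ≠ (0 : K)) :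
    (∀ i, P + A i ≠ 0 ∧ P - A i ≠ 0) ∧ ∀ i, algebraMap K L u ≠ ρ i := by
  have key : ∀ (f : MvPolynomial (Fin 2 × Fin 2) K) (y : K), evl (fun _ => ![y, 1]) f ≠ (0 : K) →
      evl (fun _ => ![algebraMap K L y, 1]) f ≠ (0 : L) := by
    intro f y hy
    have h2 : evl (fun _ => ![algebraMap K L y, 1]) f =
        algebraMap K L (evl (fun _ => ![y, 1]) f) := by
      have h3 : (fun _ => ![algebraMap K L y, 1] : Fin 2 → Fin 2 → L) =
          fun _ i => algebraMap K L ((![y, 1] : Fin 2 → K) i) := by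
        funext _ i
        fin_cases i
        · rfl
        · exact (map_one _).symm
      rw [h3]
      unfold evl
      exact (comp_aeval_apply (fun p : Fin 2 × Fin 2 => (![y, 1] : Fin 2 → K) p.2)
        (Algebra.ofId K L) f).symm
    rw [h2]
    exact fun h3 => hy ((map_eq_zero_iff _ (algebraMap K L).injective).1 h3)
  have h2 := key _ _ h0
  have h3 := key _ _ h1
  rw [hr0 (fun _ => algebraMap K L x)] at h2
  rw [hr1 (fun _ => algebraMap K L u)] at h3
  have h4 := Finset.prod_ne_zero_iff.1 (right_ne_zero_of_mul h2)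
  have h5 := Finset.prod_ne_zero_iff.1 (right_ne_zero_of_mul h3)
  have hPx : P.xRep = ![algebraMap K L x, 1] := by
    rw [xRep_eq hP, hx]
  have h6 : ∀ i, ¬ ((A i) = P ∨ (A i) = -P) := by
    intro i h
    refine h4 i (Finset.mem_univ i) ?_
    rw [← hPx]
    rcases h with h | h
    · rw [h]
      unfold wd
      ring
    · rw [h, xRep_neg]
      unfold wd
      ring
  refine ⟨fun i => ⟨fun h => h6 i (Or.inr (eq_neg_of_add_eq_zero_right h)),
    fun h => h6 i (Or.inl (sub_eq_zero.1 h).symm)⟩, fun i h => ?_⟩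
  refine h5 i (Finset.mem_univ i) ?_
  rw [h, sub_self]

/-- Common zeros of the homogenised forms. -/
theorem OnY_hom {K : Type u} [Field K] (m : ℕ) (g : Fin m → MvPolynomial (Fin 2) K)
    (d : Fin 2 → ℕ) (t : Fin 2) (w : Fin 2 → K) (h : OnY (fun k => hom (g k) d) t w) :
    ∃ X Z : Fin 2 → AlgebraicClosure K, (∀ i, X i ≠ 0 ∨ Z i ≠ 0) ∧
      (∀ k, ∑ e ∈ (g k).support, algebraMap K (AlgebraicClosure K) ((g k).coeff e) *
        ∏ i, (X i ^ e i * Z i ^ (d i - e i)) = 0) ∧
      algebraMap K (AlgebraicClosure K) (w 0) * Z t =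
        algebraMap K (AlgebraicClosure K) (w 1) * X t := by
  obtain ⟨z, hz, hg, hw⟩ := h
  refine ⟨fun i => z i 0, fun i => z i 1, ?_, fun k => ?_, hw⟩
  · intro i
    by_contra hcon
    rw [not_or, not_not, not_not] at hcon
    refine hz i (funext fun j => ?_)
    fin_cases j
    · exact hcon.1
    · exact hcon.2
  · have h := hg k
    rw [G4_evl_hom] at h
    exact h

end Pool.Agent.Lib.MP_17a322_nt.VS
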