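import Pool.Agent.Lib.MP_17a322_nt.VS.M0
import Pool.Agent.Lib.MP_17a322_nt.VJ.A4

/-!
# JOB M7b: the counting function under a division

* `FS_cS`: for `u ≠ 0` the function `v ↦ if v.val ∈ S then 0 else |log (v u)|` has finite support (`FS_log_abv`, VJ/A4).
* `cS_div_le`: `finsum_le_finsum'`-like (see `gs_le` in VJ/A4) and `finsum_add_distrib`; pointwise `|log (v (u / ρ))| = |log (v u) - log (v ρ)| ≤ ..`
  (`map_div₀`, `Real.log_div`, `abs_sub`).
-/

universe u

namespace Pool.Agent.Lib.MP_17a322_nt.VS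

open MvPolynomial Height
open Pool.Agent.Lib.MP_17a322_nt.RO Pool.Agent.Lib.MP_17a322_nt.RV Pool.Agent.Lib.MP_17a322_nt.VJ

theorem FS_cS {K : Type u} [Field K] [AdmissibleAbsValues K] (S : Set (AbsoluteValue K ℝ))
    {u : K} (hu : u ≠ 0) :
    open Classical in
    FS (fun v : AbsoluteValue K ℝ => if v ∈ S then 0 else |Real.log (v u)|) := by
  refine (FS_log_abv hu).subset fun v hv => ?_
  intro h0
  refine hv ?_
  have h1 : Real.log (v.val u) = 0 := h0
  simp only [h1, abs_zero, ite_self]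

theorem cS_div_le {K : Type u} [Field K] [AdmissibleAbsValues K] (S : Set (AbsoluteValue K ℝ))
    {u ρ : K} (hu : u ≠ 0) (hρ : ρ ≠ 0) : cS S (u / ρ) ≤ cS S u + cS S ρ := by
  classical
  have h1 := A4_hfs (FS_cS S hu)
  have h2 := A4_hfs (FS_cS S hρ)
  have h3 := A4_hfs (FS_cS S (div_ne_zero hu hρ))
  unfold cS
  rw [← finsum_add_distrib h1 h2]
  refine finsum_le_finsum' h3 (h1.add h2) fun v => ?_
  show (if v.val ∈ S then (0 : ℝ) else |Real.log (v.val (u / ρ))|) ≤
    (if v.val ∈ S then (0 : ℝ) else |Real.log (v.val u)|) +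
      (if v.val ∈ S then (0 : ℝ) else |Real.log (v.val ρ)|)
  split_ifs
  · rw [add_zero]
  · rw [map_div₀, Real.log_div (v.val.pos hu).ne' (v.val.pos hρ).ne']
    exact abs_sub _ _

end Pool.Agent.Lib.MP_17a322_nt.VS
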