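import Pool.Agent.Lib.MP_17a322_nt.VS.M0
import Pool.Agent.Lib.MP_17a322_nt.VJ.A7

/-!
# JOB M7c: finite places above finite places

`K ⊆ L` number fields. The finite places of `K` are the absolute values `adicAbv K v` for `v : HeightOneSpectrum (𝓞 K)`
(`Mathlib/NumberTheory/NumberField/Completion/FinitePlace.lean`: `FinitePlace.mk`, `FinitePlace.maximalIdeal`, `FinitePlace.equivHeightOneSpectrum`,
`adicAbv_def`; `adicAbv K v x = toNNReal (absNorm_ne_zero v) (v.valuation K x)`), and `nonarchAbsVal = {v | IsFinitePlace v}` (`Mathlib/NumberTheory/Height/NumberField.lean`).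
Let `w : HeightOneSpectrum (𝓞 L)` and let `v` be the prime below (`w.asIdeal.comap (algebraMap (𝓞 K) (𝓞 L))`, nonzero prime; `Ideal.over_def`, `LiesOver`).
Put `e = v.asIdeal.ramificationIdx' w.asIdeal`, `f = v.asIdeal.inertiaDeg' w.asIdeal`. Then for `x : K`
`w.valuation L (algebraMap K L x) = v.valuation K x ^ e` (`valuation_liesOver`, `Mathlib/NumberTheory/RamificationInertia/Valuation.lean`) and
`absNorm w.asIdeal = absNorm v.asIdeal ^ f` (`Ideal.absNorm_eq_pow_inertiaDeg'`-like, search), so
`adicAbv L w (algebraMap K L x) = adicAbv K v x ^ (e * f)` (*). And `∑ w above v, e * f = [L : K]` (`Ideal.sum_ramification_inertia`; it is enough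
to know that every `e * f ≤ [L : K]` and that there are at most `[L : K]` places `w` above `v`, `card_primesOverFinset_le_finrank`).
* `exists_below`: for every finite place `w` of `L` (element of `nonarchAbsVal`) the finite place `v` of `K` below, with (*) in the form
  `w (algebraMap K L x) = v x ^ n w`, `n w ≤ [L : K]`; each `v` has at most `[L : K]` preimages.
* `exists_SL`: `π` and `n` from `exists_below`. `S' = {w | ∃ h : w ∈ nonarchAbsVal, (π ⟨w, h⟩).val ∈ S}` is finite (finite union of finite fibres). For `u ≠ 0`: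
  `cS S' u = ∑ᶠ w, if (π w).val ∈ S then 0 else n w * |log (π w u)|`. The function `F v = if v.val ∈ S then 0 else |log (v u)|` has finite support `T`
  (`FS_log_abv`, VJ/A4), the function of `w` has its support in `π ⁻¹ T`, a finite set; as finite sums (`finsum_eq_sum_of_support_subset`,
  `Finset.sum_fiberwise_of_maps_to`): `∑ w ∈ π ⁻¹ T, n w * F (π w) = ∑ v ∈ T, ∑ w above v, n w * F v ≤ ∑ v ∈ T, d * d * F v`, `d = [L : K]`. `C = d ^ 2`.
-/

universe u

namespace Pool.Agent.Lib.MP_17a322_nt.VS

open MvPolynomial Height NumberField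
open Pool.Agent.Lib.MP_17a322_nt.RO Pool.Agent.Lib.MP_17a322_nt.RV Pool.Agent.Lib.MP_17a322_nt.VJ

open IsDedekindDomain HeightOneSpectrum WithZeroMulInt in
theorem VSM7c_toNNReal {a b : NNReal} (ha : a ≠ 0) (hb : b ≠ 0) {f : ℕ} (hf : f ≠ 0)
    (h : b = a ^ f) (x : WithZero (Multiplicative ℤ)) :
    toNNReal hb x = toNNReal ha x ^ f := by
  rcases eq_or_ne x 0 with hx | hx
  · rw [toNNReal_pos_apply hb hx, toNNReal_pos_apply ha hx, zero_pow hf]
  · rw [toNNReal_neg_apply hb hx, toNNReal_neg_apply ha hx, h, ← zpow_natCast, ← zpow_natCast,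
      ← zpow_mul, ← zpow_mul, mul_comm]

open IsDedekindDomain HeightOneSpectrum in
theorem VSM7c_abv {K L : Type u} [Field K] [NumberField K] [Field L] [NumberField L]
    [Algebra K L] (v : HeightOneSpectrum (𝓞 K)) (w : HeightOneSpectrum (𝓞 L))
    (hvw : w.asIdeal.LiesOver v.asIdeal) (x : K) :
    HeightOneSpectrum.adicAbv L w (algebraMap K L x) = HeightOneSpectrum.adicAbv K v x ^
      (v.asIdeal.ramificationIdx' w.asIdeal * v.asIdeal.inertiaDeg' w.asIdeal) := by
  have hmax : v.asIdeal.IsMaximal := v.isMaximal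
  have hf : v.asIdeal.inertiaDeg' w.asIdeal ≠ 0 := Ideal.inertiaDeg'_ne_zero _ _
  have h1 : Ideal.absNorm w.asIdeal = Ideal.absNorm v.asIdeal ^ v.asIdeal.inertiaDeg' w.asIdeal :=
    Ideal.absNorm_eq_pow_inertiaDeg'_of_liesOver w.asIdeal v.asIdeal v.isPrime v.ne_bot
  have h2 : (Ideal.absNorm w.asIdeal : NNReal) =
      (Ideal.absNorm v.asIdeal : NNReal) ^ v.asIdeal.inertiaDeg' w.asIdeal := by
    exact_mod_cast h1
  rw [HeightOneSpectrum.adicAbv_def, HeightOneSpectrum.adicAbv_def,
    ← valuation_liesOver L v w x, map_pow,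
    VSM7c_toNNReal (HeightOneSpectrum.absNorm_ne_zero v) (HeightOneSpectrum.absNorm_ne_zero w)
      hf h2, ← pow_mul, mul_comm (v.asIdeal.inertiaDeg' w.asIdeal)]
  push_cast
  rfl

set_option linter.deprecated false in
open IsDedekindDomain HeightOneSpectrum in
theorem exists_below (K L : Type u) [Field K] [NumberField K] [Field L] [NumberField L]
    [Algebra K L] :
    ∃ (π : AdmissibleAbsValues.nonarchAbsVal (K := L) → AdmissibleAbsValues.nonarchAbsVal (K := K))
      (n : AdmissibleAbsValues.nonarchAbsVal (K := L) → ℕ),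
      (∀ w (x : K), w.val (algebraMap K L x) = (π w).val x ^ n w) ∧
      (∀ w, n w ≤ Module.finrank K L) ∧
      ∀ v, {w | π w = v}.Finite ∧ {w | π w = v}.ncard ≤ Module.finrank K L := by
  classical
  let mi : AdmissibleAbsValues.nonarchAbsVal (K := L) → HeightOneSpectrum (𝓞 L) :=
    fun w => FinitePlace.maximalIdeal (⟨w.val, w.property⟩ : FinitePlace L)
  let mk' : AdmissibleAbsValues.nonarchAbsVal (K := K) → HeightOneSpectrum (𝓞 K) :=
    fun w => FinitePlace.maximalIdeal (⟨w.val, w.property⟩ : FinitePlace K)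
  have hinj : Function.Injective mi := by
    intro w w' h
    have h1 := (FinitePlace.maximalIdeal_inj _ _).1 h
    exact Subtype.ext (congrArg Subtype.val h1)
  let un : AdmissibleAbsValues.nonarchAbsVal (K := L) → HeightOneSpectrum (𝓞 K) :=
    fun w => HeightOneSpectrum.under (𝓞 K) (mi w)
  have hlo : ∀ w, (mi w).asIdeal.LiesOver (un w).asIdeal := fun w => ⟨rfl⟩
  let π : AdmissibleAbsValues.nonarchAbsVal (K := L) →
      AdmissibleAbsValues.nonarchAbsVal (K := K) :=
    fun w => ⟨(FinitePlace.mk (un w)).val, (FinitePlace.mk (un w)).property⟩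
  have hπ : ∀ w, mk' (π w) = un w := fun w => FinitePlace.maximalIdeal_mk (un w)
  have hsum : ∀ v : HeightOneSpectrum (𝓞 K),
      ∑ P ∈ IsDedekindDomain.primesOverFinset v.asIdeal (𝓞 L),
        v.asIdeal.ramificationIdx' P * v.asIdeal.inertiaDeg' P = Module.finrank K L := by
    intro v
    have hmax : v.asIdeal.IsMaximal := v.isMaximal
    exact Ideal.sum_ramification_inertia (𝓞 L) K L v.ne_bot
  have hmem : ∀ (v : HeightOneSpectrum (𝓞 K)) (w : HeightOneSpectrum (𝓞 L)),
      w.asIdeal.LiesOver v.asIdeal →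
        w.asIdeal ∈ IsDedekindDomain.primesOverFinset v.asIdeal (𝓞 L) := by
    intro v w h
    have hmax : v.asIdeal.IsMaximal := v.isMaximal
    exact (IsDedekindDomain.mem_primesOverFinset_iff v.ne_bot (𝓞 L)).2 ⟨w.isPrime, h⟩
  refine ⟨π, fun w => (un w).asIdeal.ramificationIdx' (mi w).asIdeal *
    (un w).asIdeal.inertiaDeg' (mi w).asIdeal, ?_, ?_, ?_⟩
  · intro w x
    have h1 := VSM7c_abv (un w) (mi w) (hlo w) x
    have h2 : w.val (algebraMap K L x) = HeightOneSpectrum.adicAbv L (mi w) (algebraMap K L x) := by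
      rw [← FinitePlace.norm_embedding]
      exact (FinitePlace.norm_embedding_eq (⟨w.val, w.property⟩ : FinitePlace L) _).symm
    have h3 : (π w).val x = HeightOneSpectrum.adicAbv K (un w) x := by
      rw [← FinitePlace.norm_embedding]
      rfl
    rw [h2, h3, h1]
  · intro w
    rw [← hsum (un w)]
    exact Finset.single_le_sum (f := fun P => (un w).asIdeal.ramificationIdx' P *
      (un w).asIdeal.inertiaDeg' P) (fun _ _ => Nat.zero_le _) (hmem _ _ (hlo w))
  · intro v
    have hmap : Set.MapsTo (fun w => (mi w).asIdeal) {w | π w = v}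
        (IsDedekindDomain.primesOverFinset (mk' v).asIdeal (𝓞 L) : Set (Ideal (𝓞 L))) := by
      intro w hw
      have h1 : π w = v := hw
      have h2 : un w = mk' v := by
        rw [← hπ w, h1]
      rw [← h2]
      exact Finset.mem_coe.2 (hmem _ _ (hlo w))
    have hio : Set.InjOn (fun w => (mi w).asIdeal) {w | π w = v} := fun w _ w' _ h =>
      hinj (HeightOneSpectrum.ext h)
    refine ⟨Set.Finite.of_injOn hmap hio (Finset.finite_toSet _), ?_⟩
    have hmax : (mk' v).asIdeal.IsMaximal := (mk' v).isMaximal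
    have h3 : (IsDedekindDomain.primesOverFinset (mk' v).asIdeal (𝓞 L)).card ≤
        Module.finrank K L := by
      rw [← hsum (mk' v), Finset.card_eq_sum_ones]
      refine Finset.sum_le_sum fun P hP => ?_
      have hP1 := (IsDedekindDomain.mem_primesOverFinset_iff (mk' v).ne_bot (𝓞 L)).1 hP
      have : P.IsPrime := hP1.1
      have : P.LiesOver (mk' v).asIdeal := hP1.2
      refine Right.one_le_mul ?_ ?_
      · exact Nat.pos_iff_ne_zero.mpr <|
          Ideal.IsDedekindDomain.ramificationIdx'_ne_zero_of_liesOver _ (mk' v).ne_bot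
      · exact Nat.pos_iff_ne_zero.mpr <| Ideal.inertiaDeg'_ne_zero (mk' v).asIdeal P
    refine le_trans (Set.ncard_le_ncard_of_injOn _ hmap hio (Finset.finite_toSet _)) ?_
    rwa [Set.ncard_coe_finset]

theorem exists_SL {K L : Type u} [Field K] [NumberField K] [Field L] [NumberField L]
    [Algebra K L] (S : Set (AbsoluteValue K ℝ)) (hS : S.Finite) :
    ∃ S' : Set (AbsoluteValue L ℝ), S'.Finite ∧ ∃ C : ℝ, 0 ≤ C ∧
      ∀ u : K, u ≠ 0 → cS S' (algebraMap K L u) ≤ C * cS S u := by
  classical
  obtain ⟨π, n, h1, h2, h3⟩ := exists_below K L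
  set d : ℕ := Module.finrank K L with hd
  have hpre : ∀ T : Set (AdmissibleAbsValues.nonarchAbsVal (K := K)), T.Finite →
      (π ⁻¹' T).Finite := fun T hT => hT.preimage' fun b _ => (h3 b).1
  set S' : Set (AbsoluteValue L ℝ) :=
    {w | ∃ h : w ∈ AdmissibleAbsValues.nonarchAbsVal (K := L), (π ⟨w, h⟩).val ∈ S} with hS'
  have hmemS' : ∀ w : AdmissibleAbsValues.nonarchAbsVal (K := L),
      w.val ∈ S' ↔ (π w).val ∈ S := fun w =>
    ⟨fun ⟨_, h⟩ => h, fun h => ⟨w.property, h⟩⟩
  refine ⟨S', ?_, (d : ℝ) * d, by positivity, ?_⟩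
  · have hfin : (Subtype.val ⁻¹' S :
        Set (AdmissibleAbsValues.nonarchAbsVal (K := K))).Finite :=
      hS.preimage Subtype.val_injective.injOn
    refine ((hpre _ hfin).image Subtype.val).subset ?_
    rintro w ⟨hw, hw'⟩
    exact ⟨⟨w, hw⟩, hw', rfl⟩
  · intro u hu
    set F : AdmissibleAbsValues.nonarchAbsVal (K := K) → ℝ :=
      fun v => if v.val ∈ S then 0 else |Real.log (v.val u)| with hF
    have hF0 : ∀ v, 0 ≤ F v := by
      intro v
      simp only [hF]
      split_ifs
      · exact le_rfl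
      · exact abs_nonneg _
    have hFs : (Function.support F).Finite := by
      refine (FS_log_abv (L := K) hu).subset fun v hv => ?_
      intro h0
      apply hv
      have h0' : Real.log (v.val u) = 0 := h0
      simp only [hF, h0', abs_zero, ite_self]
    have hKs : cS S u = ∑ v ∈ hFs.toFinset, F v := by
      unfold cS
      refine finsum_eq_sum_of_support_subset F ?_
      simp
    have hG : ∀ w : AdmissibleAbsValues.nonarchAbsVal (K := L),
        (if w.val ∈ S' then 0 else |Real.log (w.val (algebraMap K L u))|) = n w * F (π w) := by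
      intro w
      by_cases hw : (π w).val ∈ S
      · rw [if_pos ((hmemS' w).2 hw)]
        simp only [hF, if_pos hw, mul_zero]
      · rw [if_neg (fun h => hw ((hmemS' w).1 h)), h1 w u, Real.log_pow, abs_mul, Nat.abs_cast]
        simp only [hF, if_neg hw]
    have hW : (π ⁻¹' (Function.support F)).Finite := hpre _ hFs
    have hLs : cS S' (algebraMap K L u) = ∑ w ∈ hW.toFinset, (n w : ℝ) * F (π w) := by
      have e : cS S' (algebraMap K L u) = ∑ᶠ w, (n w : ℝ) * F (π w) := by
        unfold cS
        refine finsum_congr fun w => ?_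
        rw [← hG w]
        congr
      rw [e]
      refine finsum_eq_sum_of_support_subset _ ?_
      intro w hw
      rw [Set.Finite.coe_toFinset]
      intro h0
      exact hw (by simp only [h0, mul_zero])
    rw [hLs, hKs, ← Finset.sum_fiberwise_of_maps_to (g := π) (t := hFs.toFinset)
      (fun w hw => by simpa using hw), Finset.mul_sum]
    refine Finset.sum_le_sum fun v _ => ?_
    have hcard : ((hW.toFinset.filter fun w => π w = v).card : ℝ) ≤ d := by
      have h4 : (hW.toFinset.filter fun w => π w = v).card ≤ {w | π w = v}.ncard := by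
        rw [← Set.ncard_coe_finset]
        refine Set.ncard_le_ncard ?_ (h3 v).1
        intro w hw
        simpa using (Finset.mem_filter.1 (Finset.mem_coe.1 hw)).2
      exact_mod_cast h4.trans (h3 v).2
    calc ∑ w ∈ hW.toFinset.filter (fun w => π w = v), (n w : ℝ) * F (π w)
        ≤ ∑ w ∈ hW.toFinset.filter (fun w => π w = v), (d : ℝ) * F v := by
          refine Finset.sum_le_sum fun w hw => ?_
          rw [(Finset.mem_filter.1 hw).2]
          exact mul_le_mul_of_nonneg_right (by exact_mod_cast h2 w) (hF0 v)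
      _ = (hW.toFinset.filter fun w => π w = v).card * ((d : ℝ) * F v) := by
          rw [Finset.sum_const, nsmul_eq_mul]
      _ ≤ (d : ℝ) * ((d : ℝ) * F v) :=
          mul_le_mul_of_nonneg_right hcard (mul_nonneg (Nat.cast_nonneg _) (hF0 v))
      _ = (d : ℝ) * d * F v := by ring

end Pool.Agent.Lib.MP_17a322_nt.VS
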