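import Pool.Agent.Lib.MP_17a322_nt.VS.M1c
import Pool.Agent.Lib.MP_17a322_nt.VS.M2
import Pool.Agent.Lib.MP_17a322_nt.VS.M3b
import Pool.Agent.Lib.MP_17a322_nt.VS.M5
import Pool.Agent.Lib.MP_17a322_nt.VS.M7a
import Pool.Agent.Lib.MP_17a322_nt.VS.M7b
import Pool.Agent.Lib.MP_17a322_nt.VS.M7c

/-!
# M8: reduction of an arbitrary finite set to the origin

* `M8_boundS`: let `J = (Fin (n 0) × Bool) × (Fin (n 1) × Bool)`, `b j = sg j.1.2 (A j.1.1)`. `T_S'` over `L` for the set `S'` of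
  `exists_SL` and `ε' = ε / (card J + 1)`. Sum the inequalities
  `hS (P + b j) (u / ρ j.2.1) ≤ ε' * (2 * (h(P) + h(u)) + C_j) + C₁ + C₂ * (C_S * cS S u + cS S' (ρ j.2.1))` over `J`.
* `mainVS`: `exists_elimT`, `exists_rootsT`, `avoidS`, `M8_boundS`.
-/

universe u

namespace Pool.Agent.Lib.MP_17a322_nt.VS

open MvPolynomial Height WeierstrassCurve
open Pool.Agent.Lib.MP_17a322_nt.RO Pool.Agent.Lib.MP_17a322_nt.RV Pool.Agent.Lib.MP_17a322_nt.VJ

theorem M8_boundS {K : Type u} [Field K] [NumberField K] (W : WeierstrassCurve K) [W.IsElliptic]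
    {L : Type u} [Field L] [NumberField L] [DecidableEq L] [Algebra K L]
    (V : WeierstrassCurve L) (hV : W.map (algebraMap K L) = V)
    {κ : Type} [Fintype κ] {D : Fin 2 → ℕ} {g : κ → MvPolynomial (Fin 2 × Fin 2) K} {N : ℕ}
    {n : Fin 2 → ℕ} {r : Fin 2 → MvPolynomial (Fin 2 × Fin 2) K}
    {h : Fin 2 → (Fin 2 → Fin 2) → κ → MvPolynomial (Fin 2 × Fin 2) K}
    (H : ED D g N n r h) (A : Fin (n 0) → V.toAffine.Point) (ρ : Fin (n 1) → L)
    (c : Fin 2 → L) (hc : ∀ t, c t ≠ 0) (hρ : ∀ i, ρ i ≠ 0)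
    (hr0 : ∀ x : Fin 2 → L,
      evl (fun b => ![x b, 1]) (r 0) = c 0 * ∏ i, wd (A i).xRep ![x 0, 1])
    (hr1 : ∀ x : Fin 2 → L, evl (fun b => ![x b, 1]) (r 1) = c 1 * ∏ i, (ρ i - x 1))
    (S : Set (AbsoluteValue K ℝ)) (hS' : S.Finite) (ε : ℝ) (hε : 0 < ε) :
    ∃ C : ℝ, 0 ≤ C ∧
      ∀ (P : V.toAffine.Point) (u : K), P ≠ 0 → u ≠ 0 →
        (∀ i, P + A i ≠ 0 ∧ P - A i ≠ 0) → (∀ i, algebraMap K L u ≠ ρ i) →
        2 * ((D 0 : ℝ) * logHeight P.xRep + (D 1 : ℝ) * logHeight₁ (algebraMap K L u) -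
          logHeight (fun k => evl ![P.xRep, ![algebraMap K L u, 1]] (g k))) ≤
          2 * ε * (logHeight P.xRep + logHeight₁ (algebraMap K L u)) + C * (1 + cS S u) := by
  have hell : V.IsElliptic := by
    rw [← hV]
    infer_instance
  set ε' : ℝ := ε / (Fintype.card ((Fin (n 0) × Bool) × (Fin (n 1) × Bool)) + 1) with hε'
  have hε'0 : 0 < ε' := by positivity
  obtain ⟨S', hS'f, CS', hCS', hcS⟩ := exists_SL (L := L) S hS'
  obtain ⟨C₁, C₂, hC₁, hC₂, hT⟩ := T_S' V S' hS'f ε' hε'0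
  set b : ((Fin (n 0) × Bool) × (Fin (n 1) × Bool)) → V.toAffine.Point :=
    fun j => sg j.1.2 (A j.1.1) with hb
  obtain ⟨C₀, hglob⟩ := M5_globalS W V hV H A ρ c hc hρ hr0 hr1
  choose Ch hCh using fun j : (Fin (n 0) × Bool) × (Fin (n 1) × Bool) =>
    HS_shift_le W V hV (b j) (ρ j.2.1) (hρ _)
  set B : ℝ := C₀ + ∑ j : (Fin (n 0) × Bool) × (Fin (n 1) × Bool),
    (ε' * Ch j + C₁ + C₂ * cS S' (ρ j.2.1)) with hB
  set M : ℝ := (Fintype.card ((Fin (n 0) × Bool) × (Fin (n 1) × Bool)) : ℝ) * (C₂ * CS') with hM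
  have hM0 : 0 ≤ M := by positivity
  refine ⟨|B| + M, add_nonneg (abs_nonneg _) hM0, ?_⟩
  intro P u hP hu h1 h1'
  have huL : algebraMap K L u ≠ 0 :=
    (map_ne_zero_iff _ (algebraMap K L).injective).2 hu
  have hbne : ∀ j, P + b j ≠ 0 := by
    intro j
    have h2 := h1 j.1.1
    rw [hb]
    show P + sg j.1.2 (A j.1.1) ≠ 0
    unfold sg
    split_ifs
    · exact h2.1
    · rw [← sub_eq_add_neg]
      exact h2.2
  have hune : ∀ j : (Fin (n 0) × Bool) × (Fin (n 1) × Bool),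
      algebraMap K L u / ρ j.2.1 ≠ 1 := by
    intro j h2
    rw [div_eq_one_iff_eq (hρ _)] at h2
    exact h1' _ h2
  have hcu := hcS u hu
  have hhO : ∀ j : (Fin (n 0) × Bool) × (Fin (n 1) × Bool),
      hS (P + b j) (algebraMap K L u / ρ j.2.1) ≤
      (ε' * (2 * (logHeight P.xRep + logHeight₁ (algebraMap K L u))) + C₂ * CS' * cS S u) +
        (ε' * Ch j + C₁ + C₂ * cS S' (ρ j.2.1)) := by
    intro j
    have h2 := hT (P + b j) (algebraMap K L u / ρ j.2.1) (hbne j)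
      (div_ne_zero huL (hρ _)) (hune j)
    have h3 := mul_le_mul_of_nonneg_left (hCh j P (algebraMap K L u)) hε'0.le
    have h4 := cS_div_le S' huL (hρ j.2.1)
    have h5 := mul_le_mul_of_nonneg_left (h4.trans (add_le_add_left hcu _)) hC₂
    linarith
  have h2 := hglob P (algebraMap K L u) hP h1 h1'
  have h3 : ∑ j : (Fin (n 0) × Bool) × (Fin (n 1) × Bool),
      hS (P + sg j.1.2 (A j.1.1)) (algebraMap K L u / ρ j.2.1) ≤
      ∑ j : (Fin (n 0) × Bool) × (Fin (n 1) × Bool),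
        ((ε' * (2 * (logHeight P.xRep + logHeight₁ (algebraMap K L u))) + C₂ * CS' * cS S u) +
          (ε' * Ch j + C₁ + C₂ * cS S' (ρ j.2.1))) :=
    Finset.sum_le_sum fun j _ => hhO j
  rw [Finset.sum_add_distrib, Finset.sum_const, Finset.card_univ, nsmul_eq_mul] at h3
  have hH0 : 0 ≤ logHeight P.xRep + logHeight₁ (algebraMap K L u) :=
    add_nonneg (logHeight_xRep_nonneg P) (zero_le_logHeight₁ _)
  have h4 : (Fintype.card ((Fin (n 0) × Bool) × (Fin (n 1) × Bool)) : ℝ) *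
      (ε' * (2 * (logHeight P.xRep + logHeight₁ (algebraMap K L u)))) ≤
        2 * ε * (logHeight P.xRep + logHeight₁ (algebraMap K L u)) := by
    have h5 : (Fintype.card ((Fin (n 0) × Bool) × (Fin (n 1) × Bool)) : ℝ) * ε' ≤ ε := by
      rw [hε', mul_div_assoc', div_le_iff₀ (by positivity)]
      nlinarith
    nlinarith
  have h5 := le_abs_self B
  have h6 := VSM3_cS_nonneg S u
  have h7 : 0 ≤ |B| * cS S u := mul_nonneg (abs_nonneg _) h6
  have h8 : 2 * ((D 0 : ℝ) * logHeight P.xRep + (D 1 : ℝ) * logHeight₁ (algebraMap K L u) -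
      logHeight (fun k => evl ![P.xRep, ![algebraMap K L u, 1]] (g k))) ≤
      2 * ε * (logHeight P.xRep + logHeight₁ (algebraMap K L u)) + (B + M * cS S u) := by
    have h9 : (Fintype.card ((Fin (n 0) × Bool) × (Fin (n 1) × Bool)) : ℝ) *
        (ε' * (2 * (logHeight P.xRep + logHeight₁ (algebraMap K L u))) + C₂ * CS' * cS S u) ≤
        2 * ε * (logHeight P.xRep + logHeight₁ (algebraMap K L u)) + M * cS S u := by
      rw [mul_add, hM]
      linarith
    rw [hB]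
    linarith
  have h9 : (|B| + M) * (1 + cS S u) = |B| + M * cS S u + (|B| * cS S u + M) := by ring
  rw [h9]
  linarith

/-- Section 12: an arbitrary finite set without points on `u = 0`, `u = ∞`. -/
theorem mainVS {K : Type u} [Field K] [NumberField K] [DecidableEq K]
    (W : WeierstrassCurve K) [W.IsElliptic] (S : Set (AbsoluteValue K ℝ)) (hS : S.Finite)
    {κ : Type} [Fintype κ] (D : Fin 2 → ℕ)
    (g : κ → MvPolynomial (Fin 2 × Fin 2) K) (hg : ∀ k, MH (g k) D) (hdim : DimLT g 1)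
    (h0 : ¬ OnY g 1 ![0, 1]) (h1 : ¬ OnY g 1 ![1, 0]) (ε : ℝ) (hε : 0 < ε) :
    ∃ C : ℝ, ∀ (P : W.toAffine.Point) (u : K), P ≠ 0 → u ≠ 0 →
      ¬ OnY g 0 ![P.xRep 0, 1] → ¬ OnY g 1 ![u, 1] →
        (D 0 : ℝ) * logHeight P.xRep + (D 1 : ℝ) * logHeight₁ u -
          logHeight (fun k => evl ![P.xRep, ![u, 1]] (g k)) ≤
            ε * (logHeight P.xRep + logHeight₁ u) + C * (1 + cS S u) := by
  obtain ⟨N, n, r, h, H, hrY⟩ := exists_elimT D g hg hdim
  have hv0 : (![0, 1] : Fin 2 → K) ≠ 0 := fun h => one_ne_zero (congrFun h 1)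
  have hv1 : ∀ x : K, (![x, 1] : Fin 2 → K) ≠ 0 := fun x h => one_ne_zero (congrFun h 1)
  have hv2 : (![1, 0] : Fin 2 → K) ≠ 0 := fun h => one_ne_zero (congrFun h 0)
  obtain ⟨L, i₁, i₂, i₃, i₄, V, A, ρ, c, hV, hc, hρ, hr0, hr1⟩ :=
    exists_rootsT W n r H.ne H.mhr (fun h2 => h0 (hrY 1 _ hv0 h2)) (fun h2 => h1 (hrY 1 _ hv2 h2))
  obtain ⟨f, hf⟩ := exists_PB W V hV
  obtain ⟨C, hC, hB⟩ := M8_boundS W V hV H A ρ c hc hρ hr0 hr1 S hS ε hε
  have hd : (0 : ℝ) < Module.finrank K L := by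
    have : Module.Finite K L := Module.Finite.of_restrictScalars_finite ℚ K L
    exact_mod_cast Module.finrank_pos
  refine ⟨C / (2 * Module.finrank K L), ?_⟩
  intro P u hP hu hPY huY
  have hfP : f P ≠ 0 := fun h => hP ((hf.eq_zero P).1 h)
  obtain ⟨hA1, hu1⟩ := avoidS V r A ρ c hr0 hr1 (f P) hfP (P.xRep 0) u (hf P 0)
    (fun h2 => hPY (hrY 0 _ (hv1 _) h2)) (fun h2 => huY (hrY 1 _ (hv1 _) h2))
  have h1 := hB (f P) u hfP hu hA1 hu1
  have h3 : logHeight (fun k => evl ![(f P).xRep, ![algebraMap K L u, 1]] (g k)) =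
      Module.finrank K L * logHeight (fun k => evl ![P.xRep, ![u, 1]] (g k)) := by
    rw [← RV.logHeight_algebraMap]
    congr 1
    funext k
    unfold evl
    rw [← MvPolynomial.aeval_algebraMap_apply]
    congr 2
    funext p
    obtain ⟨p1, p2⟩ := p
    fin_cases p1
    · exact hf P p2
    · fin_cases p2
      · rfl
      · exact (map_one _).symm
  rw [hf.logHeight P, logHeight₁_algebraMap, h3] at h1
  have h4 : (Module.finrank K L : ℝ) * 2 * ((D 0 : ℝ) * logHeight P.xRep +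
      (D 1 : ℝ) * logHeight₁ u - logHeight (fun k => evl ![P.xRep, ![u, 1]] (g k))) ≤
      Module.finrank K L * 2 * (ε * (logHeight P.xRep + logHeight₁ u)) + C * (1 + cS S u) := by
    linarith
  have h5 : C / (2 * Module.finrank K L) * (1 + cS S u) * (Module.finrank K L * 2) =
      C * (1 + cS S u) := by
    field_simp
  nlinarith

end Pool.Agent.Lib.MP_17a322_nt.VS
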