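import Pool.Agent.Lib.MP_17a322_nt.VS.M8

/-!
# M9: the final statement
-/

universe u

namespace Pool.Agent.Lib.MP_17a322_nt.VS

open MvPolynomial Height WeierstrassCurve
open Pool.Agent.Lib.MP_17a322_nt.RO Pool.Agent.Lib.MP_17a322_nt.RV Pool.Agent.Lib.MP_17a322_nt.VJ

theorem finalVS {K : Type u} [Field K] [NumberField K] (W : WeierstrassCurve K) [W.IsElliptic]
    (S : Finset (NumberField.FinitePlace K))
    (m : ℕ) (g : Fin m → MvPolynomial (Fin 2) K) (d : Fin 2 → ℕ)
    (hd : ∀ k i, (g k).degreeOf i ≤ d i)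
    (hY : ∀ (F : Type u) [Field F] [Algebra K F] (X Z : Fin 2 → F),
      (∀ i, X i ≠ 0 ∨ Z i ≠ 0) →
      (∀ k, ∑ e ∈ (g k).support, algebraMap K F ((g k).coeff e) *
        ∏ i, (X i ^ e i * Z i ^ (d i - e i)) = 0) →
      (∀ i, IsAlgebraic K (X i / Z i)) ∧ X 1 ≠ 0 ∧ Z 1 ≠ 0)
    (ε : ℝ) (hε : 0 < ε) :
    open Classical in
    ∃ C : ℝ, ∀ x y u : K, W.toAffine.Nonsingular x y → u ≠ 0 →
      (∀ X Z : Fin 2 → AlgebraicClosure K, (∀ i, X i ≠ 0 ∨ Z i ≠ 0) →
        (∀ k, ∑ e ∈ (g k).support, algebraMap K (AlgebraicClosure K) ((g k).coeff e) *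
          ∏ i, (X i ^ e i * Z i ^ (d i - e i)) = 0) →
        algebraMap K (AlgebraicClosure K) x * Z 0 ≠ X 0 ∧
          algebraMap K (AlgebraicClosure K) u * Z 1 ≠ X 1) →
        (d 0 : ℝ) * logHeight₁ x + (d 1 : ℝ) * logHeight₁ u -
            logHeight (fun k => eval ![x, u] (g k)) ≤
          ε * (logHeight₁ x + logHeight₁ u) +
            C * (1 + ∑ᶠ v : NumberField.FinitePlace K, if v ∈ S then 0 else |Real.log (v u)|) := by
  classical
  obtain ⟨C, h1⟩ := mainVS W
    ((fun v : NumberField.FinitePlace K => v.val) '' (S : Set (NumberField.FinitePlace K)))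
    (S.finite_toSet.image _) d (fun k => hom (g k) d)
    (fun k => mh_hom (g k) d (hd k))
    (dimLT_one m g d fun F _ _ X Z hXZ h => (hY F X Z hXZ h).1)
    (fun h => by
      obtain ⟨X, Z, hXZ, h2, h3⟩ := OnY_hom m g d 1 ![0, 1] h
      have h4 := (hY (AlgebraicClosure K) X Z hXZ h2).2.1
      apply h4
      have h5 : algebraMap K (AlgebraicClosure K) 0 * Z 1 =
        algebraMap K (AlgebraicClosure K) 1 * X 1 := h3
      rw [map_zero, map_one, zero_mul, one_mul] at h5
      exact h5.symm)
    (fun h => by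
      obtain ⟨X, Z, hXZ, h2, h3⟩ := OnY_hom m g d 1 ![1, 0] h
      have h4 := (hY (AlgebraicClosure K) X Z hXZ h2).2.2
      apply h4
      have h5 : algebraMap K (AlgebraicClosure K) 1 * Z 1 =
        algebraMap K (AlgebraicClosure K) 0 * X 1 := h3
      rw [map_zero, map_one, zero_mul, one_mul] at h5
      exact h5) ε hε
  refine ⟨C, ?_⟩
  intro x y u h hu hex
  have h7 : (Affine.Point.some x y h : W.toAffine.Point).xRep = ![x, 1] :=
    Affine.Point.xRep_some ..
  have hP0 : (Affine.Point.some x y h : W.toAffine.Point).xRep 0 = x := by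
    rw [h7]
    rfl
  have h8 := h1 (Affine.Point.some x y h) u (Affine.Point.some_ne_zero h) hu
    (fun h2 => by
      rw [hP0] at h2
      obtain ⟨X, Z, hXZ, h3, h4⟩ := OnY_hom m g d 0 ![x, 1] h2
      apply (hex X Z hXZ h3).1
      have h5 : algebraMap K (AlgebraicClosure K) x * Z 0 =
        algebraMap K (AlgebraicClosure K) 1 * X 0 := h4
      rw [map_one, one_mul] at h5
      exact h5)
    (fun h2 => by
      obtain ⟨X, Z, hXZ, h3, h4⟩ := OnY_hom m g d 1 ![u, 1] h2
      apply (hex X Z hXZ h3).2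
      have h5 : algebraMap K (AlgebraicClosure K) u * Z 1 =
        algebraMap K (AlgebraicClosure K) 1 * X 1 := h4
      rw [map_one, one_mul] at h5
      exact h5)
  have h9 : ∀ k, evl ![![x, 1], ![u, 1]] (hom (g k) d) = eval ![x, u] (g k) := by
    intro k
    have e : (![![x, 1], ![u, 1]] : Fin 2 → Fin 2 → K) = fun b => ![![x, u] b, 1] := by
      funext b
      fin_cases b <;> rfl
    rw [e, evl_hom_one]
    exact DFunLike.congr_fun (MvPolynomial.coe_aeval_eq_eval _) _
  simp only [h7, h9, ← logHeight₁_eq_logHeight] at h8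
  have h11 : cS ((fun v : NumberField.FinitePlace K => v.val) ''
      (S : Set (NumberField.FinitePlace K))) u =
      ∑ᶠ v : NumberField.FinitePlace K, if v ∈ S then 0 else |Real.log (v u)| := by
    have key : ∀ v : NumberField.FinitePlace K,
        (if v.val ∈ ((fun v : NumberField.FinitePlace K => v.val) ''
          (S : Set (NumberField.FinitePlace K))) then (0 : ℝ) else |Real.log (v.val u)|) =
        if v ∈ S then 0 else |Real.log (v u)| := by
      intro v
      have h12 : v.val ∈ ((fun v : NumberField.FinitePlace K => v.val) ''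
          (S : Set (NumberField.FinitePlace K))) ↔ v ∈ S := by
        constructor
        · rintro ⟨w, hw, hwv⟩
          have : w = v := Subtype.ext hwv
          rw [← this]
          exact hw
        · exact fun hv => ⟨v, hv, rfl⟩
      by_cases hv : v ∈ S
      · rw [if_pos (h12.2 hv), if_pos hv]
      · rw [if_neg (fun h => hv (h12.1 h)), if_neg hv]
        rfl
    exact finsum_congr key
  rw [h11] at h8
  exact h8

end Pool.Agent.Lib.MP_17a322_nt.VS
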